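import Mathlib

set_option autoImplicit false
open Filter Topology

namespace Pool.Agent.W693.G

/-- an unconditional and democratic system (in the form used below) -/
structure UD (𝕜 ι X : Type) [RCLike 𝕜] [NormedAddCommGroup X] [NormedSpace 𝕜 X] where
  e : ι → X
  f : ι → X →L[𝕜] 𝕜
  bi : ∀ i j, i ≠ j → f i (e j) = 0
  bi1 : ∀ i, f i (e i) = 1
  total : ∀ x, (∀ i, f i x = 0) → x = 0
  null : ∀ x, ∀ s : ℝ, 0 < s → {i | s ≤ ‖f i x‖}.Finite
  K : ℝ
  hK : 1 ≤ K
  mult : ∀ (x : X) (w : ι → 𝕜), (∀ i, ‖w i‖ ≤ ‖f i x‖) → ∃ z : X, (∀ i, f i z = w i) ∧ ‖z‖ ≤ K * ‖x‖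
  dem : ∀ A B : Finset ι, B.card ≤ A.card → ‖∑ i ∈ B, e i‖ ≤ K * ‖∑ i ∈ A, e i‖

namespace UD

variable {𝕜 ι X : Type} [RCLike 𝕜] [NormedAddCommGroup X] [NormedSpace 𝕜 X] (u : UD 𝕜 ι X)

theorem ext' {x y : X} (h : ∀ i, u.f i x = u.f i y) : x = y := by
  have := u.total (x - y) (fun i => by rw [map_sub, h, sub_self])
  exact sub_eq_zero.1 this

/-- solidity of the norm up to the constant -/
theorem solid {x z : X} (h : ∀ i, ‖u.f i z‖ ≤ ‖u.f i x‖) : ‖z‖ ≤ u.K * ‖x‖ := by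
  obtain ⟨z', h1, h2⟩ := u.mult x (fun i => u.f i z) h
  rwa [u.ext' h1] at h2

open Classical in
theorem f_sum (A : Finset ι) (c : ι → 𝕜) (i : ι) :
    u.f i (∑ j ∈ A, c j • u.e j) = if i ∈ A then c i else 0 := by
  rw [map_sum]
  have h : ∀ j ∈ A, u.f i (c j • u.e j) = if i = j then c j else 0 := by
    intro j _
    rw [map_smul, smul_eq_mul]
    by_cases hij : i = j
    · subst hij; rw [u.bi1, mul_one, if_pos rfl]
    · rw [u.bi _ _ hij, mul_zero, if_neg hij]
  rw [Finset.sum_congr rfl h, Finset.sum_ite_eq]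

/-- the number of coordinates at least `s` -/
noncomputable def cnt (s : ℝ) (x : X) : ℕ := {i | s ≤ ‖u.f i x‖}.ncard

/-- the set of vectors attached to `x` -/
def D (x : X) : Set X :=
  {z | ∃ s : ℝ, 0 < s ∧ ∃ B : Finset ι, B.card ≤ u.cnt s x ∧ (∀ i ∈ B, ‖u.f i z‖ ≤ s) ∧
    ∀ i, i ∉ B → ‖u.f i z‖ ≤ ‖u.f i x‖ ∧ (‖u.f i x‖ < s ∨ u.f i z = 0)}

/-- flat vectors supported by `B` with height at most `s` -/
theorem flat_le (s : ℝ) (hs : 0 ≤ s) (z : X) (B G : Finset ι) (hB : B.card ≤ G.card)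
    (hz : ∀ i ∈ B, ‖u.f i z‖ ≤ s) (hz0 : ∀ i, i ∉ B → u.f i z = 0) :
    ‖z‖ ≤ u.K ^ 2 * (s * ‖∑ i ∈ G, u.e i‖) := by
  classical
  have hK := u.hK
  have h1 : ‖z‖ ≤ u.K * ‖∑ i ∈ B, (s : 𝕜) • u.e i‖ := by
    apply u.solid
    intro i
    rw [u.f_sum B (fun _ => (s : 𝕜)) i]
    by_cases hi : i ∈ B
    · rw [if_pos hi, RCLike.norm_ofReal, abs_of_nonneg hs]
      exact hz i hi
    · rw [if_neg hi, hz0 i hi]
  have h2 : ‖∑ i ∈ B, (s : 𝕜) • u.e i‖ = s * ‖∑ i ∈ B, u.e i‖ := by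
    rw [← Finset.smul_sum, norm_smul, RCLike.norm_ofReal, abs_of_nonneg hs]
  have h3 := u.dem G B hB
  calc ‖z‖ ≤ u.K * (s * ‖∑ i ∈ B, u.e i‖) := by rw [← h2]; exact h1
    _ ≤ u.K * (s * (u.K * ‖∑ i ∈ G, u.e i‖)) := by gcongr
    _ = u.K ^ 2 * (s * ‖∑ i ∈ G, u.e i‖) := by ring

/-- a set of large coordinates -/
theorem large_le (s : ℝ) (hs : 0 ≤ s) (x : X) (G : Finset ι) (hG : ∀ i ∈ G, s ≤ ‖u.f i x‖) :
    s * ‖∑ i ∈ G, u.e i‖ ≤ u.K * ‖x‖ := by
  classical
  have h2 : ‖∑ i ∈ G, (s : 𝕜) • u.e i‖ = s * ‖∑ i ∈ G, u.e i‖ := by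
    rw [← Finset.smul_sum, norm_smul, RCLike.norm_ofReal, abs_of_nonneg hs]
  rw [← h2]
  apply u.solid
  intro i
  rw [u.f_sum G (fun _ => (s : 𝕜)) i]
  by_cases hi : i ∈ G
  · rw [if_pos hi, RCLike.norm_ofReal, abs_of_nonneg hs]
    exact hG i hi
  · rw [if_neg hi, norm_zero]
    exact norm_nonneg _

theorem cnt_le_card (s : ℝ) (x : X) (G : Finset ι) (hG : ∀ i, s ≤ ‖u.f i x‖ → i ∈ G) :
    u.cnt s x ≤ G.card := by
  rw [cnt, ← Set.ncard_coe_finset]
  exact Set.ncard_le_ncard (fun i hi => hG i hi) G.finite_toSet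

theorem card_le_cnt (s : ℝ) (hs : 0 < s) (x : X) (G : Finset ι) (hG : ∀ i ∈ G, s ≤ ‖u.f i x‖) :
    G.card ≤ u.cnt s x := by
  rw [cnt, ← Set.ncard_coe_finset]
  exact Set.ncard_le_ncard (fun i hi => hG i hi) (u.null x s hs)

/-- the finite set of coordinates at least `s` -/
noncomputable def big (s : ℝ) (hs : 0 < s) (x : X) : Finset ι := (u.null x s hs).toFinset

theorem mem_big (s : ℝ) (hs : 0 < s) (x : X) (i : ι) : i ∈ u.big s hs x ↔ s ≤ ‖u.f i x‖ := by
  rw [big, Set.Finite.mem_toFinset]; rfl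

theorem cnt_eq (s : ℝ) (hs : 0 < s) (x : X) : u.cnt s x = (u.big s hs x).card :=
  le_antisymm (u.cnt_le_card s x _ fun i hi => (u.mem_big s hs x i).2 hi)
    (u.card_le_cnt s hs x _ fun i hi => (u.mem_big s hs x i).1 hi)

theorem D_bound {x z : X} (hz : z ∈ u.D x) : ‖z‖ ≤ (u.K + u.K ^ 3) * ‖x‖ := by
  classical
  obtain ⟨s, hs, B, hB, h1, h2⟩ := hz
  have hK := u.hK
  -- split `z`
  set z1 : X := ∑ i ∈ B, u.f i z • u.e i with hz1
  have e1 : ∀ i, u.f i z1 = if i ∈ B then u.f i z else 0 := fun i => u.f_sum B (fun i => u.f i z) i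
  have e2 : ∀ i, u.f i (z - z1) = if i ∈ B then 0 else u.f i z := by
    intro i
    rw [map_sub, e1]
    split_ifs <;> simp
  have h3 : ‖z1‖ ≤ u.K ^ 2 * (s * ‖∑ i ∈ u.big s hs x, u.e i‖) := by
    apply u.flat_le s hs.le z1 B
    · rw [← u.cnt_eq s hs x]; exact hB
    · intro i hi
      rw [e1, if_pos hi]; exact h1 i hi
    · intro i hi
      rw [e1, if_neg hi]
  have h4 := u.large_le s hs.le x (u.big s hs x) (fun i hi => (u.mem_big s hs x i).1 hi)
  have h5 : ‖z - z1‖ ≤ u.K * ‖x‖ := by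
    apply u.solid
    intro i
    rw [e2]
    by_cases hi : i ∈ B
    · rw [if_pos hi, norm_zero]; exact norm_nonneg _
    · rw [if_neg hi]; exact (h2 i hi).1
  calc ‖z‖ = ‖(z - z1) + z1‖ := by rw [sub_add_cancel]
    _ ≤ ‖z - z1‖ + ‖z1‖ := norm_add_le _ _
    _ ≤ u.K * ‖x‖ + u.K ^ 2 * (u.K * ‖x‖) := by
        refine add_le_add h5 (h3.trans ?_)
        gcongr
    _ = (u.K + u.K ^ 3) * ‖x‖ := by ring

theorem zero_mem_D (x : X) : (0 : X) ∈ u.D x :=
  ⟨1, one_pos, ∅, by simp, by simp, fun i _ => by simp⟩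

theorem self_mem_D (x : X) : x ∈ u.D x := by
  classical
  -- a bound for the coordinates
  obtain ⟨M, hM⟩ : ∃ M : ℝ, 0 < M ∧ ∀ i, ‖u.f i x‖ < M := by
    refine ⟨1 + ∑ i ∈ u.big 1 one_pos x, ‖u.f i x‖,
      add_pos_of_pos_of_nonneg one_pos (Finset.sum_nonneg fun _ _ => norm_nonneg _), fun i => ?_⟩
    by_cases hi : i ∈ u.big 1 one_pos x
    · have := Finset.single_le_sum (f := fun i => ‖u.f i x‖) (fun i _ => norm_nonneg _) hi
      linarith
    · rw [mem_big, not_le] at hi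
      have : 0 ≤ ∑ i ∈ u.big 1 one_pos x, ‖u.f i x‖ := Finset.sum_nonneg fun _ _ => norm_nonneg _
      linarith
  exact ⟨M, hM.1, ∅, by simp, by simp, fun i _ => ⟨le_rfl, Or.inl (hM.2 i)⟩⟩

/-- the new (quasi-)norm -/
noncomputable def N (x : X) : ℝ := sSup ((fun z => ‖z‖) '' u.D x)

theorem bdd (x : X) : BddAbove ((fun z => ‖z‖) '' u.D x) := by
  refine ⟨(u.K + u.K ^ 3) * ‖x‖, ?_⟩
  rintro _ ⟨z, hz, rfl⟩
  exact u.D_bound hz

theorem le_N {x z : X} (hz : z ∈ u.D x) : ‖z‖ ≤ u.N x := le_csSup (u.bdd x) ⟨z, hz, rfl⟩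

theorem N_le {x : X} {c : ℝ} (h : ∀ z ∈ u.D x, ‖z‖ ≤ c) : u.N x ≤ c := by
  have hne : ((fun z => ‖z‖) '' u.D x).Nonempty := ⟨_, ⟨0, u.zero_mem_D x, rfl⟩⟩
  refine csSup_le hne ?_
  rintro _ ⟨z, hz, rfl⟩
  exact h z hz

theorem norm_le_N (x : X) : ‖x‖ ≤ u.N x := u.le_N (u.self_mem_D x)

theorem N_le_norm (x : X) : u.N x ≤ (u.K + u.K ^ 3) * ‖x‖ := u.N_le fun _ hz => u.D_bound hz

theorem N_nonneg (x : X) : 0 ≤ u.N x := (norm_nonneg x).trans (u.norm_le_N x)

theorem D_smul {c : 𝕜} (hc : c ≠ 0) {x z : X} (hz : z ∈ u.D x) : c • z ∈ u.D (c • x) := by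
  obtain ⟨s, hs, B, hB, h1, h2⟩ := hz
  have hc' : 0 < ‖c‖ := norm_pos_iff.2 hc
  refine ⟨‖c‖ * s, by positivity, B, ?_, fun i hi => ?_, fun i hi => ⟨?_, ?_⟩⟩
  · have : u.cnt (‖c‖ * s) (c • x) = u.cnt s x := by
      rw [cnt, cnt]
      congr 1
      ext i
      simp only [Set.mem_ofPred_eq, map_smul, norm_smul]
      exact mul_le_mul_iff_right₀ hc'
    rw [this]; exact hB
  · rw [map_smul, norm_smul]
    exact mul_le_mul_of_nonneg_left (h1 i hi) hc'.le
  · rw [map_smul, map_smul, norm_smul, norm_smul]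
    exact mul_le_mul_of_nonneg_left (h2 i hi).1 hc'.le
  · rcases (h2 i hi).2 with h | h
    · left
      rw [map_smul, norm_smul]
      exact mul_lt_mul_of_pos_left h hc'
    · right
      rw [map_smul, h, smul_zero]

theorem N_smul (c : 𝕜) (x : X) : u.N (c • x) = ‖c‖ * u.N x := by
  by_cases hc : c = 0
  · subst hc
    have h1 := u.N_le_norm (0 : X)
    have h2 := u.N_nonneg (0 : X)
    rw [norm_zero, mul_zero] at h1
    rw [zero_smul, norm_zero, zero_mul]
    linarith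
  · have hc' : 0 < ‖c‖ := norm_pos_iff.2 hc
    apply le_antisymm
    · apply u.N_le
      intro z hz
      have h1 : c⁻¹ • z ∈ u.D x := by
        have := u.D_smul (inv_ne_zero hc) hz
        rwa [smul_smul, inv_mul_cancel₀ hc, one_smul] at this
      have h2 := u.le_N h1
      rw [norm_smul, norm_inv] at h2
      rw [inv_mul_le_iff₀ hc'] at h2
      exact h2
    · have h1 : u.N x ≤ ‖c‖⁻¹ * u.N (c • x) := by
        apply u.N_le
        intro z hz
        have h2 := u.le_N (u.D_smul hc hz)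
        rw [norm_smul] at h2
        rw [← div_eq_inv_mul, le_div_iff₀ hc', mul_comm]
        exact h2
      rw [← div_eq_inv_mul, le_div_iff₀ hc'] at h1
      linarith

/-- the heart of the matter: the inclusion between the sets `D` -/
theorem D_greedy (x : X) (A B : Finset ι) (b : ι → 𝕜)
    (hA : ∀ i ∈ A, ∀ j, j ∉ A → ‖u.f j x‖ ≤ ‖u.f i x‖) (hBA : B.card ≤ A.card)
    (z : X) (hz : z ∈ u.D (x - ∑ i ∈ A, u.f i x • u.e i)) (hz0 : z ≠ 0) :
    z ∈ u.D (x - ∑ i ∈ B, b i • u.e i) := by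
  classical
  set v := x - ∑ i ∈ A, u.f i x • u.e i with hv
  set w := x - ∑ i ∈ B, b i • u.e i with hw
  have ev : ∀ i, u.f i v = if i ∈ A then 0 else u.f i x := by
    intro i
    rw [hv, map_sub, u.f_sum A (fun i => u.f i x) i]
    split_ifs <;> simp
  have ew : ∀ i, i ∉ B → u.f i w = u.f i x := by
    intro i hi
    rw [hw, map_sub, u.f_sum B b i, if_neg hi, sub_zero]
  have hcard : (B \ A).card ≤ (A \ B).card := by
    have h1 := Finset.card_sdiff_add_card_inter A B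
    have h2 := Finset.card_sdiff_add_card_inter B A
    rw [Finset.inter_comm] at h2
    omega
  -- general construction for a height `s`
  have key : ∀ s : ℝ, 0 < s → (∀ i ∈ A, s ≤ ‖u.f i x‖) →
      ∀ C : Finset ι, C.card ≤ u.cnt s v → (∀ i ∈ C, ‖u.f i z‖ ≤ s) →
      (∀ i, i ∉ C → ‖u.f i z‖ ≤ ‖u.f i v‖ ∧ (‖u.f i v‖ < s ∨ u.f i z = 0)) → z ∈ u.D w := by
    intro s hs hsA C hC h1 h2
    refine ⟨s, hs, C ∪ (B \ A).filter (fun i => ‖u.f i x‖ < s), ?_, ?_, ?_⟩
    · -- cardinality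
      set G1 := (u.big s hs v) \ B with hG1
      set G2 := (B \ A).filter (fun i => ¬ ‖u.f i x‖ < s) with hG2
      have c1 : u.cnt s v ≤ G1.card + G2.card := by
        refine (u.cnt_le_card s v (G1 ∪ G2) ?_).trans (Finset.card_union_le _ _)
        intro i hi
        rw [Finset.mem_union, hG1, hG2, Finset.mem_sdiff, Finset.mem_filter, Finset.mem_sdiff,
          mem_big]
        have hiA : i ∉ A := by
          intro hiA
          rw [ev, if_pos hiA, norm_zero] at hi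
          linarith
        by_cases hiB : i ∈ B
        · right
          rw [ev, if_neg hiA] at hi
          exact ⟨⟨hiB, hiA⟩, not_lt.2 hi⟩
        · left
          exact ⟨hi, hiB⟩
      have c2 : G1.card + (A \ B).card ≤ u.cnt s w := by
        have hdis : Disjoint G1 (A \ B) := by
          rw [Finset.disjoint_left]
          intro i hi hi'
          rw [hG1, Finset.mem_sdiff, mem_big, ev, if_pos (Finset.mem_sdiff.1 hi').1,
            norm_zero] at hi
          linarith [hi.1]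
        rw [← Finset.card_union_of_disjoint hdis]
        apply u.card_le_cnt s hs
        intro i hi
        rw [Finset.mem_union] at hi
        rcases hi with hi | hi
        · rw [hG1, Finset.mem_sdiff, mem_big] at hi
          rw [ew i hi.2]
          have hiA : i ∉ A := by
            intro hiA
            have := hi.1
            rw [ev, if_pos hiA, norm_zero] at this
            linarith
          have := hi.1
          rwa [ev, if_neg hiA] at this
        · rw [Finset.mem_sdiff] at hi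
          rw [ew i hi.2]
          exact hsA i hi.1
      have c3 : ((B \ A).filter (fun i => ‖u.f i x‖ < s)).card + G2.card = (B \ A).card :=
        Finset.card_filter_add_card_filter_not (s := B \ A) (fun i => ‖u.f i x‖ < s)
      have c4 := Finset.card_union_le C ((B \ A).filter (fun i => ‖u.f i x‖ < s))
      omega
    · intro i hi
      rw [Finset.mem_union, Finset.mem_filter, Finset.mem_sdiff] at hi
      by_cases hiC : i ∈ C
      · exact h1 i hiC
      · rcases hi with hi | hi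
        · exact absurd hi hiC
        · have := (h2 i hiC).1
          rw [ev, if_neg hi.1.2] at this
          exact this.trans hi.2.le
    · intro i hi
      rw [Finset.mem_union, Finset.mem_filter, Finset.mem_sdiff, not_or] at hi
      obtain ⟨hiC, hi2⟩ := hi
      have h3 := h2 i hiC
      by_cases hiA : i ∈ A
      · have h4 : u.f i z = 0 := by
          have := h3.1
          rw [ev, if_pos hiA, norm_zero] at this
          exact norm_le_zero_iff.1 this
        rw [h4]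
        exact ⟨by rw [norm_zero]; exact norm_nonneg _, Or.inr rfl⟩
      · rw [ev, if_neg hiA] at h3
        by_cases hiB : i ∈ B
        · have h5 : ¬ ‖u.f i x‖ < s := fun h => hi2 ⟨⟨hiB, hiA⟩, h⟩
          rcases h3.2 with h | h
          · exact absurd h h5
          · rw [h]
            exact ⟨by rw [norm_zero]; exact norm_nonneg _, Or.inr rfl⟩
        · rw [ew i hiB]
          exact h3
  obtain ⟨s, hs, C, hC, h1, h2⟩ := hz
  by_cases hsA : ∀ i ∈ A, s ≤ ‖u.f i x‖
  · exact key s hs hsA C hC h1 h2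
  · -- now `s` exceeds all coordinates of `v`
    push Not at hsA
    obtain ⟨i0, hi0, hi0s⟩ := hsA
    obtain ⟨i1, hi1, hmin⟩ := Finset.exists_min_image A (fun i => ‖u.f i x‖) ⟨i0, hi0⟩
    set t := ‖u.f i1 x‖ with ht
    have hts : t < s := (hmin i0 hi0).trans_lt hi0s
    have hvt : ∀ i, ‖u.f i v‖ ≤ t := by
      intro i
      rw [ev]
      split_ifs with hi
      · rw [norm_zero]; exact norm_nonneg _
      · exact hA i1 hi1 i hi
    have hC0 : C = ∅ := by
      have : u.cnt s v ≤ (∅ : Finset ι).card := by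
        apply u.cnt_le_card
        intro i hi
        have := hvt i
        linarith
      rw [Finset.card_empty] at this
      exact Finset.card_eq_zero.1 (by omega)
    subst hC0
    have hzv : ∀ i, ‖u.f i z‖ ≤ ‖u.f i v‖ := fun i => (h2 i (by simp)).1
    have ht0 : 0 < t := by
      by_contra hcon
      apply hz0
      apply u.total
      intro i
      have h5 := hzv i
      have h6 := hvt i
      exact norm_le_zero_iff.1 (by linarith)
    refine key t ht0 (fun i hi => hmin i hi) (u.big t ht0 v) (u.cnt_eq t ht0 v).ge ?_ ?_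
    · intro i _
      exact (hzv i).trans (hvt i)
    · intro i hi
      rw [mem_big, not_le] at hi
      exact ⟨hzv i, Or.inl hi⟩

theorem N_greedy (x : X) (A B : Finset ι) (b : ι → 𝕜)
    (hA : ∀ i ∈ A, ∀ j, j ∉ A → ‖u.f j x‖ ≤ ‖u.f i x‖) (hBA : B.card ≤ A.card) :
    u.N (x - ∑ i ∈ A, u.f i x • u.e i) ≤ u.N (x - ∑ i ∈ B, b i • u.e i) := by
  apply u.N_le
  intro z hz
  by_cases hz0 : z = 0
  · rw [hz0, norm_zero]; exact u.N_nonneg _
  · exact u.le_N (u.D_greedy x A B b hA hBA z hz hz0)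

end UD

end Pool.Agent.W693.G
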