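import Mathlib
import Pool.Agent.W693.GA

set_option autoImplicit false
open Filter Topology

namespace Pool.Agent.W693.G
namespace UD

variable {𝕜 ι X : Type} [RCLike 𝕜] [NormedAddCommGroup X] [NormedSpace 𝕜 X] (u : UD 𝕜 ι X)

theorem D_coord_le {x z : X} {s : ℝ} (hs : 0 < s) {B : Finset ι} (h1 : ∀ i ∈ B, ‖u.f i z‖ ≤ s)
    (h2 : ∀ i, i ∉ B → ‖u.f i z‖ ≤ ‖u.f i x‖ ∧ (‖u.f i x‖ < s ∨ u.f i z = 0)) (i : ι) :
    ‖u.f i z‖ ≤ s := by
  by_cases hi : i ∈ B
  · exact h1 i hi
  · rcases (h2 i hi).2 with h | h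
    · exact (h2 i hi).1.trans h.le
    · rw [h, norm_zero]; exact hs.le

/-- the quasi-norm is Hoelder continuous -/
theorem N_add_le (x g : X) (η : ℝ) (hη : 0 < η) (hη1 : η < 1) :
    u.N (x + g) ≤ (1 - η)⁻¹ * u.N x + 3 * u.K ^ 3 * ‖g‖ / η := by
  classical
  apply u.N_le
  rintro z ⟨s, hs, B, hB, h1, h2⟩
  have hK := u.hK
  have hη' : 0 < 1 - η := by linarith
  have hηs : 0 < η * s := by positivity
  have hs1 : 0 < (1 - η) * s := by positivity
  have hzs : ∀ i, ‖u.f i z‖ ≤ s := u.D_coord_le hs h1 h2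
  set E := u.big (η * s) hηs g with hE
  set L := u.big ((1 - η) * s) hs1 x with hL
  set Fl := L.filter (fun i => ‖u.f i (x + g)‖ < s) with hFl
  set U := (B ∪ Fl) \ E with hU
  -- cardinality of `U`
  have hUc : U.card ≤ E.card + L.card := by
    set G := u.big s hs (x + g) with hG
    have c1 : B.card ≤ G.card := by rw [← u.cnt_eq s hs (x + g)]; exact hB
    have c2 : G.card ≤ (G \ E).card + E.card := by
      have := Finset.card_le_card (Finset.subset_union_left (s₁ := G) (s₂ := E))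
      rw [← Finset.sdiff_union_self_eq_union] at this
      exact this.trans (Finset.card_union_le _ _)
    have c3 : (G \ E).card + (Fl \ E).card ≤ L.card := by
      have hdis : Disjoint (G \ E) (Fl \ E) := by
        rw [Finset.disjoint_left]
        intro i hi hi'
        rw [Finset.mem_sdiff, hG, mem_big] at hi
        rw [Finset.mem_sdiff, hFl, Finset.mem_filter] at hi'
        linarith [hi.1, hi'.1.2]
      rw [← Finset.card_union_of_disjoint hdis]
      apply Finset.card_le_card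
      intro i hi
      rw [Finset.mem_union, Finset.mem_sdiff, Finset.mem_sdiff] at hi
      rcases hi with hi | hi
      · rw [hL, mem_big]
        have a1 := hi.1
        have a2 := hi.2
        rw [hG, mem_big, map_add] at a1
        rw [hE, mem_big, not_le] at a2
        have a3 := norm_add_le (u.f i x) (u.f i g)
        linarith
      · exact (Finset.mem_filter.1 hi.1).1
    have c4 : U.card ≤ B.card + (Fl \ E).card := by
      have : U ⊆ B ∪ (Fl \ E) := by
        intro i hi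
        rw [hU, Finset.mem_sdiff, Finset.mem_union] at hi
        rw [Finset.mem_union, Finset.mem_sdiff]
        rcases hi.1 with h | h
        · exact Or.inl h
        · exact Or.inr ⟨h, hi.2⟩
      exact (Finset.card_le_card this).trans (Finset.card_union_le _ _)
    omega
  obtain ⟨B1, hB1U, hB1c⟩ := Finset.exists_subset_card_eq (s := U) (n := min U.card L.card)
    (min_le_left _ _)
  have hB1L : B1.card ≤ L.card := hB1c.le.trans (min_le_right _ _)
  have hUB : (U \ B1).card ≤ E.card := by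
    rw [Finset.card_sdiff_of_subset hB1U, hB1c]
    omega
  -- pieces of `z`
  set zE : X := ∑ i ∈ E, u.f i z • u.e i with hzE
  set z2 : X := ∑ i ∈ U \ B1, u.f i z • u.e i with hz2
  have eE : ∀ i, u.f i zE = if i ∈ E then u.f i z else 0 := fun i =>
    u.f_sum E (fun i => u.f i z) i
  have e2 : ∀ i, u.f i z2 = if i ∈ U \ B1 then u.f i z else 0 := fun i =>
    u.f_sum (U \ B1) (fun i => u.f i z) i
  have hsE : s * ‖∑ i ∈ E, u.e i‖ ≤ u.K * ‖g‖ / η := by
    have := u.large_le (η * s) hηs.le g E (fun i hi => (u.mem_big _ _ _ _).1 hi)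
    rw [le_div_iff₀ hη]
    calc s * ‖∑ i ∈ E, u.e i‖ * η = η * s * ‖∑ i ∈ E, u.e i‖ := by ring
      _ ≤ u.K * ‖g‖ := this
  have hK2 : (0 : ℝ) ≤ u.K ^ 2 := by positivity
  have bE : ‖zE‖ ≤ u.K ^ 3 * ‖g‖ / η := by
    have := u.flat_le s hs.le zE E E le_rfl (fun i hi => by rw [eE, if_pos hi]; exact hzs i)
      (fun i hi => by rw [eE, if_neg hi])
    calc ‖zE‖ ≤ u.K ^ 2 * (s * ‖∑ i ∈ E, u.e i‖) := this
      _ ≤ u.K ^ 2 * (u.K * ‖g‖ / η) := mul_le_mul_of_nonneg_left hsE hK2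
      _ = u.K ^ 3 * ‖g‖ / η := by ring
  have b2 : ‖z2‖ ≤ u.K ^ 3 * ‖g‖ / η := by
    have := u.flat_le s hs.le z2 (U \ B1) E hUB (fun i hi => by rw [e2, if_pos hi]; exact hzs i)
      (fun i hi => by rw [e2, if_neg hi])
    calc ‖z2‖ ≤ u.K ^ 2 * (s * ‖∑ i ∈ E, u.e i‖) := this
      _ ≤ u.K ^ 2 * (u.K * ‖g‖ / η) := mul_le_mul_of_nonneg_left hsE hK2
      _ = u.K ^ 3 * ‖g‖ / η := by ring
  -- the part dominated by `g`
  set rc : ι → 𝕜 := fun i => if i ∈ E ∪ U then 0 else
    ((‖u.f i g‖ / (‖u.f i x‖ + ‖u.f i g‖) : ℝ) : 𝕜) * u.f i z with hrc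
  have hout : ∀ i, i ∉ E ∪ U → ‖u.f i z‖ ≤ ‖u.f i x‖ + ‖u.f i g‖ ∧
      (‖u.f i x‖ < (1 - η) * s ∨ u.f i z = 0) := by
    intro i hi
    rw [Finset.mem_union, not_or] at hi
    have hiB : i ∉ B := fun h => hi.2 (by
      rw [hU, Finset.mem_sdiff, Finset.mem_union]; exact ⟨Or.inl h, hi.1⟩)
    have hiF : i ∉ Fl := fun h => hi.2 (by
      rw [hU, Finset.mem_sdiff, Finset.mem_union]; exact ⟨Or.inr h, hi.1⟩)
    have h3 := h2 i hiB
    refine ⟨h3.1.trans (by rw [map_add]; exact norm_add_le _ _), ?_⟩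
    rcases h3.2 with h | h
    · left
      by_contra hcon
      apply hiF
      rw [hFl, Finset.mem_filter, hL, mem_big]
      exact ⟨not_lt.1 hcon, h⟩
    · exact Or.inr h
  have hrg : ∀ i, ‖rc i‖ ≤ ‖u.f i g‖ := by
    intro i
    rw [hrc]
    simp only
    split_ifs with hi
    · rw [norm_zero]; exact norm_nonneg _
    · have h3 := (hout i hi).1
      have n1 := norm_nonneg (u.f i x)
      have n2 := norm_nonneg (u.f i g)
      rw [norm_mul, RCLike.norm_ofReal, abs_of_nonneg (by positivity)]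
      rcases (add_nonneg n1 n2).eq_or_lt with h0 | h0
      · rw [← h0, div_zero, zero_mul]; exact n2
      · rw [div_mul_eq_mul_div, div_le_iff₀ h0]
        exact mul_le_mul_of_nonneg_left h3 n2
  obtain ⟨r, hr1, hr2⟩ := u.mult g rc hrg
  -- the main part
  set w : X := z - zE - z2 - r with hw
  have ew : ∀ i, u.f i w = if i ∈ B1 then u.f i z else if i ∈ E ∪ U then 0 else
      ((‖u.f i x‖ / (‖u.f i x‖ + ‖u.f i g‖) : ℝ) : 𝕜) * u.f i z := by
    intro i
    rw [hw, map_sub, map_sub, map_sub, eE, e2, hr1, hrc]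
    simp only
    by_cases hi1 : i ∈ B1
    · have hiU := hB1U hi1
      have hiE : i ∉ E := (Finset.mem_sdiff.1 hiU).2
      rw [if_pos hi1, if_neg hiE, if_neg (fun h => (Finset.mem_sdiff.1 h).2 hi1),
        if_pos (Finset.mem_union_right _ hiU)]
      simp
    · rw [if_neg hi1]
      by_cases hiE : i ∈ E
      · have hiU : i ∉ U := fun h => (Finset.mem_sdiff.1 h).2 hiE
        rw [if_pos hiE, if_neg (fun h => hiU (Finset.mem_sdiff.1 h).1),
          if_pos (Finset.mem_union_left _ hiE), if_pos (Finset.mem_union_left _ hiE)]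
        simp
      · by_cases hiU : i ∈ U
        · rw [if_neg hiE, if_pos (Finset.mem_sdiff.2 ⟨hiU, hi1⟩),
            if_pos (Finset.mem_union_right _ hiU), if_pos (Finset.mem_union_right _ hiU)]
          simp
        · have hEU : i ∉ E ∪ U := by rw [Finset.mem_union, not_or]; exact ⟨hiE, hiU⟩
          rw [if_neg hiE, if_neg (fun h => hiU (Finset.mem_sdiff.1 h).1), if_neg hEU, if_neg hEU]
          have n1 := norm_nonneg (u.f i x)
          have n2 := norm_nonneg (u.f i g)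
          rcases (add_nonneg n1 n2).eq_or_lt with h0 | h0
          · have h3 := (hout i hEU).1
            rw [← h0] at h3
            have h4 : u.f i z = 0 := norm_le_zero_iff.1 h3
            rw [h4]; simp
          · have h5 : (‖u.f i x‖ / (‖u.f i x‖ + ‖u.f i g‖) : ℝ) =
                1 - ‖u.f i g‖ / (‖u.f i x‖ + ‖u.f i g‖) := by
              field_simp
              ring
            rw [h5]
            push_cast
            ring
  have hwD : ((1 - η : ℝ) : 𝕜) • w ∈ u.D x := by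
    refine ⟨(1 - η) * s, hs1, B1, ?_, ?_, ?_⟩
    · rw [u.cnt_eq _ hs1 x]; exact hB1L
    · intro i hi
      rw [map_smul, norm_smul, RCLike.norm_ofReal, abs_of_nonneg hη'.le, ew, if_pos hi]
      exact mul_le_mul_of_nonneg_left (hzs i) hη'.le
    · intro i hi
      rw [map_smul, norm_smul, RCLike.norm_ofReal, abs_of_nonneg hη'.le, ew, if_neg hi]
      split_ifs with hEU
      · rw [norm_zero, mul_zero, smul_zero]
        exact ⟨norm_nonneg _, Or.inr rfl⟩
      · have h3 := hout i hEU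
        have n1 := norm_nonneg (u.f i x)
        have n2 := norm_nonneg (u.f i g)
        refine ⟨?_, ?_⟩
        · rw [norm_mul, RCLike.norm_ofReal, abs_of_nonneg (by positivity)]
          have h4 : ‖u.f i x‖ / (‖u.f i x‖ + ‖u.f i g‖) * ‖u.f i z‖ ≤ ‖u.f i x‖ := by
            rcases (add_nonneg n1 n2).eq_or_lt with h0 | h0
            · rw [← h0, div_zero, zero_mul]; exact n1
            · rw [div_mul_eq_mul_div, div_le_iff₀ h0]
              exact mul_le_mul_of_nonneg_left h3.1 n1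
          have h5 : 0 ≤ ‖u.f i x‖ / (‖u.f i x‖ + ‖u.f i g‖) * ‖u.f i z‖ := by positivity
          nlinarith
        · rcases h3.2 with h | h
          · exact Or.inl h
          · right; rw [h]; simp
  have hwn : ‖w‖ ≤ (1 - η)⁻¹ * u.N x := by
    have := u.le_N hwD
    rw [norm_smul, RCLike.norm_ofReal, abs_of_nonneg hη'.le] at this
    rw [← div_eq_inv_mul, le_div_iff₀ hη', mul_comm]
    exact this
  have hrn : ‖r‖ ≤ u.K ^ 3 * ‖g‖ / η := by
    refine hr2.trans ?_
    rw [le_div_iff₀ hη]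
    have n2 := norm_nonneg g
    have h6 : u.K ≤ u.K ^ 3 := by nlinarith [mul_self_nonneg u.K]
    have h7 : 0 ≤ u.K * ‖g‖ := by positivity
    nlinarith
  have hzw : z = w + zE + z2 + r := by rw [hw]; abel
  calc ‖z‖ = ‖w + zE + z2 + r‖ := by rw [← hzw]
    _ ≤ ‖w‖ + ‖zE‖ + ‖z2‖ + ‖r‖ := norm_add₄_le
    _ ≤ (1 - η)⁻¹ * u.N x + u.K ^ 3 * ‖g‖ / η + u.K ^ 3 * ‖g‖ / η + u.K ^ 3 * ‖g‖ / η := by
        gcongr
    _ = (1 - η)⁻¹ * u.N x + 3 * u.K ^ 3 * ‖g‖ / η := by ring

/-- the constant -/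
noncomputable def C1 : ℝ := 1 + 6 * u.K ^ 3

/-- the exponent -/
noncomputable def sig : ℝ := 1 / (u.C1 + 2)

theorem C1_pos : 0 < u.C1 := by
  have := u.hK
  unfold C1; positivity

theorem sig_pos : 0 < u.sig := by
  have := u.C1_pos
  unfold sig; positivity

theorem sig_lt : u.sig < 1 := by
  have := u.C1_pos
  unfold sig
  rw [div_lt_one (by linarith)]
  linarith

theorem sig_le_half : u.sig ≤ 1 / 2 := by
  have := u.C1_pos
  unfold sig
  apply one_div_le_one_div_of_le (by norm_num)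
  linarith

theorem N_pos {x : X} (hx : x ≠ 0) : 0 < u.N x := (norm_pos_iff.2 hx).trans_le (u.norm_le_N x)

theorem N_zero : u.N 0 = 0 := by
  have h1 := u.N_le_norm (0 : X)
  have h2 := u.N_nonneg (0 : X)
  rw [norm_zero, mul_zero] at h1
  linarith

theorem N_sig_aux (x g : X) (hle : u.N g ≤ u.N x) :
    u.N (x + g) ^ u.sig ≤ u.N x ^ u.sig + u.N g ^ u.sig := by
  have hsp := u.sig_pos
  by_cases hg : g = 0
  · rw [hg, add_zero, u.N_zero, Real.zero_rpow hsp.ne', add_zero]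
  have hg0 : 0 < u.N g := u.N_pos hg
  have hx0 : 0 < u.N x := hg0.trans_le hle
  set a := u.N x with ha
  set ε := u.N g / a with hε
  have hε0 : 0 < ε := by positivity
  have hε1 : ε ≤ 1 := by rw [hε, div_le_one hx0]; exact hle
  set q := Real.sqrt ε with hq
  have hq0 : 0 < q := Real.sqrt_pos.2 hε0
  have hqq : q * q = ε := Real.mul_self_sqrt hε0.le
  have hq1 : q ≤ 1 := by nlinarith
  have hK := u.hK
  have h1 := u.N_add_le x g (q / 2) (by positivity) (by linarith)
  have h2 : (1 - q / 2)⁻¹ ≤ 1 + q := by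
    rw [inv_le_comm₀ (by linarith) (by linarith)]
    rw [inv_le_iff_one_le_mul₀ (by linarith)]
    nlinarith
  have h3 : 3 * u.K ^ 3 * ‖g‖ / (q / 2) ≤ 6 * u.K ^ 3 * q * a := by
    rw [div_le_iff₀ (by positivity)]
    have h4 : ‖g‖ ≤ ε * a := by
      rw [hε, div_mul_cancel₀ _ hx0.ne']
      exact u.norm_le_N g
    calc 3 * u.K ^ 3 * ‖g‖ ≤ 3 * u.K ^ 3 * (ε * a) := by gcongr
      _ = 6 * u.K ^ 3 * q * a * (q / 2) := by rw [← hqq]; ring
  have h5 : u.N (x + g) ≤ a * (1 + u.C1 * q) := by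
    calc u.N (x + g) ≤ (1 - q / 2)⁻¹ * a + 3 * u.K ^ 3 * ‖g‖ / (q / 2) := h1
      _ ≤ (1 + q) * a + 6 * u.K ^ 3 * q * a :=
          add_le_add (mul_le_mul_of_nonneg_right h2 hx0.le) h3
      _ = a * (1 + u.C1 * q) := by unfold C1; ring
  have h6 : q ≤ ε ^ u.sig := by
    rw [hq, Real.sqrt_eq_rpow]
    exact Real.rpow_le_rpow_of_exponent_ge hε0 hε1 u.sig_le_half
  have hC := u.C1_pos
  have h7 : 1 + u.C1 * q ≤ (1 + ε ^ u.sig) ^ (1 / u.sig) := by
    have h8 : 1 ≤ 1 / u.sig := by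
      rw [le_div_iff₀ hsp]; linarith [u.sig_lt]
    have h9 : (0 : ℝ) ≤ ε ^ u.sig := Real.rpow_nonneg hε0.le _
    have h10 := one_add_mul_self_le_rpow_one_add (s := ε ^ u.sig) (by linarith) h8
    have h11 : u.C1 ≤ 1 / u.sig := by
      unfold sig
      rw [one_div_one_div]
      linarith
    calc 1 + u.C1 * q ≤ 1 + 1 / u.sig * ε ^ u.sig := by
          have := mul_le_mul h11 h6 hq0.le (by positivity)
          linarith
      _ ≤ _ := h10
  calc u.N (x + g) ^ u.sig ≤ (a * (1 + ε ^ u.sig) ^ (1 / u.sig)) ^ u.sig := by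
        apply Real.rpow_le_rpow (u.N_nonneg _) _ hsp.le
        exact h5.trans (mul_le_mul_of_nonneg_left h7 hx0.le)
    _ = a ^ u.sig * (1 + ε ^ u.sig) := by
        have h9 : (0 : ℝ) ≤ ε ^ u.sig := Real.rpow_nonneg hε0.le _
        rw [Real.mul_rpow hx0.le (by positivity), ← Real.rpow_mul (by positivity),
          one_div_mul_cancel hsp.ne', Real.rpow_one]
    _ = a ^ u.sig + u.N g ^ u.sig := by
        rw [mul_add, mul_one, ← Real.mul_rpow hx0.le hε0.le, hε, mul_div_cancel₀ _ hx0.ne']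

/-- the `s`-triangle inequality -/
theorem N_sig (x g : X) : u.N (x + g) ^ u.sig ≤ u.N x ^ u.sig + u.N g ^ u.sig := by
  rcases le_total (u.N g) (u.N x) with h | h
  · exact u.N_sig_aux x g h
  · rw [add_comm x g, add_comm (u.N x ^ u.sig)]
    exact u.N_sig_aux g x h

/-- every unconditional democratic system is `1`-greedy for an equivalent `s`-norm -/
theorem exists_snorm : ∃ (s : ℝ) (M : X → ℝ), 0 < s ∧ s < 1 ∧
    (∀ x, M x = 0 ↔ x = 0) ∧ (∀ (c : 𝕜) x, M (c • x) = ‖c‖ * M x) ∧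
    (∀ x y, M (x + y) ^ s ≤ M x ^ s + M y ^ s) ∧
    (∃ c C : ℝ, 0 < c ∧ ∀ x, c * ‖x‖ ≤ M x ∧ M x ≤ C * ‖x‖) ∧
    ∀ (x : X) (A B : Finset ι) (b : ι → 𝕜),
      (∀ i ∈ A, ∀ j, j ∉ A → ‖u.f j x‖ ≤ ‖u.f i x‖) → B.card ≤ A.card →
      M (x - ∑ i ∈ A, u.f i x • u.e i) ≤ M (x - ∑ i ∈ B, b i • u.e i) := by
  refine ⟨u.sig, u.N, u.sig_pos, u.sig_lt, fun x => ⟨fun h => ?_, fun h => ?_⟩, u.N_smul, u.N_sig,
    ⟨1, u.K + u.K ^ 3, one_pos, fun x => ⟨?_, u.N_le_norm x⟩⟩, u.N_greedy⟩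
  · by_contra hx
    exact (u.N_pos hx).ne' h
  · rw [h, u.N_zero]
  · rw [one_mul]; exact u.norm_le_N x

end UD
end Pool.Agent.W693.G
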