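import Mathlib

set_option autoImplicit false
open Filter Topology

/-! Burkholder's function for `p > 2`: zigzag concavity. -/

namespace Pool.Agent.W693.G

/-- extension by zero of a nonnegative convex function vanishing at the end point -/
theorem ext_convex (b : ℝ) (k : ℝ → ℝ) (hk : ConvexOn ℝ (Set.Ici b) k) (hb : k b = 0)
    (h0 : ∀ s, b ≤ s → 0 ≤ k s) (u v : ℝ) :
    2 * (if b ≤ (u + v) / 2 then k ((u + v) / 2) else 0) ≤
      (if b ≤ u then k u else 0) + (if b ≤ v then k v else 0) := by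
  have hkc : ∀ x y : ℝ, b ≤ x → b ≤ y → ∀ α β : ℝ, 0 ≤ α → 0 ≤ β → α + β = 1 →
      k (α * x + β * y) ≤ α * k x + β * k y := fun x y hx hy α β h1 h2 h3 => by
    have := hk.2 (Set.mem_Ici.2 hx) (Set.mem_Ici.2 hy) h1 h2 h3
    simpa only [smul_eq_mul] using this
  have main : ∀ u v : ℝ, u ≤ v → 2 * (if b ≤ (u + v) / 2 then k ((u + v) / 2) else 0) ≤
      (if b ≤ u then k u else 0) + (if b ≤ v then k v else 0) := by
    intro u v huv
    by_cases hu : b ≤ u
    · have hv : b ≤ v := hu.trans huv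
      rw [if_pos hu, if_pos hv, if_pos (by linarith)]
      have := hkc u v hu hv (1 / 2) (1 / 2) (by norm_num) (by norm_num) (by norm_num)
      have e : 1 / 2 * u + 1 / 2 * v = (u + v) / 2 := by ring
      rw [e] at this
      linarith
    · rw [if_neg hu, zero_add]
      by_cases hm : b ≤ (u + v) / 2
      · have hv : b ≤ v := by push Not at hu; linarith
        rw [if_pos hm, if_pos hv]
        push Not at hu
        have hbv : b < v := by linarith
        set θ := ((u + v) / 2 - b) / (v - b) with hθ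
        have hθ0 : 0 ≤ θ := div_nonneg (by linarith) (by linarith)
        have hθ1 : θ ≤ 1 / 2 := by
          rw [hθ, div_le_iff₀ (by linarith)]
          linarith
        have := hkc b v (le_refl b) hv (1 - θ) θ (by linarith) hθ0 (by ring)
        have e : (1 - θ) * b + θ * v = (u + v) / 2 := by
          have : θ * (v - b) = (u + v) / 2 - b := by
            rw [hθ, div_mul_cancel₀ _ (by linarith : v - b ≠ 0)]
          linarith
        rw [e, hb, mul_zero, zero_add] at this
        have h3 := h0 v hv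
        nlinarith
      · rw [if_neg hm, mul_zero]
        by_cases hv : b ≤ v
        · rw [if_pos hv]; exact h0 v hv
        · rw [if_neg hv]
  rcases le_total u v with h | h
  · exact main u v h
  · have := main v u h
    rw [add_comm v u] at this
    linarith

/-- the first correction term -/
noncomputable def k2 (p b a : ℝ) : ℝ :=
  ((p - 2) * a + p * b) * a ^ (p - 1) - (p * a + (p - 2) * b) * b ^ (p - 1)

/-- the second correction term -/
noncomputable def k1 (p b s : ℝ) : ℝ :=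
  (p * s - (p - 2) * b) * b ^ (p - 1) - (p * b - (p - 2) * s) * s ^ (p - 1)

theorem rpow_split {p a : ℝ} (hp : 2 < p) (ha : 0 ≤ a) : a * a ^ (p - 1) = a ^ p := by
  rcases ha.eq_or_lt with h | h
  · rw [← h, zero_mul, Real.zero_rpow (by linarith)]
  · rw [← Real.rpow_one_add' h.le (by linarith)]
    congr 1; ring

theorem rpow_split' {p a : ℝ} (hp : 2 < p) (ha : 0 ≤ a) : a * a ^ (p - 2) = a ^ (p - 1) := by
  rcases ha.eq_or_lt with h | h
  · rw [← h, zero_mul, Real.zero_rpow (by linarith)]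
  · rw [← Real.rpow_one_add' h.le (by linarith)]
    congr 1; ring

theorem k2_convex {p b : ℝ} (hp : 2 < p) (hb : 0 ≤ b) : ConvexOn ℝ (Set.Ici b) (k2 p b) := by
  have h1 : ConvexOn ℝ (Set.Ici b) (fun a : ℝ => a ^ p) :=
    (convexOn_rpow (by linarith)).subset (fun a ha => Set.mem_Ici.2 (hb.trans ha)) (convex_Ici b)
  have h2 : ConvexOn ℝ (Set.Ici b) (fun a : ℝ => a ^ (p - 1)) :=
    (convexOn_rpow (by linarith)).subset (fun a ha => Set.mem_Ici.2 (hb.trans ha)) (convex_Ici b)
  have h3 := (h1.smul (show 0 ≤ p - 2 by linarith)).add (h2.smul (show 0 ≤ p * b by positivity))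
  refine ⟨convex_Ici b, ?_⟩
  intro x hx y hy α β hα hβ hαβ
  have h4 := h3.2 hx hy hα hβ hαβ
  have hx0 : 0 ≤ x := hb.trans hx
  have hy0 : 0 ≤ y := hb.trans hy
  have hz0 : 0 ≤ α * x + β * y := by positivity
  simp only [smul_eq_mul, Pi.add_apply, Pi.smul_apply] at h4 ⊢
  unfold k2
  have e1 : ∀ z : ℝ, 0 ≤ z → ((p - 2) * z + p * b) * z ^ (p - 1) =
      (p - 2) * z ^ p + p * b * z ^ (p - 1) := by
    intro z hz
    rw [← rpow_split hp hz]; ring
  rw [e1 _ hx0, e1 _ hy0, e1 _ hz0]
  have e2 : α * (p * x * b ^ (p - 1)) + β * (p * y * b ^ (p - 1)) =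
    p * (α * x + β * y) * b ^ (p - 1) := by ring
  have e3 : (α + β) * ((p - 2) * b * b ^ (p - 1)) = (p - 2) * b * b ^ (p - 1) := by
    rw [hαβ, one_mul]
  nlinarith

theorem k2_zero {p b : ℝ} : k2 p b b = 0 := by unfold k2; ring

theorem k2_nonneg {p b a : ℝ} (hp : 2 < p) (hb : 0 ≤ b) (ha : b ≤ a) : 0 ≤ k2 p b a := by
  unfold k2
  have ha0 : 0 ≤ a := hb.trans ha
  have h1 : b ^ (p - 2) ≤ a ^ (p - 2) := Real.rpow_le_rpow hb ha (by linarith)
  have h2 : b ^ p ≤ a ^ p := Real.rpow_le_rpow hb ha (by linarith)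
  have e1 := rpow_split hp ha0
  have e2 := rpow_split hp hb
  have e3 := rpow_split' hp ha0
  have e4 := rpow_split' hp hb
  have h3 : a * b * b ^ (p - 2) ≤ a * b * a ^ (p - 2) :=
    mul_le_mul_of_nonneg_left h1 (by positivity)
  have h4 : (p - 2) * b ^ p ≤ (p - 2) * a ^ p := mul_le_mul_of_nonneg_left h2 (by linarith)
  have e5 : ((p - 2) * a + p * b) * a ^ (p - 1) = (p - 2) * a ^ p + p * (a * b * a ^ (p - 2)) := by
    rw [← e1, ← e3]; ring
  have e6 : (p * a + (p - 2) * b) * b ^ (p - 1) = p * (a * b * b ^ (p - 2)) + (p - 2) * b ^ p := by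
    rw [← e2, ← e4]; ring
  rw [e5, e6]
  have h5 : p * (a * b * b ^ (p - 2)) ≤ p * (a * b * a ^ (p - 2)) :=
    mul_le_mul_of_nonneg_left h3 (by linarith)
  linarith

/-- weighted arithmetic-geometric mean inequality -/
theorem amgm {p b s : ℝ} (hp : 2 < p) (hb : 0 ≤ b) (hs : 0 ≤ s) :
    (p - 1) * b * s ^ (p - 2) ≤ (p - 2) * s ^ (p - 1) + b ^ (p - 1) := by
  have hp1 : 0 < p - 1 := by linarith
  have hp2 : 0 < p - 2 := by linarith
  have h := Real.geom_mean_le_arith_mean2_weighted (w₁ := 1 / (p - 1)) (w₂ := (p - 2) / (p - 1))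
    (p₁ := b ^ (p - 1)) (p₂ := s ^ (p - 1)) (by positivity) (by positivity)
    (Real.rpow_nonneg hb _) (Real.rpow_nonneg hs _) (by field_simp; ring)
  rw [← Real.rpow_mul hb, ← Real.rpow_mul hs, mul_one_div_cancel hp1.ne', Real.rpow_one,
    mul_div_cancel₀ _ hp1.ne'] at h
  have h2 := mul_le_mul_of_nonneg_left h hp1.le
  have e : (p - 1) * (1 / (p - 1) * b ^ (p - 1) + (p - 2) / (p - 1) * s ^ (p - 1)) =
      b ^ (p - 1) + (p - 2) * s ^ (p - 1) := by
    field_simp
  rw [e] at h2
  linarith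

theorem k1_hasDeriv {p b s : ℝ} (hp : 2 < p) (hs : 0 < s) : HasDerivAt (k1 p b)
    (p * (b ^ (p - 1) + (p - 2) * s ^ (p - 1) - (p - 1) * b * s ^ (p - 2))) s := by
  have h1 : HasDerivAt (fun s : ℝ => s ^ (p - 1)) ((p - 1) * s ^ (p - 2)) s := by
    have := Real.hasDerivAt_rpow_const (x := s) (p := p - 1) (Or.inl hs.ne')
    rwa [show p - 1 - 1 = p - 2 by ring] at this
  have h2 : HasDerivAt (fun s : ℝ => s ^ p) (p * s ^ (p - 1)) s :=
    Real.hasDerivAt_rpow_const (x := s) (p := p) (Or.inl hs.ne')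
  have h3 : HasDerivAt (fun s : ℝ => (p * s - (p - 2) * b) * b ^ (p - 1)) (p * b ^ (p - 1)) s := by
    have := (((hasDerivAt_id s).const_mul p).sub_const ((p - 2) * b)).mul_const (b ^ (p - 1))
    simpa using this
  have h4 := h3.sub (((h1.const_mul (p * b))).sub (h2.const_mul (p - 2)))
  have h5 : p * b ^ (p - 1) - (p * b * ((p - 1) * s ^ (p - 2)) - (p - 2) * (p * s ^ (p - 1))) =
      p * (b ^ (p - 1) + (p - 2) * s ^ (p - 1) - (p - 1) * b * s ^ (p - 2)) := by ring
  rw [h5] at h4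
  refine h4.congr_of_eventuallyEq ?_
  filter_upwards [lt_mem_nhds hs] with x hx
  unfold k1
  simp only [Pi.sub_apply]
  rw [← rpow_split hp hx.le]; ring

theorem k1_cont {p b : ℝ} (hp : 2 < p) : Continuous (k1 p b) := by
  unfold k1
  have h1 : Continuous (fun s : ℝ => s ^ (p - 1)) := Real.continuous_rpow_const (by linarith)
  fun_prop

theorem k1_convex {p b : ℝ} (hp : 2 < p) (hb : 0 ≤ b) : ConvexOn ℝ (Set.Ici b) (k1 p b) := by
  have hint : interior (Set.Ici b) = Set.Ioi b := interior_Ici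
  refine MonotoneOn.convexOn_of_deriv (convex_Ici b) (k1_cont hp).continuousOn ?_ ?_
  · rw [hint]
    intro s hs
    exact (k1_hasDeriv hp (hb.trans_lt hs)).differentiableAt.differentiableWithinAt
  · rw [hint]
    intro s hs t ht hst
    rw [(k1_hasDeriv hp (hb.trans_lt hs)).deriv, (k1_hasDeriv hp (hb.trans_lt ht)).deriv]
    have hs0 : 0 < s := hb.trans_lt hs
    have ht0 : 0 < t := hb.trans_lt ht
    have hbs : b < s := hs
    have h1 := amgm hp hs0.le ht0.le
    have h2 : s ^ (p - 2) ≤ t ^ (p - 2) := Real.rpow_le_rpow hs0.le hst (by linarith)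
    have e3 := rpow_split' hp hs0.le
    have h3 : (p - 1) * b * (t ^ (p - 2) - s ^ (p - 2)) ≤
        (p - 1) * s * (t ^ (p - 2) - s ^ (p - 2)) := by
      apply mul_le_mul_of_nonneg_right _ (by linarith)
      exact mul_le_mul_of_nonneg_left hbs.le (by linarith)
    have h4 : (p - 1) * s * s ^ (p - 2) = (p - 1) * s ^ (p - 1) := by rw [← e3]; ring
    apply mul_le_mul_of_nonneg_left _ (by linarith : (0 : ℝ) ≤ p)
    nlinarith

theorem k1_zero {p b : ℝ} : k1 p b b = 0 := by unfold k1; ring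

theorem k1_nonneg {p b s : ℝ} (hp : 2 < p) (hb : 0 ≤ b) (hs : b ≤ s) : 0 ≤ k1 p b s := by
  have hint : interior (Set.Ici b) = Set.Ioi b := interior_Ici
  have hm : MonotoneOn (k1 p b) (Set.Ici b) := by
    apply monotoneOn_of_deriv_nonneg (convex_Ici b) (k1_cont hp).continuousOn
    · rw [hint]
      intro s hs
      exact (k1_hasDeriv hp (hb.trans_lt hs)).differentiableAt.differentiableWithinAt
    · rw [hint]
      intro s hs
      rw [(k1_hasDeriv hp (hb.trans_lt hs)).deriv]
      have hs0 : 0 < s := hb.trans_lt hs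
      have h1 := amgm hp hb hs0.le
      apply mul_nonneg (by linarith)
      linarith
  have := hm (Set.mem_Ici.2 le_rfl) (Set.mem_Ici.2 hs) hs
  rwa [k1_zero] at this

/-- Burkholder's function -/
noncomputable def W (p x y : ℝ) : ℝ := (|y| - (p - 1) * |x|) * (|x| + |y|) ^ (p - 1)

theorem W_neg (p x y : ℝ) : W p (-x) (-y) = W p x y := by unfold W; rw [abs_neg, abs_neg]

theorem W_neg' (p x y : ℝ) : W p x (-y) = W p x y := by unfold W; rw [abs_neg]

theorem W_form {p b a : ℝ} (hb : 0 ≤ b) : W p ((a + b) / 2) ((a - b) / 2) =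
    (1 / 2) * (-(p * a + (p - 2) * b) * b ^ (p - 1) - (if b ≤ a then k2 p b a else 0) -
      (if b ≤ -a then k1 p b (-a) else 0)) := by
  unfold W
  by_cases h1 : b ≤ a
  · rw [if_pos h1]
    have ha : 0 ≤ a := hb.trans h1
    rw [abs_of_nonneg (show 0 ≤ (a + b) / 2 by linarith),
      abs_of_nonneg (show 0 ≤ (a - b) / 2 by linarith)]
    have e : (a + b) / 2 + (a - b) / 2 = a := by ring
    rw [e]
    by_cases h2 : b ≤ -a
    · have hb0 : b = 0 := by linarith
      have ha0 : a = 0 := by linarith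
      subst hb0; subst ha0
      rw [if_pos h2]
      unfold k1 k2
      simp
    · rw [if_neg h2]
      unfold k2
      ring
  · rw [if_neg h1]
    by_cases h2 : b ≤ -a
    · rw [if_pos h2]
      rw [abs_of_nonpos (show (a + b) / 2 ≤ 0 by linarith),
        abs_of_nonpos (show (a - b) / 2 ≤ 0 by linarith)]
      have e : -((a + b) / 2) + -((a - b) / 2) = -a := by ring
      rw [e]
      unfold k1
      ring
    · rw [if_neg h2]
      rw [abs_of_nonneg (show 0 ≤ (a + b) / 2 by linarith),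
        abs_of_nonpos (show (a - b) / 2 ≤ 0 by linarith)]
      have e : (a + b) / 2 + -((a - b) / 2) = b := by ring
      rw [e]
      ring

theorem W_zig_aux {p : ℝ} (hp : 2 < p) (x y d : ℝ) (hb : 0 ≤ x - y) :
    W p (x + d) (y + d) + W p (x - d) (y - d) ≤ 2 * W p x y := by
  set b := x - y with hbd
  set a := x + y with had
  have e0 : W p x y = W p ((a + b) / 2) ((a - b) / 2) := by
    rw [hbd, had]; congr 1 <;> ring
  have e1 : W p (x + d) (y + d) = W p (((a + 2 * d) + b) / 2) (((a + 2 * d) - b) / 2) := by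
    rw [hbd, had]; congr 1 <;> ring
  have e2 : W p (x - d) (y - d) = W p (((a - 2 * d) + b) / 2) (((a - 2 * d) - b) / 2) := by
    rw [hbd, had]; congr 1 <;> ring
  rw [e0, e1, e2, W_form hb, W_form hb, W_form hb]
  have h1 := ext_convex b (k2 p b) (k2_convex hp hb) k2_zero (fun s hs => k2_nonneg hp hb hs)
    (a + 2 * d) (a - 2 * d)
  have h2 := ext_convex b (k1 p b) (k1_convex hp hb) k1_zero (fun s hs => k1_nonneg hp hb hs)
    (-(a + 2 * d)) (-(a - 2 * d))
  have e3 : (a + 2 * d + (a - 2 * d)) / 2 = a := by ring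
  have e4 : (-(a + 2 * d) + -(a - 2 * d)) / 2 = -a := by ring
  rw [e3] at h1
  rw [e4] at h2
  have e5 : -(p * (a + 2 * d) + (p - 2) * b) * b ^ (p - 1) +
      -(p * (a - 2 * d) + (p - 2) * b) * b ^ (p - 1) =
      2 * (-(p * a + (p - 2) * b) * b ^ (p - 1)) := by ring
  linarith

theorem W_zig {p : ℝ} (hp : 2 < p) (x y d : ℝ) :
    W p (x + d) (y + d) + W p (x - d) (y - d) ≤ 2 * W p x y := by
  rcases le_total 0 (x - y) with h | h
  · exact W_zig_aux hp x y d h
  · have := W_zig_aux hp (-x) (-y) (-d) (by linarith)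
    have e1 : -x + -d = -(x + d) := by ring
    have e2 : -y + -d = -(y + d) := by ring
    have e3 : -x - -d = -(x - d) := by ring
    have e4 : -y - -d = -(y - d) := by ring
    rw [e1, e2, e3, e4, W_neg, W_neg, W_neg] at this
    exact this

theorem W_zag {p : ℝ} (hp : 2 < p) (x y d : ℝ) :
    W p (x + d) (y - d) + W p (x - d) (y + d) ≤ 2 * W p x y := by
  have := W_zig hp x (-y) d
  have e1 : -y + d = -(y - d) := by ring
  have e2 : -y - d = -(y + d) := by ring
  rw [e1, e2, W_neg', W_neg', W_neg'] at this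
  exact this

/-- zigzag concavity, with a sign -/
theorem W_sign {p : ℝ} (hp : 2 < p) (x y d ε : ℝ) (hε : ε = 1 ∨ ε = -1) :
    W p (x + d) (y + ε * d) + W p (x - d) (y - ε * d) ≤ 2 * W p x y := by
  rcases hε with rfl | rfl
  · rw [one_mul]; exact W_zig hp x y d
  · have := W_zag hp x y d
    have e1 : y + -1 * d = y - d := by ring
    have e2 : y - -1 * d = y + d := by ring
    rw [e1, e2]; exact this

/-- the majorant property (without the best constant) -/
theorem W_major {p : ℝ} (hp : 2 < p) (x y : ℝ) :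
    |y| ^ p ≤ 2 * W p x y + (2 * p) ^ (p + 1) * |x| ^ p := by
  have hx : 0 ≤ |x| := abs_nonneg x
  have hy : 0 ≤ |y| := abs_nonneg y
  have hs : 0 ≤ |x| + |y| := by positivity
  unfold W
  by_cases h : 2 * (p - 1) * |x| ≤ |y|
  · have h1 : |y| / 2 ≤ |y| - (p - 1) * |x| := by linarith
    have h2 : |y| ^ (p - 1) ≤ (|x| + |y|) ^ (p - 1) :=
      Real.rpow_le_rpow hy (by linarith) (by linarith)
    have h3 : |y| ^ (p - 1) * (|y| / 2) ≤ (|y| - (p - 1) * |x|) * (|x| + |y|) ^ (p - 1) := by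
      rw [mul_comm]
      exact mul_le_mul h1 h2 (Real.rpow_nonneg hy _) (by linarith)
    have h4 := rpow_split hp hy
    have h5 : 0 ≤ (2 * p) ^ (p + 1) * |x| ^ p := by positivity
    nlinarith
  · push Not at h
    have h1 : |x| + |y| ≤ 2 * p * |x| := by nlinarith
    have h2 : (|x| + |y|) ^ (p - 1) ≤ (2 * p * |x|) ^ (p - 1) :=
      Real.rpow_le_rpow hs h1 (by linarith)
    have h3 : |y| ^ p ≤ (2 * p * |x|) ^ p := Real.rpow_le_rpow hy (by linarith) (by linarith)
    have h4 : -((p - 1) * |x|) ≤ |y| - (p - 1) * |x| := by linarith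
    have h5 : 0 ≤ (|x| + |y|) ^ (p - 1) := Real.rpow_nonneg hs _
    have h6 : -((p - 1) * |x|) * (2 * p * |x|) ^ (p - 1) ≤
        (|y| - (p - 1) * |x|) * (|x| + |y|) ^ (p - 1) := by
      calc -((p - 1) * |x|) * (2 * p * |x|) ^ (p - 1)
          ≤ -((p - 1) * |x|) * (|x| + |y|) ^ (p - 1) := by
            apply mul_le_mul_of_nonpos_left h2
            have : 0 ≤ (p - 1) * |x| := mul_nonneg (by linarith) hx
            linarith
        _ ≤ _ := mul_le_mul_of_nonneg_right h4 h5
    have h7 : |x| * (2 * p * |x|) ^ (p - 1) = (2 * p) ^ (p - 1) * |x| ^ p := by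
      rw [Real.mul_rpow (by linarith) hx, ← rpow_split hp hx]; ring
    have h8 : (2 * p * |x|) ^ p = (2 * p) ^ p * |x| ^ p := Real.mul_rpow (by linarith) hx
    have h9 : (2 * p) ^ (p + 1) = (2 * p) * (2 * p) ^ p := by
      rw [Real.rpow_add (by linarith), Real.rpow_one]; ring
    have h10 : (2 * p) ^ p = (2 * p) * (2 * p) ^ (p - 1) := (rpow_split hp (by linarith)).symm
    have h11 : 0 ≤ (2 * p) ^ (p - 1) := by positivity
    have h12 : 0 ≤ |x| ^ p := by positivity
    have h13 : 2 * (p - 1) * ((2 * p) ^ (p - 1) * |x| ^ p) ≤ (2 * p) ^ p * |x| ^ p := by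
      rw [h10]
      have : 0 ≤ (2 * p) ^ (p - 1) * |x| ^ p := by positivity
      nlinarith
    have h14 : (2 * p) ^ p * |x| ^ p * 2 ≤ (2 * p) ^ (p + 1) * |x| ^ p := by
      rw [h9]
      have : 0 ≤ (2 * p) ^ p * |x| ^ p := by positivity
      nlinarith
    nlinarith

end Pool.Agent.W693.G
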