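import Mathlib
import Pool.Agent.W693.GC

set_option autoImplicit false
open Filter Topology

/-! Dyadic martingale transforms on finite arrays. -/

namespace Pool.Agent.W693.G

/-- indices of the Haar system: `none` for the constant function, `some (n, k)` for the dyadic
interval `[k 2^{-n}, (k+1) 2^{-n})` -/
abbrev Ix : Type := Option (ℕ × ℕ)

section arr
variable {V : Type} [AddCommGroup V]

/-- the dyadic martingale with the differences `c` -/
def arr (c : Ix → V) : ℕ → ℕ → V
  | 0, _ => c none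
  | n + 1, k => if k % 2 = 0 then arr c n (k / 2) + c (some (n, k / 2))
      else arr c n (k / 2) - c (some (n, k / 2))

theorem arr_zero (c : Ix → V) (k : ℕ) : arr c 0 k = c none := rfl

theorem arr_even (c : Ix → V) (n k : ℕ) : arr c (n + 1) (2 * k) = arr c n k + c (some (n, k)) := by
  rw [arr, if_pos (by omega)]
  rw [show 2 * k / 2 = k by omega]

theorem arr_odd (c : Ix → V) (n k : ℕ) :
    arr c (n + 1) (2 * k + 1) = arr c n k - c (some (n, k)) := by
  rw [arr, if_neg (by omega)]
  rw [show (2 * k + 1) / 2 = k by omega]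

theorem arr_add (c c' : Ix → V) (n k : ℕ) :
    arr (fun i => c i + c' i) n k = arr c n k + arr c' n k := by
  induction n generalizing k with
  | zero => rfl
  | succ n ih =>
    rw [arr, arr, arr, ih]
    split_ifs <;> abel

theorem arr_sub (c c' : Ix → V) (n k : ℕ) :
    arr (fun i => c i - c' i) n k = arr c n k - arr c' n k := by
  induction n generalizing k with
  | zero => rfl
  | succ n ih =>
    rw [arr, arr, arr, ih]
    split_ifs <;> abel

/-- `arr` commutes with linear maps -/
theorem arr_map {V' : Type} [AddCommGroup V'] (L : V →+ V') (c : Ix → V) (n k : ℕ) :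
    arr (fun i => L (c i)) n k = L (arr c n k) := by
  induction n generalizing k with
  | zero => rfl
  | succ n ih =>
    rw [arr, arr, ih]
    split_ifs
    · rw [map_add]
    · rw [map_sub]

/-- the coefficients of level at least `n` do not matter -/
theorem arr_congr (c c' : Ix → V) (n : ℕ) (h0 : c none = c' none)
    (h : ∀ m k, m < n → c (some (m, k)) = c' (some (m, k))) (k : ℕ) :
    arr c n k = arr c' n k := by
  induction n generalizing k with
  | zero => exact h0
  | succ n ih =>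
    rw [arr, arr, ih (fun m k hm => h m k (by omega)), h n _ (by omega)]

/-- only coefficients with `k < 2 ^ m` matter -/
theorem arr_congr' (c c' : Ix → V) (n : ℕ) (h0 : c none = c' none)
    (h : ∀ m k, m < n → k < 2 ^ m → c (some (m, k)) = c' (some (m, k))) (k : ℕ) (hk : k < 2 ^ n) :
    arr c n k = arr c' n k := by
  induction n generalizing k with
  | zero => exact h0
  | succ n ih =>
    have hk2 : k / 2 < 2 ^ n := by rw [pow_succ] at hk; omega
    rw [arr, arr, ih (fun m k hm => h m k (by omega)) _ hk2, h n _ (by omega) hk2]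

end arr

theorem sum_even_odd {M : Type} [AddCommMonoid M] (f : ℕ → M) (m : ℕ) :
    ∑ k ∈ Finset.range (2 * m), f k = ∑ k ∈ Finset.range m, (f (2 * k) + f (2 * k + 1)) := by
  induction m with
  | zero => simp
  | succ m ih =>
    rw [Finset.sum_range_succ, ← ih, show 2 * (m + 1) = 2 * m + 1 + 1 by ring,
      Finset.sum_range_succ, Finset.sum_range_succ, add_assoc]

theorem sum_level {M : Type} [AddCommMonoid M] (f : ℕ → M) (n : ℕ) :
    ∑ k ∈ Finset.range (2 ^ (n + 1)), f k =
      ∑ k ∈ Finset.range (2 ^ n), (f (2 * k) + f (2 * k + 1)) := by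
  rw [pow_succ, mul_comm, sum_even_odd]

/-- the supermartingale property -/
theorem super {p : ℝ} (hp : 2 < p) (c ε : Ix → ℝ) (hε : ∀ i, ε i = 1 ∨ ε i = -1) (n : ℕ) :
    ∑ k ∈ Finset.range (2 ^ n), W p (arr c n k) (arr (fun i => ε i * c i) n k) ≤ 0 := by
  induction n with
  | zero =>
    rw [pow_zero, Finset.sum_range_one, arr_zero, arr_zero]
    unfold W
    have h1 : |ε none * c none| = |c none| := by
      rcases hε none with h | h <;> rw [h] <;> simp
    rw [h1]
    apply mul_nonpos_of_nonpos_of_nonneg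
    · have := abs_nonneg (c none)
      nlinarith
    · apply Real.rpow_nonneg
      positivity
  | succ n ih =>
    rw [sum_level]
    have h1 : ∑ k ∈ Finset.range (2 ^ n),
        (W p (arr c (n + 1) (2 * k)) (arr (fun i => ε i * c i) (n + 1) (2 * k)) +
          W p (arr c (n + 1) (2 * k + 1)) (arr (fun i => ε i * c i) (n + 1) (2 * k + 1))) ≤
        ∑ k ∈ Finset.range (2 ^ n), 2 * W p (arr c n k) (arr (fun i => ε i * c i) n k) := by
      refine Finset.sum_le_sum fun k _ => ?_
      rw [arr_even, arr_even, arr_odd, arr_odd]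
      exact W_sign hp _ _ _ _ (hε _)
    rw [← Finset.mul_sum] at h1
    linarith

/-- Burkholder's inequality for signs, `p > 2` -/
theorem burk_gt {p : ℝ} (hp : 2 < p) (c ε : Ix → ℝ) (hε : ∀ i, ε i = 1 ∨ ε i = -1) (n : ℕ) :
    ∑ k ∈ Finset.range (2 ^ n), |arr (fun i => ε i * c i) n k| ^ p ≤
      (2 * p) ^ (p + 1) * ∑ k ∈ Finset.range (2 ^ n), |arr c n k| ^ p := by
  have h1 := super hp c ε hε n
  calc ∑ k ∈ Finset.range (2 ^ n), |arr (fun i => ε i * c i) n k| ^ p
      ≤ ∑ k ∈ Finset.range (2 ^ n), (2 * W p (arr c n k) (arr (fun i => ε i * c i) n k) +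
          (2 * p) ^ (p + 1) * |arr c n k| ^ p) :=
        Finset.sum_le_sum fun k _ => W_major hp _ _
    _ = 2 * ∑ k ∈ Finset.range (2 ^ n), W p (arr c n k) (arr (fun i => ε i * c i) n k) +
          (2 * p) ^ (p + 1) * ∑ k ∈ Finset.range (2 ^ n), |arr c n k| ^ p := by
        rw [Finset.sum_add_distrib, Finset.mul_sum, Finset.mul_sum]
    _ ≤ _ := by linarith

/-- the bilinear identity -/
theorem bilin (c c' : Ix → ℝ) (n : ℕ) :
    ∑ k ∈ Finset.range (2 ^ n), arr c n k * arr c' n k = 2 ^ n * (c none * c' none +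
      ∑ j ∈ Finset.range n, (1 / 2) ^ j *
        ∑ k ∈ Finset.range (2 ^ j), c (some (j, k)) * c' (some (j, k))) := by
  induction n with
  | zero => simp [arr]
  | succ n ih =>
    rw [sum_level]
    have h1 : ∀ k ∈ Finset.range (2 ^ n),
        arr c (n + 1) (2 * k) * arr c' (n + 1) (2 * k) +
          arr c (n + 1) (2 * k + 1) * arr c' (n + 1) (2 * k + 1) =
        2 * (arr c n k * arr c' n k) + 2 * (c (some (n, k)) * c' (some (n, k))) := by
      intro k _
      rw [arr_even, arr_even, arr_odd, arr_odd]; ring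
    rw [Finset.sum_congr rfl h1, Finset.sum_add_distrib, ← Finset.mul_sum, ← Finset.mul_sum, ih,
      Finset.sum_range_succ]
    have h2 : (1 / 2 : ℝ) ^ n * 2 ^ n = 1 := by rw [← mul_pow]; norm_num
    have h3 : (2 : ℝ) ^ (n + 1) = 2 * 2 ^ n := by ring
    rw [h3]
    linear_combination (-2 * ∑ k ∈ Finset.range (2 ^ n), c (some (n, k)) * c' (some (n, k))) * h2

/-- every array is the final value of a martingale -/
theorem arr_surj {V : Type} [AddCommGroup V] [Module ℝ V] (n : ℕ) (g : ℕ → V) :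
    ∃ c : Ix → V, ∀ k, k < 2 ^ n → arr c n k = g k := by
  induction n generalizing g with
  | zero =>
    refine ⟨fun _ => g 0, fun k hk => ?_⟩
    have : k = 0 := by simpa using hk
    rw [this]; rfl
  | succ n ih =>
    obtain ⟨c, hc⟩ := ih (fun k => (1 / 2 : ℝ) • (g (2 * k) + g (2 * k + 1)))
    refine ⟨fun i => match i with
      | none => c none
      | some (m, k) => if m = n then (1 / 2 : ℝ) • (g (2 * k) - g (2 * k + 1)) else c (some (m, k)),
      fun k hk => ?_⟩
    have hk2 : k / 2 < 2 ^ n := by rw [pow_succ] at hk; omega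
    rw [arr]
    have e : arr (fun i => match i with
      | none => c none
      | some (m, k) => if m = n then (1 / 2 : ℝ) • (g (2 * k) - g (2 * k + 1))
          else c (some (m, k))) n (k / 2) = arr c n (k / 2) := by
      apply arr_congr
      · rfl
      · intro m k hm
        simp only
        rw [if_neg (by omega)]
    rw [e, hc _ hk2]
    simp only [if_true]
    split_ifs with h
    · have : 2 * (k / 2) = k := by omega
      rw [this, ← smul_add]
      have e2 : g k + g (k + 1) + (g k - g (k + 1)) = (2 : ℝ) • g k := by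
        rw [two_smul]; abel
      rw [e2, smul_smul]; norm_num
    · have : 2 * (k / 2) + 1 = k := by omega
      rw [this, ← smul_sub]
      have e2 : g (2 * (k / 2)) + g k - (g (2 * (k / 2)) - g k) = (2 : ℝ) • g k := by
        rw [two_smul]; abel
      rw [e2, smul_smul]; norm_num

theorem symm_bilin (c c' ε : Ix → ℝ) (n : ℕ) :
    ∑ k ∈ Finset.range (2 ^ n), arr (fun i => ε i * c i) n k * arr c' n k =
    ∑ k ∈ Finset.range (2 ^ n), arr c n k * arr (fun i => ε i * c' i) n k := by
  rw [bilin, bilin]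
  congr 1
  congr 1
  · ring
  · refine Finset.sum_congr rfl fun j _ => ?_
    congr 1
    refine Finset.sum_congr rfl fun k _ => ?_
    ring

/-- Burkholder's inequality for signs, `p = 2` -/
theorem burk_two (c ε : Ix → ℝ) (hε : ∀ i, ε i = 1 ∨ ε i = -1) (n : ℕ) :
    ∑ k ∈ Finset.range (2 ^ n), |arr (fun i => ε i * c i) n k| ^ (2 : ℝ) ≤
      ∑ k ∈ Finset.range (2 ^ n), |arr c n k| ^ (2 : ℝ) := by
  have e : ∀ x : ℝ, |x| ^ (2 : ℝ) = x * x := by
    intro x
    rw [Real.rpow_two, sq_abs, sq]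
  simp_rw [e]
  rw [symm_bilin]
  apply le_of_eq
  refine Finset.sum_congr rfl fun k _ => ?_
  have : (fun i => ε i * (ε i * c i)) = c := by
    funext i
    rcases hε i with h | h <;> rw [h] <;> ring
  rw [this]

/-- Burkholder's inequality for signs, `p < 2`, by duality -/
theorem burk_lt {p q : ℝ} (hp1 : 1 < p) (hp2 : p < 2) (hpq : p.HolderConjugate q) (c ε : Ix → ℝ)
    (hε : ∀ i, ε i = 1 ∨ ε i = -1) (n : ℕ) :
    ∑ k ∈ Finset.range (2 ^ n), |arr (fun i => ε i * c i) n k| ^ p ≤
      ((2 * q) ^ (q + 1)) ^ (p / q) * ∑ k ∈ Finset.range (2 ^ n), |arr c n k| ^ p := by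
  have hp0 : 0 < p := by linarith
  have hq0 : 0 < q := hpq.symm.pos
  have hq2 : 2 < q := by
    have h1 := hpq.inv_add_inv_eq_one
    by_contra hcon
    push Not at hcon
    have h2 : (1 / 2 : ℝ) < p⁻¹ := by
      rw [lt_inv_comm₀ (by norm_num) hp0]; norm_num; exact hp2
    have h3 : (1 / 2 : ℝ) ≤ q⁻¹ := by
      rw [le_inv_comm₀ (by norm_num) hq0]; norm_num; exact hcon
    linarith
  set y : ℕ → ℝ := arr (fun i => ε i * c i) n with hy
  set Sy := ∑ k ∈ Finset.range (2 ^ n), |y k| ^ p with hS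
  set A := ∑ k ∈ Finset.range (2 ^ n), |arr c n k| ^ p with hA
  have hS0 : 0 ≤ Sy := Finset.sum_nonneg fun _ _ => Real.rpow_nonneg (abs_nonneg _) _
  have hA0 : 0 ≤ A := Finset.sum_nonneg fun _ _ => Real.rpow_nonneg (abs_nonneg _) _
  set Cq := (2 * q) ^ (q + 1) with hCq
  have hCq0 : 0 < Cq := by positivity
  rcases hS0.eq_or_lt with hz | hSpos
  · rw [← hz]; positivity
  set g : ℕ → ℝ := fun k => SignType.sign (y k) * |y k| ^ (p - 1) with hg
  obtain ⟨c', hc'⟩ := arr_surj n g
  have h1 : Sy = ∑ k ∈ Finset.range (2 ^ n), y k * arr c' n k := by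
    refine Finset.sum_congr rfl fun k hk => ?_
    rw [hc' k (Finset.mem_range.1 hk), hg]
    simp only
    rw [← mul_assoc, mul_comm (y k), sign_mul_self]
    rcases (abs_nonneg (y k)).eq_or_lt with h | h
    · rw [← h, zero_mul, Real.zero_rpow hp0.ne']
    · rw [← Real.rpow_one_add' h.le (by linarith)]
      congr 1; ring
  have h2 : Sy = ∑ k ∈ Finset.range (2 ^ n), arr c n k * arr (fun i => ε i * c' i) n k := by
    rw [h1, hy, symm_bilin]
  have h3 : ∑ k ∈ Finset.range (2 ^ n), arr c n k * arr (fun i => ε i * c' i) n k ≤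
      A ^ (1 / p) * (∑ k ∈ Finset.range (2 ^ n), |arr (fun i => ε i * c' i) n k| ^ q) ^ (1 / q) :=
    Real.inner_le_Lp_mul_Lq _ _ _ hpq
  have h4 : ∑ k ∈ Finset.range (2 ^ n), |arr c' n k| ^ q ≤ Sy := by
    apply le_of_eq
    refine Finset.sum_congr rfl fun k hk => ?_
    rw [hc' k (Finset.mem_range.1 hk), hg]
    simp only
    rcases eq_or_ne (y k) 0 with h | h
    · rw [h]; simp [Real.zero_rpow hq0.ne', Real.zero_rpow hp0.ne']
    · have hs : |((SignType.sign (y k) : SignType) : ℝ)| = 1 := by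
        rcases lt_or_gt_of_ne h with h' | h'
        · rw [sign_neg h']; simp
        · rw [sign_pos h']; simp
      rw [abs_mul, hs, one_mul, abs_of_nonneg (Real.rpow_nonneg (abs_nonneg _) _),
        ← Real.rpow_mul (abs_nonneg _)]
      congr 1
      have := hpq.sub_one_mul_conj
      linarith
  have h5 := burk_gt hq2 c' ε hε n
  have h6 : ∑ k ∈ Finset.range (2 ^ n), |arr (fun i => ε i * c' i) n k| ^ q ≤ Cq * Sy :=
    h5.trans (mul_le_mul_of_nonneg_left h4 hCq0.le)
  have h7 : Sy ≤ A ^ (1 / p) * (Cq * Sy) ^ (1 / q) := by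
    calc Sy ≤ A ^ (1 / p) * (∑ k ∈ Finset.range (2 ^ n),
          |arr (fun i => ε i * c' i) n k| ^ q) ^ (1 / q) := by rw [h2]; exact h3
      _ ≤ A ^ (1 / p) * (Cq * Sy) ^ (1 / q) := by
          apply mul_le_mul_of_nonneg_left _ (Real.rpow_nonneg hA0 _)
          apply Real.rpow_le_rpow (Finset.sum_nonneg fun _ _ => Real.rpow_nonneg (abs_nonneg _) _)
            h6 (by positivity)
  rw [Real.mul_rpow hCq0.le hS0] at h7
  -- divide by `Sy ^ (1/q)`
  have h8 : Sy = Sy ^ (1 / p) * Sy ^ (1 / q) := by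
    rw [← Real.rpow_add hSpos]
    have : 1 / p + 1 / q = 1 := by
      have := hpq.inv_add_inv_eq_one
      rw [one_div, one_div]; exact this
    rw [this, Real.rpow_one]
  have h9 : Sy ^ (1 / p) ≤ A ^ (1 / p) * Cq ^ (1 / q) := by
    have h10 : 0 < Sy ^ (1 / q) := Real.rpow_pos_of_pos hSpos _
    have h11 : Sy ^ (1 / p) * Sy ^ (1 / q) ≤ A ^ (1 / p) * Cq ^ (1 / q) * Sy ^ (1 / q) := by
      rw [← h8]
      calc Sy ≤ A ^ (1 / p) * (Cq ^ (1 / q) * Sy ^ (1 / q)) := h7
        _ = _ := by ring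
    exact le_of_mul_le_mul_right h11 h10
  have h12 := Real.rpow_le_rpow (Real.rpow_nonneg hS0 _) h9 hp0.le
  rw [Real.mul_rpow (Real.rpow_nonneg hA0 _) (Real.rpow_nonneg hCq0.le _),
    ← Real.rpow_mul hS0, ← Real.rpow_mul hA0, ← Real.rpow_mul hCq0.le,
    one_div_mul_cancel hp0.ne', Real.rpow_one, Real.rpow_one] at h12
  calc Sy ≤ A * Cq ^ (1 / q * p) := h12
    _ = Cq ^ (p / q) * A := by rw [mul_comm, one_div_mul_eq_div]

/-- Burkholder's inequality for signs -/
theorem burk_sign {p : ℝ} (hp : 1 < p) : ∃ C : ℝ, 1 ≤ C ∧ ∀ (c ε : Ix → ℝ),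
    (∀ i, ε i = 1 ∨ ε i = -1) → ∀ n : ℕ,
    ∑ k ∈ Finset.range (2 ^ n), |arr (fun i => ε i * c i) n k| ^ p ≤
      C * ∑ k ∈ Finset.range (2 ^ n), |arr c n k| ^ p := by
  have hpos : ∀ (c : Ix → ℝ) (n : ℕ), 0 ≤ ∑ k ∈ Finset.range (2 ^ n), |arr c n k| ^ p :=
    fun c n => Finset.sum_nonneg fun _ _ => Real.rpow_nonneg (abs_nonneg _) _
  rcases lt_trichotomy p 2 with h | h | h
  · have hpq := Real.HolderConjugate.conjExponent hp
    refine ⟨max 1 (((2 * p.conjExponent) ^ (p.conjExponent + 1)) ^ (p / p.conjExponent)),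
      le_max_left _ _, fun c ε hε n => ?_⟩
    exact (burk_lt hp h hpq c ε hε n).trans
      (mul_le_mul_of_nonneg_right (le_max_right _ _) (hpos c n))
  · subst h
    exact ⟨1, le_rfl, fun c ε hε n => by rw [one_mul]; exact burk_two c ε hε n⟩
  · refine ⟨max 1 ((2 * p) ^ (p + 1)), le_max_left _ _, fun c ε hε n => ?_⟩
    exact (burk_gt h c ε hε n).trans
      (mul_le_mul_of_nonneg_right (le_max_right _ _) (hpos c n))

end Pool.Agent.W693.G
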