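import Mathlib
import Pool.Agent.W693.GD

set_option autoImplicit false
open Filter Topology

/-! Bounded multipliers of dyadic martingales. -/

namespace Pool.Agent.W693.G

theorem abs_rpow_convex {p : ℝ} (hp : 1 ≤ p) (u v θ : ℝ) (h0 : 0 ≤ θ) (h1 : θ ≤ 1) :
    |(1 - θ) * u + θ * v| ^ p ≤ (1 - θ) * |u| ^ p + θ * |v| ^ p := by
  have h2 : |(1 - θ) * u + θ * v| ≤ (1 - θ) * |u| + θ * |v| := by
    calc |(1 - θ) * u + θ * v| ≤ |(1 - θ) * u| + |θ * v| := abs_add_le _ _
      _ = (1 - θ) * |u| + θ * |v| := by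
        rw [abs_mul, abs_mul, abs_of_nonneg h0, abs_of_nonneg (by linarith : 0 ≤ 1 - θ)]
  have h3 := (convexOn_rpow hp).2 (Set.mem_Ici.2 (abs_nonneg u)) (Set.mem_Ici.2 (abs_nonneg v))
    (by linarith : 0 ≤ 1 - θ) h0 (by ring)
  simp only [smul_eq_mul] at h3
  exact (Real.rpow_le_rpow (abs_nonneg _) h2 (by linarith)).trans h3

/-- real multipliers -/
theorem burk_real {p : ℝ} (hp : 1 < p) : ∃ C : ℝ, 1 ≤ C ∧ ∀ (c m : Ix → ℝ),
    (∀ i, |m i| ≤ 1) → ∀ n : ℕ,
    ∑ k ∈ Finset.range (2 ^ n), |arr (fun i => m i * c i) n k| ^ p ≤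
      C * ∑ k ∈ Finset.range (2 ^ n), |arr c n k| ^ p := by
  classical
  obtain ⟨C, hC1, hC⟩ := burk_sign hp
  refine ⟨C, hC1, fun c m hm n => ?_⟩
  -- induction on the set where `m` is not a sign
  have key : ∀ T : Finset Ix, ∀ m : Ix → ℝ, (∀ i, |m i| ≤ 1) →
      (∀ i, i ∉ T → m i = 1 ∨ m i = -1) →
      ∑ k ∈ Finset.range (2 ^ n), |arr (fun i => m i * c i) n k| ^ p ≤
      C * ∑ k ∈ Finset.range (2 ^ n), |arr c n k| ^ p := by
    intro T
    induction T using Finset.induction_on with
    | empty =>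
      intro m _ h
      exact hC c m (fun i => h i (by simp)) n
    | insert j T _ ih =>
      intro m hm h
      set m1 : Ix → ℝ := Function.update m j 1 with hm1
      set m2 : Ix → ℝ := Function.update m j (-1) with hm2
      have b1 := ih m1 (fun i => by
        by_cases hi : i = j
        · subst hi; rw [hm1, Function.update_self]; simp
        · rw [hm1, Function.update_of_ne hi]; exact hm i) (fun i hi => by
        by_cases hij : i = j
        · subst hij; rw [hm1, Function.update_self]; simp
        · rw [hm1, Function.update_of_ne hij]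
          exact h i (by rw [Finset.mem_insert, not_or]; exact ⟨hij, hi⟩))
      have b2 := ih m2 (fun i => by
        by_cases hi : i = j
        · subst hi; rw [hm2, Function.update_self]; simp
        · rw [hm2, Function.update_of_ne hi]; exact hm i) (fun i hi => by
        by_cases hij : i = j
        · subst hij; rw [hm2, Function.update_self]; simp
        · rw [hm2, Function.update_of_ne hij]
          exact h i (by rw [Finset.mem_insert, not_or]; exact ⟨hij, hi⟩))
      set θ := (1 - m j) / 2 with hθ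
      have hmj := abs_le.1 (hm j)
      have hθ0 : 0 ≤ θ := by rw [hθ]; linarith [hmj.2]
      have hθ1 : θ ≤ 1 := by rw [hθ]; linarith [hmj.1]
      have e1 : (fun i => m i * c i) = fun i => (1 - θ) * (m1 i * c i) + θ * (m2 i * c i) := by
        funext i
        by_cases hi : i = j
        · subst hi
          rw [hm1, hm2, Function.update_self, Function.update_self, hθ]; ring
        · rw [hm1, hm2, Function.update_of_ne hi, Function.update_of_ne hi]; ring
      have e2 : ∀ k, arr (fun i => m i * c i) n k =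
          (1 - θ) * arr (fun i => m1 i * c i) n k + θ * arr (fun i => m2 i * c i) n k := by
        intro k
        rw [e1, arr_add (fun i => (1 - θ) * (m1 i * c i)) (fun i => θ * (m2 i * c i))]
        congr 1
        · exact arr_map (AddMonoidHom.mulLeft (1 - θ)) (fun i => m1 i * c i) n k
        · exact arr_map (AddMonoidHom.mulLeft θ) (fun i => m2 i * c i) n k
      calc ∑ k ∈ Finset.range (2 ^ n), |arr (fun i => m i * c i) n k| ^ p
          ≤ ∑ k ∈ Finset.range (2 ^ n), ((1 - θ) * |arr (fun i => m1 i * c i) n k| ^ p +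
              θ * |arr (fun i => m2 i * c i) n k| ^ p) := by
            refine Finset.sum_le_sum fun k _ => ?_
            rw [e2]
            exact abs_rpow_convex hp.le _ _ _ hθ0 hθ1
        _ = (1 - θ) * ∑ k ∈ Finset.range (2 ^ n), |arr (fun i => m1 i * c i) n k| ^ p +
              θ * ∑ k ∈ Finset.range (2 ^ n), |arr (fun i => m2 i * c i) n k| ^ p := by
            rw [Finset.sum_add_distrib, Finset.mul_sum, Finset.mul_sum]
        _ ≤ (1 - θ) * (C * ∑ k ∈ Finset.range (2 ^ n), |arr c n k| ^ p) +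
              θ * (C * ∑ k ∈ Finset.range (2 ^ n), |arr c n k| ^ p) := by
            apply add_le_add
            · exact mul_le_mul_of_nonneg_left b1 (by linarith)
            · exact mul_le_mul_of_nonneg_left b2 hθ0
        _ = C * ∑ k ∈ Finset.range (2 ^ n), |arr c n k| ^ p := by ring
  -- restrict to finitely many coefficients
  set T : Finset Ix := insert none (((Finset.range n) ×ˢ (Finset.range (2 ^ n))).image some)
    with hT
  set m' : Ix → ℝ := fun i => if i ∈ T then m i else 1 with hm'
  have h1 := key T m' (fun i => by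
    rw [hm']; simp only; split_ifs
    · exact hm i
    · simp) (fun i hi => by rw [hm']; simp only; rw [if_neg hi]; exact Or.inl rfl)
  have h2 : ∑ k ∈ Finset.range (2 ^ n), |arr (fun i => m i * c i) n k| ^ p =
      ∑ k ∈ Finset.range (2 ^ n), |arr (fun i => m' i * c i) n k| ^ p := by
    refine Finset.sum_congr rfl fun k hk => ?_
    congr 2
    apply arr_congr' _ _ _ _ _ _ (Finset.mem_range.1 hk)
    · simp only [hm', hT]
      rw [if_pos (Finset.mem_insert_self _ _)]
    · intro l k hl hk
      have : (some (l, k) : Ix) ∈ T := by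
        rw [hT, Finset.mem_insert, Finset.mem_image]
        right
        refine ⟨(l, k), ?_, rfl⟩
        rw [Finset.mem_product, Finset.mem_range, Finset.mem_range]
        exact ⟨hl, hk.trans_le (Nat.pow_le_pow_right (by norm_num) hl.le)⟩
      simp only [hm']
      rw [if_pos this]
  rw [h2]
  exact h1

variable {𝕜 : Type} [RCLike 𝕜]

theorem norm_le_re_im (z : 𝕜) : ‖z‖ ≤ |RCLike.re z| + |RCLike.im z| := by
  have h := RCLike.norm_sq_eq_def (z := z)
  have h1 := abs_nonneg (RCLike.re z)
  have h2 := abs_nonneg (RCLike.im z)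
  have h3 := abs_mul_abs_self (RCLike.re z)
  have h4 := abs_mul_abs_self (RCLike.im z)
  have h5 : ‖z‖ ^ 2 ≤ (|RCLike.re z| + |RCLike.im z|) ^ 2 := by nlinarith [mul_nonneg h1 h2]
  exact le_of_sq_le_sq h5 (by positivity)

theorem rpow_add4 {p : ℝ} (hp : 0 ≤ p) {a b c d : ℝ} (ha : 0 ≤ a) (hb : 0 ≤ b) (hc : 0 ≤ c)
    (hd : 0 ≤ d) : (a + b + c + d) ^ p ≤ 4 ^ p * (a ^ p + b ^ p + c ^ p + d ^ p) := by
  set M := max (max a b) (max c d) with hM
  have hM0 : 0 ≤ M := ha.trans ((le_max_left _ _).trans (le_max_left _ _))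
  have h1 : a + b + c + d ≤ 4 * M := by
    have h1 : a ≤ M := (le_max_left _ _).trans (le_max_left _ _)
    have h2 : b ≤ M := (le_max_right _ _).trans (le_max_left _ _)
    have h3 : c ≤ M := (le_max_left _ _).trans (le_max_right _ _)
    have h4 : d ≤ M := (le_max_right _ _).trans (le_max_right _ _)
    linarith
  have pa := Real.rpow_nonneg ha p
  have pb := Real.rpow_nonneg hb p
  have pc := Real.rpow_nonneg hc p
  have pd := Real.rpow_nonneg hd p
  have h2 : M ^ p ≤ a ^ p + b ^ p + c ^ p + d ^ p := by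
    rcases max_choice (max a b) (max c d) with h | h
    · rcases max_choice a b with h' | h'
      · rw [hM, h, h']; linarith
      · rw [hM, h, h']; linarith
    · rcases max_choice c d with h' | h'
      · rw [hM, h, h']; linarith
      · rw [hM, h, h']; linarith
  calc (a + b + c + d) ^ p ≤ (4 * M) ^ p := Real.rpow_le_rpow (by positivity) h1 hp
    _ = 4 ^ p * M ^ p := Real.mul_rpow (by norm_num) hM0
    _ ≤ _ := mul_le_mul_of_nonneg_left h2 (by positivity)

/-- multipliers with values in `𝕜` -/
theorem burk_mult {p : ℝ} (hp : 1 < p) : ∃ C : ℝ, 1 ≤ C ∧ ∀ (c m : Ix → 𝕜),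
    (∀ i, ‖m i‖ ≤ 1) → ∀ n : ℕ,
    ∑ k ∈ Finset.range (2 ^ n), ‖arr (fun i => m i * c i) n k‖ ^ p ≤
      C * ∑ k ∈ Finset.range (2 ^ n), ‖arr c n k‖ ^ p := by
  obtain ⟨C, hC1, hC⟩ := burk_real hp
  have h4 : (1 : ℝ) ≤ 4 ^ p := Real.one_le_rpow (by norm_num) (by linarith)
  refine ⟨4 ^ p * (4 * C), by nlinarith, fun c m hm n => ?_⟩
  set S := ∑ k ∈ Finset.range (2 ^ n), ‖arr c n k‖ ^ p with hS
  -- real and imaginary parts
  have hre : ∑ k ∈ Finset.range (2 ^ n), |arr (fun i => RCLike.re (c i)) n k| ^ p ≤ S := by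
    refine Finset.sum_le_sum fun k _ => ?_
    have e : arr (fun i => RCLike.re (c i)) n k = RCLike.re (arr c n k) :=
      arr_map (RCLike.re : 𝕜 →+ ℝ) c n k
    rw [e]
    exact Real.rpow_le_rpow (abs_nonneg _) (RCLike.abs_re_le_norm _) (by linarith)
  have him : ∑ k ∈ Finset.range (2 ^ n), |arr (fun i => RCLike.im (c i)) n k| ^ p ≤ S := by
    refine Finset.sum_le_sum fun k _ => ?_
    have e : arr (fun i => RCLike.im (c i)) n k = RCLike.im (arr c n k) :=
      arr_map (RCLike.im : 𝕜 →+ ℝ) c n k
    rw [e]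
    exact Real.rpow_le_rpow (abs_nonneg _) (RCLike.abs_im_le_norm _) (by linarith)
  have hmr : ∀ i, |RCLike.re (m i)| ≤ 1 := fun i => (RCLike.abs_re_le_norm _).trans (hm i)
  have hmi : ∀ i, |RCLike.im (m i)| ≤ 1 := fun i => (RCLike.abs_im_le_norm _).trans (hm i)
  set t1 := fun k => arr (fun i => RCLike.re (m i) * RCLike.re (c i)) n k with ht1
  set t2 := fun k => arr (fun i => RCLike.im (m i) * RCLike.im (c i)) n k with ht2
  set t3 := fun k => arr (fun i => RCLike.re (m i) * RCLike.im (c i)) n k with ht3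
  set t4 := fun k => arr (fun i => RCLike.im (m i) * RCLike.re (c i)) n k with ht4
  have b1 := (hC (fun i => RCLike.re (c i)) (fun i => RCLike.re (m i)) hmr n).trans
    (mul_le_mul_of_nonneg_left hre (by linarith))
  have b2 := (hC (fun i => RCLike.im (c i)) (fun i => RCLike.im (m i)) hmi n).trans
    (mul_le_mul_of_nonneg_left him (by linarith))
  have b3 := (hC (fun i => RCLike.im (c i)) (fun i => RCLike.re (m i)) hmr n).trans
    (mul_le_mul_of_nonneg_left him (by linarith))
  have b4 := (hC (fun i => RCLike.re (c i)) (fun i => RCLike.im (m i)) hmi n).trans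
    (mul_le_mul_of_nonneg_left hre (by linarith))
  have hk : ∀ k, ‖arr (fun i => m i * c i) n k‖ ≤ |t1 k| + |t2 k| + |t3 k| + |t4 k| := by
    intro k
    have er : RCLike.re (arr (fun i => m i * c i) n k) = t1 k - t2 k := by
      have e : arr (fun i => RCLike.re (m i * c i)) n k =
        RCLike.re (arr (fun i => m i * c i) n k) := arr_map (RCLike.re : 𝕜 →+ ℝ) _ n k
      rw [← e, ht1, ht2]
      simp only
      rw [← arr_sub]
      congr 1
      funext i
      rw [RCLike.mul_re]
    have ei : RCLike.im (arr (fun i => m i * c i) n k) = t3 k + t4 k := by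
      have e : arr (fun i => RCLike.im (m i * c i)) n k =
        RCLike.im (arr (fun i => m i * c i) n k) := arr_map (RCLike.im : 𝕜 →+ ℝ) _ n k
      rw [← e, ht3, ht4]
      simp only
      rw [← arr_add]
      congr 1
      funext i
      rw [RCLike.mul_im]
    calc ‖arr (fun i => m i * c i) n k‖ ≤ |RCLike.re (arr (fun i => m i * c i) n k)| +
          |RCLike.im (arr (fun i => m i * c i) n k)| := norm_le_re_im _
      _ ≤ (|t1 k| + |t2 k|) + (|t3 k| + |t4 k|) := by
          rw [er, ei]
          exact add_le_add (abs_sub _ _) (abs_add_le _ _)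
      _ = _ := by ring
  calc ∑ k ∈ Finset.range (2 ^ n), ‖arr (fun i => m i * c i) n k‖ ^ p
      ≤ ∑ k ∈ Finset.range (2 ^ n),
          4 ^ p * (|t1 k| ^ p + |t2 k| ^ p + |t3 k| ^ p + |t4 k| ^ p) := by
        refine Finset.sum_le_sum fun k _ => ?_
        exact (Real.rpow_le_rpow (norm_nonneg _) (hk k) (by linarith)).trans
          (rpow_add4 (by linarith) (abs_nonneg _) (abs_nonneg _) (abs_nonneg _) (abs_nonneg _))
    _ = 4 ^ p * (∑ k ∈ Finset.range (2 ^ n), |t1 k| ^ p + ∑ k ∈ Finset.range (2 ^ n), |t2 k| ^ p +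
          ∑ k ∈ Finset.range (2 ^ n), |t3 k| ^ p + ∑ k ∈ Finset.range (2 ^ n), |t4 k| ^ p) := by
        rw [← Finset.mul_sum, Finset.sum_add_distrib, Finset.sum_add_distrib,
          Finset.sum_add_distrib]
    _ ≤ 4 ^ p * (C * S + C * S + C * S + C * S) := by
        apply mul_le_mul_of_nonneg_left _ (by positivity)
        exact add_le_add (add_le_add (add_le_add b1 b2) b3) b4
    _ = 4 ^ p * (4 * C) * S := by ring

end Pool.Agent.W693.G
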