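import Mathlib
import Pool.Agent.W693.GE

set_option autoImplicit false
open Filter Topology MeasureTheory
open scoped ENNReal

/-! Dyadic step functions on the unit interval. -/

namespace Pool.Agent.W693.G

/-- Lebesgue measure on `[0,1]` -/
noncomputable def mu : Measure ℝ := volume.restrict (Set.Icc (0 : ℝ) 1)

theorem mu_eq : mu = volume.restrict (Set.Ico (0 : ℝ) 1) := by
  unfold mu
  exact (Measure.restrict_congr_set Ico_ae_eq_Icc).symm

instance : IsProbabilityMeasure mu := by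
  constructor
  unfold mu
  simp

/-- the index of the dyadic cell of length `2 ^ (-n)` -/
noncomputable def cell (n : ℕ) (x : ℝ) : ℕ := ⌊2 ^ n * x⌋₊

theorem measurable_cell (n : ℕ) : Measurable (cell n) :=
  Nat.measurable_floor.comp (measurable_const.mul measurable_id)

theorem cell_half (n : ℕ) (x : ℝ) : cell (n + 1) x / 2 = cell n x := by
  unfold cell
  rw [← Nat.floor_div_ofNat]
  congr 1
  rw [pow_succ]
  simp only [OfNat.ofNat]
  ring_nf

/-- the points of the unit interval in a cell -/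
theorem cell_preimage (n j : ℕ) (hj : j < 2 ^ n) : cell n ⁻¹' {j} ∩ Set.Ico (0 : ℝ) 1 =
    Set.Ico ((j : ℝ) / 2 ^ n) ((j + 1) / 2 ^ n) := by
  have h2 : (0 : ℝ) < 2 ^ n := by positivity
  ext x
  simp only [Set.mem_inter_iff, Set.mem_preimage, Set.mem_singleton_iff, Set.mem_Ico]
  rw [div_le_iff₀ h2, lt_div_iff₀ h2, mul_comm x]
  constructor
  · rintro ⟨h, h0, h1⟩
    unfold cell at h
    rw [Nat.floor_eq_iff (by positivity)] at h
    exact h
  · rintro ⟨h, h'⟩
    have hx0 : 0 ≤ x := by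
      have : (0 : ℝ) ≤ 2 ^ n * x := (Nat.cast_nonneg j).trans h
      exact nonneg_of_mul_nonneg_right this h2
    refine ⟨?_, hx0, ?_⟩
    · unfold cell
      rw [Nat.floor_eq_iff (by positivity)]
      exact ⟨h, h'⟩
    · have h3 : (j : ℝ) + 1 ≤ 2 ^ n := by exact_mod_cast hj
      have h4 : 2 ^ n * x < 2 ^ n * 1 := by linarith
      exact lt_of_mul_lt_mul_left h4 h2.le

theorem cell_lt (n : ℕ) (x : ℝ) (hx : x ∈ Set.Ico (0 : ℝ) 1) : cell n x < 2 ^ n := by
  unfold cell
  rw [Nat.floor_lt (by have := hx.1; positivity)]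
  push_cast
  have h2 : (0 : ℝ) < 2 ^ n := by positivity
  nlinarith [hx.2]

/-- the law of the cell index -/
theorem map_cell (n : ℕ) : mu.map (cell n) =
    ∑ k ∈ Finset.range (2 ^ n), (ENNReal.ofReal ((1 / 2) ^ n)) • Measure.dirac k := by
  rw [Measure.ext_iff_singleton]
  intro j
  rw [Measure.map_apply (measurable_cell n) (measurableSet_singleton j), mu_eq,
    Measure.restrict_apply (measurable_cell n (measurableSet_singleton j)),
    Measure.finsetSum_apply]
  by_cases hj : j < 2 ^ n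
  · rw [cell_preimage n j hj, Real.volume_Ico, Finset.sum_eq_single j]
    · rw [Measure.smul_apply, Measure.dirac_apply' _ (measurableSet_singleton j)]
      simp only [Set.mem_singleton_iff, Set.indicator_of_mem, Pi.one_apply, smul_eq_mul, mul_one]
      congr 1
      rw [one_div, inv_pow]
      ring
    · intro b _ hb
      rw [Measure.smul_apply, Measure.dirac_apply' _ (measurableSet_singleton j)]
      simp [hb]
    · intro h
      exact absurd (Finset.mem_range.2 hj) h
  · have h1 : cell n ⁻¹' {j} ∩ Set.Ico (0 : ℝ) 1 = ∅ := by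
      ext x
      simp only [Set.mem_inter_iff, Set.mem_preimage, Set.mem_singleton_iff, Set.mem_empty_iff_false,
        iff_false, not_and]
      intro h h'
      exact hj (h ▸ cell_lt n x h')
    rw [h1, measure_empty]
    symm
    apply Finset.sum_eq_zero
    intro b hb
    rw [Measure.smul_apply, Measure.dirac_apply' _ (measurableSet_singleton j)]
    have : b ≠ j := by rintro rfl; exact hj (Finset.mem_range.1 hb)
    simp [this]

/-- integrals of step functions -/
theorem int_step {E : Type} [NormedAddCommGroup E] [NormedSpace ℝ E] [CompleteSpace E] (n : ℕ)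
    (φ : ℕ → E) : ∫ x, φ (cell n x) ∂mu = (1 / 2 : ℝ) ^ n • ∑ k ∈ Finset.range (2 ^ n), φ k := by
  have h1 : ∫ x, φ (cell n x) ∂mu = ∫ k, φ k ∂(mu.map (cell n)) := by
    rw [integral_map (measurable_cell n).aemeasurable]
    exact StronglyMeasurable.of_discrete.aestronglyMeasurable
  rw [h1, map_cell, integral_finsetSum_measure, Finset.smul_sum]
  · refine Finset.sum_congr rfl fun k _ => ?_
    rw [integral_smul_measure, integral_dirac, ENNReal.toReal_ofReal (by positivity)]
  · intro k _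
    apply Integrable.smul_measure _ ENNReal.ofReal_ne_top
    exact integrable_dirac (by simp)

theorem ae_cell_lt (n : ℕ) : ∀ᵐ x ∂mu, cell n x < 2 ^ n := by
  rw [mu_eq]
  exact (ae_restrict_mem measurableSet_Ico).mono fun x hx => cell_lt n x hx

section V
variable {𝕜 : Type} [RCLike 𝕜]

theorem memLp_step (p : ℝ≥0∞) (n : ℕ) (a : ℕ → 𝕜) : MemLp (fun x => a (cell n x)) p mu := by
  apply MemLp.of_bound (C := ∑ k ∈ Finset.range (2 ^ n), ‖a k‖)
  · exact ((StronglyMeasurable.of_discrete (f := a)).comp_measurable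
      (measurable_cell n)).aestronglyMeasurable
  · filter_upwards [ae_cell_lt n] with x hx
    exact Finset.single_le_sum (f := fun k => ‖a k‖) (fun _ _ => norm_nonneg _)
      (Finset.mem_range.2 hx)

/-- the step function with the values `a` on the dyadic cells of order `n` -/
noncomputable def V (p : ℝ≥0∞) (n : ℕ) (a : ℕ → 𝕜) : Lp 𝕜 p mu := (memLp_step p n a).toLp _

theorem V_coe (p : ℝ≥0∞) (n : ℕ) (a : ℕ → 𝕜) : V p n a =ᵐ[mu] fun x => a (cell n x) :=
  MemLp.coeFn_toLp _

theorem V_congr (p : ℝ≥0∞) (n : ℕ) {a b : ℕ → 𝕜} (h : ∀ k, k < 2 ^ n → a k = b k) :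
    V p n a = V p n b := by
  unfold V
  apply MemLp.toLp_congr
  filter_upwards [ae_cell_lt n] with x hx
  exact h _ hx

theorem V_half (p : ℝ≥0∞) (n : ℕ) (a : ℕ → 𝕜) : V p (n + 1) (fun k => a (k / 2)) = V p n a := by
  unfold V
  apply MemLp.toLp_congr
  filter_upwards with x
  simp only [cell_half]

theorem V_add (p : ℝ≥0∞) (n : ℕ) (a b : ℕ → 𝕜) : V p n (fun k => a k + b k) = V p n a + V p n b := by
  unfold V
  rw [← MemLp.toLp_add]
  rfl

theorem V_sub (p : ℝ≥0∞) (n : ℕ) (a b : ℕ → 𝕜) : V p n (fun k => a k - b k) = V p n a - V p n b := by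
  unfold V
  rw [← MemLp.toLp_sub]
  rfl

theorem V_smul (p : ℝ≥0∞) (n : ℕ) (c : 𝕜) (a : ℕ → 𝕜) :
    V p n (fun k => c * a k) = c • V p n a := by
  unfold V
  rw [← MemLp.toLp_const_smul]
  rfl

theorem V_zero (p : ℝ≥0∞) (n : ℕ) : V p n (fun _ => (0 : 𝕜)) = 0 := by
  have := V_smul p n (0 : 𝕜) (fun _ => (0 : 𝕜))
  simpa using this

theorem V_norm (p : ℝ≥0∞) [Fact (1 ≤ p)] (hp : p ≠ ∞) (n : ℕ) (a : ℕ → 𝕜) :
    ‖V p n a‖ = ((1 / 2 : ℝ) ^ n * ∑ k ∈ Finset.range (2 ^ n), ‖a k‖ ^ p.toReal) ^ p.toReal⁻¹ := by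
  have hp1 : (1 : ℝ≥0∞) ≤ p := Fact.out
  have hp0 : p ≠ 0 := (lt_of_lt_of_le one_pos hp1).ne'
  unfold V
  rw [Lp.norm_toLp, (memLp_step p n a).eLpNorm_eq_integral_rpow_norm hp0 hp,
    int_step n (fun k => ‖a k‖ ^ p.toReal), ENNReal.toReal_ofReal, smul_eq_mul]
  rw [smul_eq_mul]
  positivity

/-- step functions are dense -/
theorem V_dense (p : ℝ≥0∞) [Fact (1 ≤ p)] (hp : p ≠ ∞) (x : Lp 𝕜 p mu) (ε : ℝ) (hε : 0 < ε) :
    ∃ (N : ℕ) (a : ℕ → 𝕜), ‖x - V p N a‖ ≤ ε := by
  have : mu.Regular := by unfold mu; infer_instance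
  obtain ⟨g, hgc, hg1, hg2, hg3⟩ := (Lp.memLp x).exists_hasCompactSupport_eLpNorm_sub_le hp
    (ε := ENNReal.ofReal (ε / 2)) (by simp [hε])
  have huc : UniformContinuous g := hgc.uniformContinuous_of_continuous hg2
  rw [Metric.uniformContinuous_iff] at huc
  obtain ⟨δ, hδ, hδ2⟩ := huc (ε / 2) (by positivity)
  obtain ⟨N, hN⟩ := exists_pow_lt_of_lt_one hδ (by norm_num : (1 / 2 : ℝ) < 1)
  refine ⟨N, fun k => g (k / 2 ^ N), ?_⟩
  have h1 : ‖x - hg3.toLp g‖ ≤ ε / 2 := by
    have e : x - hg3.toLp g = ((Lp.memLp x).sub hg3).toLp _ := by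
      rw [MemLp.toLp_sub (Lp.memLp x) hg3, Lp.toLp_coeFn x (Lp.memLp x)]
    rw [e, Lp.norm_toLp]
    exact ENNReal.toReal_le_of_le_ofReal (by positivity) hg1
  have h2 : ‖hg3.toLp g - V p N (fun k => g (k / 2 ^ N))‖ ≤ ε / 2 := by
    unfold V
    rw [← MemLp.toLp_sub, Lp.norm_toLp]
    apply ENNReal.toReal_le_of_le_ofReal (by positivity)
    have hb : ∀ᵐ t ∂mu, ‖(g - fun x => g ((cell N x : ℝ) / 2 ^ N)) t‖ ≤ ε / 2 := by
      rw [mu_eq]
      filter_upwards [ae_restrict_mem measurableSet_Ico] with t ht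
      have h3 : dist t ((cell N t : ℝ) / 2 ^ N) < δ := by
        have h2 : (0 : ℝ) < 2 ^ N := by positivity
        have h4 : (cell N t : ℝ) ≤ 2 ^ N * t := Nat.floor_le (by have := ht.1; positivity)
        have h5 : 2 ^ N * t < (cell N t : ℝ) + 1 := Nat.lt_floor_add_one _
        have h6 : (1 / 2 : ℝ) ^ N * 2 ^ N = 1 := by rw [← mul_pow]; norm_num
        rw [Real.dist_eq, abs_lt]
        constructor
        · have : (cell N t : ℝ) / 2 ^ N ≤ t := by rw [div_le_iff₀ h2]; linarith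
          linarith
        · have : t < ((cell N t : ℝ) + 1) / 2 ^ N := by rw [lt_div_iff₀ h2]; linarith
          have e : ((cell N t : ℝ) + 1) / 2 ^ N = (cell N t : ℝ) / 2 ^ N + (1 / 2) ^ N := by
            rw [add_div]; congr 1; rw [one_div_pow]
          linarith
      have h7 := hδ2 h3
      rw [dist_eq_norm] at h7
      exact h7.le
    refine (eLpNorm_le_of_ae_bound hb).trans ?_
    rw [measure_univ, ENNReal.one_rpow, one_mul]
  calc ‖x - V p N (fun k => g (k / 2 ^ N))‖
      = ‖(x - hg3.toLp g) + (hg3.toLp g - V p N (fun k => g (k / 2 ^ N)))‖ := by congr 1; abel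
    _ ≤ ε / 2 + ε / 2 := (norm_add_le _ _).trans (add_le_add h1 h2)
    _ = ε := by ring

end V

end Pool.Agent.W693.G
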