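import Mathlib
import Pool.Agent.W693.GE

set_option autoImplicit false
open Filter Topology
open scoped ENNReal

/-! Haar indices, biorthogonality and democracy for arrays. -/

namespace Pool.Agent.W693.G

/-- indices of the Haar functions -/
abbrev HIx : Type := Option (Σ n : ℕ, Fin (2 ^ n))

def emb : HIx → Ix
  | none => none
  | some ⟨n, k⟩ => some (n, k.1)

theorem emb_inj : Function.Injective emb := by
  rintro (_ | ⟨n, k⟩) (_ | ⟨m, l⟩) h
  · rfl
  · simp [emb] at h
  · simp [emb] at h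
  · simp only [emb, Option.some.injEq, Prod.mk.injEq] at h
    obtain ⟨rfl, h⟩ := h
    have : k = l := Fin.ext h
    rw [this]

def lev : HIx → ℕ
  | none => 0
  | some ⟨n, _⟩ => n + 1

/-- all the indices of level below `N` -/
def LS (N : ℕ) : Finset HIx :=
  Finset.insertNone ((Finset.range N).sigma fun n => (Finset.univ : Finset (Fin (2 ^ n))))

theorem mem_LS (N : ℕ) (i : HIx) : i ∈ LS N ↔ lev i ≤ N := by
  unfold LS
  rcases i with _ | ⟨n, k⟩
  · simp [lev]
  · simp only [lev, Finset.some_mem_insertNone, Finset.mem_sigma, Finset.mem_range,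
      Finset.mem_univ, and_true]
    omega

theorem sum_LS {M : Type} [AddCommMonoid M] (g : Ix → M) (N : ℕ) :
    ∑ i ∈ LS N, g (emb i) = g none + ∑ n ∈ Finset.range N, ∑ k ∈ Finset.range (2 ^ n),
      g (some (n, k)) := by
  unfold LS
  rw [Finset.sum_insertNone, Finset.sum_sigma]
  congr 1
  refine Finset.sum_congr rfl fun n _ => ?_
  rw [← Fin.sum_univ_eq_sum_range (fun k => g (some (n, k)))]
  rfl

theorem LS_mono {M N : ℕ} (h : M ≤ N) : LS M ⊆ LS N := by
  intro i hi
  rw [mem_LS] at *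
  omega

theorem subset_LS (A : Finset HIx) : ∃ N, A ⊆ LS N := by
  refine ⟨A.sup lev, fun i hi => ?_⟩
  rw [mem_LS]
  exact Finset.le_sup hi

section arr
variable {V : Type} [AddCommGroup V]

theorem arr_zero_fun (n k : ℕ) : arr (fun _ => (0 : V)) n k = 0 := by
  induction n generalizing k with
  | zero => rfl
  | succ n ih => rw [arr, ih]; simp

theorem arr_sum {κ : Type} (S : Finset κ) (F : κ → Ix → V) (n k : ℕ) :
    arr (fun j => ∑ i ∈ S, F i j) n k = ∑ i ∈ S, arr (F i) n k := by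
  classical
  induction S using Finset.induction_on with
  | empty => simp [arr_zero_fun]
  | insert a S ha ih =>
    rw [Finset.sum_insert ha, ← ih, ← arr_add]
    congr 1
    funext j
    rw [Finset.sum_insert ha]

end arr

theorem arr_mul {R : Type} [CommRing R] (a : R) (c : Ix → R) (n k : ℕ) :
    arr (fun j => a * c j) n k = a * arr c n k :=
  arr_map (AddMonoidHom.mulLeft a) c n k

/-- only the first coefficients matter -/
theorem arr_single_succ {V : Type} [AddCommGroup V] (i : HIx) (w : V) (N : ℕ) (hN : lev i ≤ N)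
    (k : ℕ) : arr (Pi.single (emb i) w) (N + 1) k = arr (Pi.single (emb i) w) N (k / 2) := by
  have h : (Pi.single (emb i) w : Ix → V) (some (N, k / 2)) = 0 := by
    apply Pi.single_eq_of_ne
    intro h
    rcases i with _ | ⟨n, l⟩
    · simp [emb] at h
    · simp only [emb, Option.some.injEq, Prod.mk.injEq] at h
      simp only [lev] at hN
      omega
  rw [arr, h]
  simp

/-- expansion of an array -/
theorem arr_expand {R : Type} [CommRing R] (w c : Ix → R) (N k : ℕ) (hk : k < 2 ^ N) :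
    arr (fun j => w j * c j) N k =
      ∑ i ∈ LS N, c (emb i) * arr (Pi.single (emb i) (w (emb i))) N k := by
  simp_rw [← arr_mul]
  rw [← arr_sum]
  have key : ∀ i0 : HIx, i0 ∈ LS N → w (emb i0) * c (emb i0) =
      ∑ i ∈ LS N, c (emb i) * (Pi.single (emb i) (w (emb i)) : Ix → R) (emb i0) := by
    intro i0 h0
    rw [Finset.sum_eq_single i0]
    · rw [Pi.single_eq_same, mul_comm]
    · intro b _ hb
      rw [Pi.single_eq_of_ne, mul_zero]
      intro h
      exact hb (emb_inj h.symm)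
    · intro h; exact absurd h0 h
  apply arr_congr' _ _ _ _ _ _ hk
  · exact key none (by rw [mem_LS]; exact Nat.zero_le _)
  · intro m l hm hl
    exact key (some ⟨m, ⟨l, hl⟩⟩) (by rw [mem_LS]; exact hm)

/-- the bilinear identity for fields -/
theorem bilinF {F : Type} [Field F] [CharZero F] (c c' : Ix → F) (n : ℕ) :
    ∑ k ∈ Finset.range (2 ^ n), arr c n k * arr c' n k = 2 ^ n * (c none * c' none +
      ∑ j ∈ Finset.range n, ∑ k ∈ Finset.range (2 ^ j),
        (1 / 2) ^ j * (c (some (j, k)) * c' (some (j, k)))) := by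
  induction n with
  | zero => simp [arr]
  | succ n ih =>
    rw [sum_level]
    have h1 : ∀ k ∈ Finset.range (2 ^ n),
        arr c (n + 1) (2 * k) * arr c' (n + 1) (2 * k) +
          arr c (n + 1) (2 * k + 1) * arr c' (n + 1) (2 * k + 1) =
        2 * (arr c n k * arr c' n k) + 2 * (c (some (n, k)) * c' (some (n, k))) := by
      intro k _
      rw [arr_even, arr_even, arr_odd, arr_odd]; ring
    rw [Finset.sum_congr rfl h1, Finset.sum_add_distrib, ← Finset.mul_sum, ← Finset.mul_sum, ih,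
      Finset.sum_range_succ, ← Finset.mul_sum]
    have h2 : (1 / 2 : F) ^ n * 2 ^ n = 1 := by
      rw [← mul_pow, one_div, inv_mul_cancel₀ (two_ne_zero), one_pow]
    have h3 : (2 : F) ^ (n + 1) = 2 * 2 ^ n := by ring
    rw [h3]
    linear_combination (-2 * ∑ k ∈ Finset.range (2 ^ n), c (some (n, k)) * c' (some (n, k))) * h2

/-- the pairing in terms of Haar indices -/
theorem pairLS {F : Type} [Field F] [CharZero F] (c c' : Ix → F) (w : Ix → F)
    (hw0 : w none = 1) (hw : ∀ j k, w (some (j, k)) = (1 / 2) ^ j) (n : ℕ) :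
    (1 / 2) ^ n * ∑ k ∈ Finset.range (2 ^ n), arr c n k * arr c' n k =
      ∑ i ∈ LS n, w (emb i) * (c (emb i) * c' (emb i)) := by
  rw [bilinF, sum_LS (fun i => w i * (c i * c' i)), hw0, one_mul]
  have h2 : (1 / 2 : F) ^ n * 2 ^ n = 1 := by
    rw [← mul_pow, one_div, inv_mul_cancel₀ (two_ne_zero), one_pow]
  rw [← mul_assoc, h2, one_mul]
  simp_rw [hw]

/-- the weights of the normalised Haar system -/
noncomputable def wt (q : ℝ) : Ix → ℝ
  | none => 1
  | some (n, _) => ((2 : ℝ) ^ n) ^ (1 / q)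

theorem wt_pos (q : ℝ) (i : Ix) : 0 < wt q i := by
  rcases i with _ | ⟨n, k⟩
  · exact one_pos
  · exact Real.rpow_pos_of_pos (by positivity) _

/-- the counting array -/
def cnt (b : Ix → ℝ) : ℕ → ℕ → ℝ
  | 0, _ => b none
  | n + 1, k => cnt b n (k / 2) + 2 ^ n * b (some (n, k / 2))

theorem cnt_nonneg (b : Ix → ℝ) (hb : ∀ i, b i = 0 ∨ b i = 1) (n k : ℕ) : 0 ≤ cnt b n k := by
  have h0 : ∀ i, 0 ≤ b i := fun i => by rcases hb i with h | h <;> rw [h] <;> norm_num
  induction n generalizing k with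
  | zero => exact h0 _
  | succ n ih =>
    rw [cnt]
    have := ih (k / 2)
    have := h0 (some (n, k / 2))
    positivity

theorem cnt_sum (b : Ix → ℝ) (n : ℕ) : ∑ k ∈ Finset.range (2 ^ n), cnt b n k =
    2 ^ n * ∑ i ∈ LS n, b (emb i) := by
  rw [sum_LS]
  induction n with
  | zero => simp [cnt]
  | succ n ih =>
    rw [sum_level]
    have h1 : ∀ k ∈ Finset.range (2 ^ n), cnt b (n + 1) (2 * k) + cnt b (n + 1) (2 * k + 1) =
        2 * cnt b n k + 2 * 2 ^ n * b (some (n, k)) := by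
      intro k _
      rw [cnt, cnt, show 2 * k / 2 = k by omega, show (2 * k + 1) / 2 = k by omega]
      ring
    rw [Finset.sum_congr rfl h1, Finset.sum_add_distrib, ← Finset.mul_sum, ← Finset.mul_sum, ih,
      Finset.sum_range_succ]
    ring

/-- pointwise bounds -/
theorem dem_pt {p : ℝ} (hp : 1 < p) : ∃ C : ℝ, 1 ≤ C ∧ ∀ b : Ix → ℝ, (∀ i, b i = 0 ∨ b i = 1) →
    ∀ n k, |arr (fun i => wt p i * b i) n k| ^ p ≤ C ^ p * cnt b n k := by
  have hp0 : 0 < p := by linarith
  set r : ℝ := 2 ^ (1 / p) with hr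
  have hr1 : 1 < r := Real.one_lt_rpow (by norm_num) (by positivity)
  set K : ℝ := 1 + 1 / (r - 1) with hK
  have hKpos : 0 < 1 / (r - 1) := by
    have : 0 < r - 1 := by linarith
    positivity
  have hK1 : 1 ≤ K := by linarith
  have hKr : K + 1 ≤ K * r := by
    have : 1 / (r - 1) * (r - 1) = 1 := one_div_mul_cancel (by linarith)
    have e : K * r = K + (r - 1) + 1 / (r - 1) * (r - 1) := by rw [hK]; ring
    rw [e, this]; linarith
  refine ⟨K + 1, by linarith, fun b hb => ?_⟩
  have hb0 : ∀ i, 0 ≤ b i := fun i => by rcases hb i with h | h <;> rw [h] <;> norm_num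
  have hb1 : ∀ i, b i ≤ 1 := fun i => by rcases hb i with h | h <;> rw [h] <;> norm_num
  have h1 : ∀ n k, |arr (fun i => wt p i * b i) n k| ≤ K * ((2 : ℝ) ^ n) ^ (1 / p) := by
    intro n
    induction n with
    | zero =>
      intro k
      rw [arr_zero, wt, one_mul, abs_of_nonneg (hb0 _), pow_zero, Real.one_rpow, mul_one]
      exact (hb1 _).trans hK1
    | succ n ih =>
      intro k
      have h2 : ((2 : ℝ) ^ (n + 1)) ^ (1 / p) = ((2 : ℝ) ^ n) ^ (1 / p) * r := by
        rw [pow_succ, Real.mul_rpow (by positivity) (by norm_num)]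
      have h3 : |wt p (some (n, k / 2)) * b (some (n, k / 2))| ≤ ((2 : ℝ) ^ n) ^ (1 / p) := by
        rw [abs_mul, abs_of_pos (wt_pos _ _), abs_of_nonneg (hb0 _), wt]
        exact mul_le_of_le_one_right (by positivity) (hb1 _)
      have h4 : |arr (fun i => wt p i * b i) (n + 1) k| ≤
          |arr (fun i => wt p i * b i) n (k / 2)| + |wt p (some (n, k / 2)) * b (some (n, k / 2))| := by
        rw [arr]
        split_ifs
        · exact abs_add_le _ _
        · exact abs_sub _ _
      have h5 := ih (k / 2)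
      have h6 : 0 < ((2 : ℝ) ^ n) ^ (1 / p) := by positivity
      rw [h2]
      nlinarith
  intro n
  induction n with
  | zero =>
    intro k
    rw [arr_zero, wt, one_mul, cnt]
    rcases hb none with h | h
    · rw [h, abs_zero, Real.zero_rpow hp0.ne', mul_zero]
    · rw [h, abs_one, Real.one_rpow, mul_one]
      exact Real.one_le_rpow (by linarith) hp0.le
  | succ n ih =>
    intro k
    rw [cnt]
    rcases hb (some (n, k / 2)) with h | h
    · have e : arr (fun i => wt p i * b i) (n + 1) k = arr (fun i => wt p i * b i) n (k / 2) := by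
        rw [arr, h]; simp
      rw [e, h, mul_zero, add_zero]
      exact ih _
    · have h4 : |arr (fun i => wt p i * b i) (n + 1) k| ≤
          |arr (fun i => wt p i * b i) n (k / 2)| + |wt p (some (n, k / 2)) * b (some (n, k / 2))| := by
        rw [arr]
        split_ifs
        · exact abs_add_le _ _
        · exact abs_sub _ _
      rw [h, mul_one, abs_of_pos (wt_pos _ _), wt] at h4
      have h5 := h1 n (k / 2)
      have h6 : |arr (fun i => wt p i * b i) (n + 1) k| ≤ (K + 1) * ((2 : ℝ) ^ n) ^ (1 / p) := by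
        linarith
      have h7 := Real.rpow_le_rpow (abs_nonneg _) h6 hp0.le
      rw [Real.mul_rpow (by linarith) (by positivity), ← Real.rpow_mul (by positivity),
        one_div_mul_cancel hp0.ne', Real.rpow_one] at h7
      have h8 := cnt_nonneg b hb n (k / 2)
      have h9 : (0 : ℝ) ≤ (K + 1) ^ p := by positivity
      calc _ ≤ (K + 1) ^ p * 2 ^ n := h7
        _ ≤ (K + 1) ^ p * (cnt b n (k / 2) + 2 ^ n * b (some (n, k / 2))) := by
          apply mul_le_mul_of_nonneg_left _ h9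
          rw [h]; linarith

/-- upper democracy -/
theorem dem_upper {p : ℝ} (hp : 1 < p) : ∃ C : ℝ, 1 ≤ C ∧ ∀ b : Ix → ℝ, (∀ i, b i = 0 ∨ b i = 1) →
    ∀ n, (1 / 2 : ℝ) ^ n * ∑ k ∈ Finset.range (2 ^ n), |arr (fun i => wt p i * b i) n k| ^ p ≤
      C ^ p * ∑ i ∈ LS n, b (emb i) := by
  obtain ⟨C, hC1, hC⟩ := dem_pt hp
  refine ⟨C, hC1, fun b hb n => ?_⟩
  have h2 : (1 / 2 : ℝ) ^ n * 2 ^ n = 1 := by rw [← mul_pow]; norm_num
  calc (1 / 2 : ℝ) ^ n * ∑ k ∈ Finset.range (2 ^ n), |arr (fun i => wt p i * b i) n k| ^ p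
      ≤ (1 / 2 : ℝ) ^ n * ∑ k ∈ Finset.range (2 ^ n), C ^ p * cnt b n k := by
        apply mul_le_mul_of_nonneg_left _ (by positivity)
        exact Finset.sum_le_sum fun k _ => hC b hb n k
    _ = (1 / 2 : ℝ) ^ n * 2 ^ n * (C ^ p * ∑ i ∈ LS n, b (emb i)) := by
        rw [← Finset.mul_sum, cnt_sum]; ring
    _ = _ := by rw [h2, one_mul]

/-- lower democracy -/
theorem dem_lower {p q : ℝ} (hpq : p.HolderConjugate q) : ∃ C : ℝ, 1 ≤ C ∧ ∀ b : Ix → ℝ,
    (∀ i, b i = 0 ∨ b i = 1) → ∀ n, ∑ i ∈ LS n, b (emb i) ≤ C ^ p * ((1 / 2 : ℝ) ^ n *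
      ∑ k ∈ Finset.range (2 ^ n), |arr (fun i => wt p i * b i) n k| ^ p) := by
  have hp0 := hpq.pos
  have hq0 := hpq.symm.pos
  obtain ⟨C, hC1, hC⟩ := dem_upper hpq.symm.lt
  refine ⟨C, hC1, fun b hb n => ?_⟩
  have hb0 : ∀ i, 0 ≤ b i := fun i => by rcases hb i with h | h <;> rw [h] <;> norm_num
  set m := ∑ i ∈ LS n, b (emb i) with hm
  have hm0 : 0 ≤ m := Finset.sum_nonneg fun _ _ => hb0 _
  set A := ∑ k ∈ Finset.range (2 ^ n), |arr (fun i => wt p i * b i) n k| ^ p with hA
  set B := ∑ k ∈ Finset.range (2 ^ n), |arr (fun i => wt q i * b i) n k| ^ q with hB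
  have hA0 : 0 ≤ A := Finset.sum_nonneg fun _ _ => Real.rpow_nonneg (abs_nonneg _) _
  have hB0 : 0 ≤ B := Finset.sum_nonneg fun _ _ => Real.rpow_nonneg (abs_nonneg _) _
  have h1 : ((1 / 2 : ℝ) ^ n) * ∑ k ∈ Finset.range (2 ^ n), arr (fun i => wt p i * b i) n k *
      arr (fun i => wt q i * b i) n k = m := by
    rw [pairLS _ _ (fun i => match i with | none => 1 | some (j, _) => (1 / 2) ^ j) rfl
      (fun _ _ => rfl)]
    refine Finset.sum_congr rfl fun i _ => ?_
    have hbb : b (emb i) * b (emb i) = b (emb i) := by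
      rcases hb (emb i) with h | h <;> rw [h] <;> norm_num
    rcases i with _ | ⟨j, k⟩
    · simp only [emb, wt, one_mul] at *
      exact hbb
    · simp only [emb, wt] at *
      have h3 : ((2 : ℝ) ^ j) ^ (1 / p) * ((2 : ℝ) ^ j) ^ (1 / q) = 2 ^ j := by
        rw [← Real.rpow_add (by positivity)]
        have : 1 / p + 1 / q = 1 := by
          have := hpq.inv_add_inv_eq_one
          rw [one_div, one_div]; exact this
        rw [this, Real.rpow_one]
      have h2 : (1 / 2 : ℝ) ^ j * 2 ^ j = 1 := by rw [← mul_pow]; norm_num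
      calc _ = (1 / 2 : ℝ) ^ j * (((2 : ℝ) ^ j) ^ (1 / p) * ((2 : ℝ) ^ j) ^ (1 / q)) *
            (b (some (j, k.1)) * b (some (j, k.1))) := by ring
        _ = _ := by rw [h3, h2, hbb, one_mul]
  have h2 := Real.inner_le_Lp_mul_Lq (Finset.range (2 ^ n)) (arr (fun i => wt p i * b i) n)
    (arr (fun i => wt q i * b i) n) hpq
  have h3 := hC b hb n
  rw [← hB, ← hm] at h3
  have hh : (0 : ℝ) < (1 / 2) ^ n := by positivity
  have hs : 1 / p + 1 / q = 1 := by
    have := hpq.inv_add_inv_eq_one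
    rw [one_div, one_div]; exact this
  have h4 : m ≤ ((1 / 2 : ℝ) ^ n * A) ^ (1 / p) * ((1 / 2 : ℝ) ^ n * B) ^ (1 / q) := by
    rw [← h1, Real.mul_rpow hh.le hA0, Real.mul_rpow hh.le hB0]
    calc _ ≤ (1 / 2 : ℝ) ^ n * (A ^ (1 / p) * B ^ (1 / q)) :=
          mul_le_mul_of_nonneg_left h2 hh.le
      _ = (((1 / 2 : ℝ) ^ n) ^ (1 / p) * ((1 / 2 : ℝ) ^ n) ^ (1 / q)) *
            (A ^ (1 / p) * B ^ (1 / q)) := by
          rw [← Real.rpow_add hh, hs, Real.rpow_one]
      _ = _ := by ring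
  have h5 : ((1 / 2 : ℝ) ^ n * B) ^ (1 / q) ≤ C * m ^ (1 / q) := by
    have := Real.rpow_le_rpow (by positivity) h3 (by positivity : 0 ≤ 1 / q)
    rw [Real.mul_rpow (by positivity) hm0, ← Real.rpow_mul (by linarith),
      mul_one_div_cancel hq0.ne', Real.rpow_one] at this
    exact this
  rcases hm0.eq_or_lt with h0 | h0
  · rw [← h0]; positivity
  have h6 : m ^ (1 / p) ≤ C * ((1 / 2 : ℝ) ^ n * A) ^ (1 / p) := by
    have h7 : m ^ (1 / p) * m ^ (1 / q) = m := by
      rw [← Real.rpow_add h0, hs, Real.rpow_one]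
    have h8 : 0 < m ^ (1 / q) := Real.rpow_pos_of_pos h0 _
    have h9 : m ^ (1 / p) * m ^ (1 / q) ≤ C * ((1 / 2 : ℝ) ^ n * A) ^ (1 / p) * m ^ (1 / q) := by
      rw [h7]
      calc m ≤ ((1 / 2 : ℝ) ^ n * A) ^ (1 / p) * ((1 / 2 : ℝ) ^ n * B) ^ (1 / q) := h4
        _ ≤ ((1 / 2 : ℝ) ^ n * A) ^ (1 / p) * (C * m ^ (1 / q)) := by gcongr
        _ = _ := by ring
    exact le_of_mul_le_mul_right h9 h8
  have h10 := Real.rpow_le_rpow (by positivity) h6 hp0.le
  rw [Real.mul_rpow (by linarith) (by positivity), ← Real.rpow_mul hm0,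
    ← Real.rpow_mul (by positivity), one_div_mul_cancel hp0.ne', Real.rpow_one,
    Real.rpow_one] at h10
  exact h10

end Pool.Agent.W693.G
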