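import Mathlib
import Pool.Agent.W693.GF
import Pool.Agent.W693.GG
import Pool.Agent.W693.GB

set_option autoImplicit false
open Filter Topology MeasureTheory
open scoped ENNReal

/-! The Haar system in `L_p`. -/

namespace Pool.Agent.W693.G

section
variable {𝕜 : Type} [RCLike 𝕜]

theorem V_sum (p : ℝ≥0∞) (n : ℕ) {κ : Type} (S : Finset κ) (F : κ → ℕ → 𝕜) :
    V p n (fun k => ∑ i ∈ S, F i k) = ∑ i ∈ S, V p n (F i) := by
  classical
  induction S using Finset.induction_on with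
  | empty => simp [V_zero]
  | insert a S ha ih =>
    rw [Finset.sum_insert ha, ← ih, ← V_add]
    congr 1
    funext k
    rw [Finset.sum_insert ha]

/-- the array of a Haar function -/
noncomputable def ha (𝕜 : Type) [RCLike 𝕜] (q : ℝ) (i : HIx) (N : ℕ) : ℕ → 𝕜 :=
  arr (Pi.single (emb i) ((wt q (emb i) : ℝ) : 𝕜)) N

/-- the Haar functions as elements of `L_p` -/
noncomputable def hv (𝕜 : Type) [RCLike 𝕜] (p : ℝ≥0∞) (i : HIx) : Lp 𝕜 p mu :=
  V p (lev i) (ha 𝕜 p.toReal i (lev i))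

theorem V_ha (p : ℝ≥0∞) (i : HIx) (N : ℕ) (hN : lev i ≤ N) :
    V p N (ha 𝕜 p.toReal i N) = hv 𝕜 p i := by
  induction N, hN using Nat.le_induction with
  | base => rfl
  | succ N hN ih =>
    rw [← ih, ← V_half p N]
    congr 1
    funext k
    exact arr_single_succ i _ N hN k

theorem V_expand (p : ℝ≥0∞) (c : Ix → 𝕜) (N : ℕ) :
    V p N (arr (fun j => ((wt p.toReal j : ℝ) : 𝕜) * c j) N) = ∑ i ∈ LS N, c (emb i) • hv 𝕜 p i := by
  have h1 : V p N (arr (fun j => ((wt p.toReal j : ℝ) : 𝕜) * c j) N) =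
      V p N (fun k => ∑ i ∈ LS N, c (emb i) * ha 𝕜 p.toReal i N k) := by
    apply V_congr
    intro k hk
    exact arr_expand _ c N k hk
  rw [h1, V_sum]
  refine Finset.sum_congr rfl fun i hi => ?_
  rw [V_smul, V_ha p i N ((mem_LS N i).1 hi)]

end

section pairing
variable {𝕜 : Type} [RCLike 𝕜] (p q : ℝ≥0∞) [Fact (1 ≤ p)] [Fact (1 ≤ q)] [p.HolderConjugate q]

/-- the coefficient functionals -/
noncomputable def fc (i : HIx) : Lp 𝕜 p mu →L[𝕜] 𝕜 :=
  ((ContinuousLinearMap.mul 𝕜 𝕜).lpPairing mu p q).flip (hv 𝕜 q i)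

theorem pair_V (N : ℕ) (a b : ℕ → 𝕜) :
    (ContinuousLinearMap.mul 𝕜 𝕜).lpPairing mu p q (V p N a) (V q N b) =
      (1 / 2 : 𝕜) ^ N * ∑ k ∈ Finset.range (2 ^ N), a k * b k := by
  rw [ContinuousLinearMap.lpPairing_eq_integral]
  have h1 : ∫ x, (ContinuousLinearMap.mul 𝕜 𝕜) (V p N a x) (V q N b x) ∂mu =
      ∫ x, (fun k => a k * b k) (cell N x) ∂mu := by
    apply integral_congr_ae
    filter_upwards [V_coe p N a, V_coe q N b] with x hx hy
    rw [hx, hy]
    rfl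
  rw [h1, int_step N (fun k => a k * b k), RCLike.real_smul_eq_coe_mul]
  push_cast
  rfl

theorem fc_hv (hp1 : 1 < p.toReal) (i j : HIx) : fc p q i (hv 𝕜 p j) = if i = j then 1 else 0 := by
  have hpq : p.toReal.HolderConjugate q.toReal :=
    (ENNReal.HolderConjugate.toReal_iff hp1).2 inferInstance
  set N := max (lev i) (lev j) with hN
  have hi : i ∈ LS N := by rw [mem_LS]; exact le_max_left _ _
  have hj : lev j ≤ N := le_max_right _ _
  unfold fc
  rw [ContinuousLinearMap.flip_apply, ← V_ha p j N hj, ← V_ha q i N (le_max_left _ _), pair_V]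
  unfold ha
  rw [pairLS _ _ (fun i => match i with | none => 1 | some (j, _) => (1 / 2) ^ j) rfl
      (fun _ _ => rfl)]
  rw [Finset.sum_eq_single i]
  · rw [Pi.single_eq_same]
    by_cases hij : i = j
    · subst hij
      rw [if_pos rfl, Pi.single_eq_same]
      rcases i with _ | ⟨n, k⟩
      · simp [emb, wt]
      · simp only [emb, wt]
        have h3 : ((2 : ℝ) ^ n) ^ (1 / p.toReal) * ((2 : ℝ) ^ n) ^ (1 / q.toReal) = 2 ^ n := by
          rw [← Real.rpow_add (by positivity)]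
          have : 1 / p.toReal + 1 / q.toReal = 1 := by
            have := hpq.inv_add_inv_eq_one
            rw [one_div, one_div]; exact this
          rw [this, Real.rpow_one]
        rw [← RCLike.ofReal_mul, h3]
        push_cast
        rw [← mul_pow, one_div, inv_mul_cancel₀ (two_ne_zero), one_pow]
    · rw [if_neg hij, Pi.single_eq_of_ne (fun h => hij (emb_inj h)), zero_mul, mul_zero]
  · intro b _ hb
    rw [Pi.single_eq_of_ne (i := emb i) (i' := emb b) (fun h => hb (emb_inj h)), mul_zero, mul_zero]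
  · intro h; exact absurd hi h

end pairing

section main
set_option linter.unusedSectionVars false
variable {𝕜 : Type} [RCLike 𝕜] (p q : ℝ≥0∞) [Fact (1 ≤ p)] [Fact (1 ≤ q)] [p.HolderConjugate q]

theorem ne_top_of (hp1 : 1 < p.toReal) : p ≠ ∞ := by
  rintro rfl
  norm_num at hp1

theorem V_lift (M N : ℕ) (h : M ≤ N) (a : ℕ → 𝕜) : ∃ b : ℕ → 𝕜, V p M a = V p N b := by
  induction N, h using Nat.le_induction with
  | base => exact ⟨a, rfl⟩
  | succ N _ ih =>
    obtain ⟨b, hb⟩ := ih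
    exact ⟨fun k => b (k / 2), by rw [V_half, hb]⟩

/-- coordinates of step functions -/
theorem V_coord (N : ℕ) (a : ℕ → 𝕜) : ∃ c : Ix → 𝕜,
    V p N a = V p N (arr (fun j => ((wt p.toReal j : ℝ) : 𝕜) * c j) N) := by
  obtain ⟨c, hc⟩ := arr_surj N a
  refine ⟨fun j => ((wt p.toReal j : ℝ) : 𝕜)⁻¹ * c j, ?_⟩
  apply V_congr
  intro k hk
  rw [← hc k hk]
  congr 1
  funext j
  have : ((wt p.toReal j : ℝ) : 𝕜) ≠ 0 := by exact_mod_cast (wt_pos p.toReal j).ne'
  rw [mul_inv_cancel_left₀ this]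

theorem fc_sum (hp1 : 1 < p.toReal) (F : Finset HIx) (c : HIx → 𝕜) (j : HIx) :
    fc p q j (∑ i ∈ F, c i • hv 𝕜 p i) = if j ∈ F then c j else 0 := by
  classical
  rw [map_sum]
  have h : ∀ i ∈ F, fc p q j (c i • hv 𝕜 p i) = if j = i then c i else 0 := by
    intro i _
    rw [map_smul, fc_hv p q hp1, smul_eq_mul]
    split_ifs <;> simp
  rw [Finset.sum_congr rfl h, Finset.sum_ite_eq]

theorem fc_V_zero (hp1 : 1 < p.toReal) (N : ℕ) (a : ℕ → 𝕜) (j : HIx) (hj : j ∉ LS N) :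
    fc p q j (V p N a) = 0 := by
  obtain ⟨c, hc⟩ := V_coord p N a
  rw [hc, V_expand, fc_sum p q hp1, if_neg hj]

theorem V_exp (hp1 : 1 < p.toReal) (N : ℕ) (a : ℕ → 𝕜) :
    V p N a = ∑ i ∈ LS N, fc p q i (V p N a) • hv 𝕜 p i := by
  obtain ⟨c, hc⟩ := V_coord p N a
  conv_lhs => rw [hc, V_expand]
  refine Finset.sum_congr rfl fun i hi => ?_
  rw [hc, V_expand, fc_sum p q hp1, if_pos hi]

/-- multipliers on step functions -/
theorem mult_step (hp1 : 1 < p.toReal) : ∃ K : ℝ, 1 ≤ K ∧ ∀ (N : ℕ) (c m : Ix → 𝕜),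
    (∀ i, ‖m i‖ ≤ 1) → ‖V p N (arr (fun i => m i * c i) N)‖ ≤ K * ‖V p N (arr c N)‖ := by
  obtain ⟨C, hC1, hC⟩ := burk_mult (𝕜 := 𝕜) hp1
  refine ⟨C ^ p.toReal⁻¹, Real.one_le_rpow hC1 (by positivity), fun N c m hm => ?_⟩
  have hp := ne_top_of p hp1
  rw [V_norm p hp, V_norm p hp, ← Real.mul_rpow (by linarith) (by positivity)]
  apply Real.rpow_le_rpow (by positivity) _ (by positivity)
  calc (1 / 2 : ℝ) ^ N * ∑ k ∈ Finset.range (2 ^ N), ‖arr (fun i => m i * c i) N k‖ ^ p.toReal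
      ≤ (1 / 2 : ℝ) ^ N * (C * ∑ k ∈ Finset.range (2 ^ N), ‖arr c N k‖ ^ p.toReal) :=
        mul_le_mul_of_nonneg_left (hC c m hm N) (by positivity)
    _ = _ := by ring

theorem denseR (hp1 : 1 < p.toReal) :
    DenseRange (fun Na : ℕ × (ℕ → 𝕜) => (V p Na.1 Na.2 : Lp 𝕜 p mu)) := by
  rw [Metric.denseRange_iff]
  intro x r hr
  obtain ⟨N, a, h⟩ := V_dense p (ne_top_of p hp1) x (r / 2) (by positivity)
  refine ⟨(N, a), ?_⟩
  rw [dist_eq_norm]
  simp only
  linarith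

/-- finite multipliers are uniformly bounded -/
theorem mult_fin (hp1 : 1 < p.toReal) : ∃ K : ℝ, 1 ≤ K ∧ ∀ (F : Finset HIx) (m : HIx → 𝕜),
    (∀ i, ‖m i‖ ≤ 1) → ∀ x : Lp 𝕜 p mu,
      ‖∑ i ∈ F, (m i * fc p q i x) • hv 𝕜 p i‖ ≤ K * ‖x‖ := by
  classical
  obtain ⟨K, hK1, hK⟩ := mult_step (𝕜 := 𝕜) p hp1
  refine ⟨K, hK1, fun F m hm x => ?_⟩
  refine (denseR (𝕜 := 𝕜) p hp1).induction_on (p := fun x =>
    ‖∑ i ∈ F, (m i * fc p q i x) • hv 𝕜 p i‖ ≤ K * ‖x‖) x ?_ ?_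
  · apply isClosed_le
    · fun_prop
    · fun_prop
  rintro ⟨M, a⟩
  simp only
  obtain ⟨N1, hN1⟩ := subset_LS F
  set N := max M N1 with hN
  obtain ⟨b, hb⟩ := V_lift p M N (le_max_left _ _) a
  have hF : F ⊆ LS N := hN1.trans (LS_mono (le_max_right _ _))
  obtain ⟨c, hc⟩ := V_coord p N b
  rw [hb, hc]
  set m' : Ix → 𝕜 := Function.extend emb (fun i => if i ∈ F then m i else 0) 0 with hm'
  have hm1 : ∀ i, m' (emb i) = if i ∈ F then m i else 0 := fun i => emb_inj.extend_apply _ _ _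
  have hm2 : ∀ j, ‖m' j‖ ≤ 1 := by
    intro j
    by_cases hj : ∃ i, emb i = j
    · obtain ⟨i, rfl⟩ := hj
      rw [hm1]
      split_ifs
      · exact hm i
      · simp
    · rw [hm', Function.extend_apply' _ _ _ hj]
      simp
  have h1 : ∑ i ∈ F, (m i * fc p q i (V p N (arr (fun j => ((wt p.toReal j : ℝ) : 𝕜) * c j) N))) •
      hv 𝕜 p i = V p N (arr (fun j => m' j * (((wt p.toReal j : ℝ) : 𝕜) * c j)) N) := by
    have e : (fun j => m' j * (((wt p.toReal j : ℝ) : 𝕜) * c j)) =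
        fun j => ((wt p.toReal j : ℝ) : 𝕜) * (m' j * c j) := by funext j; ring
    have e2 : ∑ i ∈ F, (m' (emb i) * c (emb i)) • hv 𝕜 p i =
        ∑ i ∈ LS N, (m' (emb i) * c (emb i)) • hv 𝕜 p i := by
      apply Finset.sum_subset hF
      intro i _ hi
      rw [hm1, if_neg hi, zero_mul, zero_smul]
    rw [e, V_expand p (fun j => m' j * c j) N, V_expand p c N, ← e2]
    refine Finset.sum_congr rfl fun i hi => ?_
    rw [fc_sum p q hp1, if_pos (hF hi), hm1, if_pos hi]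
  rw [h1]
  exact hK N _ m' hm2

/-- unconditional convergence -/
theorem summable_mult (hp1 : 1 < p.toReal) (m : HIx → 𝕜) (hm : ∀ i, ‖m i‖ ≤ 1) (x : Lp 𝕜 p mu) :
    Summable fun i => (m i * fc p q i x) • hv 𝕜 p i := by
  obtain ⟨K, hK1, hK⟩ := mult_fin (𝕜 := 𝕜) p q hp1
  rw [summable_iff_vanishing_norm]
  intro ε hε
  obtain ⟨M, a, h⟩ := V_dense p (ne_top_of p hp1) x (ε / (2 * K)) (by positivity)
  refine ⟨LS M, fun t ht => ?_⟩
  have h1 : ∑ i ∈ t, (m i * fc p q i x) • hv 𝕜 p i =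
      ∑ i ∈ t, (m i * fc p q i (x - V p M a)) • hv 𝕜 p i := by
    refine Finset.sum_congr rfl fun i hi => ?_
    rw [map_sub, fc_V_zero p q hp1 M a i (Finset.disjoint_left.1 ht hi), sub_zero]
  rw [h1]
  calc _ ≤ K * ‖x - V p M a‖ := hK t m hm _
    _ ≤ K * (ε / (2 * K)) := by gcongr
    _ = ε / 2 := by field_simp
    _ < ε := by linarith

theorem fc_total (hp1 : 1 < p.toReal) (x : Lp 𝕜 p mu) (hx : ∀ i, fc p q i x = 0) : x = 0 := by
  obtain ⟨K, hK1, hK⟩ := mult_fin (𝕜 := 𝕜) p q hp1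
  by_contra hx0
  have hpos : 0 < ‖x‖ := norm_pos_iff.2 hx0
  obtain ⟨M, a, h⟩ := V_dense p (ne_top_of p hp1) x (‖x‖ / (2 * (K + 1))) (by positivity)
  have h1 : V p M a = ∑ i ∈ LS M, ((1 : 𝕜) * fc p q i (V p M a - x)) • hv 𝕜 p i := by
    conv_lhs => rw [V_exp p q hp1 M a]
    refine Finset.sum_congr rfl fun i _ => ?_
    rw [map_sub, hx, sub_zero, one_mul]
  have h2 : ‖V p M a‖ ≤ K * ‖V p M a - x‖ := by
    conv_lhs => rw [h1]
    exact hK (LS M) (fun _ => 1) (fun _ => by simp) _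
  rw [norm_sub_rev] at h2
  have h3 : ‖x‖ ≤ ‖x - V p M a‖ + ‖V p M a‖ := by
    calc ‖x‖ = ‖(x - V p M a) + V p M a‖ := by rw [sub_add_cancel]
      _ ≤ _ := norm_add_le _ _
  have h4 : ‖x‖ ≤ (K + 1) * (‖x‖ / (2 * (K + 1))) := by nlinarith
  have h5 : (K + 1) * (‖x‖ / (2 * (K + 1))) = ‖x‖ / 2 := by field_simp
  linarith

/-- multipliers -/
theorem mult_full (hp1 : 1 < p.toReal) : ∃ K : ℝ, 1 ≤ K ∧ ∀ (x : Lp 𝕜 p mu) (w : HIx → 𝕜),
    (∀ i, ‖w i‖ ≤ ‖fc p q i x‖) → ∃ z : Lp 𝕜 p mu, (∀ i, fc p q i z = w i) ∧ ‖z‖ ≤ K * ‖x‖ := by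
  classical
  obtain ⟨K, hK1, hK⟩ := mult_fin (𝕜 := 𝕜) p q hp1
  refine ⟨K, hK1, fun x w hw => ?_⟩
  set m : HIx → 𝕜 := fun i => w i / fc p q i x with hm
  have hmw : ∀ i, m i * fc p q i x = w i := by
    intro i
    rcases eq_or_ne (fc p q i x) 0 with h | h
    · have := hw i
      rw [h, norm_zero] at this
      rw [h, mul_zero, norm_le_zero_iff.1 this]
    · exact div_mul_cancel₀ _ h
  have hm1 : ∀ i, ‖m i‖ ≤ 1 := by
    intro i
    rw [hm]
    simp only
    rw [norm_div]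
    exact div_le_one_of_le₀ (hw i) (norm_nonneg _)
  obtain ⟨z, hz⟩ := summable_mult p q hp1 m hm1 x
  refine ⟨z, fun i => ?_, ?_⟩
  · have h1 := (fc p q i).hasSum hz
    have h2 : HasSum (fun j => fc p q i ((m j * fc p q j x) • hv 𝕜 p j)) (m i * fc p q i x) := by
      have h3 : (fun j => fc p q i ((m j * fc p q j x) • hv 𝕜 p j)) =
          fun j => if j = i then m i * fc p q i x else 0 := by
        funext j
        rw [map_smul, fc_hv p q hp1, smul_eq_mul]
        by_cases h : i = j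
        · subst h; simp
        · rw [if_neg h, if_neg (Ne.symm h), mul_zero]
      rw [h3]
      exact hasSum_ite_eq i _
    rw [h1.unique h2, hmw]
  · exact le_of_tendsto hz.norm (Eventually.of_forall fun F => hK F m hm1 x)

/-- the Haar expansion -/
theorem hasSum_haar (hp1 : 1 < p.toReal) (x : Lp 𝕜 p mu) :
    HasSum (fun i => fc p q i x • hv 𝕜 p i) x := by
  obtain ⟨z, hz⟩ := summable_mult p q hp1 (fun _ => (1 : 𝕜)) (fun _ => by simp) x
  simp only [one_mul] at hz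
  have h1 : z = x := by
    have h2 : z - x = 0 := by
      apply fc_total p q hp1
      intro i
      have h1 := (fc p q i).hasSum hz
      have h2 : HasSum (fun j => fc p q i (fc p q j x • hv 𝕜 p j)) (fc p q i x) := by
        have h3 : (fun j => fc p q i (fc p q j x • hv 𝕜 p j)) =
            fun j => if j = i then fc p q i x else 0 := by
          funext j
          rw [map_smul, fc_hv p q hp1, smul_eq_mul]
          by_cases h : i = j
          · subst h; simp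
          · rw [if_neg h, if_neg (Ne.symm h), mul_zero]
        rw [h3]
        exact hasSum_ite_eq i _
      rw [map_sub, h1.unique h2, sub_self]
    exact sub_eq_zero.1 h2
  rwa [h1] at hz

/-- coefficients are determined by the sum -/
theorem fc_of_hasSum (hp1 : 1 < p.toReal) (x : Lp 𝕜 p mu) (a : HIx → 𝕜)
    (ha : HasSum (fun i => a i • hv 𝕜 p i) x) (i : HIx) : fc p q i x = a i := by
  have h1 := (fc p q i).hasSum ha
  have h2 : HasSum (fun j => fc p q i (a j • hv 𝕜 p j)) (a i) := by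
    have h3 : (fun j => fc p q i (a j • hv 𝕜 p j)) =
        fun j => if j = i then a i else 0 := by
      funext j
      rw [map_smul, fc_hv p q hp1, smul_eq_mul]
      by_cases h : i = j
      · subst h; simp
      · rw [if_neg h, if_neg (Ne.symm h), mul_zero]
    rw [h3]
    exact hasSum_ite_eq i _
  exact h1.unique h2

/-- the norm of flat sums -/
theorem flat_norm (hp1 : 1 < p.toReal) (A : Finset HIx) : ∃ (N : ℕ) (b : Ix → ℝ),
    (∀ i, b i = 0 ∨ b i = 1) ∧ ∑ i ∈ LS N, b (emb i) = A.card ∧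
    ‖∑ i ∈ A, hv 𝕜 p i‖ = ((1 / 2 : ℝ) ^ N *
      ∑ k ∈ Finset.range (2 ^ N), |arr (fun i => wt p.toReal i * b i) N k| ^ p.toReal) ^
        p.toReal⁻¹ := by
  classical
  obtain ⟨N, hN⟩ := subset_LS A
  set b : Ix → ℝ := Function.extend emb (fun i => if i ∈ A then 1 else 0) 0 with hb
  have hb1 : ∀ i, b (emb i) = if i ∈ A then 1 else 0 := fun i => emb_inj.extend_apply _ _ _
  refine ⟨N, b, ?_, ?_, ?_⟩
  · intro j
    by_cases hj : ∃ i, emb i = j
    · obtain ⟨i, rfl⟩ := hj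
      rw [hb1]
      split_ifs
      · exact Or.inr rfl
      · exact Or.inl rfl
    · left
      rw [hb, Function.extend_apply' _ _ _ hj]
      rfl
  · rw [Finset.sum_congr rfl fun i _ => hb1 i, ← Finset.sum_filter, Finset.filter_mem_eq_inter,
      Finset.inter_eq_right.2 hN, Finset.sum_const, nsmul_eq_mul, mul_one]
  · have h1 : ∑ i ∈ A, hv 𝕜 p i =
        V p N (arr (fun j => ((wt p.toReal j : ℝ) : 𝕜) * ((b j : ℝ) : 𝕜)) N) := by
      rw [V_expand p (fun j => ((b j : ℝ) : 𝕜)) N]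
      have e2 : ∑ i ∈ A, ((b (emb i) : ℝ) : 𝕜) • hv 𝕜 p i =
          ∑ i ∈ LS N, ((b (emb i) : ℝ) : 𝕜) • hv 𝕜 p i := by
        apply Finset.sum_subset hN
        intro i _ hi
        rw [hb1, if_neg hi]
        simp
      rw [← e2]
      refine Finset.sum_congr rfl fun i hi => ?_
      rw [hb1, if_pos hi]
      simp
    rw [h1, V_norm p (ne_top_of p hp1)]
    congr 1
    congr 1
    refine Finset.sum_congr rfl fun k _ => ?_
    congr 1
    have e : arr (fun j => ((wt p.toReal j : ℝ) : 𝕜) * ((b j : ℝ) : 𝕜)) N k =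
        ((arr (fun i => wt p.toReal i * b i) N k : ℝ) : 𝕜) := by
      have := arr_map (algebraMap ℝ 𝕜).toAddMonoidHom (fun i => wt p.toReal i * b i) N k
      refine Eq.trans ?_ this
      congr 1
      funext j
      simp
    rw [e, RCLike.norm_ofReal]

/-- the flat sums have norm of order `card ^ (1/p)` -/
theorem flat_bounds (hp1 : 1 < p.toReal) : ∃ C : ℝ, 1 ≤ C ∧ ∀ A : Finset HIx,
    ‖∑ i ∈ A, hv 𝕜 p i‖ ≤ C * (A.card : ℝ) ^ p.toReal⁻¹ ∧
    (A.card : ℝ) ^ p.toReal⁻¹ ≤ C * ‖∑ i ∈ A, hv 𝕜 p i‖ := by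
  have hpq := Real.HolderConjugate.conjExponent hp1
  have hp0 : 0 < p.toReal := by linarith
  obtain ⟨C1, h11, h1⟩ := dem_upper hp1
  obtain ⟨C2, h21, h2⟩ := dem_lower hpq
  refine ⟨max C1 C2, le_max_of_le_left h11, fun A => ?_⟩
  obtain ⟨N, b, hb, hbs, hbn⟩ := flat_norm (𝕜 := 𝕜) p hp1 A
  have h3 := h1 b hb N
  have h4 := h2 b hb N
  rw [hbs] at h3 h4
  set S := (1 / 2 : ℝ) ^ N *
      ∑ k ∈ Finset.range (2 ^ N), |arr (fun i => wt p.toReal i * b i) N k| ^ p.toReal with hS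
  have hS0 : 0 ≤ S := by positivity
  rw [hbn]
  constructor
  · calc S ^ p.toReal⁻¹ ≤ (C1 ^ p.toReal * A.card) ^ p.toReal⁻¹ :=
          Real.rpow_le_rpow hS0 h3 (by positivity)
      _ = C1 * (A.card : ℝ) ^ p.toReal⁻¹ := by
          rw [Real.mul_rpow (by positivity) (by positivity), ← Real.rpow_mul (by linarith),
            mul_inv_cancel₀ hp0.ne', Real.rpow_one]
      _ ≤ _ := mul_le_mul_of_nonneg_right (le_max_left _ _) (by positivity)
  · calc (A.card : ℝ) ^ p.toReal⁻¹ ≤ (C2 ^ p.toReal * S) ^ p.toReal⁻¹ :=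
          Real.rpow_le_rpow (by positivity) h4 (by positivity)
      _ = C2 * S ^ p.toReal⁻¹ := by
          rw [Real.mul_rpow (by positivity) (by positivity), ← Real.rpow_mul (by linarith),
            mul_inv_cancel₀ hp0.ne', Real.rpow_one]
      _ ≤ _ := mul_le_mul_of_nonneg_right (le_max_right _ _) (by positivity)

/-- the Haar system is an unconditional democratic system -/
theorem haar_UD (hp1 : 1 < p.toReal) : ∃ u : UD 𝕜 HIx (Lp 𝕜 p mu),
    u.e = hv 𝕜 p ∧ u.f = fc p q := by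
  obtain ⟨K1, h11, h1⟩ := mult_full (𝕜 := 𝕜) p q hp1
  obtain ⟨K2, h21, h2⟩ := mult_fin (𝕜 := 𝕜) p q hp1
  obtain ⟨C, hC1, hC⟩ := flat_bounds (𝕜 := 𝕜) p hp1
  have hp0 : 0 < p.toReal := by linarith
  have hfc : ∀ i (x : Lp 𝕜 p mu), ‖fc p q i x‖ ≤ C * K2 * ‖x‖ := by
    intro i x
    have h3 := h2 {i} (fun _ => 1) (fun _ => by simp) x
    rw [Finset.sum_singleton, one_mul, norm_smul] at h3
    have h4 := (hC {i}).2
    rw [Finset.sum_singleton, Finset.card_singleton, Nat.cast_one, Real.one_rpow] at h4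
    have h5 := norm_nonneg (fc p q i x)
    calc ‖fc p q i x‖ = ‖fc p q i x‖ * 1 := (mul_one _).symm
      _ ≤ ‖fc p q i x‖ * (C * ‖hv 𝕜 p i‖) := mul_le_mul_of_nonneg_left h4 h5
      _ = C * (‖fc p q i x‖ * ‖hv 𝕜 p i‖) := by ring
      _ ≤ C * (K2 * ‖x‖) := mul_le_mul_of_nonneg_left h3 (by linarith)
      _ = _ := by ring
  refine ⟨{
    e := hv 𝕜 p
    f := fc p q
    bi := fun i j h => by rw [fc_hv p q hp1, if_neg h]
    bi1 := fun i => by rw [fc_hv p q hp1, if_pos rfl]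
    total := fc_total p q hp1
    null := ?_
    K := max K1 (C * C)
    hK := le_max_of_le_left h11
    mult := ?_
    dem := ?_ }, rfl, rfl⟩
  · intro x s hs
    obtain ⟨M, a, h⟩ := V_dense p (ne_top_of p hp1) x (s / (2 * (C * K2))) (by positivity)
    apply (LS M).finite_toSet.subset
    intro i hi
    rw [Set.mem_ofPred_eq] at hi
    by_contra hcon
    have h3 : fc p q i x = fc p q i (x - V p M a) := by
      rw [map_sub, fc_V_zero p q hp1 M a i (by simpa using hcon), sub_zero]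
    have h4 := hfc i (x - V p M a)
    rw [← h3] at h4
    have h5 : C * K2 * ‖x - V p M a‖ ≤ s / 2 := by
      calc _ ≤ C * K2 * (s / (2 * (C * K2))) := by gcongr
        _ = s / 2 := by field_simp
    linarith
  · intro x w hw
    obtain ⟨z, hz1, hz2⟩ := h1 x w hw
    exact ⟨z, hz1, hz2.trans (mul_le_mul_of_nonneg_right (le_max_left _ _) (norm_nonneg _))⟩
  · intro A B hAB
    calc ‖∑ i ∈ B, hv 𝕜 p i‖ ≤ C * (B.card : ℝ) ^ p.toReal⁻¹ := (hC B).1
      _ ≤ C * (A.card : ℝ) ^ p.toReal⁻¹ := by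
          gcongr
      _ ≤ C * (C * ‖∑ i ∈ A, hv 𝕜 p i‖) := mul_le_mul_of_nonneg_left (hC A).2 (by linarith)
      _ = C * C * ‖∑ i ∈ A, hv 𝕜 p i‖ := by ring
      _ ≤ _ := mul_le_mul_of_nonneg_right (le_max_right _ _) (norm_nonneg _)

end main

end Pool.Agent.W693.G
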