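import Mathlib
import Pool.Agent.W693.GA

set_option autoImplicit false
open Filter Topology

/-! A `1`-greedy renorming of a bidemocratic unconditional system of power type. -/

namespace Pool.Agent.W693.G

/-- the weights -/
noncomputable def ww (α : ℝ) (k : ℕ) : ℝ := (k : ℝ) ^ (α - 1)

theorem ww_pos (α : ℝ) {k : ℕ} (hk : 1 ≤ k) : 0 < ww α k :=
  Real.rpow_pos_of_pos (by exact_mod_cast hk) _

theorem ww_num (α : ℝ) (h0 : 0 < α) (h1 : α < 1) {k : ℕ} (hk : 1 ≤ k) :
    ww α (k + 1) ≤ ww α k ∧ ww α k ≤ 2 * ww α (k + 1) ∧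
    (k : ℝ) * (ww α k - ww α (k + 1)) ≤ (1 - α) * ww α (k + 1) := by
  have hk0 : (0 : ℝ) < k := by exact_mod_cast hk
  have hk1 : (1 : ℝ) ≤ k := by exact_mod_cast hk
  have hk2 : (0 : ℝ) < (k : ℝ) + 1 := by linarith
  set W := ww α k with hW
  set W' := ww α (k + 1) with hW'
  have hWp : 0 < W := ww_pos α hk
  have hWp' : 0 < W' := ww_pos α (by omega)
  have e1 : (k : ℝ) * W = (k : ℝ) ^ α := by
    rw [hW, ww, Real.rpow_sub_one hk0.ne']; field_simp
  have e2 : ((k : ℝ) + 1) * W' = ((k : ℝ) + 1) ^ α := by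
    rw [hW', ww]; push_cast
    rw [Real.rpow_sub_one hk2.ne']; field_simp
  have h3 : (k : ℝ) ^ α ≤ ((k : ℝ) + 1) ^ α - α * W' := by
    have h := rpow_one_add_le_one_add_mul_self (s := -(1 / ((k : ℝ) + 1)))
      (by rw [neg_le_neg_iff, div_le_one hk2]; linarith) h0.le h1.le
    have e3 : (k : ℝ) = ((k : ℝ) + 1) * (1 + -(1 / ((k : ℝ) + 1))) := by field_simp; ring
    have e4 : (0 : ℝ) ≤ 1 + -(1 / ((k : ℝ) + 1)) := by
      have : 1 / ((k : ℝ) + 1) ≤ 1 := by rw [div_le_one hk2]; linarith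
      linarith
    calc (k : ℝ) ^ α = ((k : ℝ) + 1) ^ α * (1 + -(1 / ((k : ℝ) + 1))) ^ α := by
          rw [← Real.mul_rpow hk2.le e4, ← e3]
      _ ≤ ((k : ℝ) + 1) ^ α * (1 + α * -(1 / ((k : ℝ) + 1))) :=
          mul_le_mul_of_nonneg_left h (Real.rpow_nonneg hk2.le _)
      _ = ((k : ℝ) + 1) ^ α - α * W' := by
          rw [← e2]; field_simp; ring
  have h4 : W' ≤ W := by
    rw [hW, hW', ww, ww]
    apply Real.rpow_le_rpow_of_nonpos hk0
    · push_cast; linarith
    · linarith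
  refine ⟨h4, ?_, ?_⟩
  · have h5 : (k : ℝ) * W ≤ ((k : ℝ) + 1) * W' := by
      rw [e1, e2]
      have := mul_pos h0 hWp'
      linarith
    have h6 : (k : ℝ) * W ≤ k * (2 * W') := by nlinarith
    exact le_of_mul_le_mul_left h6 hk0
  · nlinarith

open Classical in
/-- the functionals whose supremum is the new norm -/
noncomputable def val {ι : Type} (C α : ℝ) (k : ℕ) (A F : Finset ι) (ω g : ι → ℝ) : ℝ :=
  C * ww α k * ∑ i ∈ A, g i + ∑ i ∈ F \ A, min (ww α k) (ω i) * g i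

open Classical in
theorem sum_delta {ι : Type} (S : Finset ι) (m g : ι → ℝ) (a : ι) (t : ℝ) :
    ∑ i ∈ S, m i * (g i + if i = a then t else 0) =
      ∑ i ∈ S, m i * g i + if a ∈ S then m a * t else 0 := by
  simp_rw [mul_add, Finset.sum_add_distrib, mul_ite, mul_zero]
  congr 1
  rw [Finset.sum_ite_eq']

open Classical in
theorem val_swap {ι : Type} {C α c : ℝ} (h0 : 0 < α) (h1 : α < 1) (hc : 0 ≤ c)
    (hC : 2 + 2 * c ≤ α * C) (k : ℕ) (hk : 1 ≤ k)
    (A F : Finset ι) (hA : A.card ≤ k) (ω : ι → ℝ) (hω : ∀ i, 0 ≤ ω i)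
    (hcount : ∀ F' : Finset ι, (∀ i ∈ F', ww α (k + 1) < ω i) → (F'.card : ℝ) ≤ c * (k + 1))
    (g : ι → ℝ) (t : ℝ) (ht : 0 ≤ t) (hg0 : ∀ i, 0 ≤ g i) (hgt : ∀ i, g i ≤ t) (a b : ι)
    (_hab : a ≠ b) (ha : g a = 0) (hb : g b = 0) :
    ∃ (k' : ℕ) (A' : Finset ι), 1 ≤ k' ∧ A'.card ≤ k' ∧
      val C α k A F ω (fun i => g i + if i = a then t else 0) ≤
        val C α k' A' F ω (fun i => g i + if i = b then t else 0) := by
  have hW := ww_pos α hk
  have hW' : 0 < ww α (k + 1) := ww_pos α (by omega)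
  obtain ⟨n1, n2, n3⟩ := ww_num α h0 h1 hk
  have hC0 : 0 < C := by
    by_contra hcon
    push Not at hcon
    nlinarith
  have hC1 : 1 ≤ C := by nlinarith
  have hm0 : ∀ (l : ℕ), 1 ≤ l → ∀ i, 0 ≤ min (ww α l) (ω i) := fun l hl i =>
    le_min (ww_pos α hl).le (hω i)
  -- generic sums
  have s1 : ∀ (S : Finset ι) (x : ι), ∑ i ∈ S, (g i + if i = x then t else 0) =
      ∑ i ∈ S, g i + if x ∈ S then t else 0 := by
    intro S x
    have := sum_delta S (fun _ => 1) g x t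
    simpa using this
  have s2 : ∀ (l : ℕ), 1 ≤ l → ∀ A' : Finset ι, (∀ i, i ∈ A' → i ≠ b → i ∈ A) →
      ∑ i ∈ F \ A, min (ww α l) (ω i) * g i ≤ ∑ i ∈ F \ A', min (ww α l) (ω i) * g i := by
    intro l hl A' hA'
    rw [← Finset.sum_erase (F \ A) (a := b) (f := fun i => min (ww α l) (ω i) * g i)
      (by rw [hb, mul_zero])]
    apply Finset.sum_le_sum_of_subset_of_nonneg
    · intro i hi
      rw [Finset.mem_erase, Finset.mem_sdiff] at hi
      rw [Finset.mem_sdiff]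
      exact ⟨hi.2.1, fun h => hi.2.2 (hA' i h hi.1)⟩
    · intro i _ _
      exact mul_nonneg (hm0 l hl i) (hg0 i)
  by_cases haA : a ∈ A
  · refine ⟨k, insert b (A.erase a), hk, ?_, ?_⟩
    · have h5 := Finset.card_insert_le b (A.erase a)
      have h6 := Finset.card_erase_of_mem haA
      have h7 : 0 < A.card := Finset.card_pos.2 ⟨a, haA⟩
      omega
    · unfold val
      rw [s1, s1, sum_delta, sum_delta, if_pos haA, if_pos (Finset.mem_insert_self _ _),
        if_neg (by simp [haA]), if_neg (by simp), add_zero, add_zero]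
      have h8 : ∑ i ∈ A, g i ≤ ∑ i ∈ insert b (A.erase a), g i := by
        rw [← Finset.sum_erase A ha]
        exact Finset.sum_le_sum_of_subset_of_nonneg (Finset.subset_insert _ _)
          fun i _ _ => hg0 i
      have h9 := s2 k hk (insert b (A.erase a)) (by
        intro i hi hib
        rcases Finset.mem_insert.1 hi with h | h
        · exact absurd h hib
        · exact Finset.mem_of_mem_erase h)
      have h10 : 0 < C * ww α k := by positivity
      have h11 : C * ww α k * (∑ i ∈ A, g i + t) ≤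
          C * ww α k * (∑ i ∈ insert b (A.erase a), g i + t) :=
        mul_le_mul_of_nonneg_left (by linarith) h10.le
      linarith
  · -- `a ∉ A`
    have hAb : ∀ i, i ∈ insert b A → i ≠ b → i ∈ A := by
      intro i hi hib
      rcases Finset.mem_insert.1 hi with h | h
      · exact absurd h hib
      · exact h
    have h8 : ∑ i ∈ A, g i ≤ ∑ i ∈ insert b A, g i :=
      Finset.sum_le_sum_of_subset_of_nonneg (Finset.subset_insert _ _) fun i _ _ => hg0 i
    have hv : val C α k A F ω (fun i => g i + if i = a then t else 0) ≤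
        C * ww α k * ∑ i ∈ A, g i + ∑ i ∈ F \ A, min (ww α k) (ω i) * g i + ww α k * t := by
      unfold val
      rw [s1, sum_delta, if_neg haA, add_zero, add_assoc]
      have : (if a ∈ F \ A then min (ww α k) (ω a) * t else 0) ≤ ww α k * t := by
        split_ifs
        · exact mul_le_mul_of_nonneg_right (min_le_left _ _) ht
        · positivity
      linarith
    have hv' : ∀ l : ℕ, val C α l (insert b A) F ω (fun i => g i + if i = b then t else 0) =
        C * ww α l * (∑ i ∈ insert b A, g i + t) +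
          ∑ i ∈ F \ insert b A, min (ww α l) (ω i) * g i := by
      intro l
      unfold val
      rw [s1, sum_delta, if_pos (Finset.mem_insert_self _ _), if_neg (by simp), add_zero]
    by_cases hcard : (insert b A).card ≤ k
    · refine ⟨k, insert b A, hk, hcard, hv.trans ?_⟩
      rw [hv']
      have h9 := s2 k hk (insert b A) hAb
      have h10 : 0 < C * ww α k := by positivity
      have h11 : C * ww α k * (∑ i ∈ A, g i + t) ≤
          C * ww α k * (∑ i ∈ insert b A, g i + t) :=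
        mul_le_mul_of_nonneg_left (by linarith) h10.le
      have h12 : ww α k * t ≤ C * ww α k * t := by
        have := mul_nonneg hW.le ht
        nlinarith
      nlinarith
    · refine ⟨k + 1, insert b A, by omega, (Finset.card_insert_le _ _).trans (by omega),
        hv.trans ?_⟩
      rw [hv']
      have h9 := s2 (k + 1) (by omega) (insert b A) hAb
      set W := ww α k with hWdef
      set W' := ww α (k + 1) with hWdef'
      have hSA : ∑ i ∈ A, g i ≤ k * t := by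
        calc ∑ i ∈ A, g i ≤ ∑ i ∈ A, t := Finset.sum_le_sum fun i _ => hgt i
          _ = A.card * t := by rw [Finset.sum_const, nsmul_eq_mul]
          _ ≤ k * t := by
            apply mul_le_mul_of_nonneg_right _ ht
            exact_mod_cast hA
      have hSA0 : 0 ≤ ∑ i ∈ A, g i := Finset.sum_nonneg fun i _ => hg0 i
      -- the loss in the second sum
      have hloss : ∑ i ∈ F \ A, min W (ω i) * g i ≤
          ∑ i ∈ F \ A, min W' (ω i) * g i + c * (k + 1) * ((W - W') * t) := by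
        have h13 : ∀ i ∈ F \ A, min W (ω i) * g i ≤ min W' (ω i) * g i +
            if W' < ω i then (W - W') * t else 0 := by
          intro i _
          have hgi := hg0 i
          have hgi' := hgt i
          split_ifs with h
          · have h14 : min W (ω i) - min W' (ω i) ≤ W - W' := by
              rw [min_eq_left h.le]
              have := min_le_left W (ω i)
              linarith
            have h15 : (min W (ω i) - min W' (ω i)) * g i ≤ (W - W') * t := by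
              calc _ ≤ (W - W') * g i := mul_le_mul_of_nonneg_right h14 hgi
                _ ≤ _ := mul_le_mul_of_nonneg_left hgi' (by linarith)
            nlinarith
          · push Not at h
            rw [min_eq_right h, min_eq_right (h.trans n1), add_zero]
        refine (Finset.sum_le_sum h13).trans ?_
        rw [Finset.sum_add_distrib, ← Finset.sum_filter, Finset.sum_const, nsmul_eq_mul]
        have h16 := hcount ((F \ A).filter fun i => W' < ω i) (fun i hi =>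
          (Finset.mem_filter.1 hi).2)
        have h17 : 0 ≤ (W - W') * t := mul_nonneg (by linarith) ht
        have := mul_le_mul_of_nonneg_right h16 h17
        linarith
      have h18 : C * W * ∑ i ∈ A, g i ≤ C * W' * ∑ i ∈ A, g i + C * ((1 - α) * W' * t) := by
        have h19 : C * (W - W') * ∑ i ∈ A, g i ≤ C * (W - W') * (k * t) :=
          mul_le_mul_of_nonneg_left hSA (mul_nonneg hC0.le (by linarith))
        have h20 : C * (k * (W - W') * t) ≤ C * ((1 - α) * W' * t) :=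
          mul_le_mul_of_nonneg_left (mul_le_mul_of_nonneg_right n3 ht) hC0.le
        nlinarith
      have h21 : c * (k + 1) * ((W - W') * t) ≤ 2 * c * W' * t := by
        have h22 : ((k : ℝ) + 1) * (W - W') ≤ 2 * W' := by
          have : 0 ≤ α * W' := by positivity
          nlinarith
        have h23 : c * t * (((k : ℝ) + 1) * (W - W')) ≤ c * t * (2 * W') :=
          mul_le_mul_of_nonneg_left h22 (mul_nonneg hc ht)
        nlinarith
      have h24 : W * t ≤ 2 * W' * t := mul_le_mul_of_nonneg_right n2 ht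
      have h25 : C * W' * (∑ i ∈ A, g i) ≤ C * W' * (∑ i ∈ insert b A, g i) :=
        mul_le_mul_of_nonneg_left h8 (by positivity)
      have h26 : (2 + 2 * c) * (W' * t) ≤ α * C * (W' * t) :=
        mul_le_mul_of_nonneg_right hC (mul_nonneg hW'.le ht)
      nlinarith

theorem val_mono {ι : Type} {C α : ℝ} (hC : 0 ≤ C) (k : ℕ) (A F : Finset ι) (ω g g' : ι → ℝ)
    (hω : ∀ i, 0 ≤ ω i) (h : ∀ i, g i ≤ g' i) : val C α k A F ω g ≤ val C α k A F ω g' := by
  have hw : 0 ≤ ww α k := Real.rpow_nonneg (Nat.cast_nonneg _) _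
  unfold val
  apply add_le_add
  · exact mul_le_mul_of_nonneg_left (Finset.sum_le_sum fun i _ => h i) (mul_nonneg hC hw)
  · exact Finset.sum_le_sum fun i _ => mul_le_mul_of_nonneg_left (h i) (le_min hw (hω i))

theorem val_add {ι : Type} {C α : ℝ} (k : ℕ) (A F : Finset ι) (ω g g' : ι → ℝ) :
    val C α k A F ω (fun i => g i + g' i) = val C α k A F ω g + val C α k A F ω g' := by
  unfold val
  rw [Finset.sum_add_distrib]
  simp_rw [mul_add]
  rw [Finset.sum_add_distrib]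
  ring

theorem val_smul {ι : Type} {C α : ℝ} (k : ℕ) (A F : Finset ι) (ω g : ι → ℝ) (c : ℝ) :
    val C α k A F ω (fun i => c * g i) = c * val C α k A F ω g := by
  unfold val
  rw [← Finset.mul_sum, mul_add, Finset.mul_sum (f := fun i => min (ww α k) (ω i) * g i)]
  congr 1
  · ring
  · refine Finset.sum_congr rfl fun i _ => ?_
    ring

namespace UD

variable {𝕜 ι X : Type} [RCLike 𝕜] [NormedAddCommGroup X] [NormedSpace 𝕜 X] (u : UD 𝕜 ι X)

/-- weights dominated by the norm -/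
def Om : Set (ι → ℝ) := {ω | (∀ i, 0 ≤ ω i) ∧
  ∀ (F : Finset ι) (x : X), ∑ i ∈ F, ω i * ‖u.f i x‖ ≤ u.K * ‖x‖}

/-- the values of the functionals at `x` -/
def VS (C α : ℝ) (x : X) : Set ℝ := {v | ∃ (k : ℕ) (A F : Finset ι) (ω : ι → ℝ),
  1 ≤ k ∧ A.card ≤ k ∧ ω ∈ u.Om ∧ v = val C α k A F ω (fun i => ‖u.f i x‖)}

/-- the new norm -/
noncomputable def NN (C α : ℝ) (x : X) : ℝ := sSup (u.VS C α x)

theorem zero_mem_Om : (fun _ => (0 : ℝ)) ∈ u.Om := by
  refine ⟨fun _ => le_rfl, fun F x => ?_⟩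
  have := u.hK
  simp only [zero_mul, Finset.sum_const_zero]
  positivity

theorem VS_nonempty (C α : ℝ) (x : X) : (u.VS C α x).Nonempty :=
  ⟨_, 1, ∅, ∅, fun _ => 0, le_rfl, by simp, u.zero_mem_Om, rfl⟩

section
variable {C α C2 : ℝ} (hC : 0 ≤ C) (hα : α < 1)
  (h2 : ∀ (A : Finset ι) (x : X), ∑ i ∈ A, ‖u.f i x‖ ≤ C2 * (A.card : ℝ) ^ (1 - α) * ‖x‖)
  (hC2 : 0 ≤ C2)

include hC hα h2 hC2 in
theorem VS_le (x : X) {v : ℝ} (hv : v ∈ u.VS C α x) : v ≤ (C * C2 + u.K) * ‖x‖ := by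
  classical
  obtain ⟨k, A, F, ω, hk, hA, hω, rfl⟩ := hv
  have hW := ww_pos α hk
  have hk0 : (0 : ℝ) < k := by exact_mod_cast hk
  unfold val
  have e : ww α k * (k : ℝ) ^ (1 - α) = 1 := by
    rw [ww, ← Real.rpow_add hk0]
    rw [show α - 1 + (1 - α) = 0 by ring, Real.rpow_zero]
  have a1 : ∑ i ∈ A, ‖u.f i x‖ ≤ C2 * (k : ℝ) ^ (1 - α) * ‖x‖ := by
    refine (h2 A x).trans ?_
    apply mul_le_mul_of_nonneg_right _ (norm_nonneg _)
    apply mul_le_mul_of_nonneg_left _ hC2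
    apply Real.rpow_le_rpow (Nat.cast_nonneg _) _ (by linarith)
    exact_mod_cast hA
  have a2 : C * ww α k * ∑ i ∈ A, ‖u.f i x‖ ≤ C * C2 * ‖x‖ := by
    calc _ ≤ C * ww α k * (C2 * (k : ℝ) ^ (1 - α) * ‖x‖) :=
          mul_le_mul_of_nonneg_left a1 (mul_nonneg hC hW.le)
      _ = C * C2 * ‖x‖ * (ww α k * (k : ℝ) ^ (1 - α)) := by ring
      _ = _ := by rw [e, mul_one]
  have a3 : ∑ i ∈ F \ A, min (ww α k) (ω i) * ‖u.f i x‖ ≤ u.K * ‖x‖ :=
    (Finset.sum_le_sum fun i _ => mul_le_mul_of_nonneg_right (min_le_right _ _)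
      (norm_nonneg _)).trans (hω.2 _ x)
  linarith

include hC hα h2 hC2 in
theorem VS_bdd (x : X) : BddAbove (u.VS C α x) :=
  ⟨_, fun _ hv => u.VS_le hC hα h2 hC2 x hv⟩

include hC hα h2 hC2 in
theorem NN_le (x : X) : u.NN C α x ≤ (C * C2 + u.K) * ‖x‖ :=
  csSup_le (u.VS_nonempty C α x) fun _ hv => u.VS_le hC hα h2 hC2 x hv

include hC hα h2 hC2 in
theorem NN_mono (x y : X) (h : ∀ i, ‖u.f i x‖ ≤ ‖u.f i y‖) : u.NN C α x ≤ u.NN C α y := by
  apply csSup_le (u.VS_nonempty C α x)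
  rintro v ⟨k, A, F, ω, hk, hA, hω, rfl⟩
  exact (val_mono hC k A F ω _ _ hω.1 h).trans
    (le_csSup (u.VS_bdd hC hα h2 hC2 y) ⟨k, A, F, ω, hk, hA, hω, rfl⟩)

include hC hα h2 hC2 in
theorem NN_add (x y : X) : u.NN C α (x + y) ≤ u.NN C α x + u.NN C α y := by
  apply csSup_le (u.VS_nonempty C α _)
  rintro v ⟨k, A, F, ω, hk, hA, hω, rfl⟩
  have h3 := val_mono hC k A F ω (fun i => ‖u.f i (x + y)‖)
    (fun i => ‖u.f i x‖ + ‖u.f i y‖) hω.1 (fun i => by rw [map_add]; exact norm_add_le _ _)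
    (α := α)
  rw [val_add] at h3
  exact h3.trans (add_le_add
    (le_csSup (u.VS_bdd hC hα h2 hC2 x) ⟨k, A, F, ω, hk, hA, hω, rfl⟩)
    (le_csSup (u.VS_bdd hC hα h2 hC2 y) ⟨k, A, F, ω, hk, hA, hω, rfl⟩))

theorem NN_nonneg (hC : 0 ≤ C) (x : X) : 0 ≤ u.NN C α x := by
  apply Real.sSup_nonneg
  rintro v ⟨k, A, F, ω, hk, hA, hω, rfl⟩
  have hw : 0 ≤ ww α k := Real.rpow_nonneg (Nat.cast_nonneg _) _
  unfold val
  apply add_nonneg
  · exact mul_nonneg (mul_nonneg hC hw) (Finset.sum_nonneg fun _ _ => norm_nonneg _)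
  · exact Finset.sum_nonneg fun i _ => mul_nonneg (le_min hw (hω.1 i)) (norm_nonneg _)

include hC hα h2 hC2 in
theorem NN_smul_le (c : 𝕜) (x : X) : u.NN C α (c • x) ≤ ‖c‖ * u.NN C α x := by
  apply csSup_le (u.VS_nonempty C α _)
  rintro v ⟨k, A, F, ω, hk, hA, hω, rfl⟩
  simp_rw [map_smul, norm_smul]
  rw [val_smul]
  exact mul_le_mul_of_nonneg_left
    (le_csSup (u.VS_bdd hC hα h2 hC2 x) ⟨k, A, F, ω, hk, hA, hω, rfl⟩) (norm_nonneg _)

/-- the new norm as a seminorm -/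
noncomputable def NS (C α C2 : ℝ) (hC : 0 ≤ C) (hα : α < 1)
    (h2 : ∀ (A : Finset ι) (x : X), ∑ i ∈ A, ‖u.f i x‖ ≤ C2 * (A.card : ℝ) ^ (1 - α) * ‖x‖)
    (hC2 : 0 ≤ C2) : Seminorm 𝕜 X :=
  Seminorm.ofSMulLE (u.NN C α)
    (le_antisymm (by simpa using u.NN_le hC hα h2 hC2 0) (u.NN_nonneg hC 0))
    (u.NN_add hC hα h2 hC2) (u.NN_smul_le hC hα h2 hC2)

include hC hα h2 hC2 in
/-- the new norm dominates the old one -/
theorem le_NN {C1 : ℝ} (hC1 : 1 ≤ C1) (hn : ∀ i, ‖u.e i‖ ≤ C1)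
    (hs : ∀ x, HasSum (fun i => u.f i x • u.e i) x) (x : X) : C1⁻¹ * ‖x‖ ≤ u.NN C α x := by
  classical
  obtain ⟨g, hg1, hg2⟩ := exists_dual_vector'' 𝕜 x
  have hK := u.hK
  have hC1' : 0 < C1 := by linarith
  set ω : ι → ℝ := fun i => C1⁻¹ * ‖g (u.e i)‖ with hω
  have hωm : ω ∈ u.Om := by
    refine ⟨fun i => by rw [hω]; positivity, fun F y => ?_⟩
    -- unimodular multipliers
    set m : ι → 𝕜 := fun i => (starRingEnd 𝕜) (g (u.e i) * u.f i y) / (‖g (u.e i) * u.f i y‖ : ℝ) with hm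
    have hm1 : ∀ i, ‖m i‖ ≤ 1 := by
      intro i
      rw [hm]
      simp only
      rw [norm_div, RCLike.norm_conj, RCLike.norm_ofReal, abs_of_nonneg (norm_nonneg _)]
      exact div_self_le_one _
    have hm2 : ∀ i, m i * (g (u.e i) * u.f i y) = ((‖g (u.e i) * u.f i y‖ : ℝ) : 𝕜) := by
      intro i
      rw [hm]
      simp only
      rw [div_mul_eq_mul_div, RCLike.conj_mul]
      by_cases h : ‖g (u.e i) * u.f i y‖ = 0
      · rw [h]; simp
      · have h' : ((‖g (u.e i) * u.f i y‖ : ℝ) : 𝕜) ≠ 0 := by exact_mod_cast h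
        rw [sq, mul_div_assoc, div_self h', mul_one]
    have h3 : g (∑ i ∈ F, (m i * u.f i y) • u.e i) =
        ((∑ i ∈ F, ‖g (u.e i)‖ * ‖u.f i y‖ : ℝ) : 𝕜) := by
      rw [map_sum]
      push_cast
      refine Finset.sum_congr rfl fun i _ => ?_
      rw [map_smul, smul_eq_mul]
      have := hm2 i
      rw [norm_mul] at this
      rw [RCLike.ofReal_mul] at this
      rw [← this]; ring
    have h4 : ‖∑ i ∈ F, (m i * u.f i y) • u.e i‖ ≤ u.K * ‖y‖ := by
      apply u.solid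
      intro i
      rw [u.f_sum F (fun i => m i * u.f i y) i]
      split_ifs
      · rw [norm_mul]
        exact mul_le_of_le_one_left (norm_nonneg _) (hm1 i)
      · rw [norm_zero]; exact norm_nonneg _
    have h5 : ∑ i ∈ F, ‖g (u.e i)‖ * ‖u.f i y‖ ≤ u.K * ‖y‖ := by
      have h6 : ‖g (∑ i ∈ F, (m i * u.f i y) • u.e i)‖ =
          ∑ i ∈ F, ‖g (u.e i)‖ * ‖u.f i y‖ := by
        rw [h3, RCLike.norm_ofReal, abs_of_nonneg (Finset.sum_nonneg fun _ _ => by positivity)]
      rw [← h6]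
      calc _ ≤ ‖g‖ * ‖∑ i ∈ F, (m i * u.f i y) • u.e i‖ := g.le_opNorm _
        _ ≤ 1 * (u.K * ‖y‖) := mul_le_mul hg1 h4 (norm_nonneg _) zero_le_one
        _ = _ := one_mul _
    calc ∑ i ∈ F, ω i * ‖u.f i y‖ = C1⁻¹ * ∑ i ∈ F, ‖g (u.e i)‖ * ‖u.f i y‖ := by
          rw [Finset.mul_sum]
          refine Finset.sum_congr rfl fun i _ => ?_
          rw [hω]; ring
      _ ≤ C1⁻¹ * (u.K * ‖y‖) := mul_le_mul_of_nonneg_left h5 (by positivity)
      _ ≤ 1 * (u.K * ‖y‖) := mul_le_mul_of_nonneg_right (inv_le_one_of_one_le₀ hC1) (by positivity)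
      _ = _ := one_mul _
  have hω1 : ∀ i, ω i ≤ 1 := by
    intro i
    rw [hω]
    simp only
    rw [inv_mul_le_iff₀ hC1', mul_one]
    calc ‖g (u.e i)‖ ≤ ‖g‖ * ‖u.e i‖ := g.le_opNorm _
      _ ≤ 1 * C1 := mul_le_mul hg1 (hn i) (norm_nonneg _) zero_le_one
      _ = C1 := one_mul _
  have hfin : ∀ F : Finset ι, C1⁻¹ * ‖g (∑ i ∈ F, u.f i x • u.e i)‖ ≤ u.NN C α x := by
    intro F
    refine le_trans ?_ (le_csSup (u.VS_bdd hC hα h2 hC2 x)
      ⟨1, ∅, F, ω, le_rfl, by simp, hωm, rfl⟩)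
    unfold val
    rw [Finset.sum_empty, mul_zero, zero_add, Finset.sdiff_empty, map_sum]
    calc C1⁻¹ * ‖∑ i ∈ F, g (u.f i x • u.e i)‖ ≤ C1⁻¹ * ∑ i ∈ F, ‖g (u.f i x • u.e i)‖ :=
          mul_le_mul_of_nonneg_left (norm_sum_le _ _) (by positivity)
      _ = ∑ i ∈ F, ω i * ‖u.f i x‖ := by
          rw [Finset.mul_sum]
          refine Finset.sum_congr rfl fun i _ => ?_
          rw [map_smul, norm_smul, hω]; ring
      _ = ∑ i ∈ F, min (ww α 1) (ω i) * ‖u.f i x‖ := by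
          refine Finset.sum_congr rfl fun i _ => ?_
          rw [min_eq_right]
          rw [ww, Nat.cast_one, Real.one_rpow]
          exact hω1 i
  have hlim : Tendsto (fun F : Finset ι => C1⁻¹ * ‖g (∑ i ∈ F, u.f i x • u.e i)‖) atTop
      (𝓝 (C1⁻¹ * ‖g x‖)) :=
    (((g.continuous.tendsto x).comp (hs x)).norm).const_mul _
  have h7 := le_of_tendsto hlim (Eventually.of_forall hfin)
  rw [hg2, RCLike.norm_ofReal, abs_of_nonneg (norm_nonneg _)] at h7
  exact h7

end

section greedy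
variable {C α C2 C1 : ℝ} (hα0 : 0 < α) (hα : α < 1)
  (h2 : ∀ (A : Finset ι) (x : X), ∑ i ∈ A, ‖u.f i x‖ ≤ C2 * (A.card : ℝ) ^ (1 - α) * ‖x‖)
  (hC2 : 0 ≤ C2) (hC1 : 1 ≤ C1)
  (h1 : ∀ A : Finset ι, ‖∑ i ∈ A, u.e i‖ ≤ C1 * (A.card : ℝ) ^ α)
  (hCc : 2 + 2 * (u.K * C1) ^ (1 - α)⁻¹ ≤ α * C)

include hC1 h1 hα hα0 in
/-- a dominated weight has few large values -/
theorem Om_count (ω : ι → ℝ) (hω : ω ∈ u.Om) (k : ℕ) (F : Finset ι)
    (hF : ∀ i ∈ F, ww α (k + 1) < ω i) :
    (F.card : ℝ) ≤ (u.K * C1) ^ (1 - α)⁻¹ * (k + 1) := by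
  classical
  have hK := u.hK
  rcases Nat.eq_zero_or_pos F.card with h0 | h0
  · rw [h0, Nat.cast_zero]; positivity
  have hM : (0 : ℝ) < F.card := by exact_mod_cast h0
  have hk2 : (0 : ℝ) < (k : ℝ) + 1 := by positivity
  have a1 := hω.2 F (∑ i ∈ F, u.e i)
  have a2 : ∀ i ∈ F, ω i * ‖u.f i (∑ j ∈ F, u.e j)‖ = ω i := by
    intro i hi
    have := u.f_sum F (fun _ => (1 : 𝕜)) i
    simp only [one_smul] at this
    rw [this, if_pos hi, norm_one, mul_one]
  rw [Finset.sum_congr rfl a2] at a1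
  have a3 : ww α (k + 1) * F.card ≤ ∑ i ∈ F, ω i := by
    calc ww α (k + 1) * F.card = ∑ i ∈ F, ww α (k + 1) := by
          rw [Finset.sum_const, nsmul_eq_mul, mul_comm]
      _ ≤ _ := Finset.sum_le_sum fun i hi => (hF i hi).le
  have a4 : ww α (k + 1) * F.card ≤ u.K * C1 * (F.card : ℝ) ^ α := by
    calc _ ≤ u.K * ‖∑ i ∈ F, u.e i‖ := a3.trans a1
      _ ≤ u.K * (C1 * (F.card : ℝ) ^ α) := mul_le_mul_of_nonneg_left (h1 F) (by linarith)
      _ = _ := by ring
  have e1 : (F.card : ℝ) = (F.card : ℝ) ^ (1 - α) * (F.card : ℝ) ^ α := by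
    rw [← Real.rpow_add hM]; simp
  have e2 : ww α (k + 1) * ((k : ℝ) + 1) ^ (1 - α) = 1 := by
    rw [ww]; push_cast
    rw [← Real.rpow_add hk2]; simp
  have a5 : (F.card : ℝ) ^ (1 - α) ≤ u.K * C1 * ((k : ℝ) + 1) ^ (1 - α) := by
    have p1 : 0 < (F.card : ℝ) ^ α := Real.rpow_pos_of_pos hM _
    have p2 : 0 < ((k : ℝ) + 1) ^ (1 - α) := Real.rpow_pos_of_pos hk2 _
    have a6 : (ww α (k + 1) * (F.card : ℝ) ^ (1 - α)) * (F.card : ℝ) ^ α ≤
        (u.K * C1) * (F.card : ℝ) ^ α := by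
      calc _ = ww α (k + 1) * ((F.card : ℝ) ^ (1 - α) * (F.card : ℝ) ^ α) := by ring
        _ ≤ _ := by rw [← e1]; exact a4
    have a7 := le_of_mul_le_mul_right a6 p1
    calc (F.card : ℝ) ^ (1 - α) = (ww α (k + 1) * ((k : ℝ) + 1) ^ (1 - α)) *
          (F.card : ℝ) ^ (1 - α) := by rw [e2, one_mul]
      _ = (ww α (k + 1) * (F.card : ℝ) ^ (1 - α)) * ((k : ℝ) + 1) ^ (1 - α) := by ring
      _ ≤ _ := mul_le_mul_of_nonneg_right a7 p2.le
  have hα' : 0 < 1 - α := by linarith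
  have a8 := Real.rpow_le_rpow (Real.rpow_nonneg hM.le _) a5 (by positivity : 0 ≤ (1 - α)⁻¹)
  rw [Real.mul_rpow (by positivity) (by positivity), ← Real.rpow_mul hM.le,
    ← Real.rpow_mul hk2.le, mul_inv_cancel₀ hα'.ne', Real.rpow_one, Real.rpow_one] at a8
  exact a8

include hα0 hα h2 hC2 hC1 h1 hCc in
/-- exchange of one large coordinate -/
theorem NN_swap (x : X) (t : ℝ) (ht : ∀ i, ‖u.f i x‖ ≤ t) (ht0 : 0 ≤ t) (a b : ι) (hab : a ≠ b)
    (ha : u.f a x = 0) (hb : u.f b x = 0) :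
    u.NN C α (x + (t : 𝕜) • u.e a) ≤ u.NN C α (x + (t : 𝕜) • u.e b) := by
  classical
  have hK := u.hK
  have hC : 0 ≤ C := by
    have : 0 ≤ (u.K * C1) ^ (1 - α)⁻¹ := Real.rpow_nonneg (by positivity) _
    by_contra hcon
    push Not at hcon
    nlinarith
  have key : ∀ c : ι, u.f c x = 0 → (fun i => ‖u.f i (x + (t : 𝕜) • u.e c)‖) =
      fun i => ‖u.f i x‖ + if i = c then t else 0 := by
    intro c hc
    funext i
    rw [map_add, map_smul, smul_eq_mul]
    by_cases h : i = c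
    · subst h
      rw [hc, u.bi1, mul_one, zero_add, RCLike.norm_ofReal, abs_of_nonneg ht0, norm_zero, zero_add,
        if_pos rfl]
    · rw [u.bi _ _ h, mul_zero, add_zero, if_neg h, add_zero]
  apply csSup_le (u.VS_nonempty C α _)
  rintro v ⟨k, A, F, ω, hk, hA, hω, rfl⟩
  rw [key a ha]
  obtain ⟨k', A', hk', hA', h⟩ := val_swap (C := C) hα0 hα
    (c := (u.K * C1) ^ (1 - α)⁻¹) (Real.rpow_nonneg (by positivity) _) hCc k hk A F hA ω hω.1
    (u.Om_count hα0 hα hC1 h1 ω hω k) (fun i => ‖u.f i x‖) t ht0 (fun _ => norm_nonneg _) ht a b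
    hab (by rw [ha, norm_zero]) (by rw [hb, norm_zero])
  refine h.trans ?_
  rw [← key b hb]
  exact le_csSup (u.VS_bdd hC hα h2 hC2 _) ⟨k', A', F, ω, hk', hA', hω, rfl⟩

include hα0 hα h2 hC2 hC1 h1 hCc in
/-- exchange of a flat block -/
theorem NN_swap_set (t : ℝ) (ht0 : 0 ≤ t) (D : Finset ι) : ∀ (E : Finset ι) (x : X),
    (∀ i, ‖u.f i x‖ ≤ t) → Disjoint D E → (∀ i ∈ D, u.f i x = 0) → (∀ i ∈ E, u.f i x = 0) →
    D.card ≤ E.card →
    u.NN C α (x + ∑ i ∈ D, (t : 𝕜) • u.e i) ≤ u.NN C α (x + ∑ i ∈ E, (t : 𝕜) • u.e i) := by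
  classical
  have hK := u.hK
  have hC : 0 ≤ C := by
    have : 0 ≤ (u.K * C1) ^ (1 - α)⁻¹ := Real.rpow_nonneg (by positivity) _
    by_contra hcon
    push Not at hcon
    nlinarith
  induction D using Finset.induction_on with
  | empty =>
    intro E x _ _ _ hE _
    apply u.NN_mono hC hα h2 hC2
    intro i
    rw [Finset.sum_empty, add_zero, map_add, u.f_sum E (fun _ => (t : 𝕜)) i]
    split_ifs with h
    · rw [hE i h, norm_zero]; exact norm_nonneg _
    · rw [add_zero]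
  | insert d D hd ih =>
    intro E x hx hDE hD hE hcard
    have hEne : E.Nonempty := by
      rw [Finset.card_insert_of_notMem hd] at hcard
      exact Finset.card_pos.1 (by omega)
    obtain ⟨e0, he0⟩ := hEne
    have hde : d ≠ e0 := by
      rintro rfl
      exact Finset.disjoint_left.1 hDE (Finset.mem_insert_self _ _) he0
    have hdE : d ∉ E := fun h => Finset.disjoint_left.1 hDE (Finset.mem_insert_self _ _) h
    have hcoord : ∀ i, u.f i (x + (t : 𝕜) • u.e d) = u.f i x + if i = d then (t : 𝕜) else 0 := by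
      intro i
      rw [map_add, map_smul, smul_eq_mul]
      by_cases h : i = d
      · subst h; rw [u.bi1, mul_one, if_pos rfl]
      · rw [u.bi _ _ h, mul_zero, if_neg h]
    have hxd : u.f d x = 0 := hD d (Finset.mem_insert_self _ _)
    have hb1 : ∀ i, ‖u.f i (x + (t : 𝕜) • u.e d)‖ ≤ t := by
      intro i
      rw [hcoord]
      by_cases h : i = d
      · subst h
        rw [hxd, if_pos rfl, zero_add, RCLike.norm_ofReal, abs_of_nonneg ht0]
      · rw [if_neg h, add_zero]; exact hx i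
    have step1 := ih (E.erase e0) (x + (t : 𝕜) • u.e d) hb1
      (by
        rw [Finset.disjoint_left]
        intro i hi hi'
        exact Finset.disjoint_left.1 hDE (Finset.mem_insert_of_mem hi) (Finset.mem_of_mem_erase hi'))
      (by
        intro i hi
        rw [hcoord, if_neg (by rintro rfl; exact hd hi), add_zero]
        exact hD i (Finset.mem_insert_of_mem hi))
      (by
        intro i hi
        have hiE := Finset.mem_of_mem_erase hi
        rw [hcoord, if_neg (by rintro rfl; exact hdE hiE), add_zero]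
        exact hE i hiE)
      (by
        rw [Finset.card_insert_of_notMem hd] at hcard
        rw [Finset.card_erase_of_mem he0]
        omega)
    -- the second exchange
    have step2 := u.NN_swap hα0 hα h2 hC2 hC1 h1 hCc
      (x + ∑ i ∈ E.erase e0, (t : 𝕜) • u.e i) t (by
        intro i
        rw [map_add, u.f_sum (E.erase e0) (fun _ => (t : 𝕜)) i]
        split_ifs with h
        · rw [hE i (Finset.mem_of_mem_erase h), zero_add, RCLike.norm_ofReal, abs_of_nonneg ht0]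
        · rw [add_zero]; exact hx i) ht0 d e0 hde
      (by
        rw [map_add, u.f_sum (E.erase e0) (fun _ => (t : 𝕜)) d, if_neg
          (fun h => hdE (Finset.mem_of_mem_erase h)), add_zero, hxd])
      (by
        rw [map_add, u.f_sum (E.erase e0) (fun _ => (t : 𝕜)) e0, if_neg
          (Finset.notMem_erase _ _), add_zero, hE e0 he0])
    have e1 : x + ∑ i ∈ insert d D, (t : 𝕜) • u.e i =
        x + (t : 𝕜) • u.e d + ∑ i ∈ D, (t : 𝕜) • u.e i := by
      rw [Finset.sum_insert hd, add_assoc]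
    have e2 : x + (t : 𝕜) • u.e d + ∑ i ∈ E.erase e0, (t : 𝕜) • u.e i =
        x + ∑ i ∈ E.erase e0, (t : 𝕜) • u.e i + (t : 𝕜) • u.e d := by abel
    have e3 : x + ∑ i ∈ E.erase e0, (t : 𝕜) • u.e i + (t : 𝕜) • u.e e0 =
        x + ∑ i ∈ E, (t : 𝕜) • u.e i := by
      rw [add_assoc, Finset.sum_erase_add _ _ he0]
    rw [e1, ← e3]
    rw [e2] at step1
    exact step1.trans step2

include hα0 hα h2 hC2 hC1 h1 hCc in
/-- the new norm is `1`-greedy -/
theorem NN_greedy (x : X) (A B : Finset ι) (b : ι → 𝕜)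
    (hA : ∀ i ∈ A, ∀ j, j ∉ A → ‖u.f j x‖ ≤ ‖u.f i x‖) (hAB : B.card ≤ A.card) :
    u.NN C α (x - ∑ i ∈ A, u.f i x • u.e i) ≤ u.NN C α (x - ∑ i ∈ B, b i • u.e i) := by
  classical
  have hK := u.hK
  have hC : 0 ≤ C := by
    have : 0 ≤ (u.K * C1) ^ (1 - α)⁻¹ := Real.rpow_nonneg (by positivity) _
    by_contra hcon
    push Not at hcon
    nlinarith
  rcases A.eq_empty_or_nonempty with hA0 | hA0
  · subst hA0
    have hB0 : B = ∅ := Finset.card_eq_zero.1 (by simpa using hAB)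
    subst hB0
    simp
  obtain ⟨i0, hi0, hmin⟩ := Finset.exists_min_image A (fun i => ‖u.f i x‖) hA0
  set t := ‖u.f i0 x‖ with ht
  have ht0 : 0 ≤ t := norm_nonneg _
  have hout : ∀ j, j ∉ A → ‖u.f j x‖ ≤ t := fun j hj => hA i0 hi0 j hj
  set y := x - ∑ i ∈ A ∪ B, u.f i x • u.e i with hy
  have hfy : ∀ i, u.f i y = if i ∈ A ∪ B then 0 else u.f i x := by
    intro i
    rw [hy, map_sub, u.f_sum (A ∪ B) (fun i => u.f i x) i]
    split_ifs
    · rw [sub_self]
    · rw [sub_zero]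
  have hyt : ∀ i, ‖u.f i y‖ ≤ t := by
    intro i
    rw [hfy]
    split_ifs with h
    · rw [norm_zero]; exact ht0
    · exact hout i fun hi => h (Finset.mem_union_left _ hi)
  have hsw := u.NN_swap_set hα0 hα h2 hC2 hC1 h1 hCc t ht0 (B \ A) (A \ B) y hyt
    (by
      rw [Finset.disjoint_left]
      intro i hi hi'
      exact (Finset.mem_sdiff.1 hi).2 (Finset.mem_sdiff.1 hi').1)
    (fun i hi => by rw [hfy, if_pos (Finset.mem_union_right _ (Finset.mem_sdiff.1 hi).1)])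
    (fun i hi => by rw [hfy, if_pos (Finset.mem_union_left _ (Finset.mem_sdiff.1 hi).1)])
    (by
      have e1 := Finset.card_sdiff_add_card_inter B A
      have e2 := Finset.card_sdiff_add_card_inter A B
      rw [Finset.inter_comm A B] at e2
      omega)
  refine le_trans (u.NN_mono hC hα h2 hC2 _ _ ?_) (hsw.trans (u.NN_mono hC hα h2 hC2 _ _ ?_))
  · intro i
    rw [map_sub, map_add, u.f_sum A (fun i => u.f i x) i, u.f_sum (B \ A) (fun _ => (t : 𝕜)) i,
      hfy]
    by_cases hiA : i ∈ A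
    · rw [if_pos hiA, sub_self, norm_zero]; exact norm_nonneg _
    · rw [if_neg hiA, sub_zero]
      by_cases hiB : i ∈ B
      · rw [if_pos (Finset.mem_union_right _ hiB), if_pos (Finset.mem_sdiff.2 ⟨hiB, hiA⟩),
          zero_add, RCLike.norm_ofReal, abs_of_nonneg ht0]
        exact hout i hiA
      · rw [if_neg (by simp [hiA, hiB]), if_neg (by simp [hiB]), add_zero]
  · intro i
    rw [map_sub, map_add, u.f_sum B b i, u.f_sum (A \ B) (fun _ => (t : 𝕜)) i, hfy]
    by_cases hiB : i ∈ B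
    · rw [if_pos (Finset.mem_union_right _ hiB), if_neg (by simp [hiB]), add_zero, norm_zero]
      exact norm_nonneg _
    · rw [if_neg hiB, sub_zero]
      by_cases hiA : i ∈ A
      · rw [if_pos (Finset.mem_union_left _ hiA), if_pos (Finset.mem_sdiff.2 ⟨hiA, hiB⟩),
          zero_add, RCLike.norm_ofReal, abs_of_nonneg ht0]
        exact hmin i hiA
      · rw [if_neg (by simp [hiA, hiB]), if_neg (by simp [hiA]), add_zero]

end greedy

/-- a bidemocratic unconditional system of power type has an equivalent `1`-greedy norm -/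
theorem exists_norm (α C1 C2 : ℝ) (hα0 : 0 < α) (hα : α < 1)
    (h2 : ∀ (A : Finset ι) (x : X), ∑ i ∈ A, ‖u.f i x‖ ≤ C2 * (A.card : ℝ) ^ (1 - α) * ‖x‖)
    (hC2 : 0 ≤ C2) (hC1 : 1 ≤ C1) (h1 : ∀ A : Finset ι, ‖∑ i ∈ A, u.e i‖ ≤ C1 * (A.card : ℝ) ^ α)
    (hs : ∀ x, HasSum (fun i => u.f i x • u.e i) x) :
    ∃ N : Seminorm 𝕜 X, (∃ c C : ℝ, 0 < c ∧ ∀ x, c * ‖x‖ ≤ N x ∧ N x ≤ C * ‖x‖) ∧
      ∀ (x : X) (A B : Finset ι) (b : ι → 𝕜),
      (∀ i ∈ A, ∀ j, j ∉ A → ‖u.f j x‖ ≤ ‖u.f i x‖) → B.card ≤ A.card →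
      N (x - ∑ i ∈ A, u.f i x • u.e i) ≤ N (x - ∑ i ∈ B, b i • u.e i) := by
  have hK := u.hK
  set C := (2 + 2 * (u.K * C1) ^ (1 - α)⁻¹) / α with hCdef
  have hp : 0 ≤ (u.K * C1) ^ (1 - α)⁻¹ := Real.rpow_nonneg (by positivity) _
  have hC : 0 ≤ C := by positivity
  have hCc : 2 + 2 * (u.K * C1) ^ (1 - α)⁻¹ ≤ α * C := by
    rw [hCdef, mul_div_cancel₀ _ hα0.ne']
  have hn : ∀ i, ‖u.e i‖ ≤ C1 := by
    intro i
    have := h1 {i}
    simpa using this
  refine ⟨u.NS C α C2 hC hα h2 hC2, ⟨C1⁻¹, C * C2 + u.K, by positivity, fun x =>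
    ⟨u.le_NN hC hα h2 hC2 hC1 hn hs x, u.NN_le hC hα h2 hC2 x⟩⟩, fun x A B b hA hAB => ?_⟩
  exact u.NN_greedy hα0 hα h2 hC2 hC1 h1 hCc x A B b hA hAB

end UD
end Pool.Agent.W693.G
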