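import Mathlib
import Pool.Agent.W693.GH
import Pool.Agent.W693.GK

set_option autoImplicit false
open Filter Topology MeasureTheory
open scoped ENNReal

/-! The `1`-greedy norm on `L_p`. -/

namespace Pool.Agent.W693.G

section
set_option linter.unusedSectionVars false
variable {𝕜 : Type} [RCLike 𝕜] (p q : ℝ≥0∞) [Fact (1 ≤ p)] [Fact (1 ≤ q)] [p.HolderConjugate q]

/-- the dual estimate -/
theorem haar_dual (hp1 : 1 < p.toReal) : ∃ C2 : ℝ, 0 ≤ C2 ∧ ∀ (A : Finset HIx) (x : Lp 𝕜 p mu),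
    ∑ i ∈ A, ‖fc p q i x‖ ≤ C2 * (A.card : ℝ) ^ (1 - p.toReal⁻¹) * ‖x‖ := by
  classical
  have hpq : p.toReal.HolderConjugate q.toReal :=
    (ENNReal.HolderConjugate.toReal_iff hp1).2 inferInstance
  have hq1 : 1 < q.toReal := hpq.symm.lt
  have : q.HolderConjugate p := ENNReal.HolderConjugate.symm
  obtain ⟨u, hu1, hu2⟩ := haar_UD (𝕜 := 𝕜) q p hq1
  obtain ⟨C, hC1, hC⟩ := flat_bounds (𝕜 := 𝕜) q hq1
  have hK := u.hK
  set B := (ContinuousLinearMap.mul 𝕜 𝕜).lpPairing mu p q with hB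
  refine ⟨‖B‖ * (u.K * C), by positivity, fun A x => ?_⟩
  set m : HIx → 𝕜 := fun i => (starRingEnd 𝕜) (fc p q i x) / (‖fc p q i x‖ : ℝ) with hm
  have hm1 : ∀ i, ‖m i‖ ≤ 1 := by
    intro i
    rw [hm]
    simp only
    rw [norm_div, RCLike.norm_conj, RCLike.norm_ofReal, abs_of_nonneg (norm_nonneg _)]
    exact div_self_le_one _
  have hm2 : ∀ i, m i * fc p q i x = ((‖fc p q i x‖ : ℝ) : 𝕜) := by
    intro i
    rw [hm]
    simp only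
    rw [div_mul_eq_mul_div, RCLike.conj_mul]
    by_cases h : ‖fc p q i x‖ = 0
    · rw [h]; simp
    · have h' : ((‖fc p q i x‖ : ℝ) : 𝕜) ≠ 0 := by exact_mod_cast h
      rw [sq, mul_div_assoc, div_self h', mul_one]
  have h3 : B x (∑ i ∈ A, m i • hv 𝕜 q i) = ((∑ i ∈ A, ‖fc p q i x‖ : ℝ) : 𝕜) := by
    rw [map_sum]
    push_cast
    refine Finset.sum_congr rfl fun i _ => ?_
    rw [map_smul, smul_eq_mul]
    exact hm2 i
  have h4 : ‖∑ i ∈ A, m i • hv 𝕜 q i‖ ≤ u.K * ‖∑ i ∈ A, hv 𝕜 q i‖ := by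
    rw [← hu1]
    apply u.solid
    intro i
    have e := u.f_sum A (fun _ => (1 : 𝕜)) i
    simp only [one_smul] at e
    rw [u.f_sum A m i, e]
    split_ifs
    · rw [norm_one]; exact hm1 i
    · rfl
  have hqp : q.toReal⁻¹ = 1 - p.toReal⁻¹ := by
    have := hpq.inv_add_inv_eq_one
    linarith
  have h5 : ‖∑ i ∈ A, hv 𝕜 q i‖ ≤ C * (A.card : ℝ) ^ (1 - p.toReal⁻¹) := by
    rw [← hqp]; exact (hC A).1
  have h6 : ‖B x (∑ i ∈ A, m i • hv 𝕜 q i)‖ = ∑ i ∈ A, ‖fc p q i x‖ := by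
    rw [h3, RCLike.norm_ofReal, abs_of_nonneg (Finset.sum_nonneg fun _ _ => norm_nonneg _)]
  rw [← h6]
  calc ‖B x (∑ i ∈ A, m i • hv 𝕜 q i)‖ ≤ ‖B‖ * ‖x‖ * ‖∑ i ∈ A, m i • hv 𝕜 q i‖ :=
        B.le_opNorm₂ _ _
    _ ≤ ‖B‖ * ‖x‖ * (u.K * (C * (A.card : ℝ) ^ (1 - p.toReal⁻¹))) := by
        apply mul_le_mul_of_nonneg_left _ (by positivity)
        exact h4.trans (mul_le_mul_of_nonneg_left h5 (by linarith))
    _ = _ := by ring

/-- the equivalent norm for which the Haar system is `1`-greedy -/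
theorem haar_norm (hp1 : 1 < p.toReal) :
    ∃ N : Seminorm 𝕜 (Lp 𝕜 p mu), (∃ c C : ℝ, 0 < c ∧ ∀ x, c * ‖x‖ ≤ N x ∧ N x ≤ C * ‖x‖) ∧
      ∀ (x : Lp 𝕜 p mu) (A B : Finset HIx) (b : HIx → 𝕜),
      (∀ i ∈ A, ∀ j, j ∉ A → ‖fc p q j x‖ ≤ ‖fc p q i x‖) → B.card ≤ A.card →
      N (x - ∑ i ∈ A, fc p q i x • hv 𝕜 p i) ≤ N (x - ∑ i ∈ B, b i • hv 𝕜 p i) := by
  obtain ⟨u, hu1, hu2⟩ := haar_UD (𝕜 := 𝕜) p q hp1
  obtain ⟨C2, hC2, h2⟩ := haar_dual (𝕜 := 𝕜) p q hp1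
  obtain ⟨C1, hC1, h1⟩ := flat_bounds (𝕜 := 𝕜) p hp1
  have hs := hasSum_haar (𝕜 := 𝕜) p q hp1
  have hp0 : 0 < p.toReal := by linarith
  have := u.exists_norm p.toReal⁻¹ C1 C2 (by positivity) (inv_lt_one_of_one_lt₀ hp1)
    (by rw [hu2]; exact h2) hC2 hC1 (by rw [hu1]; exact fun A => (h1 A).1)
    (by rw [hu1, hu2]; exact hs)
  rw [hu1, hu2] at this
  exact this

end

end Pool.Agent.W693.G
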