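import Mathlib
import Pool.Agent.Helper802.JS.Defs
import Pool.Agent.Helper802.JS.basis_proj
import Pool.Agent.Helper802.JS.lemmaB
import Pool.Agent.Helper802.JS.ETot_closed
import Pool.Agent.Helper802.JS.ETot_no_basis

set_option autoImplicit false
open Filter Topology MeasureTheory

open Pool.Agent.Helper802.JB Pool.Agent.Helper802.JB.N_basis_proj Pool.Agent.Helper802.JB.N_lemmaB
  Pool.Agent.Helper802.JB.N_ETot_closed Pool.Agent.Helper802.JB.N_ETot_no_basis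

namespace Pool.Agent.W693.F511

/-- real Hilbert sequence space -/
abbrev L2 : Type := lp (fun _ : ℕ => ℝ) 2

/-- the norm of a vector of Euclidean pairs is at most the sum -/
theorem withLp_norm_le {A B : Type} [NormedAddCommGroup A] [NormedAddCommGroup B]
    (x : WithLp 2 (A × B)) : ‖x‖ ≤ ‖x.fst‖ + ‖x.snd‖ := by
  have h := WithLp.prod_norm_sq_eq_of_L2 x
  have h0 : 0 ≤ ‖x‖ := norm_nonneg x
  have h1 : 0 ≤ ‖x.fst‖ := norm_nonneg _
  have h2 : 0 ≤ ‖x.snd‖ := norm_nonneg _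
  nlinarith [mul_nonneg h1 h2, abs_le_of_sq_le_sq' (a := ‖x‖) (b := ‖x.fst‖ + ‖x.snd‖) (by nlinarith [mul_nonneg h1 h2]) (by positivity)]

theorem withLp_fst_le {A B : Type} [NormedAddCommGroup A] [NormedAddCommGroup B]
    (x : WithLp 2 (A × B)) : ‖x.fst‖ ≤ ‖x‖ := by
  have h := WithLp.prod_norm_sq_eq_of_L2 x
  have h0 : 0 ≤ ‖x‖ := norm_nonneg x
  have h1 : 0 ≤ ‖x.fst‖ := norm_nonneg _
  have h2 : 0 ≤ ‖x.snd‖ := norm_nonneg _
  exact abs_le_of_sq_le_sq (by nlinarith) h0 |>.trans' (le_abs_self _)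

theorem withLp_snd_le {A B : Type} [NormedAddCommGroup A] [NormedAddCommGroup B]
    (x : WithLp 2 (A × B)) : ‖x.snd‖ ≤ ‖x‖ := by
  have h := WithLp.prod_norm_sq_eq_of_L2 x
  have h0 : 0 ≤ ‖x‖ := norm_nonneg x
  have h1 : 0 ≤ ‖x.fst‖ := norm_nonneg _
  have h2 : 0 ≤ ‖x.snd‖ := norm_nonneg _
  exact abs_le_of_sq_le_sq (by nlinarith) h0 |>.trans' (le_abs_self _)

/-- no Schauder basis for the sum with a Hilbert space -/
theorem prod_no_basis (k n : ℕ → ℕ) (pr : ℕ → ℝ) (h2 : ∀ m, 2 < pr m) (h4 : ∀ m, pr m ≤ 4)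
    [∀ m, Fact (1 ≤ ENNReal.ofReal (pr m))]
    (hj : ∀ m, (7 : ℝ) ^ (5 ^ (∑ i ∈ Finset.range m, k i) + m + 1) ≤ 2 ^ (pr m / (pr m - 2)))
    (w : ∀ m, Fin (k m) → EE (n m)) (hnk : ∀ m, n m ≤ k m)
    (hinj : ∀ m x, NE (pr m) (w m) x = 0 → x = 0)
    (hnp : ∀ m, NoPath (pr m) (w m) m (∑ i ∈ Finset.range m, n i)) :
    ¬ ∃ e : ℕ → (ETot k n (fun m => ENNReal.ofReal (pr m)) w) × L2,
      ∀ x : (ETot k n (fun m => ENNReal.ofReal (pr m)) w) × L2,
      ∃! a : ℕ → ℝ, Tendsto (fun N => ∑ i ∈ Finset.range N, a i • e i) atTop (𝓝 x) := by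
  classical
  intro ⟨e, he⟩
  set p : ℕ → ENNReal := fun m => ENNReal.ofReal (pr m) with hp
  haveI : CompleteSpace (ETot k n p w) := (ETot_closed k n p w).completeSpace_coe
  obtain ⟨P, K0, hP0, hPb, hPi, hPt, hPd⟩ := basis_proj e he
  have hNE : ∀ i (v : EE (n i)), ‖Wl p w i v‖ = NE (pr i) (w i) v := by
    intro i v
    have hpos : 0 < pr i := by linarith [h2 i]
    have htr : (p i).toReal = pr i := ENNReal.toReal_ofReal hpos.le
    rw [PiLp.norm_eq_sum (by rw [htr]; exact hpos), htr]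
    rfl
  have hWinj : ∀ i (v : EE (n i)), Wl p w i v = 0 → v = 0 := by
    intro i v hv
    apply hinj i v
    rw [← hNE, hv, norm_zero]
  choose π hπ1 hπ2 hπ3 using fun i => exists_pi (k := k) (p := p) w i (hWinj i)
  obtain ⟨m, hm⟩ := exists_nat_ge (8 * |K0| + 1)
  have hK0 : K0 ≤ |K0| := le_abs_self _
  have hK0' : 0 ≤ |K0| := abs_nonneg _
  have hJn : ∀ v : EE (n m), ‖Jl p w m v‖ = NE (pr m) (w m) v := by
    intro v
    rw [← hNE, ← Submodule.norm_coe, Jl_coe, lp.norm_single (by norm_num)]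
  have hπn : ∀ x : ETot k n p w, NE (pr m) (w m) (π m x) ≤ ‖x‖ := by
    intro x
    rw [← hNE, hπ1]
    exact lp.norm_apply_le_norm (by norm_num) (x : XX k p) m
  have hPn : ∀ j (x : (ETot k n p w) × L2), ‖P j x‖ ≤ |K0| * ‖x‖ := fun j x =>
    (P j).le_of_opNorm_le ((hPb j).trans hK0) x
  set J := Jl p w m with hJ
  -- the injection of the first summand
  set I1 : ETot k n p w →ₗ[ℝ] (ETot k n p w) × L2 := LinearMap.inl ℝ _ _ with hI1
  set I2 : L2 →ₗ[ℝ] (ETot k n p w) × L2 := LinearMap.inr ℝ _ _ with hI2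
  have hI1n : ∀ x, ‖I1 x‖ = ‖x‖ := by
    intro x
    rw [hI1, LinearMap.inl_apply, Prod.norm_def]
    simp
  set F : ETot k n p w →ₗ[ℝ] ETot k n p w := ∑ i ∈ Finset.range m, (Jl p w i) ∘ₗ (π i) with hF
  set Z : ETot k n p w →ₗ[ℝ] ETot k n p w := LinearMap.id - J ∘ₗ (π m) - F with hZ
  have hblk : ∀ i (x : ETot k n p w) (q : ℕ), ((Jl p w i (π i x) : ETot k n p w) : XX k p).1 q =
      if q = i then (x : XX k p).1 q else 0 := by
    intro i x q
    rw [Jl_coe]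
    show (lp.single 2 i (Wl p w i (π i x)) : ∀ n, PiLp (p n) (fun _ : Fin (k n) => ℝ)) q = _
    by_cases h : q = i
    · subst h
      rw [lp.single_apply_self, if_pos rfl, hπ1]
    · rw [lp.single_apply_ne _ _ _ h, if_neg h]
  have hFb : ∀ (x : ETot k n p w) (q : ℕ), ((F x : ETot k n p w) : XX k p).1 q =
      if q < m then (x : XX k p).1 q else 0 := by
    intro x q
    have h1 : F x = ∑ i ∈ Finset.range m, Jl p w i (π i x) := by
      rw [hF, LinearMap.sum_apply]; rfl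
    have h3 : ((F x : ETot k n p w) : XX k p) = ∑ i ∈ Finset.range m,
        ((Jl p w i (π i x) : ETot k n p w) : XX k p) := by
      rw [h1, Submodule.coe_sum]
    have h4 : ((F x : ETot k n p w) : XX k p).1 q = evl k p q (F x : ETot k n p w) := rfl
    rw [h4, h3, map_sum]
    have h5 : ∀ i ∈ Finset.range m, evl k p q ((Jl p w i (π i x) : ETot k n p w) : XX k p) =
        if q = i then (x : XX k p).1 q else 0 := fun i _ => hblk i x q
    rw [Finset.sum_congr rfl h5, Finset.sum_ite_eq]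
    simp only [Finset.mem_range]
  have hZb : ∀ (x : ETot k n p w) (q : ℕ), ((Z x : ETot k n p w) : XX k p).1 q =
      if m < q then (x : XX k p).1 q else 0 := by
    intro x q
    have h1 : ((Z x : ETot k n p w) : XX k p).1 q = (x : XX k p).1 q -
        ((J (π m x) : ETot k n p w) : XX k p).1 q - ((F x : ETot k n p w) : XX k p).1 q := rfl
    rw [h1, hFb, hJ, hblk]
    rcases lt_trichotomy q m with h | h | h
    · rw [if_neg h.ne, if_pos h, if_neg (by omega)]; simp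
    · subst h; simp
    · rw [if_neg h.ne', if_neg (by omega), if_pos h]; simp
  have hZn : ∀ x : ETot k n p w, ‖Z x‖ ≤ ‖x‖ := by
    intro x
    rw [← Submodule.norm_coe, ← Submodule.norm_coe x]
    apply lp.norm_mono (by norm_num)
    intro q
    have := hZb x q
    show ‖((Z x : ETot k n p w) : XX k p).1 q‖ ≤ ‖(x : XX k p).1 q‖
    rw [this]
    split_ifs
    · exact le_rfl
    · simp
  have hdec : ∀ x : (ETot k n p w) × L2, x - I1 (J (π m x.1)) = I1 (F x.1) + (Z x.1, x.2) := by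
    intro x
    rw [hZ, hI1]
    simp only [LinearMap.sub_apply, LinearMap.id_apply, LinearMap.comp_apply,
      LinearMap.inl_apply]
    ext1
    · show x.1 - J (π m x.1) = F x.1 + (x.1 - J (π m x.1) - F x.1)
      abel
    · show x.2 - 0 = 0 + x.2
      abel
  set π' : (ETot k n p w) × L2 →ₗ[ℝ] EE (n m) := (π m) ∘ₗ (LinearMap.fst ℝ _ _) with hπ'
  have hπ'n : ∀ x : (ETot k n p w) × L2, NE (pr m) (w m) (π' x) ≤ ‖x‖ := by
    intro x
    exact (hπn x.1).trans (norm_fst_le x)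
  set T : ℕ → (EE (n m) →ₗ[ℝ] EE (n m)) := fun j => π' ∘ₗ (P j).toLinearMap ∘ₗ I1 ∘ₗ J with hT
  have hTa : ∀ j v, T j v = π' (P j (I1 (J v))) := fun j v => rfl
  have hm0 : (0 : ℝ) ≤ m := Nat.cast_nonneg m
  refine hnp m T ?_ ?_ ?_ ?_ ?_
  · ext1 v
    rw [hTa, hP0]; simp
  · intro j v
    rw [hTa]
    have hN0 : 0 ≤ NE (pr m) (w m) v := by rw [← hNE]; exact norm_nonneg _
    calc NE (pr m) (w m) (π' (P j (I1 (J v)))) ≤ ‖P j (I1 (J v))‖ := hπ'n _
      _ ≤ |K0| * ‖I1 (J v)‖ := hPn _ _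
      _ = |K0| * NE (pr m) (w m) v := by rw [hI1n, hJn]
      _ ≤ m * NE (pr m) (w m) v := mul_le_mul_of_nonneg_right (by linarith) hN0
  · intro v
    have hc : Continuous fun x : (ETot k n p w) × L2 => π m x.1 := (hπ3 m).comp continuous_fst
    have h1 := (hc.tendsto (I1 (J v))).comp (hPt (I1 (J v)))
    have h3 : π m (I1 (J v)).1 = v := hπ2 m v
    rw [h3] at h1
    exact h1
  · intro j
    have hsub : LinearMap.range (T (j + 1) - T j) ≤ Submodule.span ℝ {π' (e j)} := by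
      rintro _ ⟨v, rfl⟩
      obtain ⟨c, hc⟩ := hPd j (I1 (J v))
      rw [Submodule.mem_span_singleton]
      refine ⟨c, ?_⟩
      rw [LinearMap.sub_apply, hTa, hTa, ← map_sub, hc, map_smul]
    exact (Submodule.finrank_mono hsub).trans ((finrank_span_le_card _).trans (by simp))
  · intro j
    -- the finite rank part
    set R : EE (n m) →ₗ[ℝ] EE (n m) := π' ∘ₗ (P j).toLinearMap ∘ₗ I1 ∘ₗ F ∘ₗ
      (LinearMap.fst ℝ _ _) ∘ₗ (P j).toLinearMap ∘ₗ I1 ∘ₗ J with hR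
    -- the submodule H
    set ZJ : EE (n m) →ₗ[ℝ] ETot k n p w :=
      Z ∘ₗ (LinearMap.fst ℝ _ _) ∘ₗ (P j).toLinearMap ∘ₗ I1 ∘ₗ J with hZJ
    set H : Submodule ℝ (XX k p) := LinearMap.range ((ETot k n p w).subtype ∘ₗ ZJ) with hH
    haveI : FiniteDimensional ℝ H := by rw [hH]; infer_instance
    have hHn : Module.finrank ℝ H ≤ n m := by
      rw [hH]
      refine (LinearMap.finrank_range_le _).trans ?_
      simp
    have hHE : ∀ x ∈ H, x ∈ ETot k n p w := by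
      rintro _ ⟨v, rfl⟩
      exact (ZJ v).2
    obtain ⟨n', d, Φ, Ψ, -, hΦ, hΨ, hΨH, hΨΦ, -⟩ := lemmaB k pr h2 h4 (m + 1) (n m) (by
      intro i hi
      refine le_trans ?_ (hj i)
      apply pow_le_pow_right₀ (by norm_num)
      have a1 : n m ≤ k m := hnk m
      have a2 : k m ≤ ∑ q ∈ Finset.range i, k q :=
        Finset.single_le_sum (f := k) (fun _ _ => Nat.zero_le _) (Finset.mem_range.2 (by omega))
      have a3 : (∑ q ∈ Finset.range i, k q) < 5 ^ (∑ q ∈ Finset.range i, k q) :=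
        Nat.lt_pow_self (by norm_num)
      omega) H hHn (by
      rintro _ ⟨v, rfl⟩ i hi
      show ((ZJ v : ETot k n p w) : XX k p).1 i = 0
      show ((Z (P j (I1 (J v))).1 : ETot k n p w) : XX k p).1 i = 0
      rw [hZb, if_neg (by omega)])
    set ΨE : EuclideanSpace ℝ (Fin d) →ₗ[ℝ] ETot k n p w :=
      LinearMap.codRestrict (ETot k n p w) Ψ.toLinearMap (fun y => hHE _ (hΨH y)) with hΨE
    -- the Hilbert part
    set QJ : EE (n m) →ₗ[ℝ] L2 := (LinearMap.snd ℝ _ _) ∘ₗ (P j).toLinearMap ∘ₗ I1 ∘ₗ J with hQJ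
    set H2 : Submodule ℝ L2 := LinearMap.range QJ with hH2
    haveI : FiniteDimensional ℝ H2 := by rw [hH2]; infer_instance
    set u : WithLp 2 (EuclideanSpace ℝ (Fin d) × H2) ≃ₗᵢ[ℝ] EuclideanSpace ℝ
      (Fin (Module.finrank ℝ (WithLp 2 (EuclideanSpace ℝ (Fin d) × H2)))) :=
      (stdOrthonormalBasis ℝ (WithLp 2 (EuclideanSpace ℝ (Fin d) × H2))).repr with hu
    set A0 : EE (n m) →ₗ[ℝ] WithLp 2 (EuclideanSpace ℝ (Fin d) × H2) :=
      (WithLp.linearEquiv 2 ℝ (EuclideanSpace ℝ (Fin d) × H2)).symm.toLinearMap ∘ₗ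
        (LinearMap.prod (Φ.toLinearMap ∘ₗ (ETot k n p w).subtype ∘ₗ ZJ)
          (LinearMap.codRestrict H2 QJ (fun v => ⟨v, rfl⟩))) with hA0
    set B0 : WithLp 2 (EuclideanSpace ℝ (Fin d) × H2) →ₗ[ℝ] (ETot k n p w) × L2 :=
      (LinearMap.prodMap ΨE H2.subtype) ∘ₗ
        (WithLp.linearEquiv 2 ℝ (EuclideanSpace ℝ (Fin d) × H2)).toLinearMap with hB0
    have hA0a : ∀ v, A0 v = WithLp.toLp 2 (Φ ((ZJ v : ETot k n p w) : XX k p),
        (⟨QJ v, ⟨v, rfl⟩⟩ : H2)) := fun v => rfl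
    have hB0a : ∀ y, B0 y = (ΨE y.fst, (y.snd : L2)) := fun y => rfl
    refine ⟨R, _, u.toLinearEquiv.toLinearMap ∘ₗ A0,
      π' ∘ₗ (P j).toLinearMap ∘ₗ B0 ∘ₗ u.symm.toLinearEquiv.toLinearMap, ?_, ?_, ?_, ?_⟩
    · -- rank of R
      set Wt : (∀ i : Fin m, EE (n i)) →ₗ[ℝ] ETot k n p w :=
        ∑ i : Fin m, (Jl p w i) ∘ₗ (LinearMap.proj i) with hWt
      have hle : LinearMap.range R ≤ LinearMap.range (π' ∘ₗ (P j).toLinearMap ∘ₗ I1 ∘ₗ Wt) := by
        rintro _ ⟨v, rfl⟩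
        refine ⟨fun i => π i (P j (I1 (J v))).1, ?_⟩
        show π' (P j (I1 (Wt _))) = π' (P j (I1 (F (P j (I1 (J v))).1)))
        have : Wt (fun i => π i (P j (I1 (J v))).1) = F (P j (I1 (J v))).1 := by
          rw [hWt, hF, LinearMap.sum_apply, LinearMap.sum_apply, Finset.sum_range]
          rfl
        rw [this]
      refine (Submodule.finrank_mono hle).trans ((LinearMap.finrank_range_le _).trans ?_)
      rw [Module.finrank_pi_fintype, Finset.sum_range]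
      simp
    · intro v
      have hN0 : 0 ≤ NE (pr m) (w m) v := by rw [← hNE]; exact norm_nonneg _
      show ‖u (A0 v)‖ ≤ m * NE (pr m) (w m) v
      rw [u.norm_map, hA0a]
      have e1 : ‖P j (I1 (J v))‖ ≤ |K0| * NE (pr m) (w m) v := by
        have := hPn j (I1 (J v))
        rwa [hI1n, hJn] at this
      calc ‖(WithLp.toLp 2 (Φ ((ZJ v : ETot k n p w) : XX k p),
            (⟨QJ v, ⟨v, rfl⟩⟩ : H2)) : WithLp 2 (EuclideanSpace ℝ (Fin d) × H2))‖
          ≤ ‖Φ ((ZJ v : ETot k n p w) : XX k p)‖ + ‖(⟨QJ v, ⟨v, rfl⟩⟩ : H2)‖ := withLp_norm_le _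
        _ ≤ 2 * ‖((ZJ v : ETot k n p w) : XX k p)‖ + ‖QJ v‖ := add_le_add (hΦ _) le_rfl
        _ = 2 * ‖Z (P j (I1 (J v))).1‖ + ‖(P j (I1 (J v))).2‖ := by rw [Submodule.norm_coe]; rfl
        _ ≤ 2 * (|K0| * NE (pr m) (w m) v) + |K0| * NE (pr m) (w m) v := by
            have a1 := (hZn (P j (I1 (J v))).1).trans ((norm_fst_le _).trans e1)
            have a2 := (norm_snd_le (P j (I1 (J v)))).trans e1
            linarith
        _ ≤ m * NE (pr m) (w m) v := by nlinarith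
    · intro y
      have hy0 : 0 ≤ ‖y‖ := norm_nonneg y
      show NE (pr m) (w m) (π' (P j (B0 (u.symm y)))) ≤ m * ‖y‖
      have e2 : ‖B0 (u.symm y)‖ ≤ 2 * ‖y‖ := by
        rw [hB0a, Prod.norm_def]
        have e3 : ‖u.symm y‖ = ‖y‖ := u.symm.norm_map y
        refine max_le ?_ ?_
        · calc ‖ΨE (u.symm y).fst‖ = ‖Ψ (u.symm y).fst‖ := by rw [← Submodule.norm_coe]; rfl
            _ ≤ 2 * ‖(u.symm y).fst‖ := hΨ _
            _ ≤ 2 * ‖y‖ := by have := withLp_fst_le (u.symm y); rw [e3] at this; linarith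
        · have := withLp_snd_le (u.symm y)
          rw [e3] at this
          show ‖((u.symm y).snd : L2)‖ ≤ 2 * ‖y‖
          have e4 : ‖((u.symm y).snd : L2)‖ = ‖(u.symm y).snd‖ := rfl
          rw [e4]; linarith
      calc NE (pr m) (w m) (π' (P j (B0 (u.symm y)))) ≤ ‖P j (B0 (u.symm y))‖ := hπ'n _
        _ ≤ |K0| * ‖B0 (u.symm y)‖ := hPn _ _
        _ ≤ |K0| * (2 * ‖y‖) := mul_le_mul_of_nonneg_left e2 hK0'
        _ ≤ m * ‖y‖ := by nlinarith
    · intro v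
      have h1 : ΨE (Φ ((ZJ v : ETot k n p w) : XX k p)) = ZJ v := by
        apply Subtype.ext
        exact hΨΦ _ ⟨v, rfl⟩
      have h3 : T j v - T j (T j v) =
          π' (P j (P j (I1 (J v)) - I1 (J (π m (P j (I1 (J v))).1)))) := by
        rw [hTa, hTa, map_sub (P j), map_sub, hPi]
        rfl
      have h5 : B0 (u.symm (u (A0 v))) = (Z (P j (I1 (J v))).1, (P j (I1 (J v))).2) := by
        rw [u.symm_apply_apply, hA0a, hB0a]
        show (ΨE (Φ ((ZJ v : ETot k n p w) : XX k p)), QJ v) = _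
        rw [h1]
        rfl
      rw [h3, hdec, map_add, map_add]
      show _ = π' (P j (I1 (F (P j (I1 (J v))).1))) + π' (P j (B0 (u.symm (u (A0 v)))))
      rw [h5]

end Pool.Agent.W693.F511
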