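import Mathlib

set_option autoImplicit false
open Filter Topology

namespace Pool.Agent.W693.F511

/-- the matrix `t` is consistent (regular in the sense of Silverman and Toeplitz) -/
def IsConsistent (t : ℕ → ℕ → ℝ) : Prop :=
  (∃ C : ℝ, ∀ n, Summable (fun m => |t n m|) ∧ ∑' m, |t n m| ≤ C) ∧
  (∀ m, Tendsto (fun n => t n m) atTop (𝓝 0)) ∧
  Tendsto (fun n => ∑' m, t n m) atTop (𝓝 1)

/-- the matrix `t` is triangular -/
def IsTriangular (t : ℕ → ℕ → ℝ) : Prop := ∀ n m, n < m → t n m = 0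

/-- `S m = ∑_{i ≤ m} α i • x i` -/
def psum {E : Type} [AddCommGroup E] [Module ℝ E] (x : ℕ → E) (α : ℕ → ℝ) (m : ℕ) : E :=
  ∑ i ∈ Finset.range (m + 1), α i • x i

/-- for every `n` the series `σ n = ∑ m, t n m • S m` converges in `E`, and `σ n → y` -/
def TExpansion {E : Type} [NormedAddCommGroup E] [NormedSpace ℝ E] (t : ℕ → ℕ → ℝ)
    (x : ℕ → E) (α : ℕ → ℝ) (y : E) : Prop :=
  ∃ σ : ℕ → E,
    (∀ n, Tendsto (fun M => ∑ m ∈ Finset.range M, t n m • psum x α m) atTop (𝓝 (σ n))) ∧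
    Tendsto σ atTop (𝓝 y)

/-- `x` is a `T`-basis of `E` -/
def IsTBasis {E : Type} [NormedAddCommGroup E] [NormedSpace ℝ E] (t : ℕ → ℕ → ℝ)
    (x : ℕ → E) : Prop :=
  ∀ y : E, ∃! α : ℕ → ℝ, TExpansion t x α y

/-- `x` is a Schauder basis of `E` -/
def IsSchauderBasis {E : Type} [NormedAddCommGroup E] [NormedSpace ℝ E] (x : ℕ → E) : Prop :=
  ∀ y : E, ∃! α : ℕ → ℝ,
    Tendsto (fun N => ∑ i ∈ Finset.range N, α i • x i) atTop (𝓝 y)

/-- the Cesaro matrix (rows and columns indexed from `0`) -/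
noncomputable def cesaro (n m : ℕ) : ℝ := if m ≤ n then 1 / ((n : ℝ) + 1) else 0

/-- every long enough search finds windows of prescribed length and uniformly small mass -/
def HasLightWindows (t : ℕ → ℕ → ℝ) : Prop :=
  ∀ (D : ℕ) (ε : ℝ), 0 < ε → ∀ A : ℕ, ∃ a : ℕ, A ≤ a ∧
    ∀ n, ∑ m ∈ Finset.Ico a (a + D), |t n m| ≤ ε

end Pool.Agent.W693.F511
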