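import Mathlib
import Pool.Agent.W693.F511Defs

set_option autoImplicit false
open Filter Topology

namespace Pool.Agent.W693.F511

/-- Toeplitz lemma in a Banach space: a bounded null sequence is summed to zero -/
theorem toeplitz_zero {E : Type} [NormedAddCommGroup E] [NormedSpace ℝ E] [CompleteSpace E]
    (t : ℕ → ℕ → ℝ) (ht : IsConsistent t) (u : ℕ → E) (hu : Tendsto u atTop (𝓝 0)) :
    (∀ n, Summable fun m => t n m • u m) ∧
    Tendsto (fun n => ∑' m, t n m • u m) atTop (𝓝 0) := by
  obtain ⟨⟨C, hC⟩, hcol, -⟩ := ht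
  have hC0 : 0 ≤ C := (tsum_nonneg fun m => abs_nonneg (t 0 m)).trans (hC 0).2
  obtain ⟨B, hB⟩ : ∃ B : ℝ, ∀ m, ‖u m‖ ≤ B := by
    obtain ⟨B, hB⟩ := (Metric.isBounded_range_of_tendsto u hu).exists_norm_le
    exact ⟨B, fun m => hB _ ⟨m, rfl⟩⟩
  have hB0 : 0 ≤ B := (norm_nonneg _).trans (hB 0)
  have hs : ∀ n, Summable fun m => ‖t n m • u m‖ := by
    intro n
    refine Summable.of_nonneg_of_le (fun m => norm_nonneg _) (fun m => ?_)
      ((hC n).1.mul_right B)
    rw [norm_smul, Real.norm_eq_abs]
    exact mul_le_mul_of_nonneg_left (hB m) (abs_nonneg _)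
  refine ⟨fun n => (hs n).of_norm, ?_⟩
  rw [Metric.tendsto_atTop]
  intro ε hε
  set δ : ℝ := ε / (2 * (C + 1)) with hδ
  have hδ0 : 0 < δ := by positivity
  obtain ⟨N, hN⟩ := (Metric.tendsto_atTop.1 hu) δ hδ0
  have hcolN : Tendsto (fun n => ∑ m ∈ Finset.range N, |t n m| * B) atTop (𝓝 0) := by
    have h1 : Tendsto (fun n => ∑ m ∈ Finset.range N, |t n m| * B) atTop
        (𝓝 (∑ m ∈ Finset.range N, |(0 : ℝ)| * B)) := by
      apply tendsto_finsetSum
      intro m _
      exact ((hcol m).abs).mul_const B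
    simpa using h1
  obtain ⟨n0, hn0⟩ := (Metric.tendsto_atTop.1 hcolN) (ε / 2) (by positivity)
  refine ⟨n0, fun n hn => ?_⟩
  have h2 := hn0 n hn
  rw [Real.dist_eq, sub_zero] at h2
  have h3 := lt_of_le_of_lt (le_abs_self _) h2
  rw [dist_zero_right]
  calc ‖∑' m, t n m • u m‖ ≤ ∑' m, ‖t n m • u m‖ := norm_tsum_le_tsum_norm (hs n)
    _ = ∑ m ∈ Finset.range N, ‖t n m • u m‖ + ∑' m, ‖t n (m + N) • u (m + N)‖ :=
        ((hs n).sum_add_tsum_nat_add N).symm
    _ ≤ ∑ m ∈ Finset.range N, |t n m| * B + δ * C := by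
        apply add_le_add
        · refine Finset.sum_le_sum fun m _ => ?_
          rw [norm_smul, Real.norm_eq_abs]
          exact mul_le_mul_of_nonneg_left (hB m) (abs_nonneg _)
        · have hs2 : Summable fun m => |t n (m + N)| := (summable_nat_add_iff N).2 (hC n).1
          calc ∑' m, ‖t n (m + N) • u (m + N)‖ ≤ ∑' m, δ * |t n (m + N)| := by
                refine Summable.tsum_le_tsum (fun m => ?_) ((summable_nat_add_iff N).2 (hs n))
                  (hs2.mul_left δ)
                rw [norm_smul, Real.norm_eq_abs, mul_comm]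
                refine mul_le_mul_of_nonneg_right ?_ (abs_nonneg _)
                have := hN (m + N) (Nat.le_add_left _ _)
                rw [dist_zero_right] at this
                exact this.le
            _ = δ * ∑' m, |t n (m + N)| := tsum_mul_left
            _ ≤ δ * C := by
                refine mul_le_mul_of_nonneg_left ?_ hδ0.le
                have := (hC n).1.sum_add_tsum_nat_add N
                have h0 : 0 ≤ ∑ m ∈ Finset.range N, |t n m| :=
                  Finset.sum_nonneg fun m _ => abs_nonneg _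
                linarith [(hC n).2]
    _ < ε := by
        have h5 : δ * C < ε / 2 := by
          have h6 : δ * (C + 1) = ε / 2 := by
            rw [hδ]; field_simp
          nlinarith
        linarith

/-- the abstract criterion -/
theorem tbasis_of {E : Type} [NormedAddCommGroup E] [NormedSpace ℝ E] [CompleteSpace E]
    (t : ℕ → ℕ → ℝ) (ht : IsConsistent t) (x : ℕ → E) (f : ℕ → E →L[ℝ] ℝ)
    (hbi : ∀ i j, f i (x j) = if i = j then 1 else 0)
    (A : ℕ → E → E) (hA : ∀ y, Tendsto (fun m => A m y) atTop (𝓝 y))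
    (c : ℕ → ℝ) (hc0 : ∀ m, 0 ≤ c m)
    (hS : ∀ m y, ‖psum x (fun i => f i y) m - A m y‖ ≤ c m * ‖y‖)
    (τ : ℕ → ℝ) (hτ : Tendsto τ atTop (𝓝 0))
    (hsum : ∀ n M, ∑ m ∈ Finset.range M, |t n m| * c m ≤ τ n) : IsTBasis t x := by
  intro y
  have hτs : ∀ n, Summable fun m => |t n m| * c m := fun n =>
    summable_of_sum_range_le (fun m => mul_nonneg (abs_nonneg _) (hc0 m)) (hsum n)
  have hτl : ∀ n, ∑' m, |t n m| * c m ≤ τ n := fun n =>
    Real.tsum_le_of_sum_range_le (fun m => mul_nonneg (abs_nonneg _) (hc0 m)) (hsum n)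
  have hu : Tendsto (fun m => A m y - y) atTop (𝓝 0) := by
    have := (hA y).sub_const y
    rwa [sub_self] at this
  obtain ⟨hs1, hs2⟩ := toeplitz_zero t ht _ hu
  obtain ⟨⟨C, hC⟩, hcol, hone⟩ := ht
  have htn : ∀ n, Summable fun m => t n m := fun n => (hC n).1.of_abs
  refine ⟨fun i => f i y, ?_, ?_⟩
  · set S : ℕ → E := psum x (fun i => f i y) with hSdef
    have hs3n : ∀ n, Summable fun m => ‖t n m • (S m - A m y)‖ := by
      intro n
      refine Summable.of_nonneg_of_le (fun m => norm_nonneg _) (fun m => ?_)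
        ((hτs n).mul_right ‖y‖)
      rw [norm_smul, Real.norm_eq_abs, mul_assoc]
      exact mul_le_mul_of_nonneg_left (hS m y) (abs_nonneg _)
    have hs3 : ∀ n, Summable fun m => t n m • (S m - A m y) := fun n => (hs3n n).of_norm
    have hs4 : ∀ n, Summable fun m => t n m • y := fun n => (htn n).smul_const y
    have hdecomp : ∀ n m, t n m • S m = t n m • (S m - A m y) + t n m • (A m y - y) +
        t n m • y := by
      intro n m
      rw [smul_sub, smul_sub]; abel
    have hs5 : ∀ n, Summable fun m => t n m • S m := by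
      intro n
      simp_rw [hdecomp n]
      exact ((hs3 n).add (hs1 n)).add (hs4 n)
    refine ⟨fun n => ∑' m, t n m • S m, fun n => (hs5 n).hasSum.tendsto_sum_nat, ?_⟩
    have h6 : ∀ n, ∑' m, t n m • S m = ∑' m, t n m • (S m - A m y) +
        ∑' m, t n m • (A m y - y) + (∑' m, t n m) • y := by
      intro n
      rw [← (htn n).tsum_smul_const, ← (hs3 n).tsum_add (hs1 n),
        ← ((hs3 n).add (hs1 n)).tsum_add (hs4 n)]
      exact tsum_congr (hdecomp n)
    simp_rw [h6]
    have h7 : Tendsto (fun n => ∑' m, t n m • (S m - A m y)) atTop (𝓝 0) := by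
      apply squeeze_zero_norm (a := fun n => τ n * ‖y‖)
      · intro n
        calc ‖∑' m, t n m • (S m - A m y)‖ ≤ ∑' m, ‖t n m • (S m - A m y)‖ :=
              norm_tsum_le_tsum_norm (hs3n n)
          _ ≤ ∑' m, |t n m| * c m * ‖y‖ := by
              refine Summable.tsum_le_tsum (fun m => ?_) (hs3n n) ((hτs n).mul_right ‖y‖)
              rw [norm_smul, Real.norm_eq_abs, mul_assoc]
              exact mul_le_mul_of_nonneg_left (hS m y) (abs_nonneg _)
          _ = (∑' m, |t n m| * c m) * ‖y‖ := tsum_mul_right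
          _ ≤ τ n * ‖y‖ := mul_le_mul_of_nonneg_right (hτl n) (norm_nonneg _)
      · simpa using hτ.mul_const ‖y‖
    have h8 := (h7.add hs2).add (hone.smul_const y)
    simpa using h8
  · rintro α ⟨σ, hσ, hσy⟩
    funext i
    -- apply `f i`
    have h1 : ∀ m, f i (psum x α m) = if i ≤ m then α i else 0 := by
      intro m
      rw [psum, map_sum]
      simp only [map_smul, smul_eq_mul, hbi, mul_ite, mul_one, mul_zero]
      rw [Finset.sum_ite_eq]
      simp [Nat.lt_succ_iff]
    have h2 : ∀ n, f i (σ n) = α i * (∑' m, t n m - ∑ m ∈ Finset.range i, t n m) := by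
      intro n
      have h3 : Tendsto (fun M => f i (∑ m ∈ Finset.range M, t n m • psum x α m)) atTop
          (𝓝 (f i (σ n))) := ((f i).continuous.tendsto _).comp (hσ n)
      have h4 : Tendsto (fun M => α i * (∑ m ∈ Finset.range M, t n m -
          ∑ m ∈ Finset.range i, t n m)) atTop
          (𝓝 (α i * (∑' m, t n m - ∑ m ∈ Finset.range i, t n m))) :=
        ((htn n).hasSum.tendsto_sum_nat.sub_const _).const_mul _
      refine tendsto_nhds_unique (h3.congr' ?_) h4
      filter_upwards [eventually_ge_atTop i] with M hM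
      rw [map_sum]
      simp only [map_smul, smul_eq_mul, h1]
      rw [← Finset.sum_range_add_sum_Ico _ hM, ← Finset.sum_range_add_sum_Ico (fun m => t n m) hM,
        add_sub_cancel_left, Finset.mul_sum]
      have e1 : ∑ m ∈ Finset.range i, t n m * (if i ≤ m then α i else 0) = 0 := by
        refine Finset.sum_eq_zero fun m hm => ?_
        rw [if_neg (by have := Finset.mem_range.1 hm; omega), mul_zero]
      rw [e1, zero_add]
      refine Finset.sum_congr rfl fun m hm => ?_
      rw [if_pos (Finset.mem_Ico.1 hm).1, mul_comm]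
    have h5 : Tendsto (fun n => f i (σ n)) atTop (𝓝 (f i y)) :=
      ((f i).continuous.tendsto _).comp hσy
    have h6 : Tendsto (fun n => f i (σ n)) atTop (𝓝 (α i * (1 - 0))) := by
      simp_rw [h2]
      refine (hone.sub ?_).const_mul _
      have h7 : Tendsto (fun n => ∑ m ∈ Finset.range i, t n m) atTop
          (𝓝 (∑ m ∈ Finset.range i, (0 : ℝ))) := tendsto_finsetSum _ fun m _ => hcol m
      simpa using h7
    have := tendsto_nhds_unique h6 h5
    rw [sub_zero, mul_one] at this
    exact this

end Pool.Agent.W693.F511
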