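import Mathlib
import Pool.Agent.W693.F511Defs
import Pool.Agent.W693.F511B

set_option autoImplicit false
open Filter Topology

namespace Pool.Agent.W693.F511

/-- data: window positions `a`, window lengths `d` -/
structure Win (a d : ℕ → ℕ) : Prop where
  step : ∀ k, a k + d k + 1 ≤ a (k + 1)

namespace Win
variable {a d : ℕ → ℕ}

theorem mono_step (h : Win a d) {k l : ℕ} (hkl : k < l) : a k + d k + 1 ≤ a l := by
  induction l with
  | zero => omega
  | succ l ih =>
    rcases Nat.lt_succ_iff_lt_or_eq.1 hkl with h1 | h1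
    · have := ih h1
      have := h.step l
      omega
    · subst h1
      exact h.step k

theorem le_self (h : Win a d) (k : ℕ) : k ≤ a k := by
  induction k with
  | zero => omega
  | succ k ih => have := h.step k; omega

/-- windows are determined by any point in them -/
theorem unique (h : Win a d) {k l i : ℕ} (hk : i ∈ Finset.Ico (a k) (a k + d k))
    (hl : i ∈ Finset.Ico (a l) (a l + d l)) : k = l := by
  rw [Finset.mem_Ico] at hk hl
  rcases lt_trichotomy k l with h1 | h1 | h1
  · have := h.mono_step h1; omega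
  · exact h1
  · have := h.mono_step h1; omega

end Win

/-- the index of the window containing `i` (junk otherwise) -/
noncomputable def widx (a : ℕ → ℕ) (i : ℕ) : ℕ := Nat.findGreatest (fun k => a k ≤ i) i

theorem widx_eq {a d : ℕ → ℕ} (h : Win a d) {k i : ℕ} (hk : i ∈ Finset.Ico (a k) (a k + d k)) :
    widx a i = k := by
  rw [Finset.mem_Ico] at hk
  have h1 : k ≤ widx a i := Nat.le_findGreatest ((h.le_self k).trans hk.1) hk.1
  rcases h1.lt_or_eq with h2 | h2
  · have h3 : a (widx a i) ≤ i := by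
      apply Nat.findGreatest_spec (P := fun k => a k ≤ i) ((h.le_self k).trans hk.1) hk.1
    have := h.mono_step h2
    omega
  · exact h2.symm

/-- occupied positions -/
def occ (a d : ℕ → ℕ) (i : ℕ) : Prop :=
  a (widx a i) ≤ i ∧ i < a (widx a i) + d (widx a i)

noncomputable instance (a d : ℕ → ℕ) : DecidablePred (occ a d) := fun _ => Classical.propDecidable _
noncomputable instance (a d : ℕ → ℕ) : DecidablePred (fun i => ¬ occ a d i) :=
  fun _ => Classical.propDecidable _

theorem occ_iff {a d : ℕ → ℕ} (h : Win a d) (i : ℕ) :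
    occ a d i ↔ ∃ k, i ∈ Finset.Ico (a k) (a k + d k) := by
  constructor
  · intro hi
    exact ⟨widx a i, Finset.mem_Ico.2 hi⟩
  · rintro ⟨k, hk⟩
    have := widx_eq h hk
    rw [occ, this]
    exact Finset.mem_Ico.1 hk

variable {E₁ E₂ : Type} [NormedAddCommGroup E₁] [NormedSpace ℝ E₁]
  [NormedAddCommGroup E₂] [NormedSpace ℝ E₂]

open Classical in
/-- the merged sequence -/
noncomputable def mvec (a d : ℕ → ℕ) (b : ℕ → ℕ → E₁) (h : ℕ → E₂) (i : ℕ) : E₁ × E₂ :=
  if occ a d i then (b (widx a i) (i - a (widx a i)), 0)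
  else (0, h (Nat.count (fun i => ¬ occ a d i) i))

open Classical in
/-- the merged functionals -/
noncomputable def mfun (a d : ℕ → ℕ) (g : ℕ → ℕ → (E₁ →L[ℝ] ℝ)) (hf : ℕ → (E₂ →L[ℝ] ℝ)) (i : ℕ) :
    E₁ × E₂ →L[ℝ] ℝ :=
  if occ a d i then (g (widx a i) (i - a (widx a i))).comp (ContinuousLinearMap.fst ℝ E₁ E₂)
  else (hf (Nat.count (fun i => ¬ occ a d i) i)).comp (ContinuousLinearMap.snd ℝ E₁ E₂)

theorem mbi (a d : ℕ → ℕ) (hw : Win a d) (b : ℕ → ℕ → E₁) (h : ℕ → E₂)
    (g : ℕ → ℕ → (E₁ →L[ℝ] ℝ)) (hf : ℕ → (E₂ →L[ℝ] ℝ))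
    (hbg : ∀ k s k' s', s < d k → s' < d k' →
      g k s (b k' s') = if k = k' ∧ s = s' then 1 else 0)
    (hh : ∀ l l', hf l (h l') = if l = l' then 1 else 0) (i j : ℕ) :
    mfun a d g hf i (mvec a d b h j) = if i = j then 1 else 0 := by
  classical
  by_cases hi : occ a d i <;> by_cases hj : occ a d j
  · rw [mfun, mvec, if_pos hi, if_pos hj]
    show g _ _ (b _ _) = _
    rw [hbg _ _ _ _ (by have := hi.2; have := hi.1; omega) (by have := hj.2; have := hj.1; omega)]
    by_cases hij : i = j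
    · subst hij; simp
    · rw [if_neg hij, if_neg]
      rintro ⟨e1, e2⟩
      have h1 := hi.1
      have h2 := hj.1
      rw [e1] at h1 e2
      omega
  · rw [mfun, mvec, if_pos hi, if_neg hj, if_neg (by rintro rfl; exact hj hi)]
    show g _ _ 0 = _
    rw [map_zero]
  · rw [mfun, mvec, if_neg hi, if_pos hj, if_neg (by rintro rfl; exact hi hj)]
    show hf _ 0 = _
    rw [map_zero]
  · rw [mfun, mvec, if_neg hi, if_neg hj]
    show hf _ (h _) = _
    rw [hh]
    by_cases hij : i = j
    · subst hij; simp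
    · rw [if_neg hij, if_neg]
      intro e
      exact hij (Nat.count_injective (p := fun i => ¬ occ a d i) hi hj e)

/-- the partial sums with `j` terms -/
noncomputable def msum (a d : ℕ → ℕ) (b : ℕ → ℕ → E₁) (h : ℕ → E₂)
    (g : ℕ → ℕ → (E₁ →L[ℝ] ℝ)) (hf : ℕ → (E₂ →L[ℝ] ℝ)) (j : ℕ) (y : E₁ × E₂) : E₁ × E₂ :=
  ∑ i ∈ Finset.range j, mfun a d g hf i y • mvec a d b h i

theorem occ_part (a d : ℕ → ℕ) (hw : Win a d) (b : ℕ → ℕ → E₁) (h : ℕ → E₂)
    (g : ℕ → ℕ → (E₁ →L[ℝ] ℝ)) (hf : ℕ → (E₂ →L[ℝ] ℝ)) (j : ℕ)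
    (hj : ∀ k, ¬ (a k < j ∧ j < a k + d k)) (y : E₁ × E₂) :
    ∑ i ∈ (Finset.range j).filter (occ a d), mfun a d g hf i y • mvec a d b h i =
      ∑ k ∈ (Finset.range j).filter (fun k => a k + d k ≤ j),
        ((∑ s ∈ Finset.range (d k), g k s y.1 • b k s, 0) : E₁ × E₂) := by
  classical
  have h1 : (Finset.range j).filter (occ a d) =
      ((Finset.range j).filter (fun k => a k + d k ≤ j)).biUnion
        (fun k => Finset.Ico (a k) (a k + d k)) := by
    ext i
    simp only [Finset.mem_filter, Finset.mem_range, Finset.mem_biUnion]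
    constructor
    · rintro ⟨hij, ho⟩
      obtain ⟨k, hk⟩ := (occ_iff hw i).1 ho
      refine ⟨k, ?_, hk⟩
      rw [Finset.mem_Ico] at hk
      have := hw.le_self k
      have := hj k
      omega
    · rintro ⟨k, ⟨hk1, hk2⟩, hk⟩
      refine ⟨?_, (occ_iff hw i).2 ⟨k, hk⟩⟩
      rw [Finset.mem_Ico] at hk
      omega
  rw [h1, Finset.sum_biUnion]
  · refine Finset.sum_congr rfl fun k hk => ?_
    rw [Finset.sum_Ico_eq_sum_range, Nat.add_sub_cancel_left]
    have h2 : ((∑ s ∈ Finset.range (d k), g k s y.1 • b k s, 0) : E₁ × E₂) =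
        ∑ s ∈ Finset.range (d k), ((g k s y.1 • b k s, 0) : E₁ × E₂) := by
      have := map_sum (LinearMap.inl ℝ E₁ E₂) (fun s => g k s y.1 • b k s) (Finset.range (d k))
      simp only [LinearMap.inl_apply] at this
      exact this
    rw [h2]
    refine Finset.sum_congr rfl fun s hs => ?_
    have h3 : a k + s ∈ Finset.Ico (a k) (a k + d k) :=
      Finset.mem_Ico.2 ⟨by omega, by have := Finset.mem_range.1 hs; omega⟩
    have h4 := widx_eq hw h3
    have h5 : occ a d (a k + s) := (occ_iff hw _).2 ⟨k, h3⟩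
    rw [mfun, mvec, if_pos h5, if_pos h5, h4, Nat.add_sub_cancel_left]
    show g k s y.1 • ((b k s, 0) : E₁ × E₂) = _
    rw [Prod.smul_mk, smul_zero]
  · intro k _ l _ hkl
    rw [Function.onFun, Finset.disjoint_left]
    intro i hi hi'
    exact hkl (hw.unique hi hi')

theorem free_part (a d : ℕ → ℕ) (b : ℕ → ℕ → E₁) (h : ℕ → E₂)
    (g : ℕ → ℕ → (E₁ →L[ℝ] ℝ)) (hf : ℕ → (E₂ →L[ℝ] ℝ)) (j : ℕ) (y : E₁ × E₂) :
    ∑ i ∈ (Finset.range j).filter (fun i => ¬ occ a d i), mfun a d g hf i y • mvec a d b h i =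
      ∑ l ∈ Finset.range (Nat.count (fun i => ¬ occ a d i) j),
        ((0, hf l y.2 • h l) : E₁ × E₂) := by
  classical
  induction j with
  | zero => simp
  | succ j ih =>
    rw [Finset.range_add_one, Finset.filter_insert, Nat.count_succ]
    by_cases hj : occ a d j
    · rw [if_neg (not_not.2 hj), if_neg (not_not.2 hj), add_zero, ih]
    · rw [if_pos hj, if_pos hj, Finset.sum_insert (by simp), Finset.sum_range_succ, ih, add_comm]
      congr 1
      rw [mfun, mvec, if_neg hj, if_neg hj]
      show hf _ y.2 • ((0, h _) : E₁ × E₂) = _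
      rw [Prod.smul_mk, smul_zero]

theorem free_count_tendsto (a d : ℕ → ℕ) (hw : Win a d) :
    Tendsto (fun j => Nat.count (fun i => ¬ occ a d i) j) atTop atTop := by
  classical
  apply tendsto_atTop_atTop_of_monotone (Nat.count_monotone _)
  intro N
  induction N with
  | zero => exact ⟨0, by omega⟩
  | succ N ih =>
    obtain ⟨j, hj⟩ := ih
    refine ⟨a j + d j + 1, ?_⟩
    have h1 : ¬ occ a d (a j + d j) := by
      rw [occ_iff hw]
      rintro ⟨k, hk⟩
      rw [Finset.mem_Ico] at hk
      rcases lt_trichotomy j k with h | h | h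
      · have := hw.mono_step h; omega
      · subst h; omega
      · have := hw.mono_step h; omega
    rw [Nat.count_succ, if_pos h1]
    have h2 : Nat.count (fun i => ¬ occ a d i) j ≤ Nat.count (fun i => ¬ occ a d i) (a j + d j) :=
      Nat.count_monotone _ (by have := hw.le_self j; omega)
    omega

/-- position after the last complete window -/
noncomputable def good (a d : ℕ → ℕ) (m : ℕ) : ℕ := if occ a d m then a (widx a m) else m + 1

theorem good_spec (a d : ℕ → ℕ) (hw : Win a d) (m k : ℕ) :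
    ¬ (a k < good a d m ∧ good a d m < a k + d k) := by
  classical
  rintro ⟨h1, h2⟩
  by_cases ho : occ a d m
  · rw [good, if_pos ho] at h1 h2
    rcases lt_trichotomy k (widx a m) with h | h | h
    · have := hw.mono_step h; omega
    · rw [← h] at h1; omega
    · have := hw.mono_step h; omega
  · rw [good, if_neg ho] at h1 h2
    apply ho
    rw [occ_iff hw]
    exact ⟨k, Finset.mem_Ico.2 ⟨by omega, by omega⟩⟩

theorem good_tendsto (a d : ℕ → ℕ) (hw : Win a d) : Tendsto (good a d) atTop atTop := by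
  classical
  rw [tendsto_atTop_atTop]
  intro N
  refine ⟨a N, fun m hm => ?_⟩
  by_cases ho : occ a d m
  · rw [good, if_pos ho]
    rcases lt_or_ge (widx a m) N with h | h
    · have := hw.mono_step h
      have := ho.2
      omega
    · exact h.trans (hw.le_self _)
  · rw [good, if_neg ho]
    have := hw.le_self N
    omega

theorem msum_good_tendsto (a d : ℕ → ℕ) (hw : Win a d) (b : ℕ → ℕ → E₁) (h : ℕ → E₂)
    (g : ℕ → ℕ → (E₁ →L[ℝ] ℝ)) (hf : ℕ → (E₂ →L[ℝ] ℝ))
    (hs1 : ∀ y : E₁, HasSum (fun k => ∑ s ∈ Finset.range (d k), g k s y • b k s) y)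
    (hs2 : ∀ y : E₂, HasSum (fun l => hf l y • h l) y) (y : E₁ × E₂) :
    Tendsto (fun m => msum a d b h g hf (good a d m) y) atTop (𝓝 y) := by
  classical
  have e : ∀ m, msum a d b h g hf (good a d m) y =
      (∑ k ∈ (Finset.range (good a d m)).filter (fun k => a k + d k ≤ good a d m),
        ∑ s ∈ Finset.range (d k), g k s y.1 • b k s,
       ∑ l ∈ Finset.range (Nat.count (fun i => ¬ occ a d i) (good a d m)), hf l y.2 • h l) := by
    intro m
    rw [msum, ← Finset.sum_filter_add_sum_filter_not _ (occ a d),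
      occ_part a d hw b h g hf _ (good_spec a d hw m), free_part]
    have h2 := map_sum (LinearMap.inl ℝ E₁ E₂) (fun k => ∑ s ∈ Finset.range (d k), g k s y.1 • b k s)
      ((Finset.range (good a d m)).filter (fun k => a k + d k ≤ good a d m))
    have h3 := map_sum (LinearMap.inr ℝ E₁ E₂) (fun l => hf l y.2 • h l)
      (Finset.range (Nat.count (fun i => ¬ occ a d i) (good a d m)))
    simp only [LinearMap.inl_apply, LinearMap.inr_apply] at h2 h3
    rw [← h2, ← h3, Prod.mk_add_mk, add_zero, zero_add]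
  simp_rw [e]
  have hmono : Monotone fun j : ℕ => (Finset.range j).filter (fun k => a k + d k ≤ j) := by
    intro i j hij k hk
    simp only [Finset.mem_filter, Finset.mem_range] at hk ⊢
    omega
  have hF : Tendsto (fun j : ℕ => (Finset.range j).filter (fun k => a k + d k ≤ j)) atTop atTop := by
    apply Filter.tendsto_atTop_finset_of_monotone hmono
    intro k
    refine ⟨a k + d k + k + 1, ?_⟩
    simp only [Finset.mem_filter, Finset.mem_range]
    omega
  have t1 := (hs1 y.1).comp (hF.comp (good_tendsto a d hw))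
  have t2 := (hs2 y.2).tendsto_sum_nat.comp ((free_count_tendsto a d hw).comp (good_tendsto a d hw))
  exact t1.prodMk_nhds t2

end Pool.Agent.W693.F511
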