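import Mathlib
import Pool.Agent.W693.F511Defs
import Pool.Agent.W693.F511B
import Pool.Agent.W693.F511C

set_option autoImplicit false
open Filter Topology

namespace Pool.Agent.W693.F511

variable {E₁ E₂ : Type} [NormedAddCommGroup E₁] [NormedSpace ℝ E₁]
  [NormedAddCommGroup E₂] [NormedSpace ℝ E₂]

/-- the size of the partial sums inside a window -/
noncomputable def Cst (d : ℕ → ℕ) (b : ℕ → ℕ → E₁) (g : ℕ → ℕ → (E₁ →L[ℝ] ℝ)) (k : ℕ) : ℝ :=
  ∑ s ∈ Finset.range (d k), ‖g k s‖ * ‖b k s‖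

theorem Cst_nonneg (d : ℕ → ℕ) (b : ℕ → ℕ → E₁) (g : ℕ → ℕ → (E₁ →L[ℝ] ℝ)) (k : ℕ) :
    0 ≤ Cst d b g k := Finset.sum_nonneg fun _ _ => mul_nonneg (norm_nonneg _) (norm_nonneg _)

open Classical in
/-- the deviation -/
noncomputable def dev (a d : ℕ → ℕ) (b : ℕ → ℕ → E₁) (g : ℕ → ℕ → (E₁ →L[ℝ] ℝ)) (m : ℕ) : ℝ :=
  if occ a d m then Cst d b g (widx a m) else 0

theorem dev_nonneg (a d : ℕ → ℕ) (b : ℕ → ℕ → E₁) (g : ℕ → ℕ → (E₁ →L[ℝ] ℝ)) (m : ℕ) :
    0 ≤ dev a d b g m := by
  rw [dev]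
  split_ifs
  · exact Cst_nonneg _ _ _ _
  · exact le_rfl

theorem psum_sub_good (a d : ℕ → ℕ) (hw : Win a d) (b : ℕ → ℕ → E₁) (h : ℕ → E₂)
    (g : ℕ → ℕ → (E₁ →L[ℝ] ℝ)) (hf : ℕ → (E₂ →L[ℝ] ℝ)) (m : ℕ) (y : E₁ × E₂) :
    ‖psum (mvec a d b h) (fun i => mfun a d g hf i y) m - msum a d b h g hf (good a d m) y‖ ≤
      dev a d b g m * ‖y‖ := by
  classical
  by_cases ho : occ a d m
  · rw [dev, good, if_pos ho, if_pos ho]
    set k := widx a m with hk
    have ho' : a k ≤ m ∧ m < a k + d k := ho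
    have h1 : psum (mvec a d b h) (fun i => mfun a d g hf i y) m - msum a d b h g hf (a k) y =
        ∑ i ∈ Finset.Ico (a k) (m + 1), mfun a d g hf i y • mvec a d b h i := by
      rw [psum, msum, ← Finset.sum_range_add_sum_Ico _ (show a k ≤ m + 1 by omega),
        add_sub_cancel_left]
    rw [h1, Finset.sum_Ico_eq_sum_range]
    calc ‖∑ s ∈ Finset.range (m + 1 - a k), mfun a d g hf (a k + s) y • mvec a d b h (a k + s)‖
        ≤ ∑ s ∈ Finset.range (m + 1 - a k),
          ‖mfun a d g hf (a k + s) y • mvec a d b h (a k + s)‖ := norm_sum_le _ _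
      _ ≤ ∑ s ∈ Finset.range (m + 1 - a k), ‖g k s‖ * ‖b k s‖ * ‖y‖ := by
          refine Finset.sum_le_sum fun s hs => ?_
          have h3 : a k + s ∈ Finset.Ico (a k) (a k + d k) :=
            Finset.mem_Ico.2 ⟨by omega, by have := Finset.mem_range.1 hs; omega⟩
          have h4 := widx_eq hw h3
          have h5 : occ a d (a k + s) := (occ_iff hw _).2 ⟨k, h3⟩
          rw [mfun, mvec, if_pos h5, if_pos h5, h4, Nat.add_sub_cancel_left]
          show ‖g k s y.1 • ((b k s, 0) : E₁ × E₂)‖ ≤ _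
          rw [norm_smul, Prod.norm_def]
          simp only [norm_zero, norm_nonneg, max_eq_left]
          have h6 : ‖g k s y.1‖ ≤ ‖g k s‖ * ‖y‖ :=
            ((g k s).le_opNorm _).trans
              (mul_le_mul_of_nonneg_left (norm_fst_le y) (norm_nonneg _))
          calc ‖g k s y.1‖ * ‖b k s‖ ≤ ‖g k s‖ * ‖y‖ * ‖b k s‖ :=
                mul_le_mul_of_nonneg_right h6 (norm_nonneg _)
            _ = ‖g k s‖ * ‖b k s‖ * ‖y‖ := by ring
      _ ≤ ∑ s ∈ Finset.range (d k), ‖g k s‖ * ‖b k s‖ * ‖y‖ := by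
          apply Finset.sum_le_sum_of_subset_of_nonneg
          · intro s hs
            rw [Finset.mem_range] at hs ⊢
            omega
          · intro s _ _
            positivity
      _ = Cst d b g k * ‖y‖ := by rw [Cst, Finset.sum_mul]
  · rw [dev, good, if_neg ho, if_neg ho, psum, msum, sub_self, norm_zero, zero_mul]

theorem dev_sum (a d : ℕ → ℕ) (hw : Win a d) (b : ℕ → ℕ → E₁) (g : ℕ → ℕ → (E₁ →L[ℝ] ℝ))
    (u : ℕ → ℝ) (hu : ∀ m, 0 ≤ u m) (M : ℕ) :
    ∑ m ∈ Finset.range M, u m * dev a d b g m ≤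
      ∑ k ∈ Finset.range M, Cst d b g k * ∑ m ∈ Finset.Ico (a k) (a k + d k), u m := by
  classical
  have h1 : ∑ m ∈ Finset.range M, u m * dev a d b g m =
      ∑ m ∈ (Finset.range M).filter (occ a d), u m * Cst d b g (widx a m) := by
    rw [Finset.sum_filter]
    refine Finset.sum_congr rfl fun m _ => ?_
    rw [dev]
    split_ifs <;> simp
  rw [h1]
  calc ∑ m ∈ (Finset.range M).filter (occ a d), u m * Cst d b g (widx a m)
      ≤ ∑ m ∈ (Finset.range M).biUnion (fun k => Finset.Ico (a k) (a k + d k)),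
          u m * Cst d b g (widx a m) := by
        apply Finset.sum_le_sum_of_subset_of_nonneg
        · intro m hm
          simp only [Finset.mem_filter, Finset.mem_range, Finset.mem_biUnion] at hm ⊢
          obtain ⟨k, hk⟩ := (occ_iff hw m).1 hm.2
          refine ⟨k, ?_, hk⟩
          rw [Finset.mem_Ico] at hk
          have := hw.le_self k
          omega
        · intro m _ _
          exact mul_nonneg (hu m) (Cst_nonneg _ _ _ _)
    _ = ∑ k ∈ Finset.range M, ∑ m ∈ Finset.Ico (a k) (a k + d k),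
          u m * Cst d b g (widx a m) := by
        rw [Finset.sum_biUnion]
        intro k _ l _ hkl
        rw [Function.onFun, Finset.disjoint_left]
        intro i hi hi'
        exact hkl (hw.unique hi hi')
    _ = ∑ k ∈ Finset.range M, Cst d b g k * ∑ m ∈ Finset.Ico (a k) (a k + d k), u m := by
        refine Finset.sum_congr rfl fun k _ => ?_
        rw [Finset.mul_sum]
        refine Finset.sum_congr rfl fun m hm => ?_
        rw [widx_eq hw hm, mul_comm]

/-- choice of the windows -/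
theorem exists_windows (t : ℕ → ℕ → ℝ) (ht : HasLightWindows t) (d : ℕ → ℕ) (ε : ℕ → ℝ)
    (hε : ∀ k, 0 < ε k) : ∃ a : ℕ → ℕ, Win a d ∧
      ∀ k n, ∑ m ∈ Finset.Ico (a k) (a k + d k), |t n m| ≤ ε k := by
  choose pick hp1 hp2 using ht
  let a : ℕ → ℕ := fun k => Nat.rec (pick (d 0) (ε 0) (hε 0) 0)
    (fun k r => pick (d (k + 1)) (ε (k + 1)) (hε (k + 1)) (r + d k + 1)) k
  have h1 : ∀ k, a (k + 1) = pick (d (k + 1)) (ε (k + 1)) (hε (k + 1)) (a k + d k + 1) :=
    fun k => rfl
  refine ⟨a, ⟨fun k => ?_⟩, fun k n => ?_⟩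
  · rw [h1]
    exact hp1 _ _ _ _
  · cases k with
    | zero => exact hp2 _ _ _ _ _
    | succ k => rw [h1]; exact hp2 _ _ _ _ _

/-- the sum of a space with a finite dimensional decomposition and a space with a basis has a
`T`-basis -/
theorem exists_tbasis [CompleteSpace E₁] [CompleteSpace E₂]
    (d : ℕ → ℕ) (b : ℕ → ℕ → E₁) (h : ℕ → E₂)
    (g : ℕ → ℕ → (E₁ →L[ℝ] ℝ)) (hf : ℕ → (E₂ →L[ℝ] ℝ))
    (hbg : ∀ k s k' s', s < d k → s' < d k' →
      g k s (b k' s') = if k = k' ∧ s = s' then 1 else 0)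
    (hh : ∀ l l', hf l (h l') = if l = l' then 1 else 0)
    (hs1 : ∀ y : E₁, HasSum (fun k => ∑ s ∈ Finset.range (d k), g k s y • b k s) y)
    (hs2 : ∀ y : E₂, HasSum (fun l => hf l y • h l) y)
    (t : ℕ → ℕ → ℝ) (ht : IsConsistent t) (hlw : HasLightWindows t) :
    ∃ x : ℕ → E₁ × E₂, IsTBasis t x := by
  classical
  set ε : ℕ → ℝ := fun k => (1 / 2) ^ k / (Cst d b g k + 1) with hε
  have hC := Cst_nonneg d b g
  obtain ⟨a, hw, ha⟩ := exists_windows t hlw d ε (fun k => by
    have := hC k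
    rw [hε]; positivity)
  set W : ℕ → ℕ → ℝ := fun n k => Cst d b g k * ∑ m ∈ Finset.Ico (a k) (a k + d k), |t n m| with hW
  have hW0 : ∀ n k, 0 ≤ W n k := fun n k =>
    mul_nonneg (hC k) (Finset.sum_nonneg fun _ _ => abs_nonneg _)
  have hW1 : ∀ n k, W n k ≤ (1 / 2) ^ k := by
    intro n k
    have h1 := hC k
    have h2 : (0 : ℝ) ≤ (1 / 2) ^ k := by positivity
    calc W n k ≤ Cst d b g k * ε k := mul_le_mul_of_nonneg_left (ha k n) h1
      _ = (1 / 2) ^ k * (Cst d b g k / (Cst d b g k + 1)) := by rw [hε]; ring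
      _ ≤ (1 / 2) ^ k * 1 := by
          refine mul_le_mul_of_nonneg_left ?_ h2
          rw [div_le_one (by linarith)]
          linarith
      _ = (1 / 2) ^ k := mul_one _
  have hgeo : Summable fun k : ℕ => (1 / 2 : ℝ) ^ k := summable_geometric_two
  have hWs : ∀ n, Summable (W n) := fun n => Summable.of_nonneg_of_le (hW0 n) (hW1 n) hgeo
  refine ⟨mvec a d b h, tbasis_of t ht _ (mfun a d g hf) (mbi a d hw b h g hf hbg hh)
    (fun m y => msum a d b h g hf (good a d m) y)
    (msum_good_tendsto a d hw b h g hf hs1 hs2) (dev a d b g) (dev_nonneg a d b g)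
    (psum_sub_good a d hw b h g hf) (fun n => ∑' k, W n k) ?_ ?_⟩
  · have h1 : Tendsto (fun n => ∑' k, W n k) atTop (𝓝 (∑' k : ℕ, (0 : ℝ))) := by
      refine tendsto_tsum_of_dominated_convergence hgeo (fun k => ?_) ?_
      · have h2 : Tendsto (fun n => ∑ m ∈ Finset.Ico (a k) (a k + d k), |t n m|) atTop
            (𝓝 (∑ m ∈ Finset.Ico (a k) (a k + d k), |(0 : ℝ)|)) :=
          tendsto_finsetSum _ fun m _ => (ht.2.1 m).abs
        have h3 := h2.const_mul (Cst d b g k)
        simpa using h3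
      · refine Eventually.of_forall fun n k => ?_
        rw [Real.norm_eq_abs, abs_of_nonneg (hW0 n k)]
        exact hW1 n k
    simpa using h1
  · intro n M
    refine (dev_sum a d hw b g (fun m => |t n m|) (fun m => abs_nonneg _) M).trans ?_
    exact (hWs n).sum_le_tsum _ (fun k _ => hW0 n k)

/-- the Cesaro matrix is consistent -/
theorem cesaro_tsum_aux (n : ℕ) : HasSum (fun m => cesaro n m) 1 := by
  have h : HasSum (fun m => cesaro n m) (∑ m ∈ Finset.range (n + 1), cesaro n m) :=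
    hasSum_sum_of_ne_finset_zero (fun m hm => by
      rw [Finset.mem_range] at hm
      rw [cesaro, if_neg (by omega)])
  have h2 : ∑ m ∈ Finset.range (n + 1), cesaro n m = 1 := by
    have h3 : ∀ m ∈ Finset.range (n + 1), cesaro n m = 1 / ((n : ℝ) + 1) := by
      intro m hm
      rw [cesaro, if_pos (by have := Finset.mem_range.1 hm; omega)]
    rw [Finset.sum_congr rfl h3, Finset.sum_const, Finset.card_range, nsmul_eq_mul]
    push_cast
    field_simp
  rw [h2] at h
  exact h

theorem cesaro_nonneg (n m : ℕ) : 0 ≤ cesaro n m := by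
  rw [cesaro]; split_ifs <;> positivity

theorem cesaro_consistent : IsConsistent cesaro := by
  have habs : ∀ n, (fun m => |cesaro n m|) = fun m => cesaro n m := fun n => by
    funext m; exact abs_of_nonneg (cesaro_nonneg n m)
  refine ⟨⟨1, fun n => ?_⟩, fun m => ?_, ?_⟩
  · rw [habs]
    exact ⟨(cesaro_tsum_aux n).summable, (cesaro_tsum_aux n).tsum_eq.le⟩
  · apply squeeze_zero (fun n => cesaro_nonneg n m) (g := fun n : ℕ => 1 / ((n : ℝ) + 1))
    · intro n
      rw [cesaro]
      split_ifs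
      · exact le_rfl
      · positivity
    · exact tendsto_one_div_add_atTop_nhds_zero_nat
  · simp_rw [(cesaro_tsum_aux _).tsum_eq]
    exact tendsto_const_nhds

theorem cesaro_triangular : IsTriangular cesaro := by
  intro n m h
  rw [cesaro, if_neg (by omega)]

/-- a consistent matrix whose columns tend to zero uniformly has light windows -/
theorem lightWindows_of (t : ℕ → ℕ → ℝ)
    (h : ∀ ε : ℝ, 0 < ε → ∃ N : ℕ, ∀ m, N ≤ m → ∀ n, |t n m| ≤ ε) : HasLightWindows t := by
  intro D ε hε A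
  obtain ⟨N, hN⟩ := h (ε / (D + 1)) (by positivity)
  refine ⟨max A N, le_max_left _ _, fun n => ?_⟩
  have hD : (0 : ℝ) ≤ D := Nat.cast_nonneg D
  calc ∑ m ∈ Finset.Ico (max A N) (max A N + D), |t n m|
      ≤ ∑ m ∈ Finset.Ico (max A N) (max A N + D), ε / (D + 1) :=
        Finset.sum_le_sum fun m hm =>
          hN m ((le_max_right A N).trans (Finset.mem_Ico.1 hm).1) n
    _ = D * (ε / (D + 1)) := by
        rw [Finset.sum_const, Nat.card_Ico, Nat.add_sub_cancel_left, nsmul_eq_mul]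
    _ ≤ ε := by
        rw [mul_div_assoc', div_le_iff₀ (by linarith)]
        nlinarith

theorem cesaro_light : HasLightWindows cesaro := by
  apply lightWindows_of
  intro ε hε
  obtain ⟨N, hN⟩ := exists_nat_ge (1 / ε)
  refine ⟨N, fun m hm n => ?_⟩
  rw [abs_of_nonneg (cesaro_nonneg n m), cesaro]
  split_ifs with hmn
  · rw [div_le_iff₀ (by positivity)]
    have h1 : (N : ℝ) ≤ n := by exact_mod_cast hm.trans hmn
    rw [div_le_iff₀ hε] at hN
    nlinarith
  · exact hε.le

end Pool.Agent.W693.F511
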