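import Mathlib
import Pool.Agent.Helper802.JS.Defs
import Pool.Agent.Helper802.JS.ETot_no_basis
import Pool.Agent.Helper802.JS.ETot_closed
import Pool.Agent.Helper802.JS.choose_data
import Pool.Agent.W693.F511A
import Pool.Agent.W693.F511D

set_option autoImplicit false
open Filter Topology

open Pool.Agent.Helper802.JB Pool.Agent.Helper802.JB.N_ETot_closed
  Pool.Agent.Helper802.JB.N_ETot_no_basis

namespace Pool.Agent.W693.F511

/-- the unit vectors of the Hilbert space -/
noncomputable def hvec (l : ℕ) : L2 := lp.single 2 l (1 : ℝ)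

/-- coordinate functionals of the Hilbert space -/
noncomputable def hfun (l : ℕ) : L2 →L[ℝ] ℝ := lp.evalCLM ℝ (fun _ : ℕ => ℝ) 2 l

theorem hfun_apply (l : ℕ) (y : L2) : hfun l y = (y : ∀ _ : ℕ, ℝ) l := rfl

theorem hbi (l l' : ℕ) : hfun l (hvec l') = if l = l' then 1 else 0 := by
  rw [hfun_apply, hvec]
  by_cases h : l = l'
  · subst h
    rw [lp.single_apply_self, if_pos rfl]
  · rw [lp.single_apply_ne _ _ _ h, if_neg h]

theorem hsum2 (y : L2) : HasSum (fun l => hfun l y • hvec l) y := by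
  have h := lp.hasSum_single (E := fun _ : ℕ => ℝ) (p := 2) (by norm_num) y
  have e : ∀ l, hfun l y • hvec l = lp.single 2 l ((y : ∀ _ : ℕ, ℝ) l) := by
    intro l
    rw [hfun_apply, hvec, ← lp.single_smul, smul_eq_mul, mul_one]
  simp_rw [e]
  exact h

/-- the space has all the required bases -/
theorem etot_tbasis (k n : ℕ → ℕ) (pr : ℕ → ℝ) (h2 : ∀ m, 2 < pr m)
    [∀ m, Fact (1 ≤ ENNReal.ofReal (pr m))]
    (w : ∀ m, Fin (k m) → EE (n m))
    (hinj : ∀ m x, NE (pr m) (w m) x = 0 → x = 0)
    (t : ℕ → ℕ → ℝ) (ht : IsConsistent t) (hlw : HasLightWindows t) :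
    ∃ x : ℕ → (ETot k n (fun m => ENNReal.ofReal (pr m)) w) × L2, IsTBasis t x := by
  classical
  set p : ℕ → ENNReal := fun m => ENNReal.ofReal (pr m) with hp
  have : CompleteSpace (ETot k n p w) := (ETot_closed k n p w).completeSpace_coe
  have hNE : ∀ i (v : EE (n i)), ‖Wl p w i v‖ = NE (pr i) (w i) v := by
    intro i v
    have hpos : 0 < pr i := by linarith [h2 i]
    have htr : (p i).toReal = pr i := ENNReal.toReal_ofReal hpos.le
    rw [PiLp.norm_eq_sum (by rw [htr]; exact hpos), htr]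
    rfl
  have hWinj : ∀ i (v : EE (n i)), Wl p w i v = 0 → v = 0 := by
    intro i v hv
    apply hinj i v
    rw [← hNE, hv, norm_zero]
  choose π hπ1 hπ2 hπ3 using fun i => exists_pi (k := k) (p := p) w i (hWinj i)
  have hπ0 : ∀ i i' (v : EE (n i')), i ≠ i' → π i (Jl p w i' v) = 0 := by
    intro i i' v hne
    apply hWinj
    rw [hπ1, Jl_coe]
    show (lp.single 2 i' (Wl p w i' v) : ∀ n, PiLp (p n) (fun _ : Fin (k n) => ℝ)) i = 0
    rw [lp.single_apply_ne _ _ _ hne]
  let πc : ∀ i, ETot k n p w →L[ℝ] EE (n i) := fun i => ⟨π i, hπ3 i⟩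
  let b : ℕ → ℕ → ETot k n p w := fun i s =>
    if hs : s < n i then Jl p w i (EuclideanSpace.single (⟨s, hs⟩ : Fin (n i)) (1 : ℝ)) else 0
  let g : ℕ → ℕ → (ETot k n p w →L[ℝ] ℝ) := fun i s =>
    if hs : s < n i then (EuclideanSpace.proj (⟨s, hs⟩ : Fin (n i))).comp (πc i) else 0
  have hg : ∀ i s (hs : s < n i) y, g i s y = π i y ⟨s, hs⟩ := by
    intro i s hs y
    show (if hs : s < n i then (EuclideanSpace.proj (⟨s, hs⟩ : Fin (n i))).comp (πc i)
      else (0 : ETot k n p w →L[ℝ] ℝ)) y = _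
    rw [dif_pos hs]
    rfl
  have hb : ∀ i s (hs : s < n i), b i s =
      Jl p w i (EuclideanSpace.single (⟨s, hs⟩ : Fin (n i)) (1 : ℝ)) := by
    intro i s hs
    show (if hs : s < n i then Jl p w i (EuclideanSpace.single (⟨s, hs⟩ : Fin (n i)) (1 : ℝ))
      else (0 : ETot k n p w)) = _
    rw [dif_pos hs]
  refine exists_tbasis n b hvec g hfun ?_ hbi ?_ hsum2 t ht hlw
  · intro i s i' s' hs hs'
    rw [hg i s hs, hb i' s' hs']
    by_cases hii : i = i'
    · subst hii
      rw [hπ2]
      by_cases hss : s = s'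
      · subst hss
        simp
      · rw [if_neg (fun h => hss h.2)]
        rw [PiLp.single_apply, if_neg]
        intro h
        exact hss (congrArg Fin.val h)
    · rw [hπ0 _ _ _ hii, if_neg (fun h => hii h.1)]
      rfl
  · intro y
    have e1 : ∀ i, ∑ s ∈ Finset.range (n i), g i s y • b i s = Jl p w i (π i y) := by
      intro i
      rw [Finset.sum_range]
      have e2 : ∀ s : Fin (n i), g i s y • b i s =
          Jl p w i ((π i y s) • EuclideanSpace.single s (1 : ℝ)) := by
        intro s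
        rw [hg i s s.2, hb i s s.2, map_smul]
      rw [Finset.sum_congr rfl (fun s _ => e2 s), ← map_sum]
      congr 1
      ext q
      simp [Pi.single_apply]
    simp_rw [e1]
    have h3 := lp.hasSum_single (p := 2) (by norm_num) (y : XX k p)
    have h4 : HasSum (fun i => ((Jl p w i (π i y) : ETot k n p w) : XX k p)) (y : XX k p) := by
      have e3 : ∀ i, ((Jl p w i (π i y) : ETot k n p w) : XX k p) =
          lp.single 2 i ((y : XX k p) i) := by
        intro i
        rw [Jl_coe, hπ1]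
      simp_rw [e3]
      exact h3
    have h5 : IsInducing (ETot k n p w).subtype := IsInducing.subtypeVal
    exact (h5.hasSum_iff (fun i => Jl p w i (π i y)) y).1 h4

end Pool.Agent.W693.F511
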