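import Pool.Agent.W693.LF8

set_option autoImplicit false

open Finset Filter

namespace Pool.Agent.W693.LF

/-- the denominators of the exponents -/
def qn (n : ℕ) : ℕ := 2 ^ (n + 1)

/-- the exponents -/
noncomputable def an (n : ℕ) : ℝ := 1 / (qn n : ℝ)

theorem qn_pos (n : ℕ) : (1 : ℝ) ≤ qn n := by
  have : 1 ≤ qn n := Nat.one_le_two_pow
  exact_mod_cast this

theorem an_pos (n : ℕ) : 0 < an n := by
  have := qn_pos n
  unfold an
  positivity

theorem an_le (n : ℕ) : an n ≤ 1 := by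
  have := qn_pos n
  unfold an
  rw [div_le_one (by linarith)]
  exact this

theorem an_succ (n : ℕ) : an (n + 1) = 1 / (2 * (qn n : ℝ)) := by
  unfold an qn
  push_cast
  ring

theorem an_lt_one (n : ℕ) : an (n + 1) < 1 := by
  have := qn_pos n
  rw [an_succ, div_lt_one (by linarith)]
  linarith

theorem an_anti {m n : ℕ} (h : n ≤ m) : an m ≤ an n := by
  unfold an qn
  have : (1 : ℝ) ≤ (2 : ℝ) ^ (n + 1) := one_le_pow₀ (by norm_num)
  push_cast
  exact one_div_le_one_div_of_le (by positivity) (pow_le_pow_right₀ (by norm_num) (by omega))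

theorem exists_T (n : ℕ) : ∃ T : ℕ, n + 1 ≤ T ∧
    ((n : ℝ) + 1) * LL (an (n + 1)) ≤ (T : ℝ) ^ (1 / (4 * (qn n : ℝ))) := by
  have hc : 0 < 1 / (4 * (qn n : ℝ)) := by
    have := qn_pos n
    positivity
  have h1 := ((tendsto_rpow_atTop hc).comp tendsto_natCast_atTop_atTop).eventually_ge_atTop
    (((n : ℝ) + 1) * LL (an (n + 1)))
  obtain ⟨T, hT1, hT2⟩ := ((eventually_ge_atTop (n + 1)).and h1).exists
  exact ⟨T, hT1, hT2⟩

/-- There is a metric space whose Lipschitz-free space is not isomorphic to its `ℓ₁`-sum. -/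
theorem no_iso : ∃ (k R : ℕ → ℕ) (a : ℕ → ℝ) (_ : Par R a),
    ∀ (X : Type) [NormedAddCommGroup X] [NormedSpace ℝ X] (δ : MM k R a → X), IsFree δ →
      ∀ _T : X ≃L[ℝ] lp (fun _ : ℕ => X) 1, False := by
  choose T hT1 hT2 using exists_T
  have hTpos : ∀ n, 1 ≤ T n := fun n => le_trans (by omega) (hT1 n)
  refine ⟨fun n => T n ^ (2 * qn n - 1), fun n => T n ^ qn n, an,
    ⟨fun n => Nat.one_le_pow _ _ (hTpos n), an_pos, an_le⟩, ?_⟩
  intro X _ _ δ hδ e
  set C : ℝ := ‖(e : X →L[ℝ] lp (fun _ : ℕ => X) 1)‖ +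
    ‖(e.symm : lp (fun _ : ℕ => X) 1 →L[ℝ] X)‖ + 1 with hC
  have hn1 : 0 ≤ ‖(e : X →L[ℝ] lp (fun _ : ℕ => X) 1)‖ := norm_nonneg _
  have hn2 : 0 ≤ ‖(e.symm : lp (fun _ : ℕ => X) 1 →L[ℝ] X)‖ := norm_nonneg _
  have hC1 : 1 ≤ C := by linarith
  have hC0 : 0 < C := by linarith
  obtain ⟨n, hn⟩ := exists_nat_gt (96 * C ^ 2)
  have hq := qn_pos n
  have hTn : (1 : ℝ) ≤ T n := by exact_mod_cast hTpos n
  have hTn' : (n : ℝ) + 1 ≤ T n := by exact_mod_cast hT1 n
  have hT0 : (0 : ℝ) < T n := by linarith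
  have hQ : (((T n ^ qn n : ℕ) : ℕ) : ℝ) ^ an n = T n := by
    push_cast
    rw [← Real.rpow_natCast, ← Real.rpow_mul hT0.le, an, mul_one_div, div_self (by linarith),
      Real.rpow_one]
  have hqq : 2 * qn n - 1 + 1 = 2 * qn n := by
    have : 1 ≤ qn n := Nat.one_le_two_pow
    omega
  have hkR : ((T n ^ (2 * qn n - 1) : ℕ) : ℝ) * T n = ((T n ^ qn n : ℕ) : ℝ) ^ 2 := by
    push_cast
    rw [← pow_succ, hqq, ← pow_mul, mul_comm]
  let S : ℕ → (X →L[ℝ] X) := fun j =>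
    (e.symm : lp (fun _ : ℕ => X) 1 →L[ℝ] X).comp
      (lp.singleContinuousLinearMap ℝ (fun _ : ℕ => X) 1 j)
  have hSapp : ∀ j x, S j x = e.symm (lp.single 1 j x) := fun _ _ => rfl
  have hS : ∀ j x, ‖S j x‖ ≤ C * ‖x‖ := by
    intro j x
    rw [hSapp]
    have h1 := (e.symm : lp (fun _ : ℕ => X) 1 →L[ℝ] X).le_opNorm (lp.single 1 j x)
    rw [lp.norm_single one_pos] at h1
    refine h1.trans ?_
    have := norm_nonneg x
    gcongr
    linarith
  have hS2 : ∀ i j, i ≠ j → ∀ x, ‖x‖ ≤ C * ‖S i x - S j x‖ := by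
    intro i j hij x
    have h1 : e (S i x - S j x) = lp.single 1 i x - lp.single 1 j x := by
      rw [map_sub, hSapp, hSapp, e.apply_symm_apply, e.apply_symm_apply]
    have h2 := (e : X →L[ℝ] lp (fun _ : ℕ => X) 1).le_opNorm (S i x - S j x)
    have h3 : ‖x‖ ≤ ‖(lp.single 1 i x - lp.single 1 j x : lp (fun _ : ℕ => X) 1)‖ := by
      have h4 := lp.norm_apply_le_norm (one_ne_zero)
        (lp.single 1 i x - lp.single 1 j x : lp (fun _ : ℕ => X) 1) i
      rw [lp.coeFn_sub, Pi.sub_apply, lp.single_apply_self, lp.single_apply_ne _ _ _ hij,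
        sub_zero] at h4
      exact h4
    have h5 : ‖e (S i x - S j x)‖ ≤ ‖(e : X →L[ℝ] lp (fun _ : ℕ => X) 1)‖ * ‖S i x - S j x‖ := h2
    rw [h1] at h5
    refine h3.trans (h5.trans ?_)
    have := norm_nonneg (S i x - S j x)
    gcongr
    linarith
  have hmain := main_ineq (k := fun n => T n ^ (2 * qn n - 1)) (R := fun n => T n ^ qn n)
    (a := an) ⟨fun n => Nat.one_le_pow _ _ (hTpos n), an_pos, an_le⟩ hδ n
    (Nat.one_le_pow _ _ (hTpos n)) (an_pos (n + 1)) (an_lt_one n)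
    (fun m hm => an_anti hm) (by rw [hQ]; exact hkR.le) S hC0 hS hS2
  rw [hQ] at hmain
  set L : ℝ := LL (an (n + 1)) with hL
  have hL0 : 0 < L := LL_pos (an_pos _) (an_lt_one n)
  have hk : (((T n ^ (2 * qn n - 1) : ℕ) : ℕ) : ℝ) ^ ((1 + an (n + 1)) / 2) *
      (T n : ℝ) ^ (1 / (4 * (qn n : ℝ))) = (T n : ℝ) ^ (qn n) := by
    push_cast
    rw [← Real.rpow_natCast (T n : ℝ) (2 * qn n - 1), ← Real.rpow_mul hT0.le,
      ← Real.rpow_add hT0, ← Real.rpow_natCast (T n : ℝ) (qn n)]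
    congr 1
    have h1 : ((2 * qn n - 1 : ℕ) : ℝ) = 2 * qn n - 1 := by
      have h2 : ((2 * qn n - 1 + 1 : ℕ) : ℝ) = ((2 * qn n : ℕ) : ℝ) := by rw [hqq]
      push_cast at h2
      linarith
    rw [h1, an_succ]
    have : (qn n : ℝ) ≠ 0 := by linarith
    field_simp
    ring
  set t : ℝ := (T n : ℝ) ^ (1 / (4 * (qn n : ℝ))) with ht
  have ht0 : 0 < t := Real.rpow_pos_of_pos hT0 _
  have htL : ((n : ℝ) + 1) * L ≤ t := hT2 n
  set K : ℝ := ((T n ^ (2 * qn n - 1) : ℕ) : ℝ) with hK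
  set G : ℝ := K ^ ((1 + an (n + 1)) / 2) with hG
  have hKpos : 0 < K := by
    rw [hK]
    push_cast
    positivity
  -- the left-hand side
  have h1 : K * ((T n : ℝ) / (16 * C)) ≤ K * ((T n : ℝ) / (8 * C) - 1) := by
    refine mul_le_mul_of_nonneg_left ?_ hKpos.le
    have h2 : 16 * C ≤ T n := by nlinarith
    have h3 : (T n : ℝ) / (8 * C) - T n / (16 * C) = T n / (16 * C) := by
      field_simp
      ring
    have h4 : 1 ≤ (T n : ℝ) / (16 * C) := by
      rw [le_div_iff₀ (by positivity)]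
      linarith
    linarith
  have h2 := h1.trans hmain
  have h3 : K * ((T n : ℝ) / (16 * C)) * t ≤ L * G * (6 * C * ((T n ^ qn n : ℕ) : ℝ)) * t :=
    mul_le_mul_of_nonneg_right h2 ht0.le
  have h4 : L * G * (6 * C * ((T n ^ qn n : ℕ) : ℝ)) * t =
      6 * C * L * ((K * T n)) := by
    have h5 : L * G * (6 * C * ((T n ^ qn n : ℕ) : ℝ)) * t =
        6 * C * L * ((G * t) * ((T n ^ qn n : ℕ) : ℝ)) := by ring
    rw [h5, hk, hkR]
    push_cast
    ring
  rw [h4] at h3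
  have h5 : 0 < K * T n := by positivity
  have h6 : t ≤ 96 * C ^ 2 * L := by
    have h7 : K * ((T n : ℝ) / (16 * C)) * t = (K * T n) * (t / (16 * C)) := by ring
    rw [h7] at h3
    have h8 : t / (16 * C) ≤ 6 * C * L := by
      have h9 : (K * T n) * (t / (16 * C)) ≤ (K * T n) * (6 * C * L) := by linarith
      exact le_of_mul_le_mul_left h9 h5
    rw [div_le_iff₀ (by positivity)] at h8
    linarith
  have h7 : ((n : ℝ) + 1) * L ≤ 96 * C ^ 2 * L := htL.trans h6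
  have h8 : (n : ℝ) + 1 ≤ 96 * C ^ 2 := le_of_mul_le_mul_right h7 hL0
  linarith

end Pool.Agent.W693.LF
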