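import Mathlib

set_option autoImplicit false

open Finset

namespace Pool.Agent.W693.LF

/-- the sign of a Boolean -/
noncomputable def sg (b : Bool) : ℝ := if b then 1 else -1

theorem sg_true : sg true = 1 := by simp [sg]
theorem sg_false : sg false = -1 := by simp [sg]

theorem abs_sg (b : Bool) : |sg b| = 1 := by cases b <;> simp [sg]

theorem sg_mul_self (b : Bool) : sg b * sg b = 1 := by cases b <;> simp [sg]

section Trig

variable {ι : Type*} [Fintype ι] [DecidableEq ι]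

theorem sum_sg_sin (v : ι → ℝ) (i : ι) :
    ∑ ε : ι → Bool, sg (ε i) * Real.sin (∑ l, sg (ε l) * v l) =
      2 ^ (Fintype.card ι) * (Real.sin (v i) * ∏ l ∈ univ.erase i, Real.cos (v l)) := by
  have h1 : ∀ ε : ι → Bool,
      ((sg (ε i) : ℝ) : ℂ) * Complex.exp ((∑ l, sg (ε l) * v l : ℝ) * Complex.I) =
        ∏ l, ((if l = i then ((sg (ε l) : ℝ) : ℂ) else 1) *
          Complex.exp ((sg (ε l) * v l : ℝ) * Complex.I)) := by
    intro ε
    rw [Finset.prod_mul_distrib, ← Complex.exp_sum, ← Finset.sum_mul, Complex.ofReal_sum]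
    congr 1
    rw [Finset.prod_ite_eq' univ i (fun l => ((sg (ε l) : ℝ) : ℂ))]
    simp
  have h2 : ∑ ε : ι → Bool,
      ((sg (ε i) : ℝ) : ℂ) * Complex.exp ((∑ l, sg (ε l) * v l : ℝ) * Complex.I) =
      ∏ l, ∑ b : Bool, ((if l = i then ((sg b : ℝ) : ℂ) else 1) *
          Complex.exp ((sg b * v l : ℝ) * Complex.I)) := by
    rw [Finset.prod_univ_sum, Fintype.piFinset_univ]
    exact Finset.sum_congr rfl fun ε _ => h1 ε
  have h3 : ∀ l, l ≠ i → ∑ b : Bool, ((if l = i then ((sg b : ℝ) : ℂ) else 1) *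
          Complex.exp ((sg b * v l : ℝ) * Complex.I)) = ((2 * Real.cos (v l) : ℝ) : ℂ) := by
    intro l hl
    rw [Fintype.sum_bool, if_neg hl, if_neg hl, sg_true, sg_false, one_mul, one_mul]
    push_cast
    rw [Complex.exp_mul_I, Complex.exp_mul_I]
    rw [one_mul, neg_one_mul, Complex.cos_neg, Complex.sin_neg]
    ring
  have h4 : ∑ b : Bool, ((if i = i then ((sg b : ℝ) : ℂ) else 1) *
          Complex.exp ((sg b * v i : ℝ) * Complex.I)) =
        ((2 * Real.sin (v i) : ℝ) : ℂ) * Complex.I := by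
    rw [Fintype.sum_bool, if_pos rfl, if_pos rfl, sg_true, sg_false]
    push_cast
    rw [Complex.exp_mul_I, Complex.exp_mul_I]
    rw [one_mul, one_mul, neg_one_mul, neg_one_mul, Complex.cos_neg, Complex.sin_neg]
    ring
  have h5 : ∑ ε : ι → Bool,
      ((sg (ε i) : ℝ) : ℂ) * Complex.exp ((∑ l, sg (ε l) * v l : ℝ) * Complex.I) =
      ((2 ^ (Fintype.card ι) * (Real.sin (v i) * ∏ l ∈ univ.erase i, Real.cos (v l)) : ℝ) : ℂ) *
        Complex.I := by
    rw [h2, ← Finset.mul_prod_erase univ _ (Finset.mem_univ i), h4,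
      Finset.prod_congr rfl fun l hl => h3 l (Finset.ne_of_mem_erase hl)]
    rw [← Complex.ofReal_prod, Finset.prod_mul_distrib, Finset.prod_const,
      Finset.card_erase_of_mem (Finset.mem_univ i), Finset.card_univ]
    have hc : 0 < Fintype.card ι := Fintype.card_pos_iff.2 ⟨i⟩
    obtain ⟨c, hc'⟩ := Nat.exists_eq_succ_of_ne_zero hc.ne'
    rw [hc', Nat.succ_eq_add_one, Nat.add_sub_cancel, pow_succ]
    push_cast
    ring
  have h6 := congrArg Complex.im h5
  rw [Complex.im_sum] at h6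
  have h7 : ∀ (c x : ℝ), ((c : ℂ) * Complex.exp ((x : ℂ) * Complex.I)).im = c * Real.sin x := by
    intro c x
    rw [Complex.im_ofReal_mul, Complex.exp_ofReal_mul_I_im]
  rw [Finset.sum_congr rfl fun ε _ => h7 (sg (ε i)) (∑ l, sg (ε l) * v l)] at h6
  rw [h6, Complex.im_ofReal_mul, Complex.I_im, mul_one]

theorem abs_cos_sub_cos {a b τ : ℝ} (ha : |a| ≤ τ) (hb : |b| ≤ τ) :
    |Real.cos a - Real.cos b| ≤ τ * |a - b| := by
  rw [Real.cos_sub_cos, abs_mul, abs_mul, abs_neg, abs_two]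
  have h1 : |Real.sin ((a + b) / 2)| ≤ τ := by
    refine Real.abs_sin_le_abs.trans ?_
    rw [abs_div, abs_two]
    have := abs_add_le a b
    linarith
  have h2 : |Real.sin ((a - b) / 2)| ≤ |a - b| / 2 := by
    refine Real.abs_sin_le_abs.trans ?_
    rw [abs_div, abs_two]
  have h3 : 0 ≤ |Real.sin ((a - b) / 2)| := abs_nonneg _
  have h4 : 0 ≤ τ := (abs_nonneg _).trans ha
  calc 2 * |Real.sin ((a + b) / 2)| * |Real.sin ((a - b) / 2)| ≤ 2 * τ * (|a - b| / 2) := by
        gcongr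
    _ = τ * |a - b| := by ring

omit [Fintype ι] in
theorem abs_prod_sub_prod (s : Finset ι) (f g : ι → ℝ) (hf : ∀ l, |f l| ≤ 1)
    (hg : ∀ l, |g l| ≤ 1) : |∏ l ∈ s, f l - ∏ l ∈ s, g l| ≤ ∑ l ∈ s, |f l - g l| := by
  induction s using Finset.induction_on with
  | empty => simp
  | insert a s ha ih =>
    rw [Finset.prod_insert ha, Finset.prod_insert ha, Finset.sum_insert ha]
    have h1 : f a * ∏ l ∈ s, f l - g a * ∏ l ∈ s, g l =
        (f a - g a) * ∏ l ∈ s, f l + g a * (∏ l ∈ s, f l - ∏ l ∈ s, g l) := by ring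
    rw [h1]
    refine (abs_add_le _ _).trans ?_
    rw [abs_mul, abs_mul]
    have h2 : |∏ l ∈ s, f l| ≤ 1 := by
      rw [Finset.abs_prod]
      exact Finset.prod_le_one (fun _ _ => abs_nonneg _) fun l _ => hf l
    have h3 : |f a - g a| * |∏ l ∈ s, f l| ≤ |f a - g a| * 1 := by gcongr
    have h4 : |g a| * |∏ l ∈ s, f l - ∏ l ∈ s, g l| ≤ 1 * ∑ l ∈ s, |f l - g l| := by
      gcongr
      exact hg a
    linarith

theorem abs_sub_sin_sub {a b τ : ℝ} (ha : |a| ≤ τ) (hb : |b| ≤ τ) :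
    |(a - Real.sin a) - (b - Real.sin b)| ≤ τ ^ 2 / 2 * |a - b| := by
  have h := Convex.norm_image_sub_le_of_norm_hasDerivWithin_le (𝕜 := ℝ) (C := τ ^ 2 / 2)
    (f := fun x => x - Real.sin x) (f' := fun x => 1 - Real.cos x) (s := Set.Icc (-τ) τ)
    (x := b) (y := a) (fun x _ => ((hasDerivAt_id x).sub (Real.hasDerivAt_sin x)).hasDerivWithinAt)
    (fun x hx => by
      rw [Real.norm_eq_abs, abs_of_nonneg (by linarith [Real.cos_le_one x])]
      have h1 := Real.one_sub_sq_div_two_le_cos (x := x)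
      have h2 : x ^ 2 ≤ τ ^ 2 := by
        rw [← sq_abs]
        have : |x| ≤ τ := abs_le.2 hx
        gcongr
      linarith)
    (convex_Icc _ _) (abs_le.1 hb) (abs_le.1 ha)
  simpa [Real.norm_eq_abs] using h

theorem phi_lip (v w : ι → ℝ) (i : ι) (τ d : ℝ) (hv : ∀ l, |v l| ≤ τ) (hw : ∀ l, |w l| ≤ τ)
    (hvw : ∀ l, |v l - w l| ≤ d) :
    |(v i - Real.sin (v i) * ∏ l ∈ univ.erase i, Real.cos (v l)) -
      (w i - Real.sin (w i) * ∏ l ∈ univ.erase i, Real.cos (w l))| ≤
      2 * (Fintype.card ι) * τ ^ 2 * d := by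
  have hτ : 0 ≤ τ := (abs_nonneg _).trans (hv i)
  have hd : 0 ≤ d := (abs_nonneg _).trans (hvw i)
  set P := ∏ l ∈ univ.erase i, Real.cos (v l) with hP
  set Q := ∏ l ∈ univ.erase i, Real.cos (w l) with hQ
  have hk : (1 : ℝ) ≤ Fintype.card ι := by
    have : 0 < Fintype.card ι := Fintype.card_pos_iff.2 ⟨i⟩
    exact_mod_cast this
  have hcard : ((univ.erase i).card : ℝ) ≤ Fintype.card ι := by
    have := Finset.card_le_card (Finset.erase_subset i univ)
    rw [Finset.card_univ] at this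
    exact_mod_cast this
  have h1 : |P - Q| ≤ (Fintype.card ι) * (τ * d) := by
    refine (abs_prod_sub_prod _ _ _ (fun l => Real.abs_cos_le_one _)
      (fun l => Real.abs_cos_le_one _)).trans ?_
    have : ∀ l ∈ univ.erase i, |Real.cos (v l) - Real.cos (w l)| ≤ τ * d := fun l _ =>
      (abs_cos_sub_cos (hv l) (hw l)).trans (by gcongr; exact hvw l)
    refine (Finset.sum_le_sum this).trans ?_
    rw [Finset.sum_const, nsmul_eq_mul]
    gcongr
  have h2 : |1 - P| ≤ (Fintype.card ι) * (τ ^ 2 / 2) := by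
    have h := abs_prod_sub_prod (univ.erase i) (fun _ => (1 : ℝ)) (fun l => Real.cos (v l))
      (fun l => by simp) (fun l => Real.abs_cos_le_one _)
    rw [Finset.prod_const_one] at h
    refine h.trans ?_
    have : ∀ l ∈ univ.erase i, |1 - Real.cos (v l)| ≤ τ ^ 2 / 2 := fun l _ => by
      rw [abs_of_nonneg (by linarith [Real.cos_le_one (v l)])]
      have h1 := Real.one_sub_sq_div_two_le_cos (x := v l)
      have h2 : (v l) ^ 2 ≤ τ ^ 2 := by
        rw [← sq_abs]
        have := hv l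
        gcongr
      linarith
    refine (Finset.sum_le_sum this).trans ?_
    rw [Finset.sum_const, nsmul_eq_mul]
    gcongr
  have h3 : |Real.sin (v i) - Real.sin (w i)| ≤ d := by
    rw [Real.sin_sub_sin, abs_mul, abs_mul, abs_two]
    have ha : |Real.sin ((v i - w i) / 2)| ≤ d / 2 := by
      refine Real.abs_sin_le_abs.trans ?_
      rw [abs_div, abs_two]
      have := hvw i
      linarith
    have hb := Real.abs_cos_le_one ((v i + w i) / 2)
    calc 2 * |Real.sin ((v i - w i) / 2)| * |Real.cos ((v i + w i) / 2)| ≤ 2 * (d / 2) * 1 := by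
          gcongr
      _ = d := by ring
  have h4 : |Real.sin (w i)| ≤ τ := Real.abs_sin_le_abs.trans (hw i)
  have h5 : |(v i - Real.sin (v i)) - (w i - Real.sin (w i))| ≤ τ ^ 2 / 2 * d :=
    (abs_sub_sin_sub (hv i) (hw i)).trans (by gcongr; exact hvw i)
  have h6 : (v i - Real.sin (v i) * P) - (w i - Real.sin (w i) * Q) =
      ((v i - Real.sin (v i)) - (w i - Real.sin (w i))) +
      (Real.sin (v i) - Real.sin (w i)) * (1 - P) - Real.sin (w i) * (P - Q) := by ring
  rw [h6]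
  have h7 : |(Real.sin (v i) - Real.sin (w i)) * (1 - P)| ≤
      d * ((Fintype.card ι) * (τ ^ 2 / 2)) := by
    rw [abs_mul]
    gcongr
  have h8 : |Real.sin (w i) * (P - Q)| ≤ τ * ((Fintype.card ι) * (τ * d)) := by
    rw [abs_mul]
    gcongr
  have h9 : τ ^ 2 / 2 * d ≤ (Fintype.card ι) * (τ ^ 2 / 2 * d) := by
    have : 0 ≤ τ ^ 2 / 2 * d := by positivity
    nlinarith
  refine (abs_sub _ _).trans ?_
  refine (add_le_add (abs_add_le _ _) le_rfl).trans ?_
  nlinarith

end Trig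

end Pool.Agent.W693.LF
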