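import Pool.Agent.W693.LF1

set_option autoImplicit false

open Finset

namespace Pool.Agent.W693.LF

/-- `2 ^ β` -/
noncomputable def qq (β : ℝ) : ℝ := (2 : ℝ) ^ β

/-- `2 ^ (β - 1)` -/
noncomputable def pp (β : ℝ) : ℝ := (2 : ℝ) ^ (β - 1)

theorem one_lt_qq {β : ℝ} (h : 0 < β) : 1 < qq β := Real.one_lt_rpow (by norm_num) h

theorem qq_le_two {β : ℝ} (h : β ≤ 1) : qq β ≤ 2 := by
  have := Real.rpow_le_rpow_of_exponent_le (x := (2 : ℝ)) one_le_two h
  rwa [Real.rpow_one] at this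

theorem pp_pos (β : ℝ) : 0 < pp β := Real.rpow_pos_of_pos two_pos _

theorem qq_pos (β : ℝ) : 0 < qq β := Real.rpow_pos_of_pos two_pos _

theorem pp_lt_one {β : ℝ} (h : β < 1) : pp β < 1 :=
  Real.rpow_lt_one_of_one_lt_of_neg one_lt_two (by linarith)

theorem two_pow_rpow (β : ℝ) (n : ℕ) : ((2 : ℝ) ^ n) ^ β = qq β ^ n := by
  unfold qq
  rw [← Real.rpow_natCast, ← Real.rpow_mul two_pos.le, mul_comm, Real.rpow_mul two_pos.le,
    Real.rpow_natCast]

theorem two_pow_rpow' (β : ℝ) (n : ℕ) : ((2 : ℝ) ^ n) ^ (β - 1) = pp β ^ n := by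
  unfold pp
  rw [← Real.rpow_natCast, ← Real.rpow_mul two_pos.le, mul_comm, Real.rpow_mul two_pos.le,
    Real.rpow_natCast]

/-- the constant of the geometric sum -/
noncomputable def CC (β : ℝ) : ℝ := qq β / (qq β - 1) + 1 / (1 - pp β)

theorem one_le_CC {β : ℝ} (h0 : 0 < β) (h1 : β < 1) : 1 ≤ CC β := by
  have h2 := one_lt_qq h0
  have h3 := pp_lt_one h1
  have h4 := pp_pos β
  have h5 : 1 ≤ 1 / (1 - pp β) := by
    rw [le_div_iff₀ (by linarith)]
    linarith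
  have h6 : 0 ≤ qq β / (qq β - 1) := div_nonneg (by linarith) (by linarith)
  unfold CC
  linarith

theorem geo {β r : ℝ} (h0 : 0 < β) (h1 : β < 1) (hr : 1 ≤ r) (J : ℕ) :
    ∑ j ∈ range J, min (qq β ^ j) (r * pp β ^ j) ≤ CC β * r ^ β := by
  have hq := one_lt_qq h0
  have hp := pp_lt_one h1
  have hp0 := pp_pos β
  have hq0 := qq_pos β
  have hr0 : 0 < r := by linarith
  obtain ⟨n, hn1, hn2⟩ := exists_nat_pow_near hr one_lt_two
  have hg0 : ∀ j, 0 ≤ min (qq β ^ j) (r * pp β ^ j) := fun j => le_min (by positivity)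
    (by positivity)
  have ha : ∑ j ∈ range J, min (qq β ^ j) (r * pp β ^ j) ≤
      ∑ j ∈ range (n + 1 + J), min (qq β ^ j) (r * pp β ^ j) :=
    Finset.sum_le_sum_of_subset_of_nonneg (Finset.range_mono (by omega)) fun j _ _ => hg0 j
  have hb : ∑ j ∈ range (n + 1), min (qq β ^ j) (r * pp β ^ j) ≤
      qq β / (qq β - 1) * r ^ β := by
    calc ∑ j ∈ range (n + 1), min (qq β ^ j) (r * pp β ^ j) ≤ ∑ j ∈ range (n + 1), qq β ^ j :=
          Finset.sum_le_sum fun j _ => min_le_left _ _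
      _ = (qq β ^ (n + 1) - 1) / (qq β - 1) := geom_sum_eq hq.ne' _
      _ ≤ qq β ^ (n + 1) / (qq β - 1) := by
          gcongr
          linarith
      _ = qq β / (qq β - 1) * qq β ^ n := by rw [pow_succ]; ring
      _ ≤ qq β / (qq β - 1) * r ^ β := by
          have h2 : 0 ≤ qq β / (qq β - 1) := div_nonneg (by linarith) (by linarith)
          refine mul_le_mul_of_nonneg_left ?_ h2
          rw [← two_pow_rpow]
          exact Real.rpow_le_rpow (by positivity) hn1 h0.le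
  have hc : ∑ j ∈ range J, min (qq β ^ (n + 1 + j)) (r * pp β ^ (n + 1 + j)) ≤
      1 / (1 - pp β) * r ^ β := by
    calc ∑ j ∈ range J, min (qq β ^ (n + 1 + j)) (r * pp β ^ (n + 1 + j)) ≤
          ∑ j ∈ range J, (r * pp β ^ (n + 1)) * pp β ^ j :=
          Finset.sum_le_sum fun j _ => (min_le_right _ _).trans (le_of_eq (by rw [pow_add]; ring))
      _ = (r * pp β ^ (n + 1)) * ∑ j ∈ range J, pp β ^ j := by rw [Finset.mul_sum]
      _ = (r * pp β ^ (n + 1)) * ((1 - pp β ^ J) / (1 - pp β)) := by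
          rw [geom_sum_eq hp.ne, ← neg_div_neg_eq]
          ring
      _ ≤ (r * r ^ (β - 1)) * (1 / (1 - pp β)) := by
          have h2 : pp β ^ (n + 1) ≤ r ^ (β - 1) := by
            rw [← two_pow_rpow']
            exact Real.rpow_le_rpow_of_nonpos hr0 hn2.le (by linarith)
          have h3 : (1 - pp β ^ J) / (1 - pp β) ≤ 1 / (1 - pp β) := by
            have : 0 ≤ pp β ^ J := by positivity
            gcongr
            linarith
          have h4 : 0 ≤ (1 - pp β ^ J) / (1 - pp β) := by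
            have : pp β ^ J ≤ 1 := pow_le_one₀ hp0.le hp.le
            exact div_nonneg (by linarith) (by linarith)
          have h5 : 0 ≤ r ^ (β - 1) := by positivity
          gcongr
      _ = 1 / (1 - pp β) * r ^ β := by
          rw [Real.rpow_sub_one hr0.ne', mul_div_cancel₀ _ hr0.ne']
          ring
  calc _ ≤ _ := ha
    _ = ∑ j ∈ range (n + 1), min (qq β ^ j) (r * pp β ^ j) +
        ∑ j ∈ range J, min (qq β ^ (n + 1 + j)) (r * pp β ^ (n + 1 + j)) :=
        Finset.sum_range_add _ _ _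
    _ ≤ CC β * r ^ β := by
        unfold CC
        linarith

theorem rpow_le_add {β ρ : ℝ} (h0 : 0 < β) (h1 : β < 1) (hρ : 0 ≤ ρ) (j : ℕ) :
    ρ ^ β ≤ qq β ^ j + pp β ^ j * ρ := by
  have hp0 := pp_pos β
  have hq0 := qq_pos β
  rcases le_total ρ (2 ^ j) with h | h
  · have h2 : ρ ^ β ≤ qq β ^ j := by
      rw [← two_pow_rpow]
      exact Real.rpow_le_rpow hρ h h0.le
    have h3 : 0 ≤ pp β ^ j * ρ := by positivity
    linarith
  · have hρ0 : 0 < ρ := lt_of_lt_of_le (by positivity) h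
    have h2 : ρ ^ (β - 1) ≤ pp β ^ j := by
      rw [← two_pow_rpow']
      exact Real.rpow_le_rpow_of_nonpos (by positivity) h (by linarith)
    have h3 : ρ ^ β = ρ ^ (β - 1) * ρ := by
      rw [Real.rpow_sub_one hρ0.ne', div_mul_cancel₀ _ hρ0.ne']
    have h4 : ρ ^ (β - 1) * ρ ≤ pp β ^ j * ρ := by gcongr
    have h5 : 0 ≤ qq β ^ j := by positivity
    linarith

/-- a metric with distances at least one -/
structure IsMet {N : Type*} (ρ : N → N → ℝ) : Prop where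
  self : ∀ y, ρ y y = 0
  symm : ∀ y z, ρ y z = ρ z y
  tri : ∀ x y z, ρ x z ≤ ρ x y + ρ y z
  one_le : ∀ y z, y ≠ z → 1 ≤ ρ y z

theorem IsMet.nonneg {N : Type*} {ρ : N → N → ℝ} (h : IsMet ρ) (y z : N) : 0 ≤ ρ y z := by
  rcases eq_or_ne y z with rfl | hne
  · rw [h.self]
  · linarith [h.one_le y z hne]

section Conv

variable {N : Type*} [Fintype N]

/-- inf-convolution with a multiple of the metric -/
noncomputable def ic (ρ : N → N → ℝ) (s : ℝ) (f : N → ℝ) (y : N) : ℝ := ⨅ z, (f z + s * ρ y z)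

theorem ic_le (ρ : N → N → ℝ) (s : ℝ) (f : N → ℝ) (y z : N) : ic ρ s f y ≤ f z + s * ρ y z :=
  ciInf_le (Set.finite_range _).bddBelow z

omit [Fintype N] in
theorem le_ic {ρ : N → N → ℝ} {s : ℝ} {f : N → ℝ} {y : N} {c : ℝ}
    (h : ∀ z, c ≤ f z + s * ρ y z) : c ≤ ic ρ s f y := by
  have : Nonempty N := ⟨y⟩
  exact le_ciInf h

theorem ic_le_self {ρ : N → N → ℝ} (hρ : IsMet ρ) (s : ℝ) (f : N → ℝ) (y : N) :
    ic ρ s f y ≤ f y := by
  have := ic_le ρ s f y y
  rwa [hρ.self, mul_zero, add_zero] at this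

theorem ic_lip {ρ : N → N → ℝ} (hρ : IsMet ρ) {s : ℝ} (hs : 0 ≤ s) (f : N → ℝ) (y z : N) :
    |ic ρ s f y - ic ρ s f z| ≤ s * ρ y z := by
  have h : ∀ y z, ic ρ s f y - s * ρ y z ≤ ic ρ s f z := by
    intro y z
    refine le_ic fun w => ?_
    have h1 := ic_le ρ s f y w
    have h2 := mul_le_mul_of_nonneg_left (hρ.tri y z w) hs
    linarith
  rw [abs_sub_le_iff]
  constructor
  · linarith [h y z]
  · have := h z y
    rw [hρ.symm z y] at this
    linarith

variable {β : ℝ} {ρ : N → N → ℝ} {f : N → ℝ}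

theorem self_le_ic (h0 : 0 < β) (h1 : β < 1) (hρ : IsMet ρ)
    (hf : ∀ y z, |f y - f z| ≤ ρ y z ^ β) (j : ℕ) (y : N) :
    f y - qq β ^ j ≤ ic ρ (pp β ^ j) f y := by
  refine le_ic fun z => ?_
  have h2 := (abs_le.1 (hf y z)).2
  have h3 := rpow_le_add h0 h1 (hρ.nonneg y z) j
  linarith

theorem ic_zero (h0 : 0 < β) (h1 : β < 1) (hρ : IsMet ρ)
    (hf : ∀ y z, |f y - f z| ≤ ρ y z ^ β) (y : N) : ic ρ (pp β ^ 0) f y = f y := by
  refine le_antisymm (ic_le_self hρ _ f y) (le_ic fun z => ?_)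
  rw [pow_zero, one_mul]
  have h2 := (abs_le.1 (hf y z)).2
  have h3 : ρ y z ^ β ≤ ρ y z := by
    rcases eq_or_ne y z with rfl | hne
    · rw [hρ.self, Real.zero_rpow h0.ne']
    · have h4 := Real.rpow_le_rpow_of_exponent_le (hρ.one_le y z hne) h1.le
      rwa [Real.rpow_one] at h4
  linarith

/-- the pieces of `f` at the scales `2 ^ j` -/
noncomputable def pc (β : ℝ) (ρ : N → N → ℝ) (f : N → ℝ) (J j : ℕ) (y : N) : ℝ :=
  if j < J then ic ρ (pp β ^ j) f y - ic ρ (pp β ^ (j + 1)) f y else ic ρ (pp β ^ j) f y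

theorem sum_pc (h0 : 0 < β) (h1 : β < 1) (hρ : IsMet ρ)
    (hf : ∀ y z, |f y - f z| ≤ ρ y z ^ β) (J : ℕ) (y : N) :
    ∑ j ∈ range (J + 1), pc β ρ f J j y = f y := by
  rw [Finset.sum_range_succ]
  have h2 : ∑ j ∈ range J, pc β ρ f J j y =
      ∑ j ∈ range J, (ic ρ (pp β ^ j) f y - ic ρ (pp β ^ (j + 1)) f y) :=
    Finset.sum_congr rfl fun j hj => by rw [pc, if_pos (Finset.mem_range.1 hj)]
  rw [h2, Finset.sum_range_sub' (fun j => ic ρ (pp β ^ j) f y), pc, if_neg (lt_irrefl J),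
    ic_zero h0 h1 hρ hf]
  ring

theorem abs_pc_le (h0 : 0 < β) (h1 : β < 1) (hρ : IsMet ρ)
    (hf : ∀ y z, |f y - f z| ≤ ρ y z ^ β) {b : N} (hb : f b = 0) {J j : ℕ} (hj : j ≤ J)
    (hJ : ∀ y z, ρ y z ≤ 2 ^ J) (y : N) : |pc β ρ f J j y| ≤ 3 * qq β ^ j := by
  have hq0 := qq_pos β
  have hq2 := qq_le_two h1.le
  have ha := self_le_ic h0 h1 hρ hf j y
  have hb' := ic_le_self hρ (pp β ^ j) f y
  have hqj : 0 ≤ qq β ^ j := by positivity
  unfold pc
  split_ifs with hlt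
  · have hc := self_le_ic h0 h1 hρ hf (j + 1) y
    have hd := ic_le_self hρ (pp β ^ (j + 1)) f y
    have he : qq β ^ (j + 1) ≤ 2 * qq β ^ j := by
      rw [pow_succ, mul_comm]
      gcongr
    rw [abs_le]
    constructor <;> linarith
  · have hjJ : j = J := le_antisymm hj (not_lt.1 hlt)
    subst hjJ
    have hc : |f y| ≤ qq β ^ j := by
      have h2 := hf y b
      rw [hb, sub_zero] at h2
      refine h2.trans ?_
      rw [← two_pow_rpow]
      exact Real.rpow_le_rpow (hρ.nonneg y b) (hJ y b) h0.le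
    rw [abs_le] at hc ⊢
    constructor <;> linarith [hc.1, hc.2]

theorem pc_lip (h1 : β < 1) (hρ : IsMet ρ) (J j : ℕ) (y z : N) :
    |pc β ρ f J j y - pc β ρ f J j z| ≤ 2 * pp β ^ j * ρ y z := by
  have hp0 := pp_pos β
  have hp1 := pp_lt_one h1
  have ha := ic_lip hρ (pow_nonneg hp0.le j) f y z
  have hn := hρ.nonneg y z
  have hpj : 0 ≤ pp β ^ j * ρ y z := by positivity
  unfold pc
  split_ifs with hlt
  · have hb := ic_lip hρ (pow_nonneg hp0.le (j + 1)) f y z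
    have hc : pp β ^ (j + 1) * ρ y z ≤ pp β ^ j * ρ y z := by
      have : pp β ^ (j + 1) ≤ pp β ^ j := pow_le_pow_of_le_one hp0.le hp1.le (by omega)
      gcongr
    have hd : (ic ρ (pp β ^ j) f y - ic ρ (pp β ^ (j + 1)) f y) -
        (ic ρ (pp β ^ j) f z - ic ρ (pp β ^ (j + 1)) f z) =
        (ic ρ (pp β ^ j) f y - ic ρ (pp β ^ j) f z) -
        (ic ρ (pp β ^ (j + 1)) f y - ic ρ (pp β ^ (j + 1)) f z) := by ring
    rw [hd]
    refine (abs_sub _ _).trans ?_
    linarith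
  · linarith

end Conv

end Pool.Agent.W693.LF
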