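import Pool.Agent.W693.LF2

set_option autoImplicit false

open Finset

namespace Pool.Agent.W693.LF

/-- the constant of the cotype estimate -/
noncomputable def LL (β : ℝ) : ℝ := 144 * CC β ^ 2

theorem LL_pos {β : ℝ} (h0 : 0 < β) (h1 : β < 1) : 0 < LL β := by
  have := one_le_CC h0 h1
  unfold LL
  positivity

section Signs

variable {N : Type*} [Fintype N] {ι : Type*} [Fintype ι] [DecidableEq ι] [Nonempty ι]

theorem abs_sin_sub_sin (a b : ℝ) : |Real.sin a - Real.sin b| ≤ |a - b| := by
  rw [Real.sin_sub_sin, abs_mul, abs_mul, abs_two]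
  have ha : |Real.sin ((a - b) / 2)| ≤ |a - b| / 2 := by
    refine Real.abs_sin_le_abs.trans ?_
    rw [abs_div, abs_two]
  have hb := Real.abs_cos_le_one ((a + b) / 2)
  have hc : 0 ≤ |a - b| := abs_nonneg _
  calc 2 * |Real.sin ((a - b) / 2)| * |Real.cos ((a + b) / 2)| ≤ 2 * (|a - b| / 2) * 1 := by
        gcongr
    _ = |a - b| := by ring

theorem abs_sin_sub_sin_le_two (a b : ℝ) : |Real.sin a - Real.sin b| ≤ 2 := by
  have h1 := Real.abs_sin_le_one a
  have h2 := Real.abs_sin_le_one b
  have := abs_sub (Real.sin a) (Real.sin b)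
  linarith

/-- Hölder functions on a finite metric space can be recovered from sign averages of functions with
a small Hölder constant. -/
theorem signs {β : ℝ} {ρ : N → N → ℝ} (h0 : 0 < β) (h1 : β < 1) (hρ : IsMet ρ) (f : ι → N → ℝ)
    (hf : ∀ i y z, |f i y - f i z| ≤ ρ y z ^ β) (b : N) (hb : ∀ i, f i b = 0) :
    ∃ H : (ι → Bool) → N → ℝ, (∀ ε, H ε b = 0) ∧
      (∀ ε y z, |H ε y - H ε z| ≤
        LL β * (Fintype.card ι : ℝ) ^ ((1 + β) / 2) * ρ y z ^ β) ∧
      ∀ i y z, |(f i y - (2 ^ Fintype.card ι)⁻¹ * ∑ ε : ι → Bool, sg (ε i) * H ε y) -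
        (f i z - (2 ^ Fintype.card ι)⁻¹ * ∑ ε : ι → Bool, sg (ε i) * H ε z)| ≤
          1 / 2 * ρ y z ^ β := by
  obtain ⟨B, hB⟩ := (Set.finite_range (fun p : N × N => ρ p.1 p.2)).bddAbove
  obtain ⟨J, hJ'⟩ := pow_unbounded_of_one_lt B (one_lt_two : (1 : ℝ) < 2)
  have hJ : ∀ y z, ρ y z ≤ 2 ^ J := fun y z => (hB ⟨(y, z), rfl⟩).trans hJ'.le
  have hC := one_le_CC h0 h1
  have hq0 := qq_pos β
  have hp0 := pp_pos β
  set k : ℝ := (Fintype.card ι : ℝ) with hk
  have hk1 : 1 ≤ k := by
    have : 0 < Fintype.card ι := Fintype.card_pos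
    rw [hk]
    exact_mod_cast this
  set s : ℝ := Real.sqrt k with hs
  have hs1 : 1 ≤ s := Real.one_le_sqrt.2 hk1
  have hss : s * s = k := Real.mul_self_sqrt (by linarith)
  set K : ℝ := 24 * CC β with hK
  have hK24 : 24 ≤ K := by linarith
  set A : ℕ → ℝ := fun j => K * s * (3 * qq β ^ j) with hA
  have hA0 : ∀ j, 0 < A j := fun j => by
    have : 0 < qq β ^ j := by positivity
    simp only [hA]
    positivity
  set v : ℕ → N → ι → ℝ := fun j y l => pc β ρ (f l) J j y / A j with hv
  set Hf : (ι → Bool) → N → ℝ := fun ε y =>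
    ∑ j ∈ range (J + 1), A j * Real.sin (∑ l, sg (ε l) * v j y l) with hHf
  -- the Hölder constant of `Hf`
  have hdiff : ∀ j y z l, A j * |v j y l - v j z l| = |pc β ρ (f l) J j y - pc β ρ (f l) J j z| := by
    intro j y z l
    simp only [hv]
    rw [← sub_div, abs_div, abs_of_pos (hA0 j), mul_div_cancel₀ _ (hA0 j).ne']
  have hlip : ∀ ε y z, |Hf ε y - Hf ε z| ≤ LL β * k ^ ((1 + β) / 2) * ρ y z ^ β := by
    intro ε y z
    rcases eq_or_ne y z with rfl | hne
    · rw [sub_self, abs_zero]
      have := LL_pos h0 h1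
      have := hρ.nonneg y y
      positivity
    have hρ1 := hρ.one_le y z hne
    have hterm : ∀ j ∈ range (J + 1), |A j * Real.sin (∑ l, sg (ε l) * v j y l) -
        A j * Real.sin (∑ l, sg (ε l) * v j z l)| ≤
        6 * K * s * min (qq β ^ j) ((s * ρ y z) * pp β ^ j) := by
      intro j _
      rw [← mul_sub, abs_mul, abs_of_pos (hA0 j), mul_min_of_nonneg _ _ (by positivity)]
      refine le_min ?_ ?_
      · calc A j * |Real.sin (∑ l, sg (ε l) * v j y l) - Real.sin (∑ l, sg (ε l) * v j z l)| ≤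
            A j * 2 := mul_le_mul_of_nonneg_left (abs_sin_sub_sin_le_two _ _) (hA0 j).le
          _ = 6 * K * s * qq β ^ j := by simp only [hA]; ring
      · calc A j * |Real.sin (∑ l, sg (ε l) * v j y l) - Real.sin (∑ l, sg (ε l) * v j z l)| ≤
            A j * |(∑ l, sg (ε l) * v j y l) - (∑ l, sg (ε l) * v j z l)| :=
              mul_le_mul_of_nonneg_left (abs_sin_sub_sin _ _) (hA0 j).le
          _ ≤ A j * ∑ l, |v j y l - v j z l| := by
              refine mul_le_mul_of_nonneg_left ?_ (hA0 j).le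
              rw [← Finset.sum_sub_distrib]
              refine (Finset.abs_sum_le_sum_abs _ _).trans (Finset.sum_le_sum fun l _ => ?_)
              rw [← mul_sub, abs_mul, abs_sg, one_mul]
          _ = ∑ l, |pc β ρ (f l) J j y - pc β ρ (f l) J j z| := by
              rw [Finset.mul_sum]
              exact Finset.sum_congr rfl fun l _ => hdiff j y z l
          _ ≤ ∑ _l : ι, 2 * pp β ^ j * ρ y z :=
              Finset.sum_le_sum fun l _ => pc_lip h1 hρ J j y z
          _ = k * (2 * pp β ^ j * ρ y z) := by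
              rw [Finset.sum_const, Finset.card_univ, nsmul_eq_mul]
          _ = 2 * s * ((s * ρ y z) * pp β ^ j) := by rw [← hss]; ring
          _ ≤ 6 * K * s * ((s * ρ y z) * pp β ^ j) := by
              have : 0 ≤ (s * ρ y z) * pp β ^ j := by positivity
              gcongr
              linarith
    calc |Hf ε y - Hf ε z| ≤ ∑ j ∈ range (J + 1), |A j * Real.sin (∑ l, sg (ε l) * v j y l) -
            A j * Real.sin (∑ l, sg (ε l) * v j z l)| := by
          simp only [hHf]
          rw [← Finset.sum_sub_distrib]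
          exact Finset.abs_sum_le_sum_abs _ _
      _ ≤ ∑ j ∈ range (J + 1), 6 * K * s * min (qq β ^ j) ((s * ρ y z) * pp β ^ j) :=
          Finset.sum_le_sum hterm
      _ = 6 * K * s * ∑ j ∈ range (J + 1), min (qq β ^ j) ((s * ρ y z) * pp β ^ j) := by
          rw [Finset.mul_sum]
      _ ≤ 6 * K * s * (CC β * (s * ρ y z) ^ β) := by
          have : 1 ≤ s * ρ y z := by nlinarith
          have := geo h0 h1 this (J + 1)
          gcongr
      _ = LL β * k ^ ((1 + β) / 2) * ρ y z ^ β := by
          have h2 : s = k ^ (1 / 2 : ℝ) := Real.sqrt_eq_rpow k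
          have h3 : k ^ ((1 + β) / 2) = s * s ^ β := by
            rw [h2, ← Real.rpow_mul (by linarith), ← Real.rpow_add (by linarith)]
            congr 1
            ring
          rw [Real.mul_rpow (by linarith) (by linarith), h3, hK, LL]
          ring
  -- the sign averages of `Hf`
  have havg : ∀ i y, (2 ^ Fintype.card ι : ℝ)⁻¹ * ∑ ε : ι → Bool, sg (ε i) * Hf ε y =
      ∑ j ∈ range (J + 1),
        A j * (Real.sin (v j y i) * ∏ l ∈ univ.erase i, Real.cos (v j y l)) := by
    intro i y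
    have h2 : ∑ ε : ι → Bool, sg (ε i) * Hf ε y = ∑ j ∈ range (J + 1), A j *
        (2 ^ Fintype.card ι * (Real.sin (v j y i) * ∏ l ∈ univ.erase i, Real.cos (v j y l))) := by
      simp only [hHf, Finset.mul_sum]
      rw [Finset.sum_comm]
      refine Finset.sum_congr rfl fun j _ => ?_
      rw [← sum_sg_sin (v j y) i, Finset.mul_sum]
      exact Finset.sum_congr rfl fun ε _ => by ring
    rw [h2, Finset.mul_sum]
    refine Finset.sum_congr rfl fun j _ => ?_
    have : (2 : ℝ) ^ Fintype.card ι ≠ 0 := by positivity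
    field_simp
  have hfsum : ∀ i y, f i y = ∑ j ∈ range (J + 1), A j * v j y i := by
    intro i y
    rw [← sum_pc h0 h1 hρ (hf i) J y]
    refine Finset.sum_congr rfl fun j _ => ?_
    simp only [hv]
    rw [mul_div_cancel₀ _ (hA0 j).ne']
  have herr : ∀ i y z, |(f i y - (2 ^ Fintype.card ι : ℝ)⁻¹ * ∑ ε : ι → Bool, sg (ε i) * Hf ε y) -
      (f i z - (2 ^ Fintype.card ι : ℝ)⁻¹ * ∑ ε : ι → Bool, sg (ε i) * Hf ε z)| ≤
        1 / 2 * ρ y z ^ β := by
    intro i y z
    rcases eq_or_ne y z with rfl | hne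
    · rw [sub_self, abs_zero]
      have := hρ.nonneg y y
      positivity
    have hρ1 := hρ.one_le y z hne
    have hsplit : ∀ y, f i y - (2 ^ Fintype.card ι : ℝ)⁻¹ * ∑ ε : ι → Bool, sg (ε i) * Hf ε y =
        ∑ j ∈ range (J + 1), A j * (v j y i - Real.sin (v j y i) *
          ∏ l ∈ univ.erase i, Real.cos (v j y l)) := by
      intro y
      rw [havg, hfsum, ← Finset.sum_sub_distrib]
      exact Finset.sum_congr rfl fun j _ => by ring
    rw [hsplit, hsplit, ← Finset.sum_sub_distrib]
    have hτ : ∀ j ∈ range (J + 1), ∀ w l, |v j w l| ≤ 1 / (K * s) := by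
      intro j hj w l
      have h2 := abs_pc_le h0 h1 hρ (hf l) (hb l) (Nat.lt_succ_iff.1 (Finset.mem_range.1 hj)) hJ w
      have h3 : 0 < qq β ^ j := by positivity
      simp only [hv, hA]
      rw [abs_div, abs_of_pos (hA0 j : 0 < K * s * (3 * qq β ^ j)), div_le_div_iff₀ (hA0 j)
        (by positivity), one_mul]
      have h4 : 0 ≤ K * s := by positivity
      nlinarith
    have hterm : ∀ j ∈ range (J + 1), |A j * (v j y i - Real.sin (v j y i) *
          ∏ l ∈ univ.erase i, Real.cos (v j y l)) - A j * (v j z i - Real.sin (v j z i) *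
          ∏ l ∈ univ.erase i, Real.cos (v j z l))| ≤
          12 / K ^ 2 * min (qq β ^ j) (ρ y z * pp β ^ j) := by
      intro j hj
      have hd : ∀ l, |v j y l - v j z l| ≤ min (6 * qq β ^ j) (2 * pp β ^ j * ρ y z) / A j := by
        intro l
        rw [le_div_iff₀ (hA0 j), mul_comm, hdiff]
        refine le_min ?_ (pc_lip h1 hρ J j y z)
        have h2 := abs_pc_le h0 h1 hρ (hf l) (hb l)
          (Nat.lt_succ_iff.1 (Finset.mem_range.1 hj)) hJ y
        have h3 := abs_pc_le h0 h1 hρ (hf l) (hb l)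
          (Nat.lt_succ_iff.1 (Finset.mem_range.1 hj)) hJ z
        refine (abs_sub _ _).trans ?_
        linarith
      have h2 := phi_lip (v j y) (v j z) i (1 / (K * s)) _ (hτ j hj y) (hτ j hj z) hd
      rw [← mul_sub, abs_mul, abs_of_pos (hA0 j)]
      calc _ ≤ A j * (2 * k * (1 / (K * s)) ^ 2 *
            (min (6 * qq β ^ j) (2 * pp β ^ j * ρ y z) / A j)) :=
            mul_le_mul_of_nonneg_left h2 (hA0 j).le
        _ = 2 / K ^ 2 * min (6 * qq β ^ j) (2 * pp β ^ j * ρ y z) := by
            have h3 := (hA0 j).ne'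
            have h4 : K ≠ 0 := by positivity
            have h5 : s ≠ 0 := by positivity
            rw [← hss]
            field_simp
        _ ≤ 2 / K ^ 2 * (6 * min (qq β ^ j) (ρ y z * pp β ^ j)) := by
            refine mul_le_mul_of_nonneg_left ?_ (by positivity)
            rw [mul_min_of_nonneg _ _ (by norm_num : (0 : ℝ) ≤ 6)]
            have : 0 ≤ ρ y z * pp β ^ j := by positivity
            exact min_le_min le_rfl (by linarith)
        _ = 12 / K ^ 2 * min (qq β ^ j) (ρ y z * pp β ^ j) := by ring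
    refine (Finset.abs_sum_le_sum_abs _ _).trans ((Finset.sum_le_sum hterm).trans ?_)
    rw [← Finset.mul_sum]
    have h3 := geo h0 h1 hρ1 (J + 1)
    have h4 : 0 ≤ ρ y z ^ β := by positivity
    calc _ ≤ 12 / K ^ 2 * (CC β * ρ y z ^ β) := mul_le_mul_of_nonneg_left h3 (by positivity)
      _ = (12 * CC β / K ^ 2) * ρ y z ^ β := by ring
      _ ≤ 1 / 2 * ρ y z ^ β := by
          refine mul_le_mul_of_nonneg_right ?_ h4
          rw [div_le_div_iff₀ (by positivity) (by norm_num), hK]
          nlinarith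
  refine ⟨fun ε y => Hf ε y - Hf ε b, fun ε => sub_self _, fun ε y z => ?_, fun i y z => ?_⟩
  · have : Hf ε y - Hf ε b - (Hf ε z - Hf ε b) = Hf ε y - Hf ε z := by ring
    rw [this]
    exact hlip ε y z
  · have h2 : ∀ y, ∑ ε : ι → Bool, sg (ε i) * (Hf ε y - Hf ε b) =
        ∑ ε : ι → Bool, sg (ε i) * Hf ε y - ∑ ε : ι → Bool, sg (ε i) * Hf ε b := by
      intro y
      rw [← Finset.sum_sub_distrib]
      exact Finset.sum_congr rfl fun ε _ => by ring
    simp only [h2]
    have h3 := herr i y z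
    rw [mul_sub, mul_sub]
    convert h3 using 2
    ring

end Signs

end Pool.Agent.W693.LF
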