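import Pool.Agent.W693.LF1

set_option autoImplicit false

open Finset

namespace Pool.Agent.W693.LF

section Kernel

/-- the probability of moving from `a` to `a + 1` -/
noncomputable def pr (R a : ℕ) : ℝ := min ((a : ℝ) + 1) (2 * R - 1 - a) / R

/-- the kernel that moves to the right -/
noncomputable def kp (R a b : ℕ) : ℝ := if b = a + 1 then pr R a else if b = a then 1 - pr R a else 0

theorem pr_nonneg {R a : ℕ} (ha : a < 2 * R) : 0 ≤ pr R a := by
  have h : ((a : ℝ) + 1) ≤ 2 * R := by exact_mod_cast ha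
  exact div_nonneg (le_min (by positivity) (by linarith)) (by positivity)

theorem pr_le_one {R a : ℕ} (hR : 1 ≤ R) : pr R a ≤ 1 := by
  have hR' : (1 : ℝ) ≤ R := by exact_mod_cast hR
  unfold pr
  rw [div_le_one (by linarith)]
  rcases le_total ((a : ℝ) + 1) R with h | h
  · exact (min_le_left _ _).trans h
  · exact (min_le_right _ _).trans (by linarith)

theorem kp_nonneg {R a b : ℕ} (hR : 1 ≤ R) (ha : a < 2 * R) : 0 ≤ kp R a b := by
  unfold kp
  split_ifs
  · exact pr_nonneg ha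
  · linarith [pr_le_one (a := a) hR]
  · exact le_rfl

theorem kp_near {R a b : ℕ} (h : kp R a b ≠ 0) : |(a : ℝ) - b| ≤ 1 := by
  unfold kp at h
  split_ifs at h with h1 h2
  · subst h1
    push_cast
    rw [abs_le]
    constructor <;> linarith
  · subst h2
    simp
  · exact absurd rfl h

theorem kp_split (R a b : ℕ) : kp R a b =
    (if b = a + 1 then pr R a else 0) + (if b = a then 1 - pr R a else 0) := by
  unfold kp
  split_ifs with h1 h2
  · omega
  · simp
  · simp
  · simp

theorem pr_last (R : ℕ) {a : ℕ} (ha : a + 1 = 2 * R) : pr R a = 0 := by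
  have h : ((a : ℝ) + 1) = 2 * R := by exact_mod_cast ha
  unfold pr
  rw [min_eq_right (by linarith [(Nat.cast_nonneg a : (0 : ℝ) ≤ a)]), div_eq_zero_iff]
  left
  linarith

theorem sum_kp_right {R a : ℕ} (hR : 1 ≤ R) (ha : a < 2 * R) :
    ∑ b ∈ range (2 * R), kp R a b = 1 := by
  simp only [kp_split]
  rw [Finset.sum_add_distrib, Finset.sum_ite_eq', Finset.sum_ite_eq', if_pos (Finset.mem_range.2 ha)]
  split_ifs with h
  · ring
  · rw [pr_last R (by rw [Finset.mem_range] at h; omega)]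
    ring

/-- the sign on the interval -/
noncomputable def sm (R a : ℕ) : ℝ := if a < R then -1 else 1

theorem sum_kp_left {R b : ℕ} (hR : 1 ≤ R) (hb : b < 2 * R) :
    ∑ a ∈ range (2 * R), kp R a b = 1 + sm R b / R := by
  have hR' : (1 : ℝ) ≤ R := by exact_mod_cast hR
  simp only [kp_split]
  rw [Finset.sum_add_distrib, Finset.sum_ite_eq, if_pos (Finset.mem_range.2 hb)]
  cases b with
  | zero =>
    have h1 : ∑ a ∈ range (2 * R), (if 0 = a + 1 then pr R a else 0) = 0 :=
      Finset.sum_eq_zero fun a _ => if_neg (by omega)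
    rw [h1, sm, if_pos (by omega), pr, min_eq_left (by push_cast; linarith)]
    push_cast
    field_simp
    ring
  | succ b =>
    have h1 : ∑ a ∈ range (2 * R), (if b + 1 = a + 1 then pr R a else 0) = pr R b := by
      simp only [add_left_inj]
      rw [Finset.sum_ite_eq, if_pos (Finset.mem_range.2 (by omega))]
    rw [h1, sm, pr, pr]
    have hR0 : (R : ℝ) ≠ 0 := by positivity
    split_ifs with h
    · have h' : (b : ℝ) + 2 ≤ R := by exact_mod_cast h
      rw [min_eq_left (by linarith), min_eq_left (by push_cast; linarith)]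
      push_cast
      field_simp
      ring
    · have h' : (R : ℝ) ≤ b + 1 := by exact_mod_cast (not_lt.1 h)
      rw [min_eq_right (by linarith), min_eq_right (by push_cast; linarith)]
      push_cast
      field_simp
      ring

theorem sm_rev {R a b : ℕ} (h : a + b + 1 = 2 * R) : sm R b = - sm R a := by
  unfold sm
  split_ifs <;> first | omega | simp

/-- the kernel on `Fin (2 * R)`, moving right or left -/
noncomputable def kf (R : ℕ) (e : Bool) (a b : Fin (2 * R)) : ℝ :=
  if e then kp R a b else kp R (Fin.rev a) (Fin.rev b)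

theorem kf_nonneg {R : ℕ} (hR : 1 ≤ R) (e : Bool) (a b : Fin (2 * R)) : 0 ≤ kf R e a b := by
  unfold kf
  split_ifs
  · exact kp_nonneg hR a.2
  · exact kp_nonneg hR (Fin.rev a).2

theorem kf_near {R : ℕ} {e : Bool} {a b : Fin (2 * R)} (h : kf R e a b ≠ 0) :
    |((a : ℕ) : ℝ) - ((b : ℕ) : ℝ)| ≤ 1 := by
  unfold kf at h
  split_ifs at h
  · exact kp_near h
  · have h1 := kp_near h
    have h2 : ((Fin.rev a : ℕ) : ℝ) = 2 * R - 1 - a := by
      rw [Fin.val_rev, Nat.cast_sub a.2]
      push_cast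
      ring
    have h3 : ((Fin.rev b : ℕ) : ℝ) = 2 * R - 1 - b := by
      rw [Fin.val_rev, Nat.cast_sub b.2]
      push_cast
      ring
    rw [h2, h3] at h1
    rw [abs_sub_comm]
    convert h1 using 2
    ring

theorem sum_kf_right {R : ℕ} (hR : 1 ≤ R) (e : Bool) (a : Fin (2 * R)) :
    ∑ b, kf R e a b = 1 := by
  unfold kf
  split_ifs
  · rw [← sum_kp_right hR a.2]
    exact Fin.sum_univ_eq_sum_range (fun b => kp R a b) (2 * R)
  · rw [← sum_kp_right hR (Fin.rev a).2,
      ← Fin.sum_univ_eq_sum_range (fun b => kp R (Fin.rev a) b) (2 * R)]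
    exact Equiv.sum_comp Fin.revPerm (fun b : Fin (2 * R) => kp R (Fin.rev a) b)

theorem sum_kf_left {R : ℕ} (hR : 1 ≤ R) (e : Bool) (b : Fin (2 * R)) :
    ∑ a, kf R e a b = 1 + sg e * sm R b / R := by
  unfold kf
  cases e with
  | true =>
    simp only [if_true, sg_true, one_mul]
    rw [← sum_kp_left hR b.2]
    exact Fin.sum_univ_eq_sum_range (fun a => kp R a b) (2 * R)
  | false =>
    simp only [Bool.false_eq_true, if_false, sg_false]
    have h1 : sm R (Fin.rev b) = - sm R b := sm_rev (by rw [Fin.val_rev]; omega)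
    rw [neg_one_mul, ← h1, ← sum_kp_left hR (Fin.rev b).2,
      ← Fin.sum_univ_eq_sum_range (fun a => kp R a (Fin.rev b)) (2 * R)]
    exact Equiv.sum_comp Fin.revPerm (fun a : Fin (2 * R) => kp R a (Fin.rev b))

end Kernel

section Cube

variable {ι : Type*} [Fintype ι] [DecidableEq ι] {R : ℕ}

theorem sum_prod (g : ι → Fin (2 * R) → ℝ) :
    ∑ y : ι → Fin (2 * R), ∏ l, g l (y l) = ∏ l, ∑ a, g l a := by
  rw [Finset.prod_univ_sum, Fintype.piFinset_univ]

theorem card_cube : (Fintype.card (ι → Fin (2 * R)) : ℝ) = (2 * R) ^ Fintype.card ι := by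
  rw [Fintype.card_fun, Fintype.card_fin]
  push_cast
  rfl

/-- the density `∏ (1 + ε_l σ_l / R)` -/
noncomputable def ww (R : ℕ) (ε : ι → Bool) (y : ι → Fin (2 * R)) : ℝ :=
  ∏ l, (1 + sg (ε l) * sm R (y l) / R)

/-- the sum `∑ ε_l σ_l` -/
noncomputable def ls (R : ℕ) (ε : ι → Bool) (y : ι → Fin (2 * R)) : ℝ :=
  ∑ l, sg (ε l) * sm R (y l)

theorem transport (hR : 1 ≤ R) (ε : ι → Bool) (f : (ι → Fin (2 * R)) → ℝ)
    (hf : ∀ y z, (∀ l, |((y l : ℕ) : ℝ) - ((z l : ℕ) : ℝ)| ≤ 1) → |f y - f z| ≤ 1) :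
    |∑ y, f y * ww R ε y - ∑ y, f y| ≤ (2 * R) ^ Fintype.card ι := by
  have h1 : ∑ y, f y * ww R ε y = ∑ z : ι → Fin (2 * R), ∑ y : ι → Fin (2 * R),
      f z * ∏ l, kf R (ε l) (y l) (z l) := by
    refine Finset.sum_congr rfl fun z _ => ?_
    rw [← Finset.mul_sum, sum_prod (fun l a => kf R (ε l) a (z l)), ww]
    congr 1
    exact Finset.prod_congr rfl fun l _ => (sum_kf_left hR (ε l) (z l)).symm
  have h2 : ∑ y, f y = ∑ y : ι → Fin (2 * R), ∑ z : ι → Fin (2 * R),
      f y * ∏ l, kf R (ε l) (y l) (z l) := by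
    refine Finset.sum_congr rfl fun y _ => ?_
    rw [← Finset.mul_sum, sum_prod (fun l a => kf R (ε l) (y l) a)]
    simp [sum_kf_right hR]
  have h3 : (2 * R : ℝ) ^ Fintype.card ι = ∑ y : ι → Fin (2 * R), ∑ z : ι → Fin (2 * R),
      ∏ l, kf R (ε l) (y l) (z l) := by
    rw [← card_cube]
    have : ∀ y : ι → Fin (2 * R), ∑ z : ι → Fin (2 * R), ∏ l, kf R (ε l) (y l) (z l) = 1 := by
      intro y
      rw [sum_prod (fun l a => kf R (ε l) (y l) a)]
      simp [sum_kf_right hR]
    simp [this]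
  rw [h1, h2, Finset.sum_comm, ← Finset.sum_sub_distrib, h3]
  refine (Finset.abs_sum_le_sum_abs _ _).trans (Finset.sum_le_sum fun y _ => ?_)
  rw [← Finset.sum_sub_distrib]
  refine (Finset.abs_sum_le_sum_abs _ _).trans (Finset.sum_le_sum fun z _ => ?_)
  rw [← sub_mul, abs_mul]
  have h4 : 0 ≤ ∏ l, kf R (ε l) (y l) (z l) := Finset.prod_nonneg fun l _ => kf_nonneg hR _ _ _
  rw [abs_of_nonneg h4]
  by_cases h5 : ∏ l, kf R (ε l) (y l) (z l) = 0
  · rw [h5]
    simp
  · have h6 : ∀ l, |((y l : ℕ) : ℝ) - ((z l : ℕ) : ℝ)| ≤ 1 := fun l =>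
      kf_near ((Finset.prod_ne_zero_iff.1 h5) l (Finset.mem_univ l))
    have h7 := hf y z h6
    rw [abs_sub_comm] at h7
    calc |f z - f y| * ∏ l, kf R (ε l) (y l) (z l) ≤ 1 * ∏ l, kf R (ε l) (y l) (z l) := by gcongr
      _ = ∏ l, kf R (ε l) (y l) (z l) := one_mul _

end Cube

end Pool.Agent.W693.LF
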