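import Pool.Agent.W693.LF4

set_option autoImplicit false

open Finset

namespace Pool.Agent.W693.LF

theorem sm_sq (R a : ℕ) : sm R a * sm R a = 1 := by
  unfold sm
  split_ifs <;> norm_num

theorem abs_sm (R a : ℕ) : |sm R a| = 1 := by
  unfold sm
  split_ifs <;> norm_num

theorem sum_range_two (R : ℕ) (g : ℕ → ℝ) : ∑ a : Fin (2 * R), g a =
    ∑ a ∈ range R, g a + ∑ a ∈ range R, g (R + a) := by
  rw [Fin.sum_univ_eq_sum_range g (2 * R), two_mul, Finset.sum_range_add]

theorem sum_sm (R : ℕ) : ∑ a : Fin (2 * R), sm R a = 0 := by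
  rw [sum_range_two R (fun a => sm R a)]
  have h1 : ∑ a ∈ range R, sm R a = ∑ a ∈ range R, (-1 : ℝ) :=
    Finset.sum_congr rfl fun a ha => if_pos (Finset.mem_range.1 ha)
  have h2 : ∑ a ∈ range R, sm R (R + a) = ∑ a ∈ range R, (1 : ℝ) :=
    Finset.sum_congr rfl fun a _ => if_neg (by omega)
  rw [h1, h2]
  simp

theorem sum_sm_mul (R : ℕ) : ∑ a : Fin (2 * R), sm R a * ((a : ℕ) : ℝ) = (R : ℝ) ^ 2 := by
  rw [sum_range_two R (fun a => sm R a * (a : ℝ))]
  have h1 : ∑ a ∈ range R, sm R a * (a : ℝ) = ∑ a ∈ range R, -(a : ℝ) :=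
    Finset.sum_congr rfl fun a ha => by rw [sm, if_pos (Finset.mem_range.1 ha), neg_one_mul]
  have h2 : ∑ a ∈ range R, sm R (R + a) * ((R + a : ℕ) : ℝ) = ∑ a ∈ range R, ((R : ℝ) + a) :=
    Finset.sum_congr rfl fun a _ => by rw [sm, if_neg (by omega), one_mul]; push_cast; rfl
  rw [h1, h2, Finset.sum_neg_distrib, Finset.sum_add_distrib]
  simp
  ring

section Cube

variable {ι : Type*} [Fintype ι] [DecidableEq ι] {R : ℕ}

theorem sum_one_fin : ∑ _a : Fin (2 * R), (1 : ℝ) = 2 * R := by simp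

theorem prod_one_spec (i : ι) (A B : ℝ) :
    ∏ l, (A * if l = i then B else 1) = A ^ Fintype.card ι * B := by
  rw [Finset.prod_mul_distrib, Finset.prod_const, Finset.card_univ,
    Finset.prod_ite_eq' univ i (fun _ => B), if_pos (Finset.mem_univ i)]

theorem sum_ww (ε : ι → Bool) : ∑ y : ι → Fin (2 * R), ww R ε y = (2 * R) ^ Fintype.card ι := by
  unfold ww
  rw [sum_prod (fun l a => 1 + sg (ε l) * sm R a / R)]
  have : ∀ l : ι, ∑ a : Fin (2 * R), (1 + sg (ε l) * sm R a / R) = 2 * R := by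
    intro l
    rw [Finset.sum_add_distrib, sum_one_fin, ← Finset.sum_div, ← Finset.mul_sum, sum_sm]
    simp
  rw [Finset.prod_congr rfl fun l _ => this l, Finset.prod_const, Finset.card_univ]

theorem sum_ww_sq (ε : ι → Bool) : ∑ y : ι → Fin (2 * R), ww R ε y ^ 2 =
    (2 * R) ^ Fintype.card ι * (1 + (1 / R : ℝ) ^ 2) ^ Fintype.card ι := by
  unfold ww
  simp only [← Finset.prod_pow]
  rw [sum_prod (fun l a => (1 + sg (ε l) * sm R a / R) ^ 2), ← mul_pow]
  have : ∀ l : ι, ∑ a : Fin (2 * R), (1 + sg (ε l) * sm R a / R) ^ 2 =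
      2 * R * (1 + (1 / R : ℝ) ^ 2) := by
    intro l
    have h1 : ∀ a : Fin (2 * R), (1 + sg (ε l) * sm R a / R) ^ 2 =
        (1 + (1 / R : ℝ) ^ 2) * 1 + (2 * sg (ε l) / R) * sm R a := by
      intro a
      have h2 := sm_sq R a
      have h3 := sg_mul_self (ε l)
      have h4 : (1 + sg (ε l) * sm R a / R) ^ 2 = 1 + 2 * sg (ε l) * sm R a / R +
          (sg (ε l) * sg (ε l)) * (sm R a * sm R a) / R ^ 2 := by ring
      rw [h4, h2, h3]
      ring
    rw [Finset.sum_congr rfl fun a _ => h1 a, Finset.sum_add_distrib, ← Finset.mul_sum,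
      ← Finset.mul_sum, sum_sm, sum_one_fin]
    ring
  rw [Finset.prod_congr rfl fun l _ => this l, Finset.prod_const, Finset.card_univ]

theorem prod_single (i : ι) (y : ι → Fin (2 * R)) :
    ∏ l, (if l = i then sm R (y l) else 1) = sm R (y i) := by
  rw [Finset.prod_ite_eq' univ i (fun l => sm R (y l)), if_pos (Finset.mem_univ i)]

theorem sum_ww_sm (ε : ι → Bool) (i : ι) : ∑ y : ι → Fin (2 * R), ww R ε y * sm R (y i) =
    (2 * R) ^ Fintype.card ι * (sg (ε i) / R) := by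
  have h0 : ∀ y : ι → Fin (2 * R), ww R ε y * sm R (y i) =
      ∏ l, ((1 + sg (ε l) * sm R (y l) / R) * if l = i then sm R (y l) else 1) := by
    intro y
    rw [Finset.prod_mul_distrib, prod_single, ww]
  rw [Finset.sum_congr rfl fun y _ => h0 y,
    sum_prod (fun l a => (1 + sg (ε l) * sm R a / R) * if l = i then sm R a else 1)]
  have : ∀ l : ι, ∑ a : Fin (2 * R), ((1 + sg (ε l) * sm R a / R) * if l = i then sm R a else 1) =
      2 * R * if l = i then sg (ε i) / R else 1 := by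
    intro l
    split_ifs with h
    · subst h
      have h1 : ∀ a : Fin (2 * R), (1 + sg (ε l) * sm R a / R) * sm R a =
          sm R a + (sg (ε l) / R) * 1 := by
        intro a
        have h2 := sm_sq R a
        have h4 : (1 + sg (ε l) * sm R a / R) * sm R a = sm R a +
          sg (ε l) * (sm R a * sm R a) / R := by ring
        rw [h4, h2]
        ring
      rw [Finset.sum_congr rfl fun a _ => h1 a, Finset.sum_add_distrib, ← Finset.mul_sum, sum_sm,
        sum_one_fin]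
      ring
    · simp only [mul_one]
      rw [Finset.sum_add_distrib, sum_one_fin, ← Finset.sum_div, ← Finset.mul_sum, sum_sm]
      simp
  rw [Finset.prod_congr rfl fun l _ => this l, prod_one_spec]

theorem sum_single (i : ι) (g : Fin (2 * R) → ℝ) : ∑ y : ι → Fin (2 * R), g (y i) =
    (2 * R) ^ (Fintype.card ι - 1) * ∑ a, g a := by
  have h0 : ∀ y : ι → Fin (2 * R), g (y i) = ∏ l, (if l = i then g (y l) else 1) := by
    intro y
    rw [Finset.prod_ite_eq' univ i (fun l => g (y l)), if_pos (Finset.mem_univ i)]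
  rw [Finset.sum_congr rfl fun y _ => h0 y, sum_prod (fun l a => if l = i then g a else 1),
    ← Finset.mul_prod_erase univ _ (Finset.mem_univ i)]
  have h1 : ∏ l ∈ univ.erase i, ∑ a : Fin (2 * R), (if l = i then g a else 1) =
      ∏ l ∈ univ.erase i, (2 * R : ℝ) := by
    refine Finset.prod_congr rfl fun l hl => ?_
    rw [← sum_one_fin (R := R)]
    exact Finset.sum_congr rfl fun a _ => if_neg (Finset.ne_of_mem_erase hl)
  rw [h1, Finset.prod_const, Finset.card_erase_of_mem (Finset.mem_univ i), Finset.card_univ]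
  simp only [if_true]
  ring

theorem sum_sm_sm (i j : ι) : ∑ y : ι → Fin (2 * R), sm R (y i) * sm R (y j) =
    if i = j then (2 * R : ℝ) ^ Fintype.card ι else 0 := by
  split_ifs with h
  · subst h
    simp only [sm_sq]
    rw [Finset.sum_const, Finset.card_univ, nsmul_eq_mul, mul_one, card_cube]
  · have h0 : ∀ y : ι → Fin (2 * R), sm R (y i) * sm R (y j) =
        ∏ l, ((if l = i then sm R (y l) else 1) * (if l = j then sm R (y l) else 1)) := by
      intro y
      rw [Finset.prod_mul_distrib, prod_single, prod_single]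
    rw [Finset.sum_congr rfl fun y _ => h0 y,
      sum_prod (fun l a => (if l = i then sm R a else 1) * (if l = j then sm R a else 1))]
    refine Finset.prod_eq_zero (Finset.mem_univ i) ?_
    simp only [if_true, if_neg h, mul_one]
    exact sum_sm R

theorem sum_ls (ε : ι → Bool) : ∑ y : ι → Fin (2 * R), ls R ε y = 0 := by
  unfold ls
  rw [Finset.sum_comm]
  refine Finset.sum_eq_zero fun i _ => ?_
  rw [← Finset.mul_sum, sum_single i (fun a => sm R a), sum_sm]
  ring

theorem sum_ls_sq (ε : ι → Bool) : ∑ y : ι → Fin (2 * R), ls R ε y ^ 2 =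
    Fintype.card ι * (2 * R) ^ Fintype.card ι := by
  have h0 : ∀ y : ι → Fin (2 * R), ls R ε y ^ 2 =
      ∑ i, ∑ j, sg (ε i) * sg (ε j) * (sm R (y i) * sm R (y j)) := by
    intro y
    rw [ls, sq, Finset.sum_mul_sum]
    exact Finset.sum_congr rfl fun i _ => Finset.sum_congr rfl fun j _ => by ring
  rw [Finset.sum_congr rfl fun y _ => h0 y, Finset.sum_comm]
  have h1 : ∀ i, ∑ y : ι → Fin (2 * R), ∑ j, sg (ε i) * sg (ε j) * (sm R (y i) * sm R (y j)) =
      (2 * R) ^ Fintype.card ι := by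
    intro i
    rw [Finset.sum_comm]
    simp only [← Finset.mul_sum, sum_sm_sm]
    simp [sg_mul_self]
  rw [Finset.sum_congr rfl fun i _ => h1 i, Finset.sum_const, Finset.card_univ, nsmul_eq_mul]

theorem sum_ww_ls (ε : ι → Bool) : ∑ y : ι → Fin (2 * R), ww R ε y * ls R ε y =
    Fintype.card ι * (2 * R) ^ Fintype.card ι * (1 / R) := by
  have h0 : ∀ y : ι → Fin (2 * R), ww R ε y * ls R ε y =
      ∑ i, sg (ε i) * (ww R ε y * sm R (y i)) := by
    intro y
    rw [ls, Finset.mul_sum]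
    exact Finset.sum_congr rfl fun i _ => by ring
  rw [Finset.sum_congr rfl fun y _ => h0 y, Finset.sum_comm]
  have h1 : ∀ i, ∑ y : ι → Fin (2 * R), sg (ε i) * (ww R ε y * sm R (y i)) =
      (2 * R) ^ Fintype.card ι * (1 / R) := by
    intro i
    rw [← Finset.mul_sum, sum_ww_sm]
    have := sg_mul_self (ε i)
    linear_combination ((2 * R) ^ Fintype.card ι * (1 / R) : ℝ) * this
  rw [Finset.sum_congr rfl fun i _ => h1 i, Finset.sum_const, Finset.card_univ, nsmul_eq_mul]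
  ring

theorem sum_sq (ε : ι → Bool) : ∑ y : ι → Fin (2 * R), (ww R ε y - 1 - 1 / R * ls R ε y) ^ 2 =
    (2 * R) ^ Fintype.card ι *
      ((1 + (1 / R : ℝ) ^ 2) ^ Fintype.card ι - 1 - Fintype.card ι * (1 / R : ℝ) ^ 2) := by
  have h0 : ∀ y : ι → Fin (2 * R), (ww R ε y - 1 - 1 / R * ls R ε y) ^ 2 =
      ww R ε y ^ 2 + 1 + (1 / R) ^ 2 * ls R ε y ^ 2 - 2 * ww R ε y -
        2 * (1 / R) * (ww R ε y * ls R ε y) + 2 * (1 / R) * ls R ε y := by
    intro y
    ring
  rw [Finset.sum_congr rfl fun y _ => h0 y, Finset.sum_add_distrib, Finset.sum_sub_distrib,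
    Finset.sum_sub_distrib, Finset.sum_add_distrib, Finset.sum_add_distrib]
  simp only [← Finset.mul_sum]
  rw [sum_ww_sq, sum_ww, sum_ls, sum_ls_sq, sum_ww_ls, Finset.sum_const, Finset.card_univ,
    nsmul_eq_mul, mul_one, card_cube]
  ring

theorem sum_abs_le (hk : (Fintype.card ι : ℝ) ≤ (R : ℝ) ^ 2) (hR : 1 ≤ R) (ε : ι → Bool) :
    ∑ y : ι → Fin (2 * R), |ww R ε y - 1 - 1 / R * ls R ε y| ≤
      (2 * R) ^ Fintype.card ι * (Fintype.card ι / (R : ℝ) ^ 2) := by
  have hR' : (0 : ℝ) < R := by exact_mod_cast hR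
  set x : ℝ := Fintype.card ι * (1 / R : ℝ) ^ 2 with hx
  have hx0 : 0 ≤ x := by positivity
  have hx1 : x ≤ 1 := by
    rw [hx, one_div, inv_pow, ← div_eq_mul_inv, div_le_one (by positivity)]
    exact hk
  have h1 : (1 + (1 / R : ℝ) ^ 2) ^ Fintype.card ι ≤ Real.exp x := by
    calc (1 + (1 / R : ℝ) ^ 2) ^ Fintype.card ι ≤ (Real.exp ((1 / R : ℝ) ^ 2)) ^ Fintype.card ι := by
          gcongr
          linarith [Real.add_one_le_exp ((1 / R : ℝ) ^ 2)]
      _ = Real.exp x := by rw [← Real.exp_nat_mul]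
  have h2 := Real.abs_exp_sub_one_sub_id_le (x := x) (by rw [abs_of_nonneg hx0]; exact hx1)
  have h3 : (1 + (1 / R : ℝ) ^ 2) ^ Fintype.card ι - 1 - x ≤ x ^ 2 := by
    linarith [(abs_le.1 h2).2]
  have h4 := sum_sq (R := R) ε
  set D : ℝ := (2 * R) ^ Fintype.card ι with hD
  have hD0 : 0 < D := by positivity
  have h5 : (∑ y : ι → Fin (2 * R), |ww R ε y - 1 - 1 / R * ls R ε y|) ^ 2 ≤ (D * x) ^ 2 := by
    calc _ ≤ ((univ : Finset (ι → Fin (2 * R))).card : ℝ) *
          ∑ y : ι → Fin (2 * R), |ww R ε y - 1 - 1 / R * ls R ε y| ^ 2 := sq_sum_le_card_mul_sum_sq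
      _ = D * (D * ((1 + (1 / R : ℝ) ^ 2) ^ Fintype.card ι - 1 - x)) := by
          rw [Finset.card_univ, card_cube, ← hD]
          simp only [sq_abs]
          rw [h4]
      _ ≤ D * (D * x ^ 2) := by gcongr
      _ = (D * x) ^ 2 := by ring
  have h6 := (abs_le_of_sq_le_sq h5 (by positivity))
  have h7 : D * x = D * (Fintype.card ι / (R : ℝ) ^ 2) := by
    rw [hx]
    ring
  rw [← h7]
  exact (le_abs_self _).trans h6

/-- sign sums of the measures `σ_l` are cheap -/
theorem upper (hR : 1 ≤ R) {Q : ℝ} (hQ : 1 ≤ Q) (hk : Fintype.card ι * Q ≤ (R : ℝ) ^ 2)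
    (ε : ι → Bool) (f : (ι → Fin (2 * R)) → ℝ)
    (hf : ∀ y z, (∀ l, |((y l : ℕ) : ℝ) - ((z l : ℕ) : ℝ)| ≤ 1) → |f y - f z| ≤ 1)
    (hf2 : ∀ y z, |f y - f z| ≤ 2 * Q) :
    |∑ y, f y * ls R ε y| ≤ 3 * R * (2 * R) ^ Fintype.card ι := by
  have hR' : (0 : ℝ) < R := by exact_mod_cast hR
  set D : ℝ := (2 * R) ^ Fintype.card ι with hD
  have hD0 : 0 < D := by positivity
  have hk1 : (Fintype.card ι : ℝ) ≤ (R : ℝ) ^ 2 := by
    have : (0 : ℝ) ≤ Fintype.card ι := Nat.cast_nonneg _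
    nlinarith
  have h1 := transport hR ε f hf
  have h2 := sum_abs_le hk1 hR ε
  let y0 : ι → Fin (2 * R) := fun _ => ⟨0, by omega⟩
  have h3 : 1 / R * ∑ y, f y * ls R ε y = (∑ y, f y * ww R ε y - ∑ y, f y) -
      ∑ y, (f y - f y0) * (ww R ε y - 1 - 1 / R * ls R ε y) := by
    have h4 : ∑ y, (f y - f y0) * (ww R ε y - 1 - 1 / R * ls R ε y) =
        ∑ y, f y * ww R ε y - ∑ y, f y - 1 / R * ∑ y, f y * ls R ε y -
          f y0 * (∑ y, ww R ε y - ∑ y : ι → Fin (2 * R), (1 : ℝ) - 1 / R * ∑ y, ls R ε y) := by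
      simp only [Finset.mul_sum, ← Finset.sum_sub_distrib]
      exact Finset.sum_congr rfl fun y _ => by ring
    rw [h4, sum_ww, sum_ls, Finset.sum_const, Finset.card_univ, nsmul_eq_mul, mul_one, card_cube]
    ring
  have h5 : |∑ y, (f y - f y0) * (ww R ε y - 1 - 1 / R * ls R ε y)| ≤ 2 * D := by
    calc _ ≤ ∑ y, |(f y - f y0) * (ww R ε y - 1 - 1 / R * ls R ε y)| :=
          Finset.abs_sum_le_sum_abs _ _
      _ ≤ ∑ y, (2 * Q) * |ww R ε y - 1 - 1 / R * ls R ε y| := by
          refine Finset.sum_le_sum fun y _ => ?_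
          rw [abs_mul]
          gcongr
          exact hf2 y y0
      _ = (2 * Q) * ∑ y, |ww R ε y - 1 - 1 / R * ls R ε y| := by rw [Finset.mul_sum]
      _ ≤ (2 * Q) * (D * (Fintype.card ι / (R : ℝ) ^ 2)) := by gcongr
      _ = 2 * D * ((Fintype.card ι * Q) / (R : ℝ) ^ 2) := by ring
      _ ≤ 2 * D * 1 := by
          gcongr
          rw [div_le_one (by positivity)]
          exact hk
      _ = 2 * D := mul_one _
  have h6 : |1 / R * ∑ y, f y * ls R ε y| ≤ 3 * D := by
    rw [h3]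
    refine (abs_sub _ _).trans ?_
    linarith
  rw [abs_mul, abs_of_pos (by positivity), one_div, inv_mul_le_iff₀ hR'] at h6
  linarith

end Cube

end Pool.Agent.W693.LF
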