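import Pool.Agent.W693.LF2
import Pool.Agent.W693.LF4

set_option autoImplicit false

open Finset

namespace Pool.Agent.W693.LF

/-- the grid with `k` coordinates and `2 * R` values -/
abbrev PP (k R : ℕ) : Type := Fin k → Fin (2 * R)

/-- the uniform distance of the grid -/
noncomputable def ee {k R : ℕ} (y z : PP k R) : ℝ :=
  dist (fun l => ((y l : ℕ) : ℝ)) (fun l => ((z l : ℕ) : ℝ))

theorem ee_self {k R : ℕ} (y : PP k R) : ee y y = 0 := dist_self _

theorem ee_comm {k R : ℕ} (y z : PP k R) : ee y z = ee z y := dist_comm _ _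

theorem ee_tri {k R : ℕ} (x y z : PP k R) : ee x z ≤ ee x y + ee y z := dist_triangle _ _ _

theorem ee_nonneg {k R : ℕ} (y z : PP k R) : 0 ≤ ee y z := dist_nonneg

theorem ee_coord {k R : ℕ} (y z : PP k R) (l : Fin k) :
    |((y l : ℕ) : ℝ) - ((z l : ℕ) : ℝ)| ≤ ee y z := by
  rw [← Real.dist_eq]
  exact dist_le_pi_dist (fun l => ((y l : ℕ) : ℝ)) (fun l => ((z l : ℕ) : ℝ)) l

theorem ee_le {k R : ℕ} (y z : PP k R) {c : ℝ} (hc : 0 ≤ c)
    (h : ∀ l, |((y l : ℕ) : ℝ) - ((z l : ℕ) : ℝ)| ≤ c) : ee y z ≤ c :=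
  (dist_pi_le_iff hc).2 fun l => by
    rw [Real.dist_eq]
    exact h l

theorem one_le_ee {k R : ℕ} {y z : PP k R} (h : y ≠ z) : 1 ≤ ee y z := by
  obtain ⟨l, hl⟩ := Function.ne_iff.1 h
  refine le_trans ?_ (ee_coord y z l)
  have h1 : ((y l : ℕ) : ℤ) - ((z l : ℕ) : ℤ) ≠ 0 := by
    intro h2
    exact hl (Fin.ext (by omega))
  have h2 := Int.one_le_abs h1
  exact_mod_cast h2

theorem ee_le_two {k R : ℕ} (y z : PP k R) : ee y z ≤ 2 * R := by
  refine ee_le y z (by positivity) fun l => ?_
  have h1 : (((y l : ℕ) : ℝ)) ≤ 2 * R := by exact_mod_cast (y l).2.le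
  have h2 : (((z l : ℕ) : ℝ)) ≤ 2 * R := by exact_mod_cast (z l).2.le
  have h3 : (0 : ℝ) ≤ ((y l : ℕ) : ℝ) := Nat.cast_nonneg _
  have h4 : (0 : ℝ) ≤ ((z l : ℕ) : ℝ) := Nat.cast_nonneg _
  rw [abs_le]
  constructor <;> linarith

/-- the snowflaked grid with a base point -/
noncomputable def dO {k R : ℕ} (t : ℝ) : Option (PP k R) → Option (PP k R) → ℝ
  | none, none => 0
  | none, some _ => (2 * R : ℝ) ^ t
  | some _, none => (2 * R : ℝ) ^ t
  | some y, some z => ee y z ^ t

theorem isMet_dO {k R : ℕ} (hR : 1 ≤ R) {t : ℝ} (h0 : 0 < t) (h1 : t ≤ 1) :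
    IsMet (dO (k := k) (R := R) t) := by
  have hR' : (1 : ℝ) ≤ R := by exact_mod_cast hR
  have h2 : 1 ≤ (2 * R : ℝ) ^ t := Real.one_le_rpow (by linarith) h0.le
  refine ⟨?_, ?_, ?_, ?_⟩
  · rintro (_ | y)
    · rfl
    · simp only [dO, ee_self]
      exact Real.zero_rpow h0.ne'
  · rintro (_ | y) (_ | z)
    · rfl
    · rfl
    · rfl
    · simp only [dO, ee_comm y z]
  · have h3 : ∀ x z : PP k R, ee x z ^ t ≤ (2 * R : ℝ) ^ t := fun x z =>
      Real.rpow_le_rpow (ee_nonneg _ _) (ee_le_two x z) h0.le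
    have h4 : ∀ x z : PP k R, 0 ≤ ee x z ^ t := fun x z => Real.rpow_nonneg (ee_nonneg _ _) _
    rintro (_ | x) (_ | y) (_ | z) <;> simp only [dO]
    · linarith
    · linarith
    · linarith
    · linarith [h4 y z]
    · linarith
    · linarith [h3 x z]
    · linarith [h4 x y]
    · calc ee x z ^ t ≤ (ee x y + ee y z) ^ t :=
            Real.rpow_le_rpow (ee_nonneg _ _) (ee_tri x y z) h0.le
        _ ≤ _ := Real.rpow_add_le_add_rpow (ee_nonneg _ _) (ee_nonneg _ _) h0.le h1
  · rintro (_ | y) (_ | z) h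
    · exact absurd rfl h
    · exact h2
    · exact h2
    · exact Real.one_le_rpow (one_le_ee fun h5 => h (by rw [h5])) h0.le

theorem dO_rpow {k R : ℕ} {t β : ℝ} (hβ : 0 < β) (u v : Option (PP k R)) :
    dO (t / β) u v ^ β = dO t u v := by
  have h1 : ∀ x : ℝ, 0 ≤ x → (x ^ (t / β)) ^ β = x ^ t := fun x hx => by
    rw [← Real.rpow_mul hx, div_mul_cancel₀ _ hβ.ne']
  rcases u with _ | y <;> rcases v with _ | z <;> simp only [dO]
  · exact Real.zero_rpow hβ.ne'
  · exact h1 _ (by positivity)
  · exact h1 _ (by positivity)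
  · exact h1 _ (ee_nonneg _ _)

/-- the wedge of the snowflaked grids -/
def MM (k R : ℕ → ℕ) (_a : ℕ → ℝ) : Type := Option (Σ n, PP (k n) (R n))

section Wedge

variable {k R : ℕ → ℕ} {a : ℕ → ℝ}

/-- the distance to the base point -/
noncomputable def hh (R : ℕ → ℕ) (a : ℕ → ℝ) (m : ℕ) : ℝ := (2 * R m : ℝ) ^ a m

/-- the inclusion of a piece -/
def em (a : ℕ → ℝ) (m : ℕ) (u : Option (PP (k m) (R m))) : MM k R a := u.map fun y => ⟨m, y⟩

/-- a point of a piece -/
def pt (a : ℕ → ℝ) (m : ℕ) (y : PP (k m) (R m)) : MM k R a := some ⟨m, y⟩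

/-- the base point -/
def bp (k R : ℕ → ℕ) (a : ℕ → ℝ) : MM k R a := none

open Classical in
/-- the distance of the wedge -/
noncomputable def dM (x y : MM k R a) : ℝ :=
  match x, y with
  | none, none => 0
  | none, some q => hh R a q.1
  | some p, none => hh R a p.1
  | some p, some q => if h : p.1 = q.1 then ee p.2 (h ▸ q.2) ^ a p.1
      else hh R a p.1 + hh R a q.1

theorem dM_same (m : ℕ) (y z : PP (k m) (R m)) : dM (pt a m y) (pt a m z) = ee y z ^ a m := by
  simp [dM, pt]

theorem dM_ne {m n : ℕ} (h : m ≠ n) (y : PP (k m) (R m)) (z : PP (k n) (R n)) :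
    dM (pt a m y) (pt a n z) = hh R a m + hh R a n := by
  simp [dM, pt, h]

theorem dM_bp_pt (m : ℕ) (y : PP (k m) (R m)) : dM (bp k R a) (pt a m y) = hh R a m := rfl

theorem dM_pt_bp (m : ℕ) (y : PP (k m) (R m)) : dM (pt a m y) (bp k R a) = hh R a m := rfl

theorem dM_bp_bp : dM (bp k R a) (bp k R a) = 0 := rfl

theorem MM.cases {p : MM k R a → Prop} (h0 : p (bp k R a)) (h1 : ∀ m y, p (pt a m y)) (x) : p x := by
  rcases x with _ | ⟨m, y⟩
  · exact h0
  · exact h1 m y

theorem dM_em (m : ℕ) (u v : Option (PP (k m) (R m))) :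
    dM (em a m u) (em a m v) = dO (a m) u v := by
  rcases u with _ | y <;> rcases v with _ | z
  · rfl
  · rfl
  · rfl
  · exact dM_same m y z

end Wedge

/-- the assumptions on the parameters -/
structure Par (R : ℕ → ℕ) (a : ℕ → ℝ) : Prop where
  hR : ∀ n, 1 ≤ R n
  ha0 : ∀ n, 0 < a n
  ha1 : ∀ n, a n ≤ 1

section Wedge

variable {k R : ℕ → ℕ} {a : ℕ → ℝ}

theorem Par.one_le_hh (h : Par R a) (m : ℕ) : 1 ≤ hh R a m := by
  have hR' : (1 : ℝ) ≤ R m := by exact_mod_cast h.hR m
  exact Real.one_le_rpow (by linarith) (h.ha0 m).le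

theorem Par.ee_le_hh (h : Par R a) (m : ℕ) (y z : PP (k m) (R m)) : ee y z ^ a m ≤ hh R a m :=
  Real.rpow_le_rpow (ee_nonneg _ _) (ee_le_two y z) (h.ha0 m).le

theorem Par.dM_self (h : Par R a) (x : MM k R a) : dM x x = 0 := by
  induction x using MM.cases with
  | h0 => rfl
  | h1 m y => rw [dM_same, ee_self, Real.zero_rpow (h.ha0 m).ne']

theorem dM_comm (x y : MM k R a) : dM x y = dM y x := by
  induction x using MM.cases with
  | h0 =>
    induction y using MM.cases with
    | h0 => rfl
    | h1 n z => rfl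
  | h1 m y' =>
    induction y using MM.cases with
    | h0 => rfl
    | h1 n z =>
      by_cases hmn : m = n
      · subst hmn
        rw [dM_same, dM_same, ee_comm]
      · rw [dM_ne hmn, dM_ne (Ne.symm hmn), add_comm]

theorem Par.one_le_dM (h : Par R a) {x y : MM k R a} (hxy : x ≠ y) : 1 ≤ dM x y := by
  induction x using MM.cases with
  | h0 =>
    induction y using MM.cases with
    | h0 => exact absurd rfl hxy
    | h1 n z => exact h.one_le_hh n
  | h1 m y' =>
    induction y using MM.cases with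
    | h0 => exact h.one_le_hh m
    | h1 n z =>
      by_cases hmn : m = n
      · subst hmn
        rw [dM_same]
        exact Real.one_le_rpow (one_le_ee fun h5 => hxy (by rw [h5])) (h.ha0 m).le
      · rw [dM_ne hmn]
        linarith [h.one_le_hh n, h.one_le_hh m]

theorem Par.dM_tri (h : Par R a) (x y z : MM k R a) : dM x z ≤ dM x y + dM y z := by
  have h1 := h.one_le_hh
  have h0 : ∀ m (u v : PP (k m) (R m)), 0 ≤ ee u v ^ a m := fun m u v =>
    Real.rpow_nonneg (ee_nonneg _ _) _
  induction x using MM.cases with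
  | h0 =>
    induction y using MM.cases with
    | h0 => rw [dM_bp_bp, zero_add]
    | h1 n y' =>
      induction z using MM.cases with
      | h0 =>
        rw [dM_bp_bp, dM_bp_pt, dM_pt_bp]
        linarith [h1 n]
      | h1 l z' =>
        by_cases hnl : n = l
        · subst hnl
          rw [dM_same, dM_bp_pt, dM_bp_pt]
          linarith [h0 n y' z']
        · rw [dM_ne hnl, dM_bp_pt, dM_bp_pt]
          linarith [h1 n]
  | h1 m x' =>
    induction y using MM.cases with
    | h0 =>
      induction z using MM.cases with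
      | h0 => rw [dM_bp_bp, add_zero]
      | h1 l z' =>
        by_cases hml : m = l
        · subst hml
          rw [dM_same, dM_bp_pt, dM_pt_bp]
          linarith [h.ee_le_hh m x' z', h1 m]
        · rw [dM_ne hml, dM_bp_pt, dM_pt_bp]
    | h1 n y' =>
      induction z using MM.cases with
      | h0 =>
        by_cases hmn : m = n
        · subst hmn
          rw [dM_same, dM_pt_bp, dM_pt_bp]
          linarith [h0 m x' y']
        · rw [dM_ne hmn, dM_pt_bp, dM_pt_bp]
          linarith [h1 n]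
      | h1 l z' =>
        by_cases hml : m = l
        · subst hml
          by_cases hmn : m = n
          · subst hmn
            rw [dM_same, dM_same, dM_same]
            calc ee x' z' ^ a m ≤ (ee x' y' + ee y' z') ^ a m :=
                  Real.rpow_le_rpow (ee_nonneg _ _) (ee_tri _ _ _) (h.ha0 m).le
              _ ≤ _ := Real.rpow_add_le_add_rpow (ee_nonneg _ _) (ee_nonneg _ _) (h.ha0 m).le
                  (h.ha1 m)
          · rw [dM_same, dM_ne hmn, dM_ne (Ne.symm hmn)]
            linarith [h.ee_le_hh m x' z', h1 m, h1 n]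
        · rw [dM_ne hml]
          by_cases hmn : m = n
          · subst hmn
            rw [dM_same, dM_ne hml]
            linarith [h0 m x' y']
          · rw [dM_ne hmn]
            by_cases hnl : n = l
            · subst hnl
              rw [dM_same]
              linarith [h0 n y' z']
            · rw [dM_ne hnl]
              linarith [h1 n]

/-- the metric space -/
@[instance_reducible]
noncomputable def metMM (h : Par R a) : MetricSpace (MM k R a) where
  dist := dM
  dist_self := h.dM_self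
  dist_comm := dM_comm
  dist_triangle := h.dM_tri
  eq_of_dist_eq_zero := by
    intro x y hxy
    by_contra hne
    have := h.one_le_dM hne
    change dM x y = 0 at hxy
    linarith

theorem infinite_MM (h : Par R a) : Infinite (MM k R a) := by
  have h1 : ∀ n, 0 < 2 * R n := fun n => by
    have := h.hR n
    omega
  refine Infinite.of_injective (fun n : ℕ => pt a n (fun _ => ⟨0, h1 n⟩)) fun m n hmn => ?_
  have h2 : (⟨m, fun _ => ⟨0, h1 m⟩⟩ : Σ n, PP (k n) (R n)) = ⟨n, fun _ => ⟨0, h1 n⟩⟩ :=
    Option.some_injective _ hmn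
  exact congrArg Sigma.fst h2

/-- Lipschitz functions on the wedge from functions on the pieces -/
theorem glue {L : ℝ} (F : MM k R a → ℝ) (h0 : F (bp k R a) = 0)
    (h1 : ∀ m y z, |F (pt a m y) - F (pt a m z)| ≤ L * ee y z ^ a m)
    (h2 : ∀ m y, |F (pt a m y)| ≤ L * hh R a m) (x y : MM k R a) :
    |F x - F y| ≤ L * dM x y := by
  induction x using MM.cases with
  | h0 =>
    induction y using MM.cases with
    | h0 => rw [dM_bp_bp, sub_self, abs_zero, mul_zero]
    | h1 n z =>
      rw [h0, zero_sub, abs_neg]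
      exact h2 n z
  | h1 m y' =>
    induction y using MM.cases with
    | h0 =>
      rw [h0, sub_zero]
      exact h2 m y'
    | h1 n z =>
      by_cases hmn : m = n
      · subst hmn
        rw [dM_same]
        exact h1 m y' z
      · rw [dM_ne hmn, mul_add]
        exact (abs_sub _ _).trans (add_le_add (h2 m y') (h2 n z))

end Wedge

end Pool.Agent.W693.LF
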