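import Mathlib

set_option autoImplicit false

namespace Pool.Agent.W693.LF

/-- existence of the Lipschitz-free space -/
theorem exists_free (M : Type) [MetricSpace M] (x0 : M) :
    ∃ (X : Type) (_ : NormedAddCommGroup X) (_ : NormedSpace ℝ X) (_ : CompleteSpace X)
      (δ : M → X), δ x0 = 0 ∧ LipschitzWith 1 δ ∧
      Dense ((Submodule.span ℝ (Set.range δ) : Submodule ℝ X) : Set X) ∧
      (∀ (f : M → ℝ) (L : NNReal), LipschitzWith L f → f x0 = 0 →
        ∃ φ : X →L[ℝ] ℝ, ‖φ‖ ≤ (L : ℝ) ∧ ∀ x : M, φ (δ x) = f x) := by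
  let S : Type := {f : M → ℝ // LipschitzWith 1 f ∧ f x0 = 0}
  let E : Type := lp (fun _ : S => ℝ) ⊤
  have hb : ∀ (x : M) (f : S), ‖f.1 x‖ ≤ dist x x0 := by
    intro x f
    have h1 := f.2.1.dist_le_mul x x0
    rw [f.2.2, Real.dist_eq, sub_zero, NNReal.coe_one, one_mul] at h1
    exact h1
  let δ0 : M → lp (fun _ : S => ℝ) ⊤ := fun x =>
    ⟨fun f => f.1 x, memℓp_infty ⟨dist x x0, by rintro _ ⟨f, rfl⟩; exact hb x f⟩⟩
  have hδ0 : ∀ x (f : S), (δ0 x : S → ℝ) f = f.1 x := fun _ _ => rfl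
  let V : Submodule ℝ (lp (fun _ : S => ℝ) ⊤) := Submodule.span ℝ (Set.range δ0)
  let δ : M → V.topologicalClosure := fun x =>
    ⟨δ0 x, V.le_topologicalClosure (Submodule.subset_span ⟨x, rfl⟩)⟩
  refine ⟨V.topologicalClosure, inferInstance, inferInstance, inferInstance, δ, ?_, ?_, ?_, ?_⟩
  · refine Subtype.ext (lp.ext (funext fun f => ?_))
    exact f.2.2
  · refine LipschitzWith.of_dist_le_mul fun x y => ?_
    rw [NNReal.coe_one, one_mul, Subtype.dist_eq, dist_eq_norm]
    refine lp.norm_le_of_forall_le dist_nonneg fun f => ?_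
    have h1 := f.2.1.dist_le_mul x y
    rw [NNReal.coe_one, one_mul] at h1
    exact h1
  · rw [Subtype.dense_iff]
    intro w hw
    have h1 : (V : Set (lp (fun _ : S => ℝ) ⊤)) ⊆
        Subtype.val '' ((Submodule.span ℝ (Set.range δ) : Submodule ℝ V.topologicalClosure) :
          Set V.topologicalClosure) := by
      have h2 : V ≤ (Submodule.span ℝ (Set.range δ)).map V.topologicalClosure.subtype := by
        refine Submodule.span_le.2 ?_
        rintro _ ⟨x, rfl⟩
        exact ⟨δ x, Submodule.subset_span ⟨x, rfl⟩, rfl⟩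
      intro v hv
      obtain ⟨u, hu, rfl⟩ := h2 hv
      exact ⟨u, hu, rfl⟩
    exact closure_mono h1 hw
  · intro f L hf h0
    rcases eq_or_ne L 0 with hL | hL
    · refine ⟨0, ContinuousLinearMap.opNorm_le_bound _ L.2 fun w => ?_, fun x => ?_⟩
      · change ‖(0 : ℝ)‖ ≤ _
        rw [norm_zero]
        exact mul_nonneg L.2 (norm_nonneg _)
      have h1 := hf.dist_le_mul x x0
      rw [h0, hL, NNReal.coe_zero, zero_mul, Real.dist_eq, sub_zero] at h1
      exact (abs_nonpos_iff.1 h1).symm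
    · have hL0 : (0 : ℝ) < L := lt_of_le_of_ne L.2 (by exact_mod_cast hL.symm)
      let g : S := ⟨fun x => (L : ℝ)⁻¹ * f x, by
        refine LipschitzWith.of_dist_le_mul fun x y => ?_
        have h1 := hf.dist_le_mul x y
        rw [Real.dist_eq] at h1 ⊢
        rw [← mul_sub, abs_mul, abs_of_pos (inv_pos.2 hL0), inv_mul_le_iff₀ hL0,
          NNReal.coe_one, one_mul]
        exact h1, by
        change (L : ℝ)⁻¹ * f x0 = 0
        rw [h0, mul_zero]⟩
      let ev : lp (fun _ : S => ℝ) ⊤ →L[ℝ] ℝ :=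
        LinearMap.mkContinuous
          { toFun := fun w => (w : S → ℝ) g
            map_add' := fun _ _ => rfl
            map_smul' := fun _ _ => rfl } 1 fun w => by
          rw [one_mul]
          exact lp.norm_apply_le_norm ENNReal.top_ne_zero w g
      have hev : ‖ev‖ ≤ 1 := LinearMap.mkContinuous_norm_le _ zero_le_one _
      refine ⟨(L : ℝ) • (ev.comp V.topologicalClosure.subtypeL), ?_, fun x => ?_⟩
      · refine ContinuousLinearMap.opNorm_le_bound _ L.2 fun w => ?_
        have h1 := ev.le_of_opNorm_le hev (w : lp (fun _ : S => ℝ) ⊤)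
        rw [one_mul] at h1
        change ‖(L : ℝ) * ev w‖ ≤ _
        rw [norm_mul, Real.norm_of_nonneg hL0.le]
        exact mul_le_mul_of_nonneg_left h1 hL0.le
      · change (L : ℝ) * ((L : ℝ)⁻¹ * f x) = f x
        rw [mul_inv_cancel_left₀ hL0.ne']

/-- two terms of a bounded sequence in a finite-dimensional space are close -/
theorem pigeon {κ : Type*} [Fintype κ] (g : ℕ → κ → ℝ) (B : ℝ) (hB : ∀ j p, |g j p| ≤ B) {η : ℝ}
    (hη : 0 < η) : ∃ i j, i ≠ j ∧ ∀ p, |g i p - g j p| ≤ η := by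
  have h1 : ∀ j, g j ∈ Metric.closedBall (0 : κ → ℝ) (max B 0) := by
    intro j
    rw [mem_closedBall_zero_iff, pi_norm_le_iff_of_nonneg (le_max_right _ _)]
    exact fun p => (hB j p).trans (le_max_left _ _)
  obtain ⟨a, -, φ, hφ, ha⟩ := (isCompact_closedBall (0 : κ → ℝ) (max B 0)).tendsto_subseq h1
  obtain ⟨N, hN⟩ := Metric.cauchySeq_iff'.1 ha.cauchySeq η hη
  refine ⟨φ (N + 1), φ N, (hφ (Nat.lt_succ_self N)).ne', fun p => ?_⟩
  have h2 := hN (N + 1) (Nat.le_succ N)
  have h3 := dist_le_pi_dist (g (φ (N + 1))) (g (φ N)) p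
  rw [Real.dist_eq] at h3
  exact h3.trans h2.le

end Pool.Agent.W693.LF
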