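import Pool.Agent.W693.LF3
import Pool.Agent.W693.LF5
import Pool.Agent.W693.LF6
import Pool.Agent.W693.LF7

set_option autoImplicit false

open Finset

namespace Pool.Agent.W693.LF

section Main

variable {k R : ℕ → ℕ} {a : ℕ → ℝ} {X : Type} [NormedAddCommGroup X] [NormedSpace ℝ X]

/-- `X` with `δ` is the Lipschitz-free space of the wedge -/
structure IsFree (δ : MM k R a → X) : Prop where
  base : δ (bp k R a) = 0
  lip : ∀ x y, ‖δ x - δ y‖ ≤ dM x y
  dense : Dense ((Submodule.span ℝ (Set.range δ) : Submodule ℝ X) : Set X)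
  ext : ∀ (F : MM k R a → ℝ) (L : ℝ), 0 ≤ L → (∀ x y, |F x - F y| ≤ L * dM x y) →
    F (bp k R a) = 0 → ∃ φ : X →L[ℝ] ℝ, ‖φ‖ ≤ L ∧ ∀ x, φ (δ x) = F x

variable {δ : MM k R a → X}

theorem IsFree.norm_le (h : IsFree δ) (ψ : X →L[ℝ] ℝ) {L : ℝ} (hL : 0 ≤ L)
    (hψ : ∀ x y, |ψ (δ x) - ψ (δ y)| ≤ L * dM x y) : ‖ψ‖ ≤ L := by
  obtain ⟨φ, h1, h2⟩ := h.ext (fun x => ψ (δ x)) L hL hψ (by rw [h.base, map_zero])
  have h3 : ψ = φ := by
    refine ContinuousLinearMap.ext_on h.dense ?_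
    rintro _ ⟨x, rfl⟩
    exact (h2 x).symm
  rw [h3]
  exact h1

theorem IsFree.dual_lip (h : IsFree δ) {φ : X →L[ℝ] ℝ} (hφ : ‖φ‖ ≤ 1) (x y : MM k R a) :
    |φ (δ x) - φ (δ y)| ≤ dM x y := by
  rw [← map_sub, ← Real.norm_eq_abs]
  have h1 := φ.le_of_opNorm_le hφ (δ x - δ y)
  rw [one_mul] at h1
  exact h1.trans (h.lip x y)

/-- the special vectors -/
noncomputable def xv (δ : MM k R a → X) (n : ℕ) (l : Fin (k n)) : X :=
  ((2 * R n : ℝ) ^ k n)⁻¹ • ∑ y : PP (k n) (R n), sm (R n) (y l) • δ (pt a n y)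

theorem xv_upper (h : IsFree δ) (hp : Par R a) (n : ℕ)
    (hk : (k n : ℝ) * (R n : ℝ) ^ a n ≤ (R n : ℝ) ^ 2) (ε : Fin (k n) → Bool) :
    ‖∑ l, sg (ε l) • xv δ n l‖ ≤ 3 * R n := by
  obtain ⟨φ, hφ, hφv⟩ := exists_dual_vector'' ℝ (∑ l, sg (ε l) • xv δ n l)
  have hR := hp.hR n
  have hR' : (1 : ℝ) ≤ R n := by exact_mod_cast hR
  have hQ : 1 ≤ (R n : ℝ) ^ a n := Real.one_le_rpow hR' (hp.ha0 n).le
  have h1 : φ (∑ l, sg (ε l) • xv δ n l) = ((2 * R n : ℝ) ^ k n)⁻¹ *
      ∑ y : PP (k n) (R n), φ (δ (pt a n y)) * ls (R n) ε y := by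
    simp only [xv, map_sum, map_smul, smul_eq_mul, ls, Finset.mul_sum]
    rw [Finset.sum_comm]
    exact Finset.sum_congr rfl fun y _ => Finset.sum_congr rfl fun l _ => by ring
  have h2 := upper (ι := Fin (k n)) hR hQ (by rw [Fintype.card_fin]; exact hk) ε
    (fun y => φ (δ (pt a n y))) (by
      intro y z hyz
      refine (h.dual_lip hφ _ _).trans ?_
      rw [dM_same]
      exact Real.rpow_le_one (ee_nonneg _ _) (ee_le y z zero_le_one hyz) (hp.ha0 n).le) (by
      intro y z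
      refine (h.dual_lip hφ _ _).trans ?_
      rw [dM_same]
      refine (hp.ee_le_hh n y z).trans ?_
      rw [hh, Real.mul_rpow (by norm_num) (by linarith)]
      have h3 : (2 : ℝ) ^ a n ≤ 2 := by
        have := Real.rpow_le_rpow_of_exponent_le (x := (2 : ℝ)) one_le_two (hp.ha1 n)
        rwa [Real.rpow_one] at this
      gcongr)
  rw [Fintype.card_fin] at h2
  have h3 : ‖∑ l, sg (ε l) • xv δ n l‖ = φ (∑ l, sg (ε l) • xv δ n l) := by
    rw [hφv]
    simp
  rw [h3, h1]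
  have h4 : (0 : ℝ) < (2 * R n : ℝ) ^ k n := by positivity
  rw [inv_mul_le_iff₀ h4]
  have h5 := (abs_le.1 h2).2
  linarith

/-- a coordinate of a point of a piece -/
noncomputable def co {k R : ℕ} (y : PP k R) (i : ℕ) : ℝ := if h : i < k then ((y ⟨i, h⟩ : ℕ) : ℝ) else 0

theorem xv_lower (h : IsFree δ) (hp : Par R a) (n : ℕ) (l : Fin (k n)) :
    (R n : ℝ) ^ a n / 4 ≤ ‖xv δ n l‖ := by
  have hR := hp.hR n
  have hR' : (1 : ℝ) ≤ R n := by exact_mod_cast hR
  have hR0 : (0 : ℝ) < R n := by linarith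
  set Q : ℝ := (R n : ℝ) ^ a n with hQdef
  have hQ : 1 ≤ Q := Real.one_le_rpow hR' (hp.ha0 n).le
  let F : MM k R a → ℝ := fun x => match x with
    | none => 0
    | some p => if p.1 = n then 1 / 2 * (Q / R n) * co p.2 l else 0
  have hF0 : F (bp k R a) = 0 := rfl
  have hFpt : ∀ m y, F (pt a m y) = if m = n then 1 / 2 * (Q / R n) * co y l else 0 :=
    fun m y => rfl
  have hco : ∀ y : PP (k n) (R n), co y l = ((y l : ℕ) : ℝ) := by
    intro y
    rw [co, dif_pos l.2]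
  have hkey : ∀ u : ℝ, 0 ≤ u → u ≤ 2 * R n → 1 / 2 * (Q / R n) * u ≤ u ^ a n := by
    intro u hu hu2
    rcases hu.eq_or_lt with rfl | hu0
    · rw [mul_zero]
      exact Real.rpow_nonneg le_rfl _
    have h1 : u ^ (1 - a n) ≤ 2 * ((R n : ℝ) / Q) := by
      have h2 : u ^ (1 - a n) ≤ (2 * R n : ℝ) ^ (1 - a n) :=
        Real.rpow_le_rpow hu hu2 (by linarith [hp.ha1 n])
      have h3 : (2 * R n : ℝ) ^ (1 - a n) = 2 ^ (1 - a n) * (R n / Q) := by
        rw [Real.mul_rpow (by norm_num) hR0.le, Real.rpow_sub hR0, Real.rpow_one]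
      have h4 : (2 : ℝ) ^ (1 - a n) ≤ 2 := by
        have := Real.rpow_le_rpow_of_exponent_le (x := (2 : ℝ)) one_le_two
          (by linarith [hp.ha0 n] : 1 - a n ≤ 1)
        rwa [Real.rpow_one] at this
      rw [h3] at h2
      refine h2.trans ?_
      gcongr
    have h5 : u = u ^ (1 - a n) * u ^ a n := by
      rw [← Real.rpow_add hu0]
      simp
    have h6 : 0 ≤ u ^ a n := Real.rpow_nonneg hu _
    calc 1 / 2 * (Q / R n) * u = 1 / 2 * (Q / R n) * (u ^ (1 - a n) * u ^ a n) := by rw [← h5]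
      _ ≤ 1 / 2 * (Q / R n) * ((2 * ((R n : ℝ) / Q)) * u ^ a n) := by gcongr
      _ = u ^ a n := by
          have : Q ≠ 0 := by positivity
          field_simp
  have hFL : ∀ x y, |F x - F y| ≤ 1 * dM x y := by
    refine glue F hF0 (fun m y z => ?_) fun m y => ?_
    · rw [hFpt, hFpt, one_mul]
      split_ifs with hmn
      · subst hmn
        rw [hco, hco, ← mul_sub, abs_mul, abs_of_nonneg (by positivity)]
        refine (hkey _ (abs_nonneg _) ((ee_coord y z l).trans (ee_le_two y z))).trans ?_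
        exact Real.rpow_le_rpow (abs_nonneg _) (ee_coord y z l) (hp.ha0 _).le
      · rw [sub_self, abs_zero]
        exact Real.rpow_nonneg (ee_nonneg _ _) _
    · rw [hFpt, one_mul]
      split_ifs with hmn
      · subst hmn
        rw [hco, abs_of_nonneg (by positivity)]
        have h1 : ((y l : ℕ) : ℝ) ≤ 2 * R m := by exact_mod_cast (y l).2.le
        refine (hkey _ (Nat.cast_nonneg _) h1).trans ?_
        exact Real.rpow_le_rpow (Nat.cast_nonneg _) h1 (hp.ha0 _).le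
      · rw [abs_zero]
        linarith [hp.one_le_hh m]
  obtain ⟨φ, hφ, hφF⟩ := h.ext F 1 zero_le_one hFL hF0
  have h1 : φ (xv δ n l) = Q / 4 := by
    simp only [xv, map_sum, map_smul, smul_eq_mul, hφF, hFpt, if_true, hco]
    have h2 := sum_single (ι := Fin (k n)) (R := R n) l
      (fun b => sm (R n) b * (1 / 2 * (Q / R n) * ((b : ℕ) : ℝ)))
    rw [h2]
    have h3 : ∑ b : Fin (2 * R n), sm (R n) b * (1 / 2 * (Q / R n) * ((b : ℕ) : ℝ)) =
        1 / 2 * (Q / R n) * (R n : ℝ) ^ 2 := by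
      rw [← sum_sm_mul, Finset.mul_sum]
      exact Finset.sum_congr rfl fun b _ => by ring
    rw [h3, Fintype.card_fin]
    have hk0 : 0 < k n := l.pos
    obtain ⟨c, hc⟩ := Nat.exists_eq_succ_of_ne_zero hk0.ne'
    rw [hc, Nat.succ_eq_add_one, Nat.add_sub_cancel, pow_succ]
    have : (2 * (R n : ℝ)) ^ c ≠ 0 := by positivity
    field_simp
    ring
  have h4 := φ.le_of_opNorm_le hφ (xv δ n l)
  rw [h1, one_mul, Real.norm_eq_abs] at h4
  exact (le_abs_self _).trans h4

open Classical in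
/-- The key inequality: copies of a piece in the free space force a relation of the parameters. -/
theorem main_ineq (hp : Par R a) (h : IsFree δ) (n : ℕ) (hkn : 1 ≤ k n) {β : ℝ} (hβ0 : 0 < β)
    (hβ1 : β < 1) (ha : ∀ m, n < m → a m ≤ β)
    (hk : (k n : ℝ) * (R n : ℝ) ^ a n ≤ (R n : ℝ) ^ 2)
    (S : ℕ → (X →L[ℝ] X)) {C : ℝ} (hC : 0 < C) (hS : ∀ j x, ‖S j x‖ ≤ C * ‖x‖)
    (hS2 : ∀ i j, i ≠ j → ∀ x, ‖x‖ ≤ C * ‖S i x - S j x‖) :
    (k n : ℝ) * ((R n : ℝ) ^ a n / (8 * C) - 1) ≤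
      LL β * (k n : ℝ) ^ ((1 + β) / 2) * (6 * C * R n) := by
  have : Nonempty (Fin (k n)) := ⟨⟨0, hkn⟩⟩
  set Q : ℝ := (R n : ℝ) ^ a n with hQdef
  set Λ : ℝ := LL β * (k n : ℝ) ^ ((1 + β) / 2) with hΛ
  have hLL := LL_pos hβ0 hβ1
  have hΛ0 : 0 ≤ Λ := by positivity
  -- indicator functionals
  have hind : ∀ p : Σ n, PP (k n) (R n), ∃ φ : X →L[ℝ] ℝ, ‖φ‖ ≤ 1 ∧
      ∀ x : MM k R a, φ (δ x) = if x = pt a p.1 p.2 then 1 else 0 := by
    intro p
    refine h.ext (fun x => if x = pt a p.1 p.2 then 1 else 0) 1 zero_le_one (fun x y => ?_) ?_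
    · rw [one_mul]
      by_cases hxy : x = y
      · subst hxy
        rw [sub_self, abs_zero, hp.dM_self]
      · refine le_trans ?_ (hp.one_le_dM hxy)
        split_ifs <;> simp
    · exact if_neg (by intro h1; cases h1)
  choose e he1 he2 using hind
  set S0 : Finset (Σ n, PP (k n) (R n)) :=
    (Finset.range (n + 1)).sigma fun m => (univ : Finset (PP (k m) (R m))) with hS0
  have hmemS0 : ∀ m (y : PP (k m) (R m)), (⟨m, y⟩ : Σ n, PP (k n) (R n)) ∈ S0 ↔ m ≤ n := by
    intro m y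
    rw [hS0, Finset.mem_sigma, Finset.mem_range, Nat.lt_succ_iff]
    simp
  set W : ℝ := ∑ p ∈ S0, hh R a p.1 with hW
  have hW0 : 0 ≤ W := Finset.sum_nonneg fun p _ => by linarith [hp.one_le_hh p.1]
  -- two copies which are close on the finite part
  obtain ⟨i, j, hij, hclose⟩ := pigeon (κ := S0 × Fin (k n))
    (fun j q => e q.1 (S j (xv δ n q.2))) (C * ∑ l, ‖xv δ n l‖) (by
      rintro j ⟨p, l⟩
      have h1 := (e p.1).le_of_opNorm_le (he1 p.1) (S j (xv δ n l))
      rw [one_mul, Real.norm_eq_abs] at h1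
      refine h1.trans ((hS j _).trans ?_)
      refine mul_le_mul_of_nonneg_left ?_ hC.le
      exact Finset.single_le_sum (f := fun l => ‖xv δ n l‖) (fun _ _ => norm_nonneg _)
        (Finset.mem_univ l)) (η := 1 / (W + 1)) (by positivity)
  set z : Fin (k n) → X := fun l => S i (xv δ n l) - S j (xv δ n l) with hz
  have hzlow : ∀ l, Q / (4 * C) ≤ ‖z l‖ := by
    intro l
    have h1 := xv_lower h hp n l
    have h2 := hS2 i j hij (xv δ n l)
    rw [div_le_iff₀ (by positivity)]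
    have h3 : Q / 4 ≤ C * ‖z l‖ := h1.trans h2
    linarith
  have hzup : ∀ ε : Fin (k n) → Bool, ‖∑ l, sg (ε l) • z l‖ ≤ 6 * C * R n := by
    intro ε
    have h1 : ∑ l, sg (ε l) • z l = S i (∑ l, sg (ε l) • xv δ n l) -
        S j (∑ l, sg (ε l) • xv δ n l) := by
      simp only [hz, map_sum, map_smul, smul_sub, Finset.sum_sub_distrib]
    have h2 := xv_upper h hp n hk ε
    have h3 := hS i (∑ l, sg (ε l) • xv δ n l)
    have h4 := hS j (∑ l, sg (ε l) • xv δ n l)
    have h5 : C * ‖∑ l, sg (ε l) • xv δ n l‖ ≤ C * (3 * R n) :=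
      mul_le_mul_of_nonneg_left h2 hC.le
    rw [h1]
    refine (norm_sub_le _ _).trans ?_
    linarith
  choose φ hφ1 hφ2 using fun l => exists_dual_vector'' ℝ (z l)
  have hFlip : ∀ l x y, |φ l (δ x) - φ l (δ y)| ≤ dM x y := fun l x y => h.dual_lip (hφ1 l) x y
  -- the functions on the pieces
  have hH : ∀ m, ∃ H : (Fin (k n) → Bool) → Option (PP (k m) (R m)) → ℝ,
      (∀ ε, H ε none = 0) ∧ (∀ ε u v, |H ε u - H ε v| ≤ Λ * dO (a m) u v) ∧
      (n < m → ∀ l u v, |(φ l (δ (em a m u)) -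
        (2 ^ k n)⁻¹ * ∑ ε : Fin (k n) → Bool, sg (ε l) * H ε u) -
        (φ l (δ (em a m v)) - (2 ^ k n)⁻¹ * ∑ ε : Fin (k n) → Bool, sg (ε l) * H ε v)| ≤
          1 / 2 * dO (a m) u v) ∧ (¬ n < m → ∀ ε u, H ε u = 0) := by
    intro m
    by_cases hnm : n < m
    · obtain ⟨H, h1, h2, h3⟩ := signs (N := Option (PP (k m) (R m))) hβ0 hβ1
        (isMet_dO (hp.hR m) (div_pos (hp.ha0 m) hβ0) ((div_le_one hβ0).2 (ha m hnm)))
        (fun l u => φ l (δ (em a m u))) (by
          intro l u v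
          rw [dO_rpow hβ0, ← dM_em]
          exact hFlip l _ _) none (by
          intro l
          change φ l (δ (bp k R a)) = 0
          rw [h.base, map_zero])
      rw [Fintype.card_fin] at h2
      simp only [Fintype.card_fin] at h3
      refine ⟨H, h1, fun ε u v => ?_, fun _ l u v => ?_, fun h4 => absurd hnm h4⟩
      · have := h2 ε u v
        rwa [dO_rpow hβ0] at this
      · have := h3 l u v
        rwa [dO_rpow hβ0] at this
    · refine ⟨fun _ _ => 0, fun _ => rfl, fun ε u v => ?_, fun h4 => absurd h4 hnm,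
        fun _ _ _ => rfl⟩
      rw [sub_self, abs_zero, ← dM_em]
      have : 0 ≤ dM (em a m u) (em a m v) := by
        by_cases huv : em a m u = em a m v
        · rw [huv, hp.dM_self]
        · linarith [hp.one_le_dM huv]
      positivity
  choose H hH1 hH2 hH3 hH4 using hH
  let Hx : (Fin (k n) → Bool) → MM k R a → ℝ := fun ε x => match x with
    | none => 0
    | some p => H p.1 ε (some p.2)
  have hHx0 : ∀ ε, Hx ε (bp k R a) = 0 := fun _ => rfl
  have hHxpt : ∀ ε m y, Hx ε (pt a m y) = H m ε (some y) := fun _ _ _ => rfl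
  have hHxL : ∀ ε x y, |Hx ε x - Hx ε y| ≤ Λ * dM x y := by
    intro ε
    refine glue (Hx ε) (hHx0 ε) (fun m y z => ?_) fun m y => ?_
    · rw [hHxpt, hHxpt]
      exact hH2 m ε (some y) (some z)
    · rw [hHxpt]
      have h1 := hH2 m ε (some y) none
      rw [hH1, sub_zero] at h1
      exact h1
  choose Ψ hΨ1 hΨ2 using fun ε => h.ext (Hx ε) Λ hΛ0 (hHxL ε) (hHx0 ε)
  set Γ : Fin (k n) → (X →L[ℝ] ℝ) := fun l =>
    ((2 : ℝ) ^ k n)⁻¹ • ∑ ε : Fin (k n) → Bool, sg (ε l) • Ψ ε with hΓ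
  set φ0 : Fin (k n) → (X →L[ℝ] ℝ) := fun l => ∑ p ∈ S0, φ l (δ (pt a p.1 p.2)) • e p with hφ0
  have hΓapp : ∀ l v, Γ l v = (2 ^ k n)⁻¹ * ∑ ε : Fin (k n) → Bool, sg (ε l) * Ψ ε v := by
    intro l v
    simp [hΓ]
  have hφ0app : ∀ l v, φ0 l v = ∑ p ∈ S0, φ l (δ (pt a p.1 p.2)) * e p v := by
    intro l v
    simp [hφ0]
  have hθ : ∀ l, ‖φ l - φ0 l - Γ l‖ ≤ 1 / 2 := by
    intro l
    refine h.norm_le _ (by norm_num) ?_
    have hθ0 : (φ l - φ0 l - Γ l) (δ (bp k R a)) = 0 := by rw [h.base, map_zero]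
    have hθpt : ∀ m y, (φ l - φ0 l - Γ l) (δ (pt a m y)) =
        φ l (δ (pt a m y)) - (if m ≤ n then φ l (δ (pt a m y)) else 0) -
          (2 ^ k n)⁻¹ * ∑ ε : Fin (k n) → Bool, sg (ε l) * H m ε (some y) := by
      intro m y
      change φ l (δ (pt a m y)) - φ0 l (δ (pt a m y)) - Γ l (δ (pt a m y)) = _
      rw [hΓapp, hφ0app]
      have h1 : ∑ p ∈ S0, φ l (δ (pt a p.1 p.2)) * e p (δ (pt a m y)) =
          if m ≤ n then φ l (δ (pt a m y)) else 0 := by
        have h2 : ∀ p ∈ S0, φ l (δ (pt a p.1 p.2)) * e p (δ (pt a m y)) =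
            if (⟨m, y⟩ : Σ n, PP (k n) (R n)) = p then φ l (δ (pt a m y)) else 0 := by
          intro p _
          rw [he2]
          by_cases hpe : (⟨m, y⟩ : Σ n, PP (k n) (R n)) = p
          · subst hpe
            rw [if_pos rfl, if_pos rfl, mul_one]
          · have h3 : pt a m y ≠ pt a p.1 p.2 := fun h3 => hpe (Option.some_injective _ h3)
            rw [if_neg hpe, if_neg h3, mul_zero]
        rw [Finset.sum_congr rfl h2, Finset.sum_ite_eq]
        simp only [hmemS0]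
      rw [h1]
      simp only [hΨ2, hHxpt]
    refine glue (fun x => (φ l - φ0 l - Γ l) (δ x)) hθ0 (fun m y w => ?_) fun m y => ?_
    · simp only [hθpt]
      by_cases hnm : n < m
      · rw [if_neg (by omega), if_neg (by omega), sub_zero, sub_zero]
        exact hH3 m hnm l (some y) (some w)
      · rw [if_pos (by omega), if_pos (by omega)]
        simp only [hH4 m hnm, mul_zero, Finset.sum_const_zero, sub_self, abs_zero]
        have := Real.rpow_nonneg (ee_nonneg y w) (a m)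
        positivity
    · simp only [hθpt]
      by_cases hnm : n < m
      · rw [if_neg (by omega), sub_zero]
        have h1 := hH3 m hnm l (some y) none
        have h2 : φ l (δ (em a m (none : Option (PP (k m) (R m))))) = 0 := by
          change φ l (δ (bp k R a)) = 0
          rw [h.base, map_zero]
        rw [h2] at h1
        simp only [hH1, mul_zero, Finset.sum_const_zero, sub_zero] at h1
        exact h1
      · rw [if_pos (by omega)]
        simp only [hH4 m hnm, mul_zero, Finset.sum_const_zero, sub_self, abs_zero]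
        have := hp.one_le_hh m
        positivity
  have hφ0z : ∀ l, |φ0 l (z l)| ≤ 1 := by
    intro l
    rw [hφ0app]
    have h1 : ∀ p ∈ S0, |φ l (δ (pt a p.1 p.2)) * e p (z l)| ≤ hh R a p.1 * (1 / (W + 1)) := by
      intro p hpS
      rw [abs_mul]
      have h2 : |φ l (δ (pt a p.1 p.2))| ≤ hh R a p.1 := by
        have h3 := hFlip l (pt a p.1 p.2) (bp k R a)
        rw [h.base, map_zero, sub_zero] at h3
        exact h3
      have h4 : |e p (z l)| ≤ 1 / (W + 1) := by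
        have h5 := hclose (⟨p, hpS⟩, l)
        simp only [hz, map_sub]
        exact h5
      have h6 : 0 ≤ hh R a p.1 := by linarith [hp.one_le_hh p.1]
      gcongr
    refine (Finset.abs_sum_le_sum_abs _ _).trans ((Finset.sum_le_sum h1).trans ?_)
    rw [← Finset.sum_mul, ← hW, mul_one_div, div_le_one (by positivity)]
    linarith
  have hstep : ∀ l, 1 / 2 * ‖z l‖ - 1 ≤ Γ l (z l) := by
    intro l
    have h1 : φ l (z l) = φ0 l (z l) + Γ l (z l) + (φ l - φ0 l - Γ l) (z l) := by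
      change _ = φ0 l (z l) + Γ l (z l) + (φ l (z l) - φ0 l (z l) - Γ l (z l))
      ring
    have h2 : φ l (z l) = ‖z l‖ := by
      rw [hφ2]
      simp
    have h3 := (φ l - φ0 l - Γ l).le_of_opNorm_le (hθ l) (z l)
    rw [Real.norm_eq_abs] at h3
    have h4 := (abs_le.1 h3).2
    have h5 := (abs_le.1 (hφ0z l)).2
    linarith
  have hsum : ∑ l, Γ l (z l) ≤ Λ * (6 * C * R n) := by
    have h1 : ∑ l, Γ l (z l) = (2 ^ k n)⁻¹ * ∑ ε : Fin (k n) → Bool,
        Ψ ε (∑ l, sg (ε l) • z l) := by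
      simp only [hΓapp, map_sum, map_smul, smul_eq_mul]
      rw [← Finset.mul_sum, Finset.sum_comm]
    rw [h1, inv_mul_le_iff₀ (by positivity)]
    have h2 : ∀ ε ∈ (univ : Finset (Fin (k n) → Bool)), Ψ ε (∑ l, sg (ε l) • z l) ≤
        Λ * (6 * C * R n) := by
      intro ε _
      have h3 := (Ψ ε).le_of_opNorm_le (hΨ1 ε) (∑ l, sg (ε l) • z l)
      rw [Real.norm_eq_abs] at h3
      refine (le_abs_self _).trans (h3.trans ?_)
      exact mul_le_mul_of_nonneg_left (hzup ε) hΛ0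
    refine (Finset.sum_le_sum h2).trans (le_of_eq ?_)
    rw [Finset.sum_const, Finset.card_univ, nsmul_eq_mul]
    congr 1
    rw [Fintype.card_fun, Fintype.card_bool, Fintype.card_fin]
    push_cast
    rfl
  calc (k n : ℝ) * (Q / (8 * C) - 1) = ∑ _l : Fin (k n), (1 / 2 * (Q / (4 * C)) - 1) := by
        rw [Finset.sum_const, Finset.card_univ, Fintype.card_fin, nsmul_eq_mul]
        have : C ≠ 0 := hC.ne'
        field_simp
        ring
    _ ≤ ∑ l, (1 / 2 * ‖z l‖ - 1) := Finset.sum_le_sum fun l _ => by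
        have := hzlow l
        linarith
    _ ≤ ∑ l, Γ l (z l) := Finset.sum_le_sum fun l _ => hstep l
    _ ≤ Λ * (6 * C * R n) := hsum

end Main

end Pool.Agent.W693.LF
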